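import Mathlib
import Pool.Agent.H5.FM.Join
import Pool.Agent.H5.FM.Iface
import Pool.Agent.H57.W.KAcc

set_option autoImplicit false
open Set

/-! # Diamond polygons in the frame of the domain (W-F, T6)

`DD S e z1` is the image in the domain frame of the open region of a set `S` of cells of the tile
frame; the cell `(p, q)` becomes the diamond with the centre `e (p - q, p + q + 1) + z1`. -/

namespace Pool.Agent.H19.W

open Pool.Agent.Q1.M4 (Cell rect Reg Om mem_Om)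
open Pool.Agent.H5.FM

/-- region of the domain frame -/
def DD (S : Finset Cell) (e : ℝ) (z1 : ℂ) : Set ℂ :=
  T0 e z1 '' Om S (fun i : ℤ => (i : ℝ)) (fun i : ℤ => (i : ℝ))

/-- the closed diamond of a cell -/
def InD (e : ℝ) (z1 : ℂ) (c : Cell) (w : ℂ) : Prop :=
  |(w.re - z1.re) - e * (c.1 - c.2)| + |(w.im - z1.im) - e * (c.1 + c.2 + 1)| ≤ e

/-- the centre of the diamond -/
noncomputable def dc (e : ℝ) (z1 : ℂ) (c : Cell) : ℂ :=
  ⟨e * (c.1 - c.2) + z1.re, e * (c.1 + c.2 + 1) + z1.im⟩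

variable {e : ℝ} {z1 : ℂ} {S : Finset Cell}

lemma T0_re (z : ℂ) : (T0 e z1 z).re = e * (z.re - z.im) + z1.re := by
  simp only [T0, Complex.add_im, Complex.mul_im, Complex.mul_re, Complex.ofReal_re,
    Complex.ofReal_im, Complex.add_re, Complex.one_re, Complex.one_im, Complex.I_re, Complex.I_im]
  ring

lemma T0_im (z : ℂ) : (T0 e z1 z).im = e * (z.re + z.im) + z1.im := by
  simp only [T0, Complex.add_im, Complex.mul_im, Complex.mul_re, Complex.ofReal_re,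
    Complex.ofReal_im, Complex.add_re, Complex.one_re, Complex.one_im, Complex.I_re, Complex.I_im]
  ring

/-- the inverse map -/
noncomputable def T0i (e : ℝ) (z1 : ℂ) (w : ℂ) : ℂ :=
  ⟨((w.re - z1.re) / e + (w.im - z1.im) / e) / 2, ((w.im - z1.im) / e - (w.re - z1.re) / e) / 2⟩

lemma T0_T0i (he : 0 < e) (w : ℂ) : T0 e z1 (T0i e z1 w) = w := by
  apply Complex.ext
  · rw [T0_re]; unfold T0i; simp only; field_simp; ring
  · rw [T0_im]; unfold T0i; simp only; field_simp; ring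

lemma T0i_T0 (he : 0 < e) (z : ℂ) : T0i e z1 (T0 e z1 z) = z := by
  unfold T0i
  rw [T0_re, T0_im]
  apply Complex.ext
  · simp only; field_simp; ring
  · simp only; field_simp; ring

lemma inD_T0 (he : 0 < e) (c : Cell) (z : ℂ) : InD e z1 c (T0 e z1 z) ↔
    z ∈ rect (fun i : ℤ => (i : ℝ)) (fun i : ℤ => (i : ℝ)) c := by
  unfold InD
  rw [T0_re, T0_im, Pool.Agent.Q1.M4.mem_rect]
  have e1 : e * (z.re - z.im) + z1.re - z1.re - e * ((c.1 : ℝ) - c.2) =
      e * ((z.re - z.im) - (c.1 - c.2)) := by ring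
  have e2 : e * (z.re + z.im) + z1.im - z1.im - e * ((c.1 : ℝ) + c.2 + 1) =
      e * ((z.re + z.im) - (c.1 + c.2 + 1)) := by ring
  rw [e1, e2, abs_mul, abs_mul, abs_of_pos he, ← mul_add, mul_le_iff_le_one_right he]
  push_cast
  constructor
  · intro h
    have a1 := le_abs_self ((z.re - z.im) - ((c.1 : ℝ) - c.2))
    have a2 := neg_abs_le ((z.re - z.im) - ((c.1 : ℝ) - c.2))
    have a3 := le_abs_self ((z.re + z.im) - ((c.1 : ℝ) + c.2 + 1))
    have a4 := neg_abs_le ((z.re + z.im) - ((c.1 : ℝ) + c.2 + 1))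
    refine ⟨⟨?_, ?_⟩, ?_, ?_⟩ <;> linarith
  · rintro ⟨⟨h1, h2⟩, h3, h4⟩
    rcases abs_cases ((z.re - z.im) - ((c.1 : ℝ) - c.2)) with ⟨a, -⟩ | ⟨a, -⟩ <;>
      rcases abs_cases ((z.re + z.im) - ((c.1 : ℝ) + c.2 + 1)) with ⟨b, -⟩ | ⟨b, -⟩ <;>
      rw [a, b] <;> linarith

/-- every point is in a diamond -/
lemma exists_inD (he : 0 < e) (w : ℂ) : ∃ c, InD e z1 c w := by
  obtain ⟨c, hc⟩ := exists_rect one_pos (T0i e z1 w)
  refine ⟨c, ?_⟩
  rw [← T0_T0i he w (z1 := z1), inD_T0 he]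
  have e1 : (gr 1 : ℤ → ℝ) = fun i : ℤ => (i : ℝ) := by
    funext i; unfold gr; rw [one_mul]
  rwa [e1] at hc

lemma ic_mono : StrictMono (fun i : ℤ => (i : ℝ)) := Int.cast_strictMono

/-- membership in the region -/
lemma mem_DD (he : 0 < e) {w : ℂ} : w ∈ DD S e z1 ↔ ∀ c, InD e z1 c w → c ∈ S := by
  constructor
  · rintro ⟨z, hz, rfl⟩ c hc
    rw [inD_T0 he] at hc
    exact ((mem_Om ic_mono ic_mono).1 hz).2 c hc
  · intro h
    refine ⟨T0i e z1 w, ?_, T0_T0i he w⟩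
    have key : ∀ c : Cell, T0i e z1 w ∈ rect (fun i : ℤ => (i : ℝ)) (fun i : ℤ => (i : ℝ)) c →
        c ∈ S := by
      intro c hc
      rw [← inD_T0 (z1 := z1) he, T0_T0i he] at hc
      exact h c hc
    obtain ⟨c, hc⟩ := exists_inD (z1 := z1) he w
    rw [mem_Om ic_mono ic_mono]
    refine ⟨⟨c, h c hc, ?_⟩, key⟩
    rwa [← inD_T0 (z1 := z1) he, T0_T0i he]

lemma dc_re (c : Cell) : (dc e z1 c).re = e * (c.1 - c.2) + z1.re := rfl
lemma dc_im (c : Cell) : (dc e z1 c).im = e * (c.1 + c.2 + 1) + z1.im := rfl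

/-- a box of diamonds of the region -/
def Bxd (S : Finset Cell) (i0 i1 j0 j1 : ℤ) : Prop :=
  ∀ c : Cell, i0 ≤ c.1 - c.2 → c.1 - c.2 ≤ i1 → j0 ≤ c.1 + c.2 + 1 → c.1 + c.2 + 1 ≤ j1 → c ∈ S

/-- the open rectangle of a box -/
def Rct (e : ℝ) (z1 : ℂ) (i0 i1 j0 j1 : ℤ) : Set ℂ :=
  {w | (e * i0 + z1.re < w.re ∧ w.re < e * i1 + z1.re) ∧
    (e * j0 + z1.im < w.im ∧ w.im < e * j1 + z1.im)}

lemma Rct_sub (he : 0 < e) {i0 i1 j0 j1 : ℤ} (H : Bxd S i0 i1 j0 j1) :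
    Rct e z1 i0 i1 j0 j1 ⊆ DD S e z1 := by
  rintro w ⟨⟨h1, h2⟩, h3, h4⟩
  rw [mem_DD he]
  intro c hc
  unfold InD at hc
  have a1 := le_abs_self ((w.re - z1.re) - e * ((c.1 : ℝ) - c.2))
  have a2 := neg_abs_le ((w.re - z1.re) - e * ((c.1 : ℝ) - c.2))
  have a3 := le_abs_self ((w.im - z1.im) - e * ((c.1 : ℝ) + c.2 + 1))
  have a4 := neg_abs_le ((w.im - z1.im) - e * ((c.1 : ℝ) + c.2 + 1))
  have n1 := abs_nonneg ((w.re - z1.re) - e * ((c.1 : ℝ) - c.2))
  have n2 := abs_nonneg ((w.im - z1.im) - e * ((c.1 : ℝ) + c.2 + 1))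
  have b1 : (i0 : ℝ) < (c.1 - c.2) + 1 := lt_of_mul_lt_mul_left (by linarith) he.le
  have b2 : ((c.1 : ℝ) - c.2) - 1 < i1 := lt_of_mul_lt_mul_left (by linarith) he.le
  have b3 : (j0 : ℝ) < (c.1 + c.2 + 1) + 1 := lt_of_mul_lt_mul_left (by linarith) he.le
  have b4 : ((c.1 : ℝ) + c.2 + 1) - 1 < j1 := lt_of_mul_lt_mul_left (by linarith) he.le
  have c1 : i0 < (c.1 - c.2) + 1 := by exact_mod_cast b1
  have c2 : (c.1 - c.2) - 1 < i1 := by exact_mod_cast b2
  have c3 : j0 < (c.1 + c.2 + 1) + 1 := by exact_mod_cast b3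
  have c4 : (c.1 + c.2 + 1) - 1 < j1 := by exact_mod_cast b4
  exact H c (by omega) (by omega) (by omega) (by omega)

lemma Rct_convex (i0 i1 j0 j1 : ℤ) : Convex ℝ (Rct e z1 i0 i1 j0 j1) := convex_box _ _ _ _

/-- inside the open rectangle -/
lemma join_rct (he : 0 < e) {i0 i1 j0 j1 : ℤ} (H : Bxd S i0 i1 j0 j1) {z w p : ℂ} {ρ : ℝ}
    (hz : z ∈ Rct e z1 i0 i1 j0 j1) (hw : w ∈ Rct e z1 i0 i1 j0 j1) (bz : z ∈ Metric.ball p ρ)
    (bw : w ∈ Metric.ball p ρ) : JoinedIn (DD S e z1 ∩ Metric.ball p ρ) z w := by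
  apply JoinedIn.of_segment_subset
  intro u hu
  exact ⟨Rct_sub he H ((Rct_convex _ _ _ _).segment_subset hz hw hu),
    (convex_ball p ρ).segment_subset bz bw hu⟩

lemma abs_conv {a b x y t : ℝ} (ha : 0 < a) (hb : 0 < b) (hab : a + b = 1)
    (h : |x| + |y| ≤ t) (ht : 0 < t) : |a * x + b * 0| + |a * y + b * 0| < t := by
  rw [mul_zero, add_zero, add_zero, abs_mul, abs_mul, abs_of_pos ha, ← mul_add]
  have : a * (|x| + |y|) ≤ a * t := mul_le_mul_of_nonneg_left h ha.le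
  nlinarith

/-- A point closer than `e` (in the `ℓ1` norm) to a centre is in one diamond only. -/
lemma inD_uniq (he : 0 < e) {c d : Cell} {w : ℂ}
    (h : |(w.re - z1.re) - e * (c.1 - c.2)| + |(w.im - z1.im) - e * (c.1 + c.2 + 1)| < e)
    (hd : InD e z1 d w) : d = c := by
  unfold InD at hd
  have a1 := le_abs_self ((w.re - z1.re) - e * ((c.1 : ℝ) - c.2))
  have a2 := neg_abs_le ((w.re - z1.re) - e * ((c.1 : ℝ) - c.2))
  have a3 := le_abs_self ((w.im - z1.im) - e * ((c.1 : ℝ) + c.2 + 1))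
  have a4 := neg_abs_le ((w.im - z1.im) - e * ((c.1 : ℝ) + c.2 + 1))
  have b1 := le_abs_self ((w.re - z1.re) - e * ((d.1 : ℝ) - d.2))
  have b2 := neg_abs_le ((w.re - z1.re) - e * ((d.1 : ℝ) - d.2))
  have b3 := le_abs_self ((w.im - z1.im) - e * ((d.1 : ℝ) + d.2 + 1))
  have b4 := neg_abs_le ((w.im - z1.im) - e * ((d.1 : ℝ) + d.2 + 1))
  have c1 : (d.1 : ℝ) < c.1 + 1 := lt_of_mul_lt_mul_left (by linarith) he.le
  have c2 : (c.1 : ℝ) < d.1 + 1 := lt_of_mul_lt_mul_left (by linarith) he.le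
  have c3 : (d.2 : ℝ) < c.2 + 1 := lt_of_mul_lt_mul_left (by linarith) he.le
  have c4 : (c.2 : ℝ) < d.2 + 1 := lt_of_mul_lt_mul_left (by linarith) he.le
  have d1 : d.1 < c.1 + 1 := by exact_mod_cast c1
  have d2 : c.1 < d.1 + 1 := by exact_mod_cast c2
  have d3 : d.2 < c.2 + 1 := by exact_mod_cast c3
  have d4 : c.2 < d.2 + 1 := by exact_mod_cast c4
  exact Prod.ext (by omega) (by omega)

/-- from a point of the region to the centre of its diamond -/
lemma join_dc (he : 0 < e) {c : Cell} (hc : c ∈ S) {z p : ℂ} {ρ : ℝ} (hz : z ∈ DD S e z1)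
    (hD : InD e z1 c z) (bz : z ∈ Metric.ball p ρ) (bc : dc e z1 c ∈ Metric.ball p ρ) :
    JoinedIn (DD S e z1 ∩ Metric.ball p ρ) z (dc e z1 c) := by
  apply JoinedIn.of_segment_subset
  intro u hu
  refine ⟨?_, (convex_ball p ρ).segment_subset bz bc hu⟩
  obtain ⟨a, b, ha, hb, hab, rfl⟩ := hu
  rcases eq_or_lt_of_le hb with e1 | e1
  · have : a = 1 := by linarith
    rw [← e1, this]
    simpa using hz
  · rw [mem_DD he]
    intro d hd
    have : d = c := by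
      refine inD_uniq he ?_ hd
      have hA : b = 1 - a := by linarith
      simp only [Complex.add_re, Complex.smul_re, Complex.add_im, Complex.smul_im, smul_eq_mul,
        dc_re, dc_im]
      have q1 : a * z.re + b * (e * (↑c.1 - ↑c.2) + z1.re) - z1.re - e * (↑c.1 - ↑c.2) =
          a * ((z.re - z1.re) - e * (c.1 - c.2)) := by rw [hA]; ring
      have q2 : a * z.im + b * (e * (↑c.1 + ↑c.2 + 1) + z1.im) - z1.im - e * (↑c.1 + ↑c.2 + 1) =
          a * ((z.im - z1.im) - e * (c.1 + c.2 + 1)) := by rw [hA]; ring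
      rw [q1, q2, abs_mul, abs_mul, abs_of_nonneg ha, ← mul_add]
      unfold InD at hD
      have h1 := mul_le_mul_of_nonneg_left hD ha
      nlinarith
    rw [this]; exact hc

/-- from the centre of a diamond of a box to the open rectangle -/
lemma join_in (he : 0 < e) {i0 i1 j0 j1 : ℤ} (H : Bxd S i0 i1 j0 j1) {c : Cell}
    (h1 : i0 ≤ c.1 - c.2) (h2 : c.1 - c.2 ≤ i1) (h3 : j0 ≤ c.1 + c.2 + 1)
    (h4 : c.1 + c.2 + 1 ≤ j1) {w p : ℂ} {ρ : ℝ} (hw : w ∈ Rct e z1 i0 i1 j0 j1)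
    (bw : w ∈ Metric.ball p ρ) (bc : dc e z1 c ∈ Metric.ball p ρ) :
    JoinedIn (DD S e z1 ∩ Metric.ball p ρ) (dc e z1 c) w := by
  apply JoinedIn.of_segment_subset
  intro u hu
  refine ⟨?_, (convex_ball p ρ).segment_subset bc bw hu⟩
  obtain ⟨a, b, ha, hb, hab, rfl⟩ := hu
  obtain ⟨⟨w1, w2⟩, w3, w4⟩ := hw
  rcases eq_or_lt_of_le hb with e1 | e1
  · have ha1 : a = 1 := by linarith
    rw [← e1, ha1, mem_DD he]
    intro d hd
    have : d = c := by
      refine inD_uniq he ?_ hd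
      simp only [Complex.add_re, Complex.smul_re, Complex.add_im, Complex.smul_im, smul_eq_mul,
        dc_re, dc_im]
      have q1 : 1 * (e * ((c.1 : ℝ) - ↑c.2) + z1.re) + 0 * w.re - z1.re - e * (↑c.1 - ↑c.2) = 0 := by
        ring
      have q2 : 1 * (e * ((c.1 : ℝ) + ↑c.2 + 1) + z1.im) + 0 * w.im - z1.im -
          e * (↑c.1 + ↑c.2 + 1) = 0 := by ring
      rw [q1, q2, abs_zero, add_zero]
      exact he
    rw [this]; exact H c h1 h2 h3 h4
  · apply Rct_sub he H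
    have hA : a = 1 - b := by linarith
    have r1 : (i0 : ℝ) ≤ c.1 - c.2 := by exact_mod_cast h1
    have r2 : (c.1 : ℝ) - c.2 ≤ i1 := by exact_mod_cast h2
    have r3 : (j0 : ℝ) ≤ c.1 + c.2 + 1 := by exact_mod_cast h3
    have r4 : (c.1 : ℝ) + c.2 + 1 ≤ j1 := by exact_mod_cast h4
    have s1 := mul_le_mul_of_nonneg_left (mul_le_mul_of_nonneg_left r1 he.le) ha
    have s2 := mul_le_mul_of_nonneg_left (mul_le_mul_of_nonneg_left r2 he.le) ha
    have s3 := mul_le_mul_of_nonneg_left (mul_le_mul_of_nonneg_left r3 he.le) ha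
    have s4 := mul_le_mul_of_nonneg_left (mul_le_mul_of_nonneg_left r4 he.le) ha
    have t1 := mul_lt_mul_of_pos_left w1 e1
    have t2 := mul_lt_mul_of_pos_left w2 e1
    have t3 := mul_lt_mul_of_pos_left w3 e1
    have t4 := mul_lt_mul_of_pos_left w4 e1
    rw [hA] at s1 s2 s3 s4
    refine ⟨⟨?_, ?_⟩, ?_, ?_⟩
    all_goals
      simp only [Complex.add_re, Complex.smul_re, Complex.add_im, Complex.smul_im, smul_eq_mul,
        dc_re, dc_im, hA]
      nlinarith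

/-- the centre is close -/
lemma dc_dist {c : Cell} {w : ℂ} (h : InD e z1 c w) : ‖w - dc e z1 c‖ ≤ e := by
  unfold InD at h
  have := Complex.norm_le_abs_re_add_abs_im (w - dc e z1 c)
  rw [Complex.sub_re, Complex.sub_im, dc_re, dc_im] at this
  have q1 : w.re - (e * ((c.1 : ℝ) - c.2) + z1.re) = (w.re - z1.re) - e * (c.1 - c.2) := by ring
  have q2 : w.im - (e * ((c.1 : ℝ) + c.2 + 1) + z1.im) =
      (w.im - z1.im) - e * (c.1 + c.2 + 1) := by ring
  rw [q1, q2] at this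
  linarith

end Pool.Agent.H19.W
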