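import Mathlib
import Pool.Agent.H5.C3.Defs

set_option autoImplicit false
open Set

/-! # One dimensional facts on the lines of the construction, and the inside cells (W-F, T6) -/

namespace Pool.Agent.H19.W

open Pool.Agent.Q1.M4 (Cell)
open Pool.Agent.H48.Q1 (fl fl_spec fl_eq fl_iff fl_step)
open Pool.Agent.H5.C3

/-! ### The cells of the doubled grid -/

section comb
variable {Q : Finset Cell} {o : Cell → ℤ → Prop}

/-- an inside cell is next to an inside bulk cell, through an inside cell -/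
lemma Mm_chain {α β : ℤ} (h : Mm Q o (α, β)) : ∃ i j : ℤ, (i, j) ∈ Q ∧
    (2 * i ≤ α ∧ α ≤ 2 * i + 2) ∧ (2 * j ≤ β ∧ β ≤ 2 * j + 2) ∧
    (Mm Q o (α, 2 * j + 1) ∨ Mm Q o (2 * i + 1, β)) := by
  obtain ⟨a, ha⟩ := Int.even_or_odd' α
  obtain ⟨b, hb⟩ := Int.even_or_odd' β
  rcases ha with rfl | rfl <;> rcases hb with rfl | rfl
  · rw [Mm_ee] at h
    rcases h with ⟨h1, h2, h3, h4⟩ | ⟨h1, h2, h3⟩ | ⟨h1, h2, h3⟩ | ⟨h1, h2, h3⟩ | ⟨h1, h2, h3⟩
    · refine ⟨a, b, h1, by omega, by omega, Or.inl ?_⟩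
      rw [Mm_eo]
      exact Or.inl ⟨h1, h2⟩
    · refine ⟨a, b, h1, by omega, by omega, Or.inr ?_⟩
      rw [Mm_oe]
      exact Or.inr (Or.inl ⟨h1, h2, h3⟩)
    · refine ⟨a - 1, b, h1, by omega, by omega, Or.inl ?_⟩
      rw [Mm_eo]
      exact Or.inr (Or.inl ⟨h1, h2, h3⟩)
    · refine ⟨a - 1, b - 1, h1, by omega, by omega, Or.inr ?_⟩
      rw [Mm_oe]
      exact Or.inr (Or.inr ⟨h1, h2, h3⟩)
    · refine ⟨a, b - 1, h1, by omega, by omega, Or.inl ?_⟩
      rw [Mm_eo]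
      exact Or.inr (Or.inr ⟨h1, h2, h3⟩)
  · have h' := h
    rw [Mm_eo] at h
    rcases h with ⟨h1, h2⟩ | ⟨h1, h2, h3⟩ | ⟨h1, h2, h3⟩
    · exact ⟨a, b, h1, by omega, by omega, Or.inl h'⟩
    · exact ⟨a - 1, b, h1, by omega, by omega, Or.inl h'⟩
    · exact ⟨a, b, h1, by omega, by omega, Or.inl h'⟩
  · have h' := h
    rw [Mm_oe] at h
    rcases h with ⟨h1, h2⟩ | ⟨h1, h2, h3⟩ | ⟨h1, h2, h3⟩
    · exact ⟨a, b, h1, by omega, by omega, Or.inr h'⟩
    · exact ⟨a, b, h1, by omega, by omega, Or.inr h'⟩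
    · exact ⟨a, b - 1, h1, by omega, by omega, Or.inr h'⟩
  · have h' := h
    rw [Mm_oo] at h
    exact ⟨a, b, h, by omega, by omega, Or.inl h'⟩

/-- a cell all of whose neighbouring bulk cells are in the polyomino is inside -/
lemma Mm_all {α β : ℤ} (H : ∀ i j : ℤ, 2 * i ≤ α → α ≤ 2 * i + 2 → 2 * j ≤ β → β ≤ 2 * j + 2 →
    (i, j) ∈ Q) : Mm Q o (α, β) := by
  obtain ⟨a, ha⟩ := Int.even_or_odd' α
  obtain ⟨b, hb⟩ := Int.even_or_odd' β
  rcases ha with rfl | rfl <;> rcases hb with rfl | rfl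
  · rw [Mm_ee]
    exact Or.inl ⟨H a b (by omega) (by omega) (by omega) (by omega),
      H (a - 1) b (by omega) (by omega) (by omega) (by omega),
      H (a - 1) (b - 1) (by omega) (by omega) (by omega) (by omega),
      H a (b - 1) (by omega) (by omega) (by omega) (by omega)⟩
  · rw [Mm_eo]
    exact Or.inl ⟨H a b (by omega) (by omega) (by omega) (by omega),
      H (a - 1) b (by omega) (by omega) (by omega) (by omega)⟩
  · rw [Mm_oe]
    exact Or.inl ⟨H a b (by omega) (by omega) (by omega) (by omega),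
      H a (b - 1) (by omega) (by omega) (by omega) (by omega)⟩
  · rw [Mm_oo]
    exact H a b (by omega) (by omega) (by omega) (by omega)

lemma mem_P5 (P : Pool.Agent.Q1.M4.PType) {i j : ℤ} :
    (i, j) ∈ (P5 P).Q ↔ (i / 5, j / 5) ∈ P.Q := by
  have e : (P5 P).Q = Pool.Agent.H48.Q1.ref m5 m5 P.Q := rfl
  rw [e, Pool.Agent.H48.Q1.mem_ref m5_mono m5_mono]
  have h : ∀ i : ℤ, fl m5 i = i / 5 := fun i =>
    fl_eq m5_mono (by unfold m5; omega) (by unfold m5; omega)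
  unfold Pool.Agent.H48.Q1.co
  rw [h, h]

end comb

/-! ### The lines -/

lemma l2_e (l : ℤ → ℝ) (τ : ℝ) (i : ℤ) : l2 l τ (2 * i) = l i - τ := by
  unfold l2
  rw [if_pos (by omega), show 2 * i / 2 = i by omega]

lemma l2_o (l : ℤ → ℝ) (τ : ℝ) (i : ℤ) : l2 l τ (2 * i + 1) = l i + τ := by
  unfold l2
  rw [if_neg (by omega), show (2 * i + 1) / 2 = i by omega]

lemma l2_e2 (l : ℤ → ℝ) (τ : ℝ) (i : ℤ) : l2 l τ (2 * i + 2) = l (i + 1) - τ := by
  rw [show 2 * i + 2 = 2 * (i + 1) by ring, l2_e]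

section l5
variable {x : ℤ → ℝ} {g κ : ℝ}

lemma l5_0 (x : ℤ → ℝ) (κ : ℝ) (a : ℤ) : l5 x κ (5 * a) = x a := by
  unfold l5
  rw [if_pos (by omega), show 5 * a / 5 = a by omega]

lemma l5_gap (hx : GapR x g) (hκ : 0 < κ) (hg : 5 * κ ≤ g) : GapR (l5 x κ) κ := by
  refine ⟨hκ, fun i => ?_⟩
  have h := hx.gap (i / 5)
  unfold l5
  rcases (show i % 5 = 0 ∨ i % 5 = 1 ∨ i % 5 = 2 ∨ i % 5 = 3 ∨ i % 5 = 4 by omega) with
    r | r | r | r | r
  · rw [if_pos r, if_neg (by omega), if_pos (by omega), show (i + 1) / 5 = i / 5 by omega]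
  · rw [if_neg (by omega), if_pos r, if_neg (by omega), if_neg (by omega), if_pos (by omega),
      show (i + 1) / 5 = i / 5 by omega]
    linarith
  · rw [if_neg (by omega), if_neg (by omega), if_pos r, if_neg (by omega), if_neg (by omega),
      if_neg (by omega), if_pos (by omega), show (i + 1) / 5 = i / 5 by omega]
    linarith
  · rw [if_neg (by omega), if_neg (by omega), if_neg (by omega), if_pos r, if_neg (by omega),
      if_neg (by omega), if_neg (by omega), if_neg (by omega), show (i + 1) / 5 = i / 5 by omega]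
    linarith
  · rw [if_neg (by omega), if_neg (by omega), if_neg (by omega), if_neg (by omega),
      if_pos (by omega), show (i + 1) / 5 = i / 5 + 1 by omega]
    linarith

lemma gapR_mono {l : ℤ → ℝ} {s : ℝ} (h : GapR l s) : StrictMono l :=
  strictMono_int_of_lt_succ fun a => by have := h.gap a; have := h.g0; linarith

/-- the refined lines stay in the old intervals -/
lemma l5_in (hx : GapR x g) (hκ : 0 < κ) (hg : 5 * κ ≤ g) (i : ℤ) :
    (x (i / 5) ≤ l5 x κ i ∧ l5 x κ i ≤ x (i / 5 + 1)) ∧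
    (x (i / 5) ≤ l5 x κ (i + 1) ∧ l5 x κ (i + 1) ≤ x (i / 5 + 1)) := by
  have m := (gapR_mono (l5_gap hx hκ hg)).monotone
  have e1 := l5_0 x κ (i / 5)
  have e2 := l5_0 x κ (i / 5 + 1)
  rw [← e1, ← e2]
  exact ⟨⟨m (by omega), m (by omega)⟩, m (by omega), m (by omega)⟩

end l5

/-! ### The integer lines -/

section lz
variable {l : ℤ → ℝ} {κ : ℝ} (hl : GapR l κ)

/-- the integer lines of the lines `l` -/
noncomputable def LZ (l : ℤ → ℝ) (κ : ℝ) : ℤ → ℤ := lz (l2 l (κ / 10)) (κ / 1000)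

lemma LX_eq (x : ℤ → ℝ) (κ : ℝ) : LX x κ = LZ (l5 x κ) κ := rfl

include hl

lemma LZ_bd (a : ℤ) : l2 l (κ / 10) a ≤ κ / 1000 * LZ l κ a ∧
    κ / 1000 * LZ l κ a < l2 l (κ / 10) a + κ / 1000 := by
  have hκ := hl.g0
  have he : 0 < κ / 1000 := by positivity
  have h1 := Int.le_ceil (l2 l (κ / 10) a / (κ / 1000))
  have h2 := Int.ceil_lt_add_one (l2 l (κ / 10) a / (κ / 1000))
  have e0 : κ / 1000 * (l2 l (κ / 10) a / (κ / 1000)) = l2 l (κ / 10) a :=
    mul_div_cancel₀ _ he.ne'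
  have g1 := mul_le_mul_of_nonneg_left h1 he.le
  have g2 := mul_lt_mul_of_pos_left h2 he
  rw [e0] at g1
  rw [mul_add, e0, mul_one] at g2
  exact ⟨g1, g2⟩

lemma l2_step (a : ℤ) : l2 l (κ / 10) a + κ / 5 ≤ l2 l (κ / 10) (a + 1) := by
  have hκ := hl.g0
  obtain ⟨i, hi⟩ := Int.even_or_odd' a
  rcases hi with rfl | rfl
  · rw [l2_e, l2_o]; linarith
  · rw [l2_o, show 2 * i + 1 + 1 = 2 * i + 2 by ring, l2_e2]
    have := hl.gap i
    linarith

lemma LZ_gap : Gap (LZ l κ) 16 := by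
  intro a
  have hκ := hl.g0
  have he : 0 < κ / 1000 := by positivity
  have h1 := (LZ_bd hl a).2
  have h2 := (LZ_bd hl (a + 1)).1
  have h3 := l2_step hl a
  have : ((LZ l κ a + 16 : ℤ) : ℝ) < (LZ l κ (a + 1) : ℤ) := by
    push_cast
    apply lt_of_mul_lt_mul_left _ he.le
    linarith
  have h4 : LZ l κ a + 16 < LZ l κ (a + 1) := by exact_mod_cast this
  omega

lemma LZ_mono : StrictMono (LZ l κ) := (LZ_gap hl).mono (by norm_num)

lemma LZ_thin (i : ℤ) : LZ l κ (2 * i + 1) ≤ LZ l κ (2 * i) + 201 := by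
  have hκ := hl.g0
  have he : 0 < κ / 1000 := by positivity
  have h1 := (LZ_bd hl (2 * i)).1
  have h2 := (LZ_bd hl (2 * i + 1)).2
  rw [l2_e] at h1
  rw [l2_o] at h2
  have : ((LZ l κ (2 * i + 1) : ℤ) : ℝ) < ((LZ l κ (2 * i) + 202 : ℤ) : ℝ) := by
    push_cast
    apply lt_of_mul_lt_mul_left _ he.le
    linarith
  have h4 : LZ l κ (2 * i + 1) < LZ l κ (2 * i) + 202 := by exact_mod_cast this
  omega

/-- a real point of the open fibre of `α'` close to the integer point `p` of the fibre of `α` -/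
lemma sel {p α α' : ℤ} (h : fl (LZ l κ) p = α)
    (h' : α = α' ∨ (α' % 2 = 1 ∧ α ≤ α' + 1 ∧ α' ≤ α + 1)) : ∃ t : ℝ,
    κ / 1000 * LZ l κ α' < t ∧ t < κ / 1000 * (LZ l κ (α' + 1) - 1) ∧
      |t - κ / 1000 * p| ≤ κ / 4 := by
  have hκ := hl.g0
  have he : 0 < κ / 1000 := by positivity
  have hm := LZ_mono hl
  obtain ⟨s1, s2⟩ := (fl_iff hm).1 h
  have g1 := LZ_gap hl α'
  by_cases hE : α = α'
  · subst hE
    rcases lt_or_ge p (LZ l κ (α + 1) - 1) with q | q
    · refine ⟨κ / 1000 * (p + 1 / 2), ?_, ?_, ?_⟩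
      · apply mul_lt_mul_of_pos_left _ he
        have : (LZ l κ α : ℝ) ≤ p := by exact_mod_cast s1
        linarith
      · apply mul_lt_mul_of_pos_left _ he
        have : (p : ℝ) + 1 ≤ LZ l κ (α + 1) - 1 := by exact_mod_cast (show p + 1 ≤ _ by omega)
        linarith
      · rw [← mul_sub, add_sub_cancel_left, abs_of_pos (by positivity)]
        linarith
    · refine ⟨κ / 1000 * (p - 1 / 2), ?_, ?_, ?_⟩
      · apply mul_lt_mul_of_pos_left _ he
        have : (LZ l κ α : ℝ) + 1 ≤ p := by exact_mod_cast (show LZ l κ α + 1 ≤ p by omega)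
        linarith
      · apply mul_lt_mul_of_pos_left _ he
        have : (p : ℝ) ≤ LZ l κ (α + 1) - 1 := by exact_mod_cast (show p ≤ _ by omega)
        linarith
      · rw [← mul_sub, show (p : ℝ) - 1 / 2 - p = -(1 / 2) by ring, abs_mul, abs_neg,
          abs_of_pos he, abs_of_pos (by norm_num : (0:ℝ) < 1 / 2)]
        linarith
  · obtain ⟨k1, k2, k3⟩ := h'.resolve_left hE
    have hev : α % 2 = 0 := by omega
    obtain ⟨i, hi⟩ : ∃ i, α = 2 * i := ⟨α / 2, by omega⟩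
    have ht := LZ_thin hl i
    rw [← hi] at ht
    rcases (show α' = α + 1 ∨ α' = α - 1 by omega) with rfl | rfl
    · refine ⟨κ / 1000 * (LZ l κ (α + 1) + 1 / 2), ?_, ?_, ?_⟩
      · apply mul_lt_mul_of_pos_left _ he; linarith
      · apply mul_lt_mul_of_pos_left _ he
        have : (LZ l κ (α + 1) : ℝ) + 16 ≤ LZ l κ (α + 1 + 1) := by exact_mod_cast g1
        linarith
      · have b1 : (p : ℝ) ≤ LZ l κ (α + 1) := by exact_mod_cast s2.le
        have b2 : (LZ l κ (α + 1) : ℝ) ≤ p + 201 := by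
          exact_mod_cast (show LZ l κ (α + 1) ≤ p + 201 by omega)
        rw [← mul_sub, abs_mul, abs_of_pos he, abs_of_pos (by linarith)]
        nlinarith
    · have e1 : α - 1 + 1 = α := by ring
      rw [e1] at g1 ⊢
      refine ⟨κ / 1000 * (LZ l κ α - 3 / 2), ?_, ?_, ?_⟩
      · apply mul_lt_mul_of_pos_left _ he
        have : (LZ l κ (α - 1) : ℝ) + 16 ≤ LZ l κ α := by exact_mod_cast g1
        linarith
      · apply mul_lt_mul_of_pos_left _ he; linarith
      · have b1 : (LZ l κ α : ℝ) ≤ p := by exact_mod_cast s1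
        have b2 : (p : ℝ) ≤ LZ l κ α + 201 := by
          exact_mod_cast (show p ≤ LZ l κ α + 201 by omega)
        rw [← mul_sub, abs_mul, abs_of_pos he, abs_of_neg (by linarith)]
        nlinarith

/-- the real points near an integer point -/
lemma near_l {p α i : ℤ} (h : fl (LZ l κ) p = α) (h1 : 2 * i ≤ α) (h2 : α ≤ 2 * i + 2) :
    ∃ s : ℝ, l i ≤ s ∧ s ≤ l (i + 1) ∧ |s - κ / 1000 * p| ≤ κ / 4 := by
  have hκ := hl.g0
  have he : 0 < κ / 1000 := by positivity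
  have hm := LZ_mono hl
  obtain ⟨s1, s2⟩ := (fl_iff hm).1 h
  have hgap := hl.gap i
  have q1 : (LZ l κ α : ℝ) ≤ p := by exact_mod_cast s1
  have q2 : (p : ℝ) ≤ LZ l κ (α + 1) := by exact_mod_cast s2.le
  have r1 := mul_le_mul_of_nonneg_left q1 he.le
  have r2 := mul_le_mul_of_nonneg_left q2 he.le
  have b1 := (LZ_bd hl α).1
  have b2 := (LZ_bd hl (α + 1)).2
  rcases (show α = 2 * i ∨ α = 2 * i + 1 ∨ α = 2 * i + 2 by omega) with rfl | rfl | rfl
  · rw [l2_e] at b1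
    rw [l2_o] at b2
    refine ⟨l i, le_rfl, by linarith, ?_⟩
    rw [abs_le]; constructor <;> linarith
  · rw [l2_o] at b1
    rw [show 2 * i + 1 + 1 = 2 * i + 2 by ring, l2_e2] at b2
    rw [show 2 * i + 1 + 1 = 2 * i + 2 by ring] at r2
    refine ⟨κ / 1000 * p, by linarith, by linarith, ?_⟩
    rw [sub_self, abs_zero]; positivity
  · rw [l2_e2] at b1
    rw [show 2 * i + 2 + 1 = 2 * (i + 1) + 1 by ring, l2_o] at b2
    rw [show 2 * i + 2 + 1 = 2 * (i + 1) + 1 by ring] at r2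
    refine ⟨l (i + 1), by linarith, le_rfl, ?_⟩
    rw [abs_le]; constructor <;> linarith

end lz

end Pool.Agent.H19.W
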