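import Mathlib
import Pool.Agent.H19.W.Dia
import Pool.Agent.H19.W.Line
import Pool.Agent.H5.C3.Stm

set_option autoImplicit false
open Set Filter Topology

/-! # Kernel convergence of the diamond polygons (W-F, T6) -/

namespace Pool.Agent.H19.W

open Pool.Agent.Q1.M4 (Cell rect Reg Om mem_Om PType)
open Pool.Agent.H48.Q1 (fl fl_spec fl_eq fl_iff fl_step)
open Pool.Agent.H5.C3
open Pool.Agent.H5.FM (T0 gr mem_ball_of)
open Pool.Agent.H81.Q1 (IsJordanDomain)

/-! ### Boxes of inside cells -/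

section box
variable {Q : Finset Cell} {o : Cell → ℤ → Prop} {lx ly : ℤ → ℤ}

lemma fl_ge {l : ℤ → ℤ} (hm : StrictMono l) {a p : ℤ} (h : l a ≤ p) : a ≤ fl l p := by
  by_contra hc
  have h1 := (fl_spec hm p).2
  have h2 := hm.monotone (show fl l p + 1 ≤ a by omega)
  omega

lemma fl_le {l : ℤ → ℤ} (hm : StrictMono l) {a p : ℤ} (h : p < l (a + 1)) : fl l p ≤ a := by
  by_contra hc
  have h1 := (fl_spec hm p).1
  have h2 := hm.monotone (show a + 1 ≤ fl l p by omega)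
  omega

lemma bxd_of (hx : StrictMono lx) (hy : StrictMono ly) {a0 a1 b0 b1 : ℤ}
    (H : ∀ α β, a0 ≤ α → α ≤ a1 → b0 ≤ β → β ≤ b1 → Mm Q o (α, β)) :
    Bxd (Dq Q o lx ly) (lx a0) (lx (a1 + 1) - 1) (ly b0) (ly (b1 + 1) - 1) := by
  intro c h1 h2 h3 h4
  rw [mem_Dq hx hy]
  exact H _ _ (fl_ge hx h1) (fl_le hx (by unfold ctr; simp only; omega)) (fl_ge hy h3)
    (fl_le hy (by unfold ctr; simp only; omega))

/-- the open rectangle of a cell of the doubled grid -/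
def Orc (e : ℝ) (lx ly : ℤ → ℤ) (α β : ℤ) : Set ℂ :=
  Rct e 0 (lx α) (lx (α + 1) - 1) (ly β) (ly (β + 1) - 1)

lemma orc_sub {e : ℝ} (he : 0 < e) (hx : StrictMono lx) (hy : StrictMono ly)
    {a0 a1 b0 b1 α β : ℤ} (h1 : a0 ≤ α) (h2 : α ≤ a1) (h3 : b0 ≤ β) (h4 : β ≤ b1) :
    Orc e lx ly α β ⊆ Rct e 0 (lx a0) (lx (a1 + 1) - 1) (ly b0) (ly (b1 + 1) - 1) := by
  rintro w ⟨⟨w1, w2⟩, w3, w4⟩
  have k1 : (lx a0 : ℝ) ≤ lx α := by exact_mod_cast hx.monotone h1
  have k2 : (lx (α + 1) : ℝ) ≤ lx (a1 + 1) := by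
    exact_mod_cast hx.monotone (show α + 1 ≤ a1 + 1 by omega)
  have k3 : (ly b0 : ℝ) ≤ ly β := by exact_mod_cast hy.monotone h3
  have k4 : (ly (β + 1) : ℝ) ≤ ly (b1 + 1) := by
    exact_mod_cast hy.monotone (show β + 1 ≤ b1 + 1 by omega)
  have m1 := mul_le_mul_of_nonneg_left k1 he.le
  have m2 := mul_le_mul_of_nonneg_left k2 he.le
  have m3 := mul_le_mul_of_nonneg_left k3 he.le
  have m4 := mul_le_mul_of_nonneg_left k4 he.le
  push_cast at w2 w4
  refine ⟨⟨?_, ?_⟩, ?_, ?_⟩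
  · linarith
  · push_cast; linarith
  · linarith
  · push_cast; linarith

end box

/-! ### The core -/

/-- union of the shrunk cells -/
def Kc (P : PType) (x y : ℤ → ℝ) (η : ℝ) : Set ℂ :=
  ⋃ c ∈ P.Q, {w : ℂ | (x c.1 + η ≤ w.re ∧ w.re ≤ x (c.1 + 1) - η) ∧
    (y c.2 + η ≤ w.im ∧ w.im ≤ y (c.2 + 1) - η)}

lemma Kc_compact (P : PType) (x y : ℤ → ℝ) {η : ℝ} (hη : 0 ≤ η) : IsCompact (Kc P x y η) := by
  apply P.Q.finite_toSet.isCompact_biUnion
  intro c _
  have hcl : IsClosed {w : ℂ | (x c.1 + η ≤ w.re ∧ w.re ≤ x (c.1 + 1) - η) ∧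
      (y c.2 + η ≤ w.im ∧ w.im ≤ y (c.2 + 1) - η)} := by
    have e1 : {w : ℂ | (x c.1 + η ≤ w.re ∧ w.re ≤ x (c.1 + 1) - η) ∧
        (y c.2 + η ≤ w.im ∧ w.im ≤ y (c.2 + 1) - η)} =
        Complex.re ⁻¹' Icc (x c.1 + η) (x (c.1 + 1) - η) ∩
        Complex.im ⁻¹' Icc (y c.2 + η) (y (c.2 + 1) - η) := by
      ext w; simp [Set.mem_Icc]
    rw [e1]
    exact (isClosed_Icc.preimage Complex.continuous_re).inter
      (isClosed_Icc.preimage Complex.continuous_im)
  refine Metric.isCompact_of_isClosed_isBounded hcl ?_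
  refine (Pool.Agent.Q1.M4.isBounded_rect x y c).subset ?_
  rintro w ⟨⟨h1, h2⟩, h3, h4⟩
  exact ⟨⟨by linarith, by linarith⟩, by linarith, by linarith⟩

lemma Kc_sub (P : PType) {x y : ℤ → ℝ} (hx : StrictMono x) (hy : StrictMono y) {η : ℝ}
    (hη : 0 < η) : Kc P x y η ⊆ Om P.Q x y := by
  intro w hw
  simp only [Kc, mem_iUnion] at hw
  obtain ⟨c, hc, ⟨h1, h2⟩, h3, h4⟩ := hw
  rw [mem_Om hx hy]
  refine ⟨⟨c, hc, ⟨by linarith, by linarith⟩, by linarith, by linarith⟩, ?_⟩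
  intro d hd
  have e1 := Pool.Agent.Q1.M4.line_uniq hx (show x c.1 < w.re by linarith)
    (show w.re < x (c.1 + 1) by linarith) hd.1.1 hd.1.2
  have e2 := Pool.Agent.Q1.M4.line_uniq hy (show y c.2 < w.im by linarith)
    (show w.im < y (c.2 + 1) by linarith) hd.2.1 hd.2.2
  have : d = c := Prod.ext e1 e2
  rwa [this]

lemma clamp {A B t η : ℝ} (h1 : A < t) (h2 : t < B) (hη : 0 ≤ η) (h3 : 2 * η ≤ B - A) :
    ∃ w, A + η ≤ w ∧ w ≤ B - η ∧ |w - t| ≤ η := by
  rcases lt_or_ge t (A + η) with h | h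
  · refine ⟨A + η, le_rfl, by linarith, ?_⟩
    rw [abs_le]; constructor <;> linarith
  · rcases lt_or_ge (B - η) t with h' | h'
    · refine ⟨B - η, by linarith, le_rfl, ?_⟩
      rw [abs_le]; constructor <;> linarith
    · refine ⟨t, h, h', ?_⟩
      rw [sub_self, abs_zero]; exact hη

/-! ### From a point of the region to the core -/

section acc
variable (P : PType) {x y : ℤ → ℝ} {g κ η : ℝ} (hx : GapR x g) (hy : GapR y g) (hκ : 0 < κ)
  (hg : 5 * κ ≤ g)
include hx hκ hg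

/-- the coordinate of a point of the open rectangle, in the original cell -/
lemma coord {i : ℤ} {t : ℝ} (h1 : κ / 1000 * LZ (l5 x κ) κ (2 * i + 1) < t)
    (h2 : t < κ / 1000 * (LZ (l5 x κ) κ (2 * i + 1 + 1) - 1)) :
    x (i / 5) < t ∧ t < x (i / 5 + 1) := by
  have hl := l5_gap hx hκ hg
  obtain ⟨⟨a1, a2⟩, a3, a4⟩ := l5_in hx hκ hg i
  have b1 := (LZ_bd hl (2 * i + 1)).1
  have b2 := (LZ_bd hl (2 * i + 1 + 1)).2
  rw [l2_o] at b1
  rw [show 2 * i + 1 + 1 = 2 * i + 2 by ring, l2_e2] at b2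
  rw [show 2 * i + 1 + 1 = 2 * i + 2 by ring] at h2
  constructor <;> linarith

lemma big_l (a : ℤ) : κ / 1000 * LZ (l5 x κ) κ (2 * (5 * a) + 1) < x a + κ / 8 := by
  have hl := l5_gap hx hκ hg
  have b1 := (LZ_bd hl (2 * (5 * a) + 1)).2
  rw [l2_o, l5_0] at b1
  linarith

lemma big_r (a : ℤ) : x (a + 1) - κ / 8 <
    κ / 1000 * (LZ (l5 x κ) κ (2 * (5 * a + 4) + 1 + 1) - 1) := by
  have hl := l5_gap hx hκ hg
  have b1 := (LZ_bd hl (2 * (5 * a + 4) + 1 + 1)).1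
  rw [show 2 * (5 * a + 4) + 1 + 1 = 2 * (5 * (a + 1)) by ring, l2_e, l5_0] at b1
  rw [show 2 * (5 * a + 4) + 1 + 1 = 2 * (5 * (a + 1)) by ring]
  linarith

include hy

/-- every point of the region is joined to the core -/
theorem acc (O : ℕ → Prop) (hη : κ ≤ η) (hη2 : 2 * η ≤ g) {z : ℂ}
    (hz : z ∈ DD (QD P x y O κ) (κ / 1000) 0) : ∃ w ∈ Kc P x y η, ∀ ρ, 4 * η ≤ ρ →
      JoinedIn (DD (QD P x y O κ) (κ / 1000) 0 ∩ Metric.ball z ρ) z w := by
  have he : 0 < κ / 1000 := by positivity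
  have lX := l5_gap hx hκ hg
  have lY := l5_gap hy hκ hg
  have mX := LZ_mono lX
  have mY := LZ_mono lY
  obtain ⟨c, hc⟩ := exists_inD (z1 := 0) he z
  have hcS := (mem_DD he).1 hz c hc
  have hQD : QD P x y O κ = Dq (P5 P).Q (oOf (P5 P) O) (LZ (l5 x κ) κ) (LZ (l5 y κ) κ) := rfl
  rw [hQD] at hcS hz ⊢
  set o := oOf (P5 P) O with ho
  set S := Dq (P5 P).Q o (LZ (l5 x κ) κ) (LZ (l5 y κ) κ) with hS
  have hM := (mem_Dq mX mY).1 hcS
  unfold Ins at hM
  obtain ⟨α, hα⟩ : ∃ α, α = fl (LZ (l5 x κ) κ) (ctr c).1 := ⟨_, rfl⟩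
  obtain ⟨β, hβ⟩ : ∃ β, β = fl (LZ (l5 y κ) κ) (ctr c).2 := ⟨_, rfl⟩
  rw [← hα, ← hβ] at hM
  obtain ⟨i, j, hij, ⟨a1, a2⟩, ⟨b1, b2⟩, hor⟩ := Mm_chain hM
  have hoo : Mm (P5 P).Q o (2 * i + 1, 2 * j + 1) := (Mm_oo _ _ _ _).2 hij
  have hab := (mem_P5 P).1 hij
  -- one dimensional selections
  obtain ⟨t0, t01, t02, t03⟩ := sel lX hα.symm (Or.inl rfl)
  obtain ⟨s0, s01, s02, s03⟩ := sel lY hβ.symm (Or.inl rfl)
  obtain ⟨t1, t11, t12, t13⟩ := sel lX (α' := 2 * i + 1) hα.symm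
    (Or.inr ⟨by omega, by omega, by omega⟩)
  obtain ⟨s1, s11, s12, s13⟩ := sel lY (α' := 2 * j + 1) hβ.symm
    (Or.inr ⟨by omega, by omega, by omega⟩)
  -- the final point
  obtain ⟨p1, p2⟩ := coord hx hκ hg t11 t12
  obtain ⟨q1, q2⟩ := coord hy hκ hg s11 s12
  obtain ⟨wr, wr1, wr2, wr3⟩ := clamp p1 p2 (show 0 ≤ η by linarith)
    (by linarith [hx.gap (i / 5)])
  obtain ⟨wi, wi1, wi2, wi3⟩ := clamp q1 q2 (show 0 ≤ η by linarith)
    (by linarith [hy.gap (j / 5)])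
  refine ⟨⟨wr, wi⟩, ?_, ?_⟩
  · simp only [Kc, mem_iUnion]
    exact ⟨(i / 5, j / 5), hab, ⟨wr1, wr2⟩, wi1, wi2⟩
  intro ρ hρ
  -- distances
  have hzc : |z.re - κ / 1000 * ((ctr c).1 : ℝ)| + |z.im - κ / 1000 * ((ctr c).2 : ℝ)| ≤
      κ / 1000 := by
    unfold InD at hc
    simp only [Complex.zero_re, Complex.zero_im, sub_zero] at hc
    unfold ctr
    simp only
    push_cast
    exact hc
  have near : ∀ t s : ℝ, |t - κ / 1000 * ((ctr c).1 : ℝ)| ≤ κ / 4 + η →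
      |s - κ / 1000 * ((ctr c).2 : ℝ)| ≤ κ / 4 + η → (⟨t, s⟩ : ℂ) ∈ Metric.ball z ρ := by
    intro t s h1 h2
    apply mem_ball_of
    simp only
    have r1 := abs_sub_abs_le_abs_sub t (κ / 1000 * ((ctr c).1 : ℝ))
    have k1 : |t - z.re| ≤ |t - κ / 1000 * ((ctr c).1 : ℝ)| + |z.re - κ / 1000 * ((ctr c).1 : ℝ)| := by
      have := abs_sub_le t (κ / 1000 * ((ctr c).1 : ℝ)) z.re
      rwa [abs_sub_comm (κ / 1000 * ((ctr c).1 : ℝ)) z.re] at this
    have k2 : |s - z.im| ≤ |s - κ / 1000 * ((ctr c).2 : ℝ)| + |z.im - κ / 1000 * ((ctr c).2 : ℝ)| := by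
      have := abs_sub_le s (κ / 1000 * ((ctr c).2 : ℝ)) z.im
      rwa [abs_sub_comm (κ / 1000 * ((ctr c).2 : ℝ)) z.im] at this
    linarith
  have hη0 : 0 < η := by linarith
  have B0 : z ∈ Metric.ball z ρ := Metric.mem_ball_self (by linarith)
  have Bc : dc (κ / 1000) 0 c ∈ Metric.ball z ρ := by
    rw [Metric.mem_ball, dist_comm, dist_eq_norm]
    have := dc_dist hc
    linarith
  have Bt : ∀ {t s : ℝ}, |t - κ / 1000 * ((ctr c).1 : ℝ)| ≤ κ / 4 →
      |s - κ / 1000 * ((ctr c).2 : ℝ)| ≤ κ / 4 → (⟨t, s⟩ : ℂ) ∈ Metric.ball z ρ :=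
    fun h1 h2 => near _ _ (by linarith) (by linarith)
  have Bw : (⟨wr, wi⟩ : ℂ) ∈ Metric.ball z ρ := by
    apply near
    · have := abs_sub_le wr t1 (κ / 1000 * ((ctr c).1 : ℝ))
      linarith
    · have := abs_sub_le wi s1 (κ / 1000 * ((ctr c).2 : ℝ))
      linarith
  -- the big box
  have HB : Bxd S (LZ (l5 x κ) κ (2 * (5 * (i / 5)) + 1))
      (LZ (l5 x κ) κ (2 * (5 * (i / 5) + 4) + 1 + 1) - 1)
      (LZ (l5 y κ) κ (2 * (5 * (j / 5)) + 1))
      (LZ (l5 y κ) κ (2 * (5 * (j / 5) + 4) + 1 + 1) - 1) := by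
    apply bxd_of mX mY
    intro α' β' e1 e2 e3 e4
    apply Mm_all
    intro i' j' f1 f2 f3 f4
    rw [mem_P5]
    rw [show i' / 5 = i / 5 by omega, show j' / 5 = j / 5 by omega]
    exact hab
  have u2 : (⟨t1, s1⟩ : ℂ) ∈ Orc (κ / 1000) (LZ (l5 x κ) κ) (LZ (l5 y κ) κ) (2 * i + 1)
      (2 * j + 1) := by
    refine ⟨⟨?_, ?_⟩, ?_, ?_⟩ <;> simp only [Complex.zero_re, Complex.zero_im, add_zero] <;>
      push_cast <;> assumption
  have J3 : JoinedIn (DD S (κ / 1000) 0 ∩ Metric.ball z ρ) ⟨t1, s1⟩ ⟨wr, wi⟩ := by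
    refine join_rct he HB ?_ ?_ (Bt t13 s13) Bw
    · exact orc_sub he mX mY (by omega) (by omega) (by omega) (by omega) u2
    · have c1 := big_l hx hκ hg (i / 5)
      have c2 := big_r hx hκ hg (i / 5)
      have c3 := big_l hy hκ hg (j / 5)
      have c4 := big_r hy hκ hg (j / 5)
      refine ⟨⟨?_, ?_⟩, ?_, ?_⟩ <;> simp only [Complex.zero_re, Complex.zero_im, add_zero]
      · linarith
      · push_cast; linarith
      · linarith
      · push_cast; linarith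
  have J0 := join_dc he hcS hz hc B0 Bc
  have i1 := (fl_spec mX (ctr c).1)
  have i2 := (fl_spec mY (ctr c).2)
  rw [← hα] at i1
  rw [← hβ] at i2
  rcases hor with hor | hor
  · -- vertical move first
    have H1 : Bxd S (LZ (l5 x κ) κ α) (LZ (l5 x κ) κ (α + 1) - 1)
        (LZ (l5 y κ) κ (min β (2 * j + 1))) (LZ (l5 y κ) κ (max β (2 * j + 1) + 1) - 1) := by
      apply bxd_of mX mY
      intro α' β' e1 e2 e3 e4
      obtain rfl : α' = α := by omega
      rcases (show β' = β ∨ β' = 2 * j + 1 by omega) with rfl | rfl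
      · exact hM
      · exact hor
    have H2 : Bxd S (LZ (l5 x κ) κ (min α (2 * i + 1))) (LZ (l5 x κ) κ (max α (2 * i + 1) + 1) - 1)
        (LZ (l5 y κ) κ (2 * j + 1)) (LZ (l5 y κ) κ (2 * j + 1 + 1) - 1) := by
      apply bxd_of mX mY
      intro α' β' e1 e2 e3 e4
      obtain rfl : β' = 2 * j + 1 := by omega
      rcases (show α' = α ∨ α' = 2 * i + 1 by omega) with rfl | rfl
      · exact hor
      · exact hoo
    have u1 : (⟨t0, s1⟩ : ℂ) ∈ Orc (κ / 1000) (LZ (l5 x κ) κ) (LZ (l5 y κ) κ) α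
        (2 * j + 1) := by
      refine ⟨⟨?_, ?_⟩, ?_, ?_⟩ <;> simp only [Complex.zero_re, Complex.zero_im, add_zero] <;>
        push_cast <;> assumption
    have n1 := mY.monotone (min_le_left β (2 * j + 1))
    have n2 := mY.monotone (show β + 1 ≤ max β (2 * j + 1) + 1 by
      have := le_max_left β (2 * j + 1); omega)
    have J1 : JoinedIn (DD S (κ / 1000) 0 ∩ Metric.ball z ρ) (dc (κ / 1000) 0 c) ⟨t0, s1⟩ := by
      refine join_in he H1 (by exact i1.1) (by have := i1.2; unfold ctr at this; simp only at this; omega)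
        (by have := i2.1; unfold ctr at this; simp only at this; omega)
        (by have := i2.2; unfold ctr at this; simp only at this; omega) ?_ (Bt t03 s13) Bc
      exact orc_sub he mX mY le_rfl le_rfl (by omega) (by omega) u1
    have J2 : JoinedIn (DD S (κ / 1000) 0 ∩ Metric.ball z ρ) ⟨t0, s1⟩ ⟨t1, s1⟩ := by
      refine join_rct he H2 ?_ ?_ (Bt t03 s13) (Bt t13 s13)
      · exact orc_sub he mX mY (by omega) (by omega) le_rfl le_rfl u1
      · exact orc_sub he mX mY (by omega) (by omega) le_rfl le_rfl u2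
    exact ((J0.trans J1).trans J2).trans J3
  · -- horizontal move first
    have H1 : Bxd S (LZ (l5 x κ) κ (min α (2 * i + 1))) (LZ (l5 x κ) κ (max α (2 * i + 1) + 1) - 1)
        (LZ (l5 y κ) κ β) (LZ (l5 y κ) κ (β + 1) - 1) := by
      apply bxd_of mX mY
      intro α' β' e1 e2 e3 e4
      obtain rfl : β' = β := by omega
      rcases (show α' = α ∨ α' = 2 * i + 1 by omega) with rfl | rfl
      · exact hM
      · exact hor
    have H2 : Bxd S (LZ (l5 x κ) κ (2 * i + 1)) (LZ (l5 x κ) κ (2 * i + 1 + 1) - 1)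
        (LZ (l5 y κ) κ (min β (2 * j + 1))) (LZ (l5 y κ) κ (max β (2 * j + 1) + 1) - 1) := by
      apply bxd_of mX mY
      intro α' β' e1 e2 e3 e4
      obtain rfl : α' = 2 * i + 1 := by omega
      rcases (show β' = β ∨ β' = 2 * j + 1 by omega) with rfl | rfl
      · exact hor
      · exact hoo
    have u1 : (⟨t1, s0⟩ : ℂ) ∈ Orc (κ / 1000) (LZ (l5 x κ) κ) (LZ (l5 y κ) κ) (2 * i + 1) β := by
      refine ⟨⟨?_, ?_⟩, ?_, ?_⟩ <;> simp only [Complex.zero_re, Complex.zero_im, add_zero] <;>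
        push_cast <;> assumption
    have n1 := mX.monotone (min_le_left α (2 * i + 1))
    have n2 := mX.monotone (show α + 1 ≤ max α (2 * i + 1) + 1 by
      have := le_max_left α (2 * i + 1); omega)
    have J1 : JoinedIn (DD S (κ / 1000) 0 ∩ Metric.ball z ρ) (dc (κ / 1000) 0 c) ⟨t1, s0⟩ := by
      refine join_in he H1 (by have := i1.1; unfold ctr at this; simp only at this; omega)
        (by have := i1.2; unfold ctr at this; simp only at this; omega)
        (by exact i2.1) (by have := i2.2; unfold ctr at this; simp only at this; omega) ?_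
        (Bt t13 s03) Bc
      exact orc_sub he mX mY (by omega) (by omega) le_rfl le_rfl u1
    have J2 : JoinedIn (DD S (κ / 1000) 0 ∩ Metric.ball z ρ) ⟨t1, s0⟩ ⟨t1, s1⟩ := by
      refine join_rct he H2 ?_ ?_ (Bt t13 s03) (Bt t13 s13)
      · exact orc_sub he mX mY le_rfl le_rfl (by omega) (by omega) u1
      · exact orc_sub he mX mY le_rfl le_rfl (by omega) (by omega) u2
    exact ((J0.trans J1).trans J2).trans J3

/-- a compact subset of the polygon is covered -/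
theorem cov (O : ℕ → Prop) {w : ℂ} (hw : ∀ v : ℂ, ‖v - w‖ < κ → v ∈ Om P.Q x y) :
    w ∈ DD (QD P x y O κ) (κ / 1000) 0 := by
  have he : 0 < κ / 1000 := by positivity
  have lX := l5_gap hx hκ hg
  have lY := l5_gap hy hκ hg
  have mX := LZ_mono lX
  have mY := LZ_mono lY
  rw [mem_DD he]
  intro c hc
  have hQD : QD P x y O κ = Dq (P5 P).Q (oOf (P5 P) O) (LZ (l5 x κ) κ) (LZ (l5 y κ) κ) := rfl
  rw [hQD, mem_Dq mX mY]
  unfold Ins
  apply Mm_all
  intro i j h1 h2 h3 h4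
  obtain ⟨s, s1, s2, s3⟩ := near_l lX rfl h1 h2
  obtain ⟨t, t1, t2, t3⟩ := near_l lY rfl h3 h4
  obtain ⟨⟨a1, a2⟩, a3, a4⟩ := l5_in hx hκ hg i
  obtain ⟨⟨b1, b2⟩, b3, b4⟩ := l5_in hy hκ hg j
  have hzc : |w.re - κ / 1000 * ((ctr c).1 : ℝ)| + |w.im - κ / 1000 * ((ctr c).2 : ℝ)| ≤
      κ / 1000 := by
    unfold InD at hc
    simp only [Complex.zero_re, Complex.zero_im, sub_zero] at hc
    unfold ctr
    simp only
    push_cast
    exact hc
  have hv := hw ⟨s, t⟩ (by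
    have h5 := Complex.norm_le_abs_re_add_abs_im ((⟨s, t⟩ : ℂ) - w)
    simp only [Complex.sub_re, Complex.sub_im] at h5
    have k1 : |s - w.re| ≤ |s - κ / 1000 * ((ctr c).1 : ℝ)| + |w.re - κ / 1000 * ((ctr c).1 : ℝ)| := by
      have := abs_sub_le s (κ / 1000 * ((ctr c).1 : ℝ)) w.re
      rwa [abs_sub_comm (κ / 1000 * ((ctr c).1 : ℝ)) w.re] at this
    have k2 : |t - w.im| ≤ |t - κ / 1000 * ((ctr c).2 : ℝ)| + |w.im - κ / 1000 * ((ctr c).2 : ℝ)| := by
      have := abs_sub_le t (κ / 1000 * ((ctr c).2 : ℝ)) w.im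
      rwa [abs_sub_comm (κ / 1000 * ((ctr c).2 : ℝ)) w.im] at this
    linarith)
  rw [mem_P5]
  exact ((mem_Om (gapR_mono hx) (gapR_mono hy)).1 hv).2 (i / 5, j / 5)
    ⟨⟨by simp only; linarith, by simp only; linarith⟩, by simp only; linarith, by simp only; linarith⟩

end acc

/-! ### The frames -/

lemma one_I_ne : (1 : ℂ) + Complex.I ≠ 0 := by
  intro h
  have := congrArg Complex.re h
  simp at this

lemma norm_one_I : 1 ≤ ‖(1 : ℂ) + Complex.I‖ := by
  have h : ‖(1 : ℂ) + Complex.I‖ ^ 2 = 2 := by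
    rw [← Complex.normSq_eq_norm_sq, Complex.normSq_apply]
    simp
    norm_num
  nlinarith [norm_nonneg ((1 : ℂ) + Complex.I)]

/-- the two descriptions of the region -/
lemma mem_gr {Q : Finset Cell} {e : ℝ} (he : 0 < e) (z : ℂ) :
    z ∈ Om Q (gr e) (gr e) ↔ (1 + Complex.I) * z ∈ DD Q e 0 := by
  have h := Pool.Agent.H19.Rado.Om_affine Q (fun i : ℤ => (i : ℝ)) (fun i : ℤ => (i : ℝ)) he 0 0
  have eg : (fun i : ℤ => e * (i : ℝ) + 0) = gr e := by
    funext i; unfold gr; rw [add_zero]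
  rw [eg] at h
  rw [h]
  unfold DD
  have hne := one_I_ne
  constructor
  · rintro ⟨u, hu, rfl⟩
    refine ⟨u, hu, ?_⟩
    rw [Pool.Agent.H19.Rado.aff_apply]
    unfold T0
    have : (⟨0, 0⟩ : ℂ) = 0 := rfl
    rw [this]
    ring
  · rintro ⟨u, hu, hz⟩
    refine ⟨u, hu, ?_⟩
    rw [Pool.Agent.H19.Rado.aff_apply]
    unfold T0 at hz
    have : (⟨0, 0⟩ : ℂ) = 0 := rfl
    rw [this]
    apply mul_left_cancel₀ hne
    rw [← hz]
    ring

/-- multiplication by `1 + i` as a homeomorphism -/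
noncomputable def mI : ℂ ≃ₜ ℂ := Homeomorph.mulLeft₀ (1 + Complex.I) one_I_ne

lemma mI_apply (z : ℂ) : mI z = (1 + Complex.I) * z := rfl

lemma jordan_preim {D : Set ℂ} (h : IsJordanDomain D) :
    IsJordanDomain ((fun z : ℂ => (1 + Complex.I) * z) ⁻¹' D) := by
  obtain ⟨h1, h2, h3, J, j1, j2, j3⟩ := h
  have e : (fun z : ℂ => (1 + Complex.I) * z) ⁻¹' D = mI.symm '' D := by
    rw [mI.symm.image_eq_preimage_symm]; rfl
  refine ⟨?_, ?_, ?_, fun c => mI.symm (J c), mI.symm.continuous.comp j1,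
    mI.symm.injective.comp j2, ?_⟩
  · rw [e]; exact mI.symm.isOpenMap _ h1
  · rw [e]; exact h2.image _ mI.symm.continuous.continuousOn
  · obtain ⟨B, hB⟩ := h3.exists_norm_le
    rw [isBounded_iff_forall_norm_le]
    refine ⟨B, fun z hz => ?_⟩
    have h4 := hB _ hz
    rw [norm_mul] at h4
    have h5 := norm_one_I
    nlinarith [norm_nonneg z]
  · rw [e, ← mI.symm.image_frontier, j3, ← range_comp]
    rfl

/-! ### The theorem -/

/-- **(T6)** -/
theorem stKer : StKer := by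
  intro P x y g hx hy O κ hκ hκ0 S hS
  have mx := gapR_mono hx
  have my := gapR_mono hy
  have hD : ∀ n, ∀ z, z ∈ Om (S n).P.Q (gr (κ n / 1000)) (gr (κ n / 1000)) ↔
      (1 + Complex.I) * z ∈ DD (QD P x y (O n) (κ n)) (κ n / 1000) 0 := fun n z => by
    rw [mem_gr (by have := hκ n; positivity), hS n]
  have hgev : ∀ᶠ n in atTop, 5 * κ n ≤ g := by
    have hpos : 0 < g / 5 := by have := hx.g0; positivity
    filter_upwards [hκ0.eventually_lt_const hpos] with n hn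
    linarith
  have H3 : ∀ ε > 0, ∃ K : Set ℂ, IsCompact K ∧
      K ⊆ ((fun z : ℂ => (1 + Complex.I) * z) ⁻¹' Om P.Q x y) ∧
      ∀ᶠ n in atTop, ∀ z ∈ Om (S n).P.Q (gr (κ n / 1000)) (gr (κ n / 1000)), ∃ w ∈ K,
        JoinedIn (Om (S n).P.Q (gr (κ n / 1000)) (gr (κ n / 1000)) ∩ Metric.ball z ε) z w := by
    intro ε hε
    obtain ⟨η, hη⟩ : ∃ η, η = min (ε / 4) (g / 2) := ⟨_, rfl⟩
    have hη0 : 0 < η := by
      rw [hη]; have := hx.g0; positivity
    have k1 : 4 * η ≤ ε := by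
      have := min_le_left (ε / 4) (g / 2)
      rw [← hη] at this; linarith
    have k2 : 2 * η ≤ g := by
      have := min_le_right (ε / 4) (g / 2)
      rw [← hη] at this; linarith
    refine ⟨mI ⁻¹' Kc P x y η, ?_, ?_, ?_⟩
    · exact mI.isCompact_preimage.2 (Kc_compact P x y hη0.le)
    · exact preimage_mono (Kc_sub P mx my hη0)
    · filter_upwards [hgev, hκ0.eventually_lt_const hη0] with n h5 h6 z hz
      rw [hD] at hz
      obtain ⟨w, hw, hJ⟩ := acc P hx hy (hκ n) h5 (O n) h6.le k2 hz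
      refine ⟨mI.symm w, ?_, ?_⟩
      · rw [mem_preimage, mI.apply_symm_apply]; exact hw
      · have J := (hJ ε k1).map mI.symm.continuous
        have e1 : mI.symm ((1 + Complex.I) * z) = z := mI.symm_apply_apply z
        rw [e1] at J
        refine J.mono ?_
        rintro _ ⟨v, ⟨hv, hb⟩, rfl⟩
        refine ⟨?_, ?_⟩
        · rw [hD]
          have : (1 + Complex.I) * mI.symm v = v := mI.apply_symm_apply v
          rw [this]; exact hv
        · rw [Metric.mem_ball, dist_eq_norm] at hb ⊢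
          have h7 : v - (1 + Complex.I) * z = (1 + Complex.I) * (mI.symm v - z) := by
            have : (1 + Complex.I) * mI.symm v = v := mI.apply_symm_apply v
            rw [mul_sub, this]
          rw [h7, norm_mul] at hb
          have h5 := norm_one_I
          nlinarith [norm_nonneg (mI.symm v - z)]
  refine Pool.Agent.H57.W.kconv_of_acc (jordan_preim (Pool.Agent.H19.RH.isJordan P mx my))
    (Eventually.of_forall fun n => Pool.Agent.H19.RH.isJordan (S n).P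
      (Pool.Agent.H5.FM.gr_mono (by have := hκ n; positivity))
      (Pool.Agent.H5.FM.gr_mono (by have := hκ n; positivity))) ?_ ?_ H3
  · intro K hK hKD
    have hK' : IsCompact (mI '' K) := hK.image mI.continuous
    have hsub : mI '' K ⊆ Om P.Q x y := by
      rintro _ ⟨z, hz, rfl⟩
      exact hKD hz
    obtain ⟨r, hr, hth⟩ := hK'.exists_thickening_subset_open (Pool.Agent.Q1.M4.isOpen_Om _ _ _) hsub
    filter_upwards [hgev, hκ0.eventually_lt_const hr] with n h5 h6 z hz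
    rw [hD]
    apply cov P hx hy (hκ n) h5
    intro v hv
    apply hth
    rw [Metric.mem_thickening_iff]
    exact ⟨mI z, mem_image_of_mem _ hz, by rw [dist_eq_norm]; exact hv.trans h6⟩
  · intro s hs
    obtain ⟨K, -, hKD, h3⟩ := H3 s hs
    filter_upwards [h3] with n hn z hz
    obtain ⟨w, hw, hJ⟩ := hn z hz
    refine ⟨w, hKD hw, ?_⟩
    have := hJ.target_mem.2
    rw [Metric.mem_ball, dist_comm] at this
    exact this

end Pool.Agent.H19.W
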