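import Mathlib
import Pool.Agent.H13.W.Move
import Pool.Agent.H33.Q1.Tile

set_option autoImplicit false
open Finset

/-! # Constructor of strip moves (W-D, P6)

`StripOK Λ D Bl S` : local closure of the strip `S` in the world `(Λ, D)` outside the block `Bl`.
`Moved` : the second world is the first one with the strip moved one row up (flipped states).
`StripOK.move` : these give `StripMove`. Canonical second world: `mL`, `mD`, `mw`. -/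

namespace Pool.Agent.H19.W

open Pool.Agent.H75.Perc Pool.Agent.H75.TwoArm Pool.Agent.H99.W Pool.Agent.H13.W
open Pool.Agent.H33.Q1 (lt tt lt_odd tt_lt lt_tt lt_inj)

/-- the tile to the east -/
def ea (e : ℤ × ℤ) : ℤ × ℤ := (e.1 + 1, e.2 + 1)
/-- the tile to the west -/
def we (e : ℤ × ℤ) : ℤ × ℤ := (e.1 - 1, e.2 - 1)

/-- column of a tile -/
def cx (e : ℤ × ℤ) : ℤ := (e.1 + e.2 - 1) / 2
/-- row of a tile -/
def cy (e : ℤ × ℤ) : ℤ := (e.2 - e.1 - 1) / 2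

lemma cx_lt (p : ℤ × ℤ) : cx (lt p) = p.1 := by unfold cx lt; simp only; omega
lemma cy_lt (p : ℤ × ℤ) : cy (lt p) = p.2 := by unfold cy lt; simp only; omega

lemma tile_ext {e e' : ℤ × ℤ} (h : (e.1 + e.2) % 2 = 1) (h' : (e'.1 + e'.2) % 2 = 1)
    (hx : cx e = cx e') (hy : cy e = cy e') : e = e' := by
  unfold cx at hx
  unfold cy at hy
  exact Prod.ext (by omega) (by omega)

lemma lt_cc {e : ℤ × ℤ} (h : (e.1 + e.2) % 2 = 1) : lt (cx e, cy e) = e := lt_tt h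

lemma cx_up (e : ℤ × ℤ) : cx (up e) = cx e := by unfold cx up; simp only; congr 1; ring
lemma cy_up (e : ℤ × ℤ) : cy (up e) = cy e + 1 := by unfold cy up; simp only; omega
lemma cx_dn (e : ℤ × ℤ) : cx (dn e) = cx e := by unfold cx dn; simp only; congr 1; ring
lemma cy_dn (e : ℤ × ℤ) : cy (dn e) = cy e - 1 := by unfold cy dn; simp only; omega
lemma cx_ea (e : ℤ × ℤ) : cx (ea e) = cx e + 1 := by unfold cx ea; simp only; omega
lemma cy_ea (e : ℤ × ℤ) : cy (ea e) = cy e := by unfold cy ea; simp only; congr 1; ring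
lemma cx_we (e : ℤ × ℤ) : cx (we e) = cx e - 1 := by unfold cx we; simp only; omega
lemma cy_we (e : ℤ × ℤ) : cy (we e) = cy e := by unfold cy we; simp only; congr 1; ring

lemma dn_up (e : ℤ × ℤ) : dn (up e) = e := by
  unfold dn up; exact Prod.ext (by simp only; ring) (by simp only; ring)
lemma up_dn (e : ℤ × ℤ) : up (dn e) = e := by
  unfold dn up; exact Prod.ext (by simp only; ring) (by simp only; ring)

lemma odd_up {e : ℤ × ℤ} : ((up e).1 + (up e).2) % 2 = 1 ↔ (e.1 + e.2) % 2 = 1 := by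
  unfold up; simp only; omega
lemma odd_dn {e : ℤ × ℤ} : ((dn e).1 + (dn e).2) % 2 = 1 ↔ (e.1 + e.2) % 2 = 1 := by
  unfold dn; simp only; omega
lemma odd_ea {e : ℤ × ℤ} : ((ea e).1 + (ea e).2) % 2 = 1 ↔ (e.1 + e.2) % 2 = 1 := by
  unfold ea; simp only; omega
lemma odd_we {e : ℤ × ℤ} : ((we e).1 + (we e).2) % 2 = 1 ↔ (e.1 + e.2) % 2 = 1 := by
  unfold we; simp only; omega

/-- common sides of two tiles -/
lemma shared {e e' c : ℤ × ℤ} (ho : (e.1 + e.2) % 2 = 1) (ho' : (e'.1 + e'.2) % 2 = 1)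
    (h : Sd e c) (h' : Sd e' c) : e' = e ∨ (c = eE e ∧ e' = ea e) ∨ (c = eW e ∧ e' = we e) ∨
      (c = eN e ∧ e' = up e) ∨ (c = eS e ∧ e' = dn e) := by
  obtain ⟨a, b⟩ := e
  obtain ⟨a', b'⟩ := e'
  obtain ⟨p, q⟩ := c
  unfold Sd eE eW eN eS at h h'
  unfold eE eW eN eS ea we up dn
  simp only [Prod.mk.injEq] at ho ho' h h' ⊢
  rcases h with h | h | h | h <;> rcases h' with h' | h' | h' | h'
  all_goals
    first
      | (left; omega)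
      | (right; left; omega)
      | (right; right; left; omega)
      | (right; right; right; left; omega)
      | (right; right; right; right; omega)

/-! ### The constructor -/

/-- **Local closure of a strip**: `F = Λ \ Bl`. -/
structure StripOK (Λ D Bl S : Set (ℤ × ℤ)) : Prop where
  odd : ∀ e ∈ Λ, (e.1 + e.2) % 2 = 1
  sD : ∀ e ∈ Λ, e ∉ Bl → e ∈ S → e ∉ D
  eas : ∀ e ∈ Λ, e ∉ Bl → e ∈ S → ea e ∈ Λ → ea e ∉ Bl → ea e ∈ S
  wes : ∀ e ∈ Λ, e ∉ Bl → e ∈ S → we e ∈ Λ → we e ∉ Bl → we e ∈ S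
  ups : ∀ e ∈ Λ, e ∉ Bl → e ∈ S → up e ∈ Λ → up e ∉ Bl → up e ∈ S ∨ up e ∈ D
  dns : ∀ e ∈ Λ, e ∉ Bl → e ∈ S → dn e ∈ Λ → dn e ∉ Bl → dn e ∉ D
  dd : ∀ e ∈ Λ, e ∉ Bl → e ∈ D → dn e ∈ S → dn e ∈ Λ ∧ dn e ∉ Bl

/-- **The second world** is the first one, outside of `Bl`, with the strip moved up. -/
structure Moved (Λ1 Λ2 D1 D2 : Set (ℤ × ℤ)) (w1 w2 : Finset (ℤ × ℤ)) (Bl S : Set (ℤ × ℤ)) :
    Prop where
  plain : ∀ e ∈ Λ1, e ∉ Bl → e ∉ S → e ∉ D1 → e ∈ Λ2 ∧ e ∉ D2 ∧ (e ∈ w2 ↔ e ∈ w1)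
  strip : ∀ e ∈ Λ1, e ∉ Bl → e ∈ S → up e ∈ Λ2 ∧ up e ∉ D2 ∧ (up e ∈ w2 ↔ e ∉ w1)
  stay : ∀ e ∈ Λ1, e ∉ Bl → e ∈ D1 → dn e ∉ S → e ∈ Λ2 ∧ e ∈ D2
  bot : ∀ e ∈ Λ1, e ∉ Bl → e ∈ S → dn e ∈ Λ1 → dn e ∉ Bl → dn e ∉ S → e ∈ Λ2 ∧ e ∈ D2

variable {Λ1 Λ2 D1 D2 Bl S : Set (ℤ × ℤ)} {w1 w2 : Finset (ℤ × ℤ)}

theorem StripOK.move (H : StripOK Λ1 D1 Bl S) (M : Moved Λ1 Λ2 D1 D2 w1 w2 Bl S) :
    StripMove Λ1 Λ2 D1 D2 w1 w2 Bl S where
  odd := H.odd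
  plain := M.plain
  strip e h1 h2 h3 := ⟨H.sD e h1 h2 h3, M.strip e h1 h2 h3⟩
  del e h1 h2 h3 := by
    by_cases h : dn e ∈ S
    · exact Or.inl ⟨h, H.dd e h1 h2 h3 h⟩
    · exact Or.inr ⟨h, M.stay e h1 h2 h3 h⟩
  sh1 e h1 h2 h3 e' k1 k2 k3 k4 c hc hc' := by
    rcases shared (H.odd e h1) (H.odd e' k1) hc hc' with h | ⟨-, h⟩ | ⟨-, h⟩ | ⟨-, h⟩ | ⟨h0, h⟩
    · exact absurd (h ▸ h3) k3
    · subst h; exact absurd (H.eas e h1 h2 h3 k1 k2) k3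
    · subst h; exact absurd (H.wes e h1 h2 h3 k1 k2) k3
    · subst h
      rcases H.ups e h1 h2 h3 k1 k2 with h | h
      · exact absurd h k3
      · exact absurd h k4
    · subst h
      exact ⟨h0, M.bot e h1 h2 h3 k1 k2 k3⟩
  sh2 e h1 h2 h3 e' k1 k2 k3 c hc hc' := by
    rcases shared (H.odd e h1) (H.odd e' k1) hc hc' with h | ⟨-, h⟩ | ⟨-, h⟩ | ⟨h0, h⟩ | ⟨-, h⟩
    · exact absurd k3 (h ▸ H.sD e h1 h2 h3)
    · subst h; exact absurd k3 (H.sD _ k1 k2 (H.eas e h1 h2 h3 k1 k2))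
    · subst h; exact absurd k3 (H.sD _ k1 k2 (H.wes e h1 h2 h3 k1 k2))
    · subst h
      refine ⟨?_, by rw [dn_up]; exact h3⟩
      rw [h0]
      unfold eN eS up
      simp
    · subst h; exact absurd k3 (H.dns e h1 h2 h3 k1 k2)

/-! ### The label map -/

open Classical in
/-- the map of the labels outside of `Bl` -/
noncomputable def mv (S : Set (ℤ × ℤ)) (e : ℤ × ℤ) : ℤ × ℤ := if e ∈ S then up e else e

lemma mv_in {e : ℤ × ℤ} (h : e ∈ S) : mv S e = up e := if_pos h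
lemma mv_out {e : ℤ × ℤ} (h : e ∉ S) : mv S e = e := if_neg h

/-- the map of the labels is injective -/
lemma StripOK.mv_inj (H : StripOK Λ1 D1 Bl S) {e e' : ℤ × ℤ} (h1 : e ∈ Λ1) (h2 : e ∉ Bl)
    (h3 : e ∉ D1) (k1 : e' ∈ Λ1) (k2 : e' ∉ Bl) (k3 : e' ∉ D1) (h : mv S e = mv S e') : e = e' := by
  by_cases hS : e ∈ S <;> by_cases hS' : e' ∈ S
  · rw [mv_in hS, mv_in hS'] at h
    exact up_inj h
  · exfalso
    rw [mv_in hS, mv_out hS'] at h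
    subst h
    rcases H.ups e h1 h2 hS k1 k2 with h | h
    · exact hS' h
    · exact k3 h
  · exfalso
    rw [mv_out hS, mv_in hS'] at h
    subst h
    rcases H.ups e' k1 k2 hS' h1 h2 with h | h
    · exact hS h
    · exact h3 h
  · rwa [mv_out hS, mv_out hS'] at h

/-! ### The canonical second world -/

/-- deleted labels of the moved world, outside of `Bl` -/
def mD (Λ D Bl S : Set (ℤ × ℤ)) : Set (ℤ × ℤ) :=
  {e | e ∈ Λ ∧ e ∉ Bl ∧ ((e ∈ D ∧ dn e ∉ S) ∨ (e ∈ S ∧ dn e ∈ Λ ∧ dn e ∉ Bl ∧ dn e ∉ S))}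

/-- natural labels of the moved world, outside of `Bl` -/
def mN (Λ D Bl S : Set (ℤ × ℤ)) : Set (ℤ × ℤ) := mv S '' {e | e ∈ Λ ∧ e ∉ Bl ∧ e ∉ D}

/-- labels of the moved world, outside of `Bl` -/
def mL (Λ D Bl S : Set (ℤ × ℤ)) : Set (ℤ × ℤ) := mN Λ D Bl S ∪ mD Λ D Bl S

open Classical in
/-- open labels of the moved world, outside of `Bl` -/
noncomputable def mw (L : Finset (ℤ × ℤ)) (D Bl S : Set (ℤ × ℤ)) (w : Finset (ℤ × ℤ)) :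
    Finset (ℤ × ℤ) :=
  (L.filter fun e => e ∉ Bl ∧ e ∉ D ∧ (e ∈ w ↔ e ∉ S)).image (mv S)

/-- natural and deleted labels of the moved world are disjoint -/
lemma mN_mD {e : ℤ × ℤ} (h1 : e ∈ mN Λ1 D1 Bl S)
    (h2 : e ∈ mD Λ1 D1 Bl S) : False := by
  obtain ⟨e', ⟨k1, k2, k3⟩, rfl⟩ := h1
  obtain ⟨g1, g2, g3⟩ := h2
  by_cases hS : e' ∈ S
  · rw [mv_in hS] at g1 g2 g3
    rw [dn_up] at g3
    rcases g3 with ⟨-, g⟩ | ⟨-, -, -, g⟩
    · exact g hS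
    · exact g hS
  · rw [mv_out hS] at g3
    rcases g3 with ⟨g, -⟩ | ⟨g, -⟩
    · exact k3 g
    · exact hS g

/-- states of the natural labels of the moved world -/
lemma StripOK.mem_mw {L : Finset (ℤ × ℤ)} (H : StripOK (L : Set (ℤ × ℤ)) D1 Bl S) {e : ℤ × ℤ}
    (h1 : e ∈ L) (h2 : e ∉ Bl) (h3 : e ∉ D1) {w : Finset (ℤ × ℤ)} :
    mv S e ∈ mw L D1 Bl S w ↔ (e ∈ w ↔ e ∉ S) := by
  classical
  unfold mw
  rw [mem_image]
  constructor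
  · rintro ⟨e', he', h⟩
    rw [mem_filter] at he'
    have : e' = e := H.mv_inj (mem_coe.2 he'.1) he'.2.1 he'.2.2.1 (mem_coe.2 h1) h2 h3 h
    rw [← this]
    exact he'.2.2.2
  · intro h
    exact ⟨e, mem_filter.2 ⟨h1, h2, h3, h⟩, rfl⟩

/-- **The canonical second world.** `L0`, `D0`, `w0` : arbitrary labels, deleted labels, open labels inside. -/
theorem StripOK.canon {L : Finset (ℤ × ℤ)} (H : StripOK (L : Set (ℤ × ℤ)) D1 Bl S)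
    {w w0 : Finset (ℤ × ℤ)} {L0 D0 : Set (ℤ × ℤ)} (hD0 : ∀ e ∈ D0, e ∉ mN (L : Set (ℤ × ℤ)) D1 Bl S)
    (hw0 : ∀ e ∈ w0, e ∉ mN (L : Set (ℤ × ℤ)) D1 Bl S) :
    StripMove (L : Set (ℤ × ℤ)) (mL (L : Set (ℤ × ℤ)) D1 Bl S ∪ L0) D1
      (mD (L : Set (ℤ × ℤ)) D1 Bl S ∪ D0) w (mw L D1 Bl S w ∪ w0) Bl S := by
  apply H.move
  have key : ∀ e ∈ L, e ∉ Bl → e ∉ D1 → mv S e ∈ mL (L : Set (ℤ × ℤ)) D1 Bl S ∪ L0 ∧
      mv S e ∉ mD (L : Set (ℤ × ℤ)) D1 Bl S ∪ D0 ∧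
      (mv S e ∈ mw L D1 Bl S w ∪ w0 ↔ (e ∈ w ↔ e ∉ S)) := by
    intro e h1 h2 h3
    have hN : mv S e ∈ mN (L : Set (ℤ × ℤ)) D1 Bl S := ⟨e, ⟨mem_coe.2 h1, h2, h3⟩, rfl⟩
    refine ⟨Or.inl (Or.inl hN), ?_, ?_⟩
    · rintro (h | h)
      · exact mN_mD hN h
      · exact hD0 _ h hN
    · rw [mem_union, H.mem_mw h1 h2 h3]
      constructor
      · rintro (h | h)
        · exact h
        · exact absurd hN (hw0 _ h)
      · exact Or.inl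
  refine ⟨?_, ?_, ?_, ?_⟩
  · intro e h1 h2 h3 h4
    have := key e h1 h2 h4
    rw [mv_out h3] at this
    exact ⟨this.1, this.2.1, this.2.2.trans (by tauto)⟩
  · intro e h1 h2 h3
    have := key e h1 h2 (H.sD e h1 h2 h3)
    rw [mv_in h3] at this
    exact ⟨this.1, this.2.1, this.2.2.trans (by tauto)⟩
  · intro e h1 h2 h3 h4
    have : e ∈ mD (L : Set (ℤ × ℤ)) D1 Bl S := ⟨h1, h2, Or.inl ⟨h3, h4⟩⟩
    exact ⟨Or.inl (Or.inr this), Or.inl this⟩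
  · intro e h1 h2 h3 h4 h5 h6
    have : e ∈ mD (L : Set (ℤ × ℤ)) D1 Bl S := ⟨h1, h2, Or.inr ⟨h3, h4, h5, h6⟩⟩
    exact ⟨Or.inl (Or.inr this), Or.inl this⟩

/-! ### (a) Chord: rectangular strips -/

/-- rectangle of tiles -/
def Rc (x1 X B r : ℤ) : Set (ℤ × ℤ) := {e | (x1 ≤ cx e ∧ cx e ≤ X) ∧ (B ≤ cy e ∧ cy e < r)}

/-- **Rectangular strip**: columns `x1 ≤ x ≤ X`, rows `B ≤ y < r`, deleted row `r` on the top. -/
theorem stripOK_rect {Λ D Bl : Set (ℤ × ℤ)} {x1 X B r : ℤ}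
    (odd : ∀ e ∈ Λ, (e.1 + e.2) % 2 = 1)
    (hBl : ∀ e ∈ Λ, e ∈ Bl → cx e < x1)
    (hW : ∀ e ∈ Λ, cx e = x1 - 1 → B ≤ cy e → cy e < r → e ∈ Bl)
    (hE : ∀ e ∈ Λ, cx e = X + 1 → B ≤ cy e → cy e < r → False)
    (hD : ∀ e ∈ Λ, x1 ≤ cx e → cx e ≤ X → B - 1 ≤ cy e → cy e ≤ r → (e ∈ D ↔ cy e = r))
    (hDD : ∀ e ∈ Λ, e ∈ D → x1 ≤ cx e → cx e ≤ X → cy e = r → B < r → dn e ∈ Λ) :
    StripOK Λ D Bl (Rc x1 X B r) where
  odd := odd
  sD e h1 h2 h3 h4 := by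
    obtain ⟨⟨a1, a2⟩, a3, a4⟩ := h3
    have := (hD e h1 a1 a2 (by omega) (by omega)).1 h4
    omega
  eas e h1 h2 h3 h4 h5 := by
    obtain ⟨⟨a1, a2⟩, a3, a4⟩ := h3
    refine ⟨⟨by rw [cx_ea]; omega, ?_⟩, by rw [cy_ea]; exact a3, by rw [cy_ea]; exact a4⟩
    rw [cx_ea]
    by_contra hc
    exact hE _ h4 (by rw [cx_ea]; omega) (by rw [cy_ea]; exact a3) (by rw [cy_ea]; exact a4)
  wes e h1 h2 h3 h4 h5 := by
    obtain ⟨⟨a1, a2⟩, a3, a4⟩ := h3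
    refine ⟨⟨?_, by rw [cx_we]; omega⟩, by rw [cy_we]; exact a3, by rw [cy_we]; exact a4⟩
    rw [cx_we]
    by_contra hc
    exact h5 (hW _ h4 (by rw [cx_we]; omega) (by rw [cy_we]; exact a3) (by rw [cy_we]; exact a4))
  ups e h1 h2 h3 h4 h5 := by
    obtain ⟨⟨a1, a2⟩, a3, a4⟩ := h3
    rcases eq_or_lt_of_le (show cy e + 1 ≤ r by omega) with h | h
    · right
      exact (hD _ h4 (by rw [cx_up]; exact a1) (by rw [cx_up]; exact a2) (by rw [cy_up]; omega)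
        (by rw [cy_up]; omega)).2 (by rw [cy_up]; exact h)
    · left
      exact ⟨⟨by rw [cx_up]; exact a1, by rw [cx_up]; exact a2⟩, by rw [cy_up]; omega,
        by rw [cy_up]; omega⟩
  dns e h1 h2 h3 h4 h5 h6 := by
    obtain ⟨⟨a1, a2⟩, a3, a4⟩ := h3
    have := (hD _ h4 (by rw [cx_dn]; exact a1) (by rw [cx_dn]; exact a2) (by rw [cy_dn]; omega)
      (by rw [cy_dn]; omega)).1 h6
    rw [cy_dn] at this
    omega
  dd e h1 h2 h3 h4 := by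
    obtain ⟨⟨a1, a2⟩, a3, a4⟩ := h4
    rw [cx_dn] at a1 a2
    rw [cy_dn] at a3 a4
    have hr := (hD e h1 a1 a2 (by omega) (by omega)).1 h3
    have hm := hDD e h1 h3 a1 a2 hr (by omega)
    refine ⟨hm, fun hb => ?_⟩
    have := hBl _ hm hb
    rw [cx_dn] at this
    omega

/-- deleted labels of the moved world of a rectangular strip -/
lemma mem_mD_rect {Λ D Bl : Set (ℤ × ℤ)} {x1 X B r : ℤ}
    (hBl : ∀ e ∈ Λ, e ∈ Bl → cx e < x1) {e : ℤ × ℤ} :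
    e ∈ mD Λ D Bl (Rc x1 X B r) ↔ e ∈ Λ ∧ e ∉ Bl ∧ ((e ∈ D ∧ dn e ∉ Rc x1 X B r) ∨
      ((x1 ≤ cx e ∧ cx e ≤ X) ∧ cy e = B ∧ B < r ∧ dn e ∈ Λ)) := by
  unfold mD
  simp only [Set.mem_ofPred_eq]
  constructor
  · rintro ⟨h1, h2, h | ⟨h3, h4, h5, h6⟩⟩
    · exact ⟨h1, h2, Or.inl h⟩
    · obtain ⟨a1, a3, a4⟩ := h3
      refine ⟨h1, h2, Or.inr ⟨a1, ?_, by omega, h4⟩⟩
      by_contra hc
      exact h6 ⟨by rw [cx_dn]; exact a1, by rw [cy_dn]; omega, by rw [cy_dn]; omega⟩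
  · rintro ⟨h1, h2, h | ⟨a1, a3, a4, h4⟩⟩
    · exact ⟨h1, h2, Or.inl h⟩
    · refine ⟨h1, h2, Or.inr ⟨⟨a1, by omega, by omega⟩, h4, fun hb => ?_, fun h6 => ?_⟩⟩
      · have := hBl _ h4 hb
        rw [cx_dn] at this
        omega
      · have := h6.2.1
        rw [cy_dn] at this
        omega

/-! ### (b) Floor: unions of components below the deleted row -/

/-- **A union of components**: the strip is closed in the natural labels outside of `Bl`, and the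
deleted labels touch it only from above. -/
theorem stripOK_comp {Λ D Bl S : Set (ℤ × ℤ)} (odd : ∀ e ∈ Λ, (e.1 + e.2) % 2 = 1)
    (sD : ∀ e ∈ Λ, e ∉ Bl → e ∈ S → e ∉ D)
    (cl : ∀ e ∈ Λ, e ∉ Bl → e ∈ S → ∀ e', (e' = ea e ∨ e' = we e ∨ e' = up e ∨ e' = dn e) →
      e' ∈ Λ → e' ∉ Bl → e' ∉ D → e' ∈ S)
    (hE : ∀ e ∈ Λ, e ∉ Bl → e ∈ S → ea e ∈ Λ → ea e ∉ Bl → ea e ∉ D)
    (hW : ∀ e ∈ Λ, e ∉ Bl → e ∈ S → we e ∈ Λ → we e ∉ Bl → we e ∉ D)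
    (hN : ∀ e ∈ Λ, e ∉ Bl → e ∈ S → dn e ∈ Λ → dn e ∉ Bl → dn e ∉ D)
    (dd : ∀ e ∈ Λ, e ∉ Bl → e ∈ D → dn e ∈ S → dn e ∈ Λ ∧ dn e ∉ Bl) : StripOK Λ D Bl S where
  odd := odd
  sD := sD
  eas e h1 h2 h3 h4 h5 := cl e h1 h2 h3 _ (Or.inl rfl) h4 h5 (hE e h1 h2 h3 h4 h5)
  wes e h1 h2 h3 h4 h5 := cl e h1 h2 h3 _ (Or.inr (Or.inl rfl)) h4 h5 (hW e h1 h2 h3 h4 h5)
  ups e h1 h2 h3 h4 h5 := by
    by_cases h : up e ∈ D
    · exact Or.inr h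
    · exact Or.inl (cl e h1 h2 h3 _ (Or.inr (Or.inr (Or.inl rfl))) h4 h5 h)
  dns := hN
  dd := dd

/-- no deleted labels remain outside of `Bl` if all of them are above the strip -/
lemma mD_comp {Λ D Bl S : Set (ℤ × ℤ)}
    (cl : ∀ e ∈ Λ, e ∉ Bl → e ∈ S → dn e ∈ Λ → dn e ∉ Bl → dn e ∈ S)
    (hD : ∀ e ∈ Λ, e ∉ Bl → e ∈ D → dn e ∈ S) : mD Λ D Bl S = ∅ := by
  ext e
  unfold mD
  simp only [Set.mem_ofPred_eq, Set.mem_empty_iff_false, iff_false]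
  rintro ⟨h1, h2, ⟨h3, h4⟩ | ⟨h3, h4, h5, h6⟩⟩
  · exact h4 (hD e h1 h2 h3)
  · exact h6 (cl e h1 h2 h3 h4 h5)

/-! ### Comparison with moved far ends -/

/-- **Comparison of two worlds by a strip move and a block in the second world**; the far end `x` of the
first world is moved to `y`. -/
theorem far_moved (M : StripMove Λ1 Λ2 D1 D2 w1 w2 Bl S) {z z' x y x' b : ℤ × ℤ}
    {I : Set (ℤ × ℤ)}
    (hI : ∀ u v, u ∈ I → v ∉ I → (SG Λ2 D2 w2).Adj u v → v = b)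
    (hK : ∀ c ∈ KB Bl, ∀ c', SR Λ1 D1 Bl S c c' → c' ∈ I)
    (hzK : z ∈ KB Bl) (hz'I : z' ∈ I) (hxK : x ∉ KB Bl) (hyI : y ∉ I) (hx'I : x' ∉ I)
    (hxx : ∀ c', SR Λ1 D1 Bl S x c' → c' = y)
    (ey : IsEnd (SG Λ2 D2 w2) y) (ex' : IsEnd (SG Λ2 D2 w2) x')
    (h : (SG Λ1 D1 w1).Reachable z x) (h' : (SG Λ2 D2 w2).Reachable z' x') : y = x' := by
  obtain ⟨u, hu, G', hG', hr⟩ := last_in hzK hxK h
  have hle : ∀ a b, G'.Adj a b → (SG (Λ1 \ Bl) D1 w1).Adj a b := by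
    intro a b hab
    obtain ⟨⟨e, he, hT⟩, hk⟩ := (hG' a b).1 hab
    refine ⟨e, ⟨he, fun heB => ?_⟩, hT⟩
    rcases hk with hk | hk
    · apply hk
      rcases hT.label with h | h
      · exact Or.inl (h ▸ heB)
      · exact Or.inr (h ▸ heB)
    · apply hk
      rcases hT.label' with h | h
      · exact Or.inl (h ▸ heB)
      · exact Or.inr (h ▸ heB)
  have hr2 : (SG (Λ1 \ Bl) D1 w1).Reachable u x :=
    hr.mono (fun a b hab => hle a b hab)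
  have hne : u ≠ x := fun h => hxK (h ▸ hu)
  obtain ⟨p⟩ := hr2
  cases p with
  | nil => exact absurd rfl hne
  | @cons _ v _ ha q =>
    have hru : ∃ u', SR Λ1 D1 Bl S u u' := by
      obtain ⟨e, ⟨heΛ, heB⟩, hT⟩ := ha
      by_cases heS : e ∈ S
      · exact ⟨_, Or.inr ⟨rfl, e, heΛ, heB, heS, hT.sd⟩⟩
      · by_cases heD : e ∈ D1
        · have hcd : (u = eS e ∧ v = eN e) ∨ (v = eS e ∧ u = eN e) := by
            rcases hT with ⟨-, -, h⟩ | ⟨h, -⟩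
            · exact h
            · exact absurd heD h
          rcases M.del e heΛ heB heD with ⟨s1, s2, s3⟩ | ⟨s1, s2, s3⟩
          · rcases hcd with ⟨h1, h2⟩ | ⟨h1, h2⟩
            · refine ⟨_, Or.inr ⟨rfl, dn e, s2, s3, s1, ?_⟩⟩
              rw [h1]
              exact Or.inr (Or.inr (Or.inr (eN_dn e).symm))
            · exact ⟨_, Or.inl ⟨rfl, Or.inr ⟨e, heΛ, heB, heD, Or.inl h2⟩⟩⟩
          · rcases hcd with ⟨h1, h2⟩ | ⟨h1, h2⟩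
            · exact ⟨_, Or.inl ⟨rfl, Or.inr ⟨e, heΛ, heB, heD, Or.inr ⟨s1, h1⟩⟩⟩⟩
            · exact ⟨_, Or.inl ⟨rfl, Or.inr ⟨e, heΛ, heB, heD, Or.inl h2⟩⟩⟩
        · exact ⟨_, Or.inl ⟨rfl, Or.inl ⟨e, heΛ, heB, heS, heD, hT.sd⟩⟩⟩
    obtain ⟨u', hu'⟩ := hru
    obtain ⟨x1, hx1, hr3⟩ := M.reach (SimpleGraph.Reachable.trans ha.reachable ⟨q⟩) hu'
    rw [hxx x1 hx1] at hr3
    have hu'I : u' ∈ I := hK u hu u' hu'
    obtain ⟨a1, -, -, hb, k1⟩ := last_exit hI hu'I hyI hr3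
    obtain ⟨a2, ha2, hab2, -, k2⟩ := last_exit hI hz'I hx'I h'
    have eb : IsEnd (off (SG Λ2 D2 w2) I) b := by
      intro p1 p2 h1 h2
      rcases (SG_deg2 (Λ := Λ2) (D := D2) (w := w2)) b a2 p1 p2 hab2.symm h1.1 h2.1 with h | h | h
      · exact absurd (h ▸ ha2) h1.2.2
      · exact absurd (h ▸ ha2) h2.2.2
      · exact h
    by_cases hbx : b = y
    · by_cases hbx' : b = x'
      · rw [← hbx, hbx']
      · exfalso
        subst hbx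
        obtain ⟨p⟩ := k2
        cases p with
        | nil => exact hbx' rfl
        | @cons _ v2 _ ha3 _ =>
          have := ey a2 v2 hab2.symm ha3.1
          exact ha3.2.2 (this ▸ ha2)
    · rcases ends_two (SG_deg2.off I) eb (ey.off I) (ex'.off I) k1 k2 hbx with h | h
      · exfalso
        subst h
        obtain ⟨p⟩ := k1
        cases p with
        | nil => exact hbx rfl
        | @cons _ v2 _ ha3 _ =>
          have := ex' a2 v2 hab2.symm ha3.1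
          exact ha3.2.2 (this ▸ ha2)
      · exact h.symm

end Pool.Agent.H19.W
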