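import Mathlib
import Pool.Agent.H68.W.RoomM
import Pool.Agent.H92.W.Bank
import Pool.Agent.H82.W.S3
import Pool.Agent.H74.W.World
import Pool.Agent.H19.W.MoveC

set_option autoImplicit false
open Finset

/-! # The coherent world of a polygon (route W, StChd: RAISE and ORL)

`LamC Q n` : labels of all tiles which touch `Q` (also diagonally): room, plates, one layer, all diagonal tiles
(also at the marks). `sd Q n p` : the side of the outer tile `p`; vertical sides first, the diagonal tile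
behind a convex corner belongs to the vertical side. `WC P n κ` : open outer labels, `κ i y` = the outer tiles
of the side `i` in the row `y` are open. `VC` : the world (82's `WD`). `X1`, `X2` : the two loose sides at the
mark `i + 1` (one of them is the end of the strand). `κz` : colours of the world of `z` (74's `Wp`). -/

namespace Pool.Agent.H19.W

open Pool.Agent.H75.Perc (dir)
open Pool.Agent.Q1.M4 (Cell PType IsSide nextSide tail head)
open Pool.Agent.H33.Q1 (lt tt ct TL)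
open Pool.Agent.H21.FM (Shape EE)
open Pool.Agent.H13.W Pool.Agent.H99.W
open Pool.Agent.H50.W (bk)
open Pool.Agent.H68.W (sx)
open Pool.Agent.H37.W (dg)

/-- the tile `p` touches `Q` -/
def Tq (Q : Finset Cell) (n : ℤ) (p : ℤ × ℤ) : Prop :=
  ∃ q : ℤ × ℤ, |q.1 - p.1| ≤ 1 ∧ |q.2 - p.2| ≤ 1 ∧ ct n q ∈ Q

/-- cells which touch `Q` -/
noncomputable def nbQ (Q : Finset Cell) : Finset Cell :=
  Q.biUnion fun c => (Icc (c.1 - 1) (c.1 + 1)) ×ˢ (Icc (c.2 - 1) (c.2 + 1))

open Classical in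
/-- **All tiles which touch `Q`.** -/
noncomputable def LamC (Q : Finset Cell) (n : ℤ) : Finset (ℤ × ℤ) :=
  (TL (nbQ Q) n).filter fun e => Tq Q n (tt e)

open Classical in
/-- **The side of an outer tile.** -/
noncomputable def sd (Q : Finset Cell) (n : ℤ) (p : ℤ × ℤ) : Cell × ℤ :=
  if ct n (p.1 - 1, p.2) ∈ Q then (ct n (p.1 - 1, p.2), 1)
  else if ct n (p.1 + 1, p.2) ∈ Q then (ct n (p.1 + 1, p.2), 3)
  else if ct n (p.1, p.2 - 1) ∈ Q then (ct n (p.1, p.2 - 1), 2)
  else if ct n (p.1, p.2 + 1) ∈ Q then (ct n (p.1, p.2 + 1), 0)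
  else if ct n (p.1 - 1, p.2 - 1) ∈ Q then (ct n (p.1 - 1, p.2 - 1), 1)
  else if ct n (p.1 - 1, p.2 + 1) ∈ Q then (ct n (p.1 - 1, p.2 + 1), 1)
  else if ct n (p.1 + 1, p.2 - 1) ∈ Q then (ct n (p.1 + 1, p.2 - 1), 3)
  else (ct n (p.1 + 1, p.2 + 1), 3)

/-- index of the side of an outer tile -/
noncomputable def si (P : PType) (n : ℤ) (p : ℤ × ℤ) : ℕ := sx P (sd P.Q n p).1 (sd P.Q n p).2

open Classical in
/-- **Open outer labels** for the colours `κ`. -/
noncomputable def WC (P : PType) (n : ℤ) (κ : ℕ → ℤ → Prop) : Finset (ℤ × ℤ) :=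
  (LamC P.Q n).filter fun e => ct n (tt e) ∉ P.Q ∧ κ (si P n (tt e)) (tt e).2

/-- **The coherent world**: colours `κ`, deleted labels `D`, plates `pl`. -/
noncomputable def VC {β : Type*} (P : PType) (n : ℤ) (κ : ℕ → ℤ → Prop) (D : Set (ℤ × ℤ))
    (pl : Cell → Option β) : Pool.Agent.H82.W.WD ((ℤ × ℤ) ⊕ β) where
  Λ := (LamC P.Q n : Set (ℤ × ℤ))
  D := D
  E := TL P.Q n
  b := bk n pl
  F := ∅
  W := WC P n κ

/-- loose side of the diagonal tile at the vertex `i + 1` (above it at an upper corner, below it at a lower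
corner) -/
def X1 (S : Shape) (h : ℕ) (i : ℕ) : ℤ × ℤ :=
  if S.k i % 4 = 1 ∨ S.k i % 4 = 2 then eN (dg S h i) else eS (dg S h i)

/-- loose side of the neighbour of the diagonal tile in the horizontal layer -/
def X2 (S : Shape) (h : ℕ) (i : ℕ) : ℤ × ℤ :=
  if S.k i % 4 = 1 then eN (we (dg S h i)) else if S.k i % 4 = 2 then eN (ea (dg S h i))
  else if S.k i % 4 = 3 then eS (ea (dg S h i)) else eS (we (dg S h i))

/-- colours of the world of the tile `p` (74's `Wp`) -/
def κz (S : Shape) (h : ℕ) (p : ℤ × ℤ) (i : ℕ) (y : ℤ) : Prop :=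
  ¬ ((S.m2 ≤ i ∧ i < S.m3) ↔ ∃ t, Pool.Agent.H74.W.Ex S h p t ∧ (t < i ∨ (t = i ∧ p.2 < y)))

end Pool.Agent.H19.W
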