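import Mathlib
import Pool.Agent.H47.W.Room1
import Pool.Agent.Q1.M4.Poly

set_option autoImplicit false
open Finset

/-! # A full row cuts a polyomino (route W, RAISE)

`exists_cut` : let the cells `(x, y0)`, `(x, y0 + 1)`, `X0 ≤ x < X1`, belong to `Q` and let both rows end
there. Then the cells of `Q` split into `U` (behind the line between the two rows) and the rest: `U` changes only
across this line, and the inner cell of the side `i` of the boundary walk is in `U` iff `i` is behind the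
side `a` (right end of the row `y0`) and before the side `b` (left end). -/

namespace Pool.Agent.H19.W

open Pool.Agent.H75.Perc (dir dir_cases)
open Pool.Agent.Q1.M4 (Cell PType IsSide nextSide tail head Adj4 head_eq_tail_next isSide_next)
open Pool.Agent.H47.W (hz vt pa pb exists_pot pa_hz pb_hz pa_vt pb_vt z2_add_self)

/-- the side `s` is the vertical edge between the cells `(x, y)` and `(x + 1, y)` -/
def eV (s : Cell × ℤ) (x y : ℤ) : ZMod 2 :=
  if (s.1 = (x, y) ∧ s.2 % 4 = 1) ∨ (s.1 = (x + 1, y) ∧ s.2 % 4 = 3) then 1 else 0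

/-- the side `s` is the horizontal edge between the cells `(x, y)` and `(x, y + 1)` -/
def eH (s : Cell × ℤ) (x y : ℤ) : ZMod 2 :=
  if (s.1 = (x, y) ∧ s.2 % 4 = 2) ∨ (s.1 = (x, y + 1) ∧ s.2 % 4 = 0) then 1 else 0

/-- indicator of a grid vertex -/
def iv (v w : ℤ × ℤ) : ZMod 2 := if v = w then 1 else 0

lemma side_vertex (s : Cell × ℤ) (x y : ℤ) :
    eV s x y + eH s (x + 1) y + eV s x (y + 1) + eH s x y =
      iv (tail s) (x + 1, y + 1) + iv (head s) (x + 1, y + 1) := by
  obtain ⟨⟨c1, c2⟩, k⟩ := s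
  unfold eV eH iv head
  rcases dir_cases k with ⟨h, e⟩ | ⟨h, e⟩ | ⟨h, e⟩ | ⟨h, e⟩ <;>
  · rw [e]
    simp only [tail, h, Prod.mk.injEq, Prod.mk_add_mk]
    norm_num <;> split_ifs <;> rfl

/-- telescoping -/
lemma sum_tele (f : ℕ → ZMod 2) {u v : ℕ} (h : u ≤ v) :
    ∑ i ∈ Ico u v, (f i + f (i + 1)) = f u + f v := by
  induction v, h using Nat.le_induction with
  | base => rw [Ico_self, sum_empty, z2_add_self]
  | succ v hv ih =>
    rw [Nat.Ico_succ_right_eq_insert_Ico (by omega), sum_insert (by simp), ih]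
    have := z2_add_self (f v)
    linear_combination this

variable {P : PType}

lemma side_succ (i : ℕ) : P.side (i + 1) = nextSide P.Q (P.side i) := by
  unfold PType.side
  rw [Function.iterate_succ_apply']

lemma side_is (i : ℕ) : IsSide P.Q (P.side i) := by
  induction i with
  | zero => exact P.side0
  | succ i ih => rw [side_succ]; exact isSide_next ih

lemma vert_succ (i : ℕ) : P.vert (i + 1) = head (P.side i) := by
  unfold PType.vert
  rw [side_succ, head_eq_tail_next]

lemma dirm {k : ℤ} : (k % 4 = 0 → dir (k - 1) = (0, -1)) ∧ (k % 4 = 1 → dir (k - 1) = (1, 0)) ∧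
    (k % 4 = 2 → dir (k - 1) = (0, 1)) ∧ (k % 4 = 3 → dir (k - 1) = (-1, 0)) := by
  rcases dir_cases (k - 1) with ⟨h, e⟩ | ⟨h, e⟩ | ⟨h, e⟩ | ⟨h, e⟩ <;> rw [e] <;>
    refine ⟨?_, ?_, ?_, ?_⟩ <;> intro h' <;> first | rfl | (exfalso; omega)

lemma eV_zero (j : ℕ) {x y : ℤ} (h : (x, y) ∈ P.Q ↔ (x + 1, y) ∈ P.Q) : eV (P.side j) x y = 0 := by
  unfold eV
  rw [if_neg]
  obtain ⟨h1, h2⟩ := side_is (P := P) j
  rintro (⟨h3, h4⟩ | ⟨h3, h4⟩)
  · rw [h3] at h1 h2
    rw [dirm.2.1 h4] at h2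
    exact h2 (by simpa using h.1 h1)
  · rw [h3] at h1 h2
    rw [dirm.2.2.2 h4] at h2
    exact h2 (by simpa using h.2 h1)

lemma eH_zero (j : ℕ) {x y : ℤ} (h : (x, y) ∈ P.Q ↔ (x, y + 1) ∈ P.Q) : eH (P.side j) x y = 0 := by
  unfold eH
  rw [if_neg]
  obtain ⟨h1, h2⟩ := side_is (P := P) j
  rintro (⟨h3, h4⟩ | ⟨h3, h4⟩)
  · rw [h3] at h1 h2
    rw [dirm.2.2.1 h4] at h2
    exact h2 (by simpa using h.1 h1)
  · rw [h3] at h1 h2
    rw [dirm.1 h4] at h2
    exact h2 (by simpa using h.2 h1)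

/-- value of the edge indicator of the side `t` at the edge of the side `s` -/
def eS' (t s : Cell × ℤ) : ZMod 2 :=
  if s.2 % 4 = 0 then eH t s.1.1 (s.1.2 - 1) else if s.2 % 4 = 1 then eV t s.1.1 s.1.2
  else if s.2 % 4 = 2 then eH t s.1.1 s.1.2 else eV t (s.1.1 - 1) s.1.2

lemma eS'_side {i j : ℕ} (hi : i < P.N) (hj : j < P.N) :
    eS' (P.side j) (P.side i) = if j = i then 1 else 0 := by
  obtain ⟨h1, h2⟩ := side_is (P := P) i
  obtain ⟨h3, h4⟩ := side_is (P := P) j
  have key : (P.side j).1 = (P.side i).1 → ((P.side j).2 - (P.side i).2) % 4 = 0 → j = i :=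
    P.inj j hj i hi
  by_cases hji : j = i
  · subst hji
    rw [if_pos rfl]
    unfold eS' eH eV
    rcases dir_cases (P.side j).2 with ⟨h, -⟩ | ⟨h, -⟩ | ⟨h, -⟩ | ⟨h, -⟩ <;> simp [h]
  · rw [if_neg hji]
    unfold eS'
    generalize P.side i = s at h1 h2 key
    generalize P.side j = t at h3 h4 key
    obtain ⟨⟨c1, c2⟩, k⟩ := s
    obtain ⟨⟨d1, d2⟩, l⟩ := t
    simp only at h1 h2 h3 h4 key ⊢
    have hk : k % 4 = 0 ∨ k % 4 = 1 ∨ k % 4 = 2 ∨ k % 4 = 3 := by omega
    rcases hk with h | h | h | h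
    · rw [if_pos h]
      rw [dirm.1 h] at h2
      unfold eH
      rw [if_neg]
      rintro (⟨g1, g2⟩ | ⟨g1, g2⟩)
      · simp only at g1
        rw [g1] at h3
        exact h2 (by simpa [sub_eq_add_neg] using h3)
      · simp only [sub_add_cancel] at g1 g2
        exact hji (key g1 (by omega))
    · rw [if_neg (by omega), if_pos h]
      rw [dirm.2.1 h] at h2
      unfold eV
      rw [if_neg]
      rintro (⟨g1, g2⟩ | ⟨g1, g2⟩)
      · simp only at g1 g2
        exact hji (key g1 (by omega))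
      · simp only at g1
        rw [g1] at h3
        exact h2 (by simpa using h3)
    · rw [if_neg (by omega), if_neg (by omega), if_pos h]
      rw [dirm.2.2.1 h] at h2
      unfold eH
      rw [if_neg]
      rintro (⟨g1, g2⟩ | ⟨g1, g2⟩)
      · simp only at g1 g2
        exact hji (key g1 (by omega))
      · simp only at g1
        rw [g1] at h3
        exact h2 (by simpa using h3)
    · rw [if_neg (by omega), if_neg (by omega), if_neg (by omega)]
      rw [dirm.2.2.2 h] at h2
      unfold eV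
      rw [if_neg]
      rintro (⟨g1, g2⟩ | ⟨g1, g2⟩)
      · simp only at g1
        rw [g1] at h3
        exact h2 (by simpa [sub_eq_add_neg] using h3)
      · simp only [sub_add_cancel] at g1 g2
        exact hji (key g1 (by omega))

/-- the potential: `KH` = the cut edges, `[u, v)` = arc of the boundary walk with the same end points -/
theorem exists_pot_arc {KH : ℤ → ℤ → ZMod 2} {u v : ℕ} (huv : u ≤ v) (hv : v ≤ P.N)
    (hKQ : ∀ x y, KH x y ≠ 0 → (x, y) ∈ P.Q ∧ (x, y + 1) ∈ P.Q)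
    (hK : ∀ x y, KH (x + 1) y + KH x y = iv (P.vert u) (x + 1, y + 1) + iv (P.vert v) (x + 1, y + 1)) :
    ∃ S : Cell → ZMod 2, (∀ x y, (x, y) ∈ P.Q → (x + 1, y) ∈ P.Q → S (x + 1, y) = S (x, y)) ∧
      (∀ x y, (x, y) ∈ P.Q → (x, y + 1) ∈ P.Q → S (x, y + 1) = S (x, y) + KH x y) ∧
      ∀ i < P.N, S (P.side i).1 = if u ≤ i ∧ i < v then 1 else 0 := by
  classical
  set JV : ℤ → ℤ → ZMod 2 := fun x y => ∑ i ∈ Ico u v, eV (P.side i) x y with hJV
  set JH : ℤ → ℤ → ZMod 2 := fun x y => ∑ i ∈ Ico u v, eH (P.side i) x y + KH x y with hJH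
  have hcl : ∀ x y, JV x y + JH (x + 1) y + JV x (y + 1) + JH x y = 0 := by
    intro x y
    have h1 : ∑ i ∈ Ico u v, (eV (P.side i) x y + eH (P.side i) (x + 1) y + eV (P.side i) x (y + 1) +
        eH (P.side i) x y) = iv (P.vert u) (x + 1, y + 1) + iv (P.vert v) (x + 1, y + 1) := by
      rw [← sum_tele (fun i => iv (P.vert i) (x + 1, y + 1)) huv]
      refine sum_congr rfl fun i _ => ?_
      rw [side_vertex, vert_succ]
      rfl
    rw [sum_add_distrib, sum_add_distrib, sum_add_distrib] at h1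
    have h2 := hK x y
    have h3 := z2_add_self (KH (x + 1) y + KH x y)
    simp only [hJV, hJH]
    linear_combination h1 + h2 - h3 + z2_add_self (KH (x + 1) y + KH x y) +
      z2_add_self (iv (P.vert u) (x + 1, y + 1) + iv (P.vert v) (x + 1, y + 1))
  obtain ⟨S0, hS0⟩ := exists_pot (K := fun c => if (c.1 + c.2) % 2 = 0 then JV (pa c).1 (pa c).2
    else JH (pa c).1 (pa c).2) (by
      intro x y
      have e1 : ∀ x y : ℤ, ((hz x y).1 + (hz x y).2) % 2 = 0 := fun x y => by unfold hz; simp only; omega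
      have e2 : ∀ x y : ℤ, ¬ ((vt x y).1 + (vt x y).2) % 2 = 0 := fun x y => by
        unfold vt; simp only; omega
      simp only [e1, e2, if_true, if_false, pa_hz, pa_vt]
      exact hcl x y)
  have hSV : ∀ x y, S0 (x + 1, y) = S0 (x, y) + JV x y := by
    intro x y
    have h := hS0 (hz x y)
    rw [pa_hz, pb_hz] at h
    rw [h]
    congr 1
    have : ((hz x y).1 + (hz x y).2) % 2 = 0 := by unfold hz; simp only; omega
    simp [this]
  have hSH : ∀ x y, S0 (x, y + 1) = S0 (x, y) + JH x y := by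
    intro x y
    have h := hS0 (vt x y)
    rw [pa_vt, pb_vt] at h
    rw [h]
    congr 1
    have : ¬ ((vt x y).1 + (vt x y).2) % 2 = 0 := by unfold vt; simp only; omega
    simp only [this, if_false]
  -- edges between two cells of `Q` or of the complement
  have zV : ∀ x y, ((x, y) ∈ P.Q ↔ (x + 1, y) ∈ P.Q) → JV x y = 0 := fun x y h =>
    sum_eq_zero fun i _ => eV_zero i h
  have zH : ∀ x y, ((x, y) ∈ P.Q ↔ (x, y + 1) ∈ P.Q) → JH x y = KH x y := fun x y h => by
    simp only [hJH]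
    rw [sum_eq_zero fun i _ => eH_zero i h, zero_add]
  have zK : ∀ x y, (x, y) ∉ P.Q ∨ (x, y + 1) ∉ P.Q → KH x y = 0 := fun x y h => by
    by_contra hc
    have := hKQ x y hc
    tauto
  -- constant on the complement
  have hstep : ∀ c d : Cell, c ∉ P.Q → d ∉ P.Q → Adj4 c d → S0 d = S0 c := by
    rintro ⟨c1, c2⟩ ⟨d1, d2⟩ hc hd ⟨k, hk⟩
    rcases dir_cases k with ⟨-, e⟩ | ⟨-, e⟩ | ⟨-, e⟩ | ⟨-, e⟩ <;> rw [e] at hk <;>
      simp only [Prod.mk_add_mk, Prod.mk.injEq] at hk <;> obtain ⟨rfl, rfl⟩ := hk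
    · rw [add_zero] at hd ⊢
      rw [hSV, zV _ _ ⟨fun h => absurd h hc, fun h => absurd h hd⟩, add_zero]
    · rw [add_zero] at hd ⊢
      rw [hSH, zH _ _ ⟨fun h => absurd h hc, fun h => absurd h hd⟩, zK _ _ (Or.inl hc), add_zero]
    · rw [add_zero] at hd ⊢
      have h1 := hSV (c1 + -1) c2
      rw [show c1 + -1 + 1 = c1 by ring] at h1
      rw [h1, zV _ _ ⟨fun h => absurd h hd, fun h => absurd (by rwa [show c1 + -1 + 1 = c1 by ring] at h) hc⟩,
        add_zero]
    · rw [add_zero] at hd ⊢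
      have h1 := hSH c1 (c2 + -1)
      rw [show c2 + -1 + 1 = c2 by ring] at h1
      rw [h1, zH _ _ ⟨fun h => absurd h hd, fun h => absurd (by rwa [show c2 + -1 + 1 = c2 by ring] at h) hc⟩,
        zK _ _ (Or.inl hd), add_zero]
  have hconst : ∀ c d : Cell, c ∉ P.Q → d ∉ P.Q → S0 d = S0 c := by
    intro c d hc hd
    have h := P.good.conn_compl c (by simpa using hc) d (by simpa using hd)
    have key : ∀ e, Relation.ReflTransGen (fun a b => Adj4 a b ∧ b ∈ ((P.Q : Set Cell)ᶜ)) c e →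
        e ∉ P.Q ∧ S0 e = S0 c := by
      intro e he
      induction he with
      | refl => exact ⟨hc, rfl⟩
      | @tail b e' _ hbe ih =>
        have h2 : e' ∉ P.Q := by simpa using hbe.2
        exact ⟨h2, (hstep b e' ih.1 h2 hbe.1).trans ih.2⟩
    exact (key d h).2
  -- jump at the boundary
  have hside : ∀ i < P.N, S0 (P.side i).1 = S0 ((P.side i).1 + dir ((P.side i).2 - 1)) +
      if u ≤ i ∧ i < v then 1 else 0 := by
    intro i hi
    have hsum : ∑ j ∈ Ico u v, eS' (P.side j) (P.side i) = if u ≤ i ∧ i < v then 1 else 0 := by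
      rw [sum_congr rfl fun j hj => eS'_side hi (by
        rw [mem_Ico] at hj; omega)]
      rw [sum_ite_eq' (Ico u v) i (fun _ => (1 : ZMod 2))]
      simp only [mem_Ico]
    obtain ⟨h1, h2⟩ := side_is (P := P) i
    unfold eS' at hsum
    generalize P.side i = s at h1 h2 hsum
    obtain ⟨⟨c1, c2⟩, k⟩ := s
    simp only at h1 h2 hsum ⊢
    have hk : k % 4 = 0 ∨ k % 4 = 1 ∨ k % 4 = 2 ∨ k % 4 = 3 := by omega
    rcases hk with h | h | h | h
    · rw [dirm.1 h] at h2 ⊢
      simp only [if_pos h] at hsum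
      simp only [Prod.mk_add_mk, add_zero] at h2 ⊢
      have h3 := hSH c1 (c2 - 1)
      rw [sub_add_cancel] at h3
      rw [h3, ← sub_eq_add_neg]
      simp only [hJH]
      rw [hsum, zK _ _ (Or.inl (by rwa [← sub_eq_add_neg] at h2)), add_zero]
    · rw [dirm.2.1 h] at h2 ⊢
      simp only [if_neg (show ¬ k % 4 = 0 by omega), if_pos h] at hsum
      simp only [Prod.mk_add_mk, add_zero] at h2 ⊢
      have h3 := hSV c1 c2
      simp only [hJV] at h3
      rw [hsum] at h3
      have h4 := z2_add_self (if u ≤ i ∧ i < v then (1 : ZMod 2) else 0)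
      rw [h3]
      linear_combination -h4
    · rw [dirm.2.2.1 h] at h2 ⊢
      simp only [if_neg (show ¬ k % 4 = 0 by omega), if_neg (show ¬ k % 4 = 1 by omega), if_pos h] at hsum
      simp only [Prod.mk_add_mk, add_zero] at h2 ⊢
      have h3 := hSH c1 c2
      simp only [hJH] at h3
      rw [hsum, zK _ _ (Or.inr h2)] at h3
      have h4 := z2_add_self (if u ≤ i ∧ i < v then (1 : ZMod 2) else 0)
      rw [h3]
      linear_combination -h4
    · rw [dirm.2.2.2 h] at h2 ⊢
      simp only [if_neg (show ¬ k % 4 = 0 by omega), if_neg (show ¬ k % 4 = 1 by omega),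
        if_neg (show ¬ k % 4 = 2 by omega)] at hsum
      simp only [Prod.mk_add_mk, add_zero] at h2 ⊢
      have h3 := hSV (c1 - 1) c2
      rw [sub_add_cancel] at h3
      rw [h3, ← sub_eq_add_neg]
      simp only [hJV]
      rw [hsum]
  -- a cell outside
  obtain ⟨h0, h1⟩ := side_is (P := P) 0
  set o := (P.side 0).1 + dir ((P.side 0).2 - 1) with ho
  refine ⟨fun c => S0 c + S0 o, fun x y h2 h3 => ?_, fun x y h2 h3 => ?_, fun i hi => ?_⟩
  · beta_reduce
    rw [hSV, zV _ _ ⟨fun _ => h3, fun _ => h2⟩, add_zero]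
  · beta_reduce
    rw [hSH, zH _ _ ⟨fun _ => h3, fun _ => h2⟩]
    ring
  · beta_reduce
    rw [hside i hi, hconst o _ h1 (side_is (P := P) i).2]
    have := z2_add_self (S0 o)
    linear_combination this

/-- the side `i` is after the side `a` and before the side `b` (cyclically) -/
def Bh (a b i : ℕ) : Prop := (a < b ∧ a < i ∧ i < b) ∨ (b < a ∧ (i < b ∨ a < i))

theorem exists_cut (P : PType) {y0 X0 X1 : ℤ} (hX : X0 < X1)
    (hin : ∀ x, X0 ≤ x → x < X1 → (x, y0) ∈ P.Q ∧ (x, y0 + 1) ∈ P.Q) {a b : ℕ} (ha : a < P.N)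
    (hb : b < P.N) (hsa : (P.side a).1 = (X1 - 1, y0)) (hka : (P.side a).2 % 4 = 1)
    (hsb : (P.side b).1 = (X0, y0)) (hkb : (P.side b).2 % 4 = 3) :
    ∃ U : Cell → Prop, (∀ c, U c → c ∈ P.Q) ∧
      (∀ x y, (x, y) ∈ P.Q → (x + 1, y) ∈ P.Q → (U (x + 1, y) ↔ U (x, y))) ∧
      (∀ x y, (x, y) ∈ P.Q → (x, y + 1) ∈ P.Q → ¬ (y = y0 ∧ X0 ≤ x ∧ x < X1) →
        (U (x, y + 1) ↔ U (x, y))) ∧
      (∀ x, X0 ≤ x → x < X1 → ¬ U (x, y0) ∧ U (x, y0 + 1)) ∧
      ∀ i < P.N, U (P.side i).1 ↔ Bh a b i := by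
  classical
  have hva : P.vert (a + 1) = (X1, y0 + 1) := by
    rw [vert_succ]
    have e : dir (P.side a).2 = (0, 1) := by
      rcases dir_cases (P.side a).2 with ⟨h, e⟩ | ⟨h, e⟩ | ⟨h, e⟩ | ⟨h, e⟩ <;> first | exact e | omega
    unfold head
    rw [e]
    have : tail (P.side a) = (X1, y0) := by
      generalize P.side a = s at hsa hka
      obtain ⟨⟨c1, c2⟩, k⟩ := s
      simp only [Prod.mk.injEq] at hsa hka
      obtain ⟨rfl, rfl⟩ := hsa
      simp [tail, hka]
    rw [this]
    simp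
  have hvb : P.vert b = (X0, y0 + 1) := by
    unfold PType.vert
    generalize P.side b = s at hsb hkb
    obtain ⟨⟨c1, c2⟩, k⟩ := s
    simp only [Prod.mk.injEq] at hsb hkb
    obtain ⟨rfl, rfl⟩ := hsb
    simp [tail, hkb]
  have hab : a ≠ b := by
    rintro rfl
    omega
  set KH : ℤ → ℤ → ZMod 2 := fun x y => if y = y0 ∧ X0 ≤ x ∧ x < X1 then 1 else 0 with hKH
  have hKQ : ∀ x y, KH x y ≠ 0 → (x, y) ∈ P.Q ∧ (x, y + 1) ∈ P.Q := by
    intro x y h
    simp only [hKH, ne_eq, ite_eq_right_iff, one_ne_zero, imp_false, not_not] at h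
    obtain ⟨rfl, h1, h2⟩ := h
    exact hin x h1 h2
  have hK : ∀ x y, KH (x + 1) y + KH x y = iv (X1, y0 + 1) (x + 1, y + 1) +
      iv (X0, y0 + 1) (x + 1, y + 1) := by
    intro x y
    simp only [hKH, iv, Prod.mk.injEq]
    by_cases hy : y = y0
    · subst hy
      rcases lt_trichotomy (x + 1) X0 with h | h | h
      · rw [if_neg (by omega), if_neg (by omega), if_neg (by omega), if_neg (by omega)]
      · rw [if_pos (by omega), if_neg (by omega), if_neg (by omega), if_pos (by omega)]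
        ring
      · rcases lt_trichotomy (x + 1) X1 with h' | h' | h'
        · rw [if_pos (by omega), if_pos (by omega), if_neg (by omega), if_neg (by omega)]
          exact z2_add_self 1
        · rw [if_neg (by omega), if_pos (by omega), if_pos (by omega), if_neg (by omega)]
          ring
        · rw [if_neg (by omega), if_neg (by omega), if_neg (by omega), if_neg (by omega)]
    · rw [if_neg (by omega), if_neg (by omega), if_neg (by omega), if_neg (by omega)]
  have h01 : (0 : ZMod 2) ≠ 1 := by decide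
  have hor : ∀ z : ZMod 2, z = 0 ∨ z = 1 := by decide
  have hrow : ∀ S : Cell → ZMod 2, (∀ x y, (x, y) ∈ P.Q → (x + 1, y) ∈ P.Q → S (x + 1, y) = S (x, y)) →
      ∀ x, X0 ≤ x → x < X1 → S (x, y0) = S (X1 - 1, y0) := by
    intro S hS x h1 h2
    have key : ∀ n : ℕ, X0 ≤ X1 - 1 - n → S (X1 - 1 - n, y0) = S (X1 - 1, y0) := by
      intro n
      induction n with
      | zero => intro; simp
      | succ n ih =>
        intro h
        push_cast at h ⊢
        have h3 := hS (X1 - 1 - (n + 1)) y0 (hin _ (by omega) (by omega)).1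
          (by rw [show X1 - 1 - ((n : ℤ) + 1) + 1 = X1 - 1 - n by ring]
              exact (hin _ (by omega) (by omega)).1)
        rw [show X1 - 1 - ((n : ℤ) + 1) + 1 = X1 - 1 - n by ring] at h3
        rw [← h3]
        exact ih (by omega)
    have h3 := key (X1 - 1 - x).toNat (by rw [Int.toNat_of_nonneg (by omega)]; omega)
    rwa [Int.toNat_of_nonneg (by omega), show X1 - 1 - (X1 - 1 - x) = x by ring] at h3
  rcases lt_or_gt_of_ne hab with hlt | hlt
  · obtain ⟨S, hSV, hSH, hSi⟩ := exists_pot_arc (P := P) (KH := KH) (u := a + 1) (v := b) (by omega)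
      hb.le hKQ (by rw [hva, hvb]; exact hK)
    have h0 : S (X1 - 1, y0) = 0 := by
      rw [← hsa, hSi a ha, if_neg (by omega)]
    refine ⟨fun c => c ∈ P.Q ∧ S c = 1, fun c h => h.1, fun x y h1 h2 => ?_, fun x y h1 h2 h3 => ?_,
      fun x h1 h2 => ⟨?_, ?_⟩, fun i hi => ?_⟩
    · beta_reduce
      rw [hSV x y h1 h2]
      tauto
    · beta_reduce
      rw [hSH x y h1 h2]
      simp only [hKH, if_neg h3, add_zero]
      tauto
    · beta_reduce
      rw [hrow S hSV x h1 h2, h0]
      exact fun h => h01 h.2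
    · refine ⟨(hin x h1 h2).2, ?_⟩
      rw [hSH x y0 (hin x h1 h2).1 (hin x h1 h2).2, hrow S hSV x h1 h2, h0]
      simp [hKH, h1, h2]
    · beta_reduce
      rw [hSi i hi]
      have := (side_is (P := P) i).1
      unfold Bh
      split_ifs with h <;> simp_all <;> omega
  · obtain ⟨S, hSV, hSH, hSi⟩ := exists_pot_arc (P := P) (KH := KH) (u := b) (v := a + 1) (by omega)
      ha hKQ (by rw [hva, hvb]; intro x y; rw [hK x y, add_comm])
    have h0 : S (X1 - 1, y0) = 1 := by
      rw [← hsa, hSi a ha, if_pos (by omega)]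
    refine ⟨fun c => c ∈ P.Q ∧ S c = 0, fun c h => h.1, fun x y h1 h2 => ?_, fun x y h1 h2 h3 => ?_,
      fun x h1 h2 => ⟨?_, ?_⟩, fun i hi => ?_⟩
    · beta_reduce
      rw [hSV x y h1 h2]
      tauto
    · beta_reduce
      rw [hSH x y h1 h2]
      simp only [hKH, if_neg h3, add_zero]
      tauto
    · beta_reduce
      rw [hrow S hSV x h1 h2, h0]
      exact fun h => h01 h.2.symm
    · refine ⟨(hin x h1 h2).2, ?_⟩
      rw [hSH x y0 (hin x h1 h2).1 (hin x h1 h2).2, hrow S hSV x h1 h2, h0]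
      simp only [hKH, h1, h2, and_self, if_true]
      exact z2_add_self 1
    · beta_reduce
      rw [hSi i hi]
      have := (side_is (P := P) i).1
      unfold Bh
      split_ifs with h <;> simp_all <;> omega

end Pool.Agent.H19.W
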