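import Mathlib
import Pool.Agent.H35.W.Couple
import Pool.Agent.H35.W.Force
import Pool.Agent.H19.W.MoveC

set_option autoImplicit false
open Finset

/-! # RAISE: moving a part of a world by one row (route W, StChd), abstract part

`PB_couple` : two functionals of one coin model which agree for corresponding coins have the same probability.
`Shift` : tiles `L`, random labels `E` with blocks `b`, natural labels `N`; `S` = the part which is moved one row up;
`W1`, `W2` = open outer labels, `D1`, `D2` = deleted labels of the two worlds. World 1 is forced at the natural labels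
of `S` below solid tiles, world 2 at the natural labels above solid tiles of `S`. `Shift.state` : the states agree
after the move. `Shift.prob` : the probabilities are equal. -/

namespace Pool.Agent.H19.W

open Pool.Agent.H75.Perc (Pr Pr_congr)
open Pool.Agent.H99.W Pool.Agent.H13.W
open Pool.Agent.H58.W (PB mem_up up_subset PB_restrict PB_congr up_inter)
open Pool.Agent.H35.W (Tm PB_Tm Force mem_Force)
open Pool.Agent.H33.Q1 (lt tt lt_odd tt_lt lt_tt lt_inj)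

section couple
variable {α β : Type*} [DecidableEq α] [DecidableEq β]

/-- configuration of the coins `ζ` -/
abbrev cf (E : Finset α) (b : α → β) (ζ : Finset β) : Finset α := Pool.Agent.H58.W.up E b ζ

/-- only the coins of `O` matter -/
lemma PB_part {E O : Finset α} {b : α → β} (hO : O ⊆ E) {Ψ : Finset α → Prop}
    (h : ∀ ζ ⊆ E.image b, Ψ (cf E b ζ) ↔ Ψ (cf E b (ζ ∩ O.image b))) :
    PB E b Ψ = PB O b (fun ω => Ψ (cf E b (ω.image b))) := by
  rw [← PB_restrict hO b (fun ω => Ψ (cf E b (ω.image b)))]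
  unfold PB
  refine Pr_congr fun ζ hζ => ?_
  beta_reduce
  rw [h ζ hζ]
  have : (Pool.Agent.H58.W.up E b ζ ∩ O).image b = ζ ∩ O.image b := by
    ext c
    simp only [mem_image, mem_inter, mem_up]
    constructor
    · rintro ⟨l, ⟨⟨-, h2⟩, h3⟩, rfl⟩
      exact ⟨h2, l, h3, rfl⟩
    · rintro ⟨h1, l, h2, rfl⟩
      exact ⟨l, ⟨⟨hO h2, h1⟩, h2⟩, rfl⟩
  rw [this]

/-- **Coupling of the coins.** -/
theorem PB_couple {E : Finset α} {b : α → β} {O F : Finset α} {φ : α → α} (s1 : O ⊆ E)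
    (s2 : O.image φ ⊆ E) (hF : F ⊆ O) (hFb : ∀ l ∈ F, ∀ l' ∈ O, b l = b l' → l' ∈ F)
    (hb : ∀ l ∈ O, ∀ l' ∈ O, b l = b l' ↔ b (φ l) = b (φ l')) {Ψ1 Ψ2 : Finset α → Prop}
    (h : ∀ ζ1 ζ2 : Finset β, (∀ l ∈ O, b (φ l) ∈ ζ2 ↔ Xor (b l ∈ ζ1) (l ∈ F)) →
      (Ψ1 (cf E b ζ1) ↔ Ψ2 (cf E b ζ2))) : PB E b Ψ1 = PB E b Ψ2 := by
  classical
  have hFi : ∀ l ∈ O, ∀ l' ∈ O, b l = b l' → (l ∈ F ↔ l' ∈ F) := fun l hl l' hl' e =>
    ⟨fun k => hFb l k l' hl' e, fun k => hFb l' k l hl e.symm⟩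
  have h1 : ∀ ζ ⊆ E.image b, Ψ1 (cf E b ζ) ↔ Ψ1 (cf E b (ζ ∩ O.image b)) := by
    intro ζ _
    set ζ2 : Finset β := (O.filter fun l => Xor (b l ∈ ζ) (l ∈ F)).image (fun l => b (φ l)) with hζ2
    have key : ∀ l ∈ O, b (φ l) ∈ ζ2 ↔ Xor (b l ∈ ζ) (l ∈ F) := by
      intro l hl
      rw [hζ2, mem_image]
      constructor
      · rintro ⟨l', h2, h3⟩
        rw [mem_filter] at h2
        have h4 := (hb l' h2.1 l hl).2 h3
        rw [← h4, ← hFi l' h2.1 l hl h4]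
        exact h2.2
      · exact fun h2 => ⟨l, mem_filter.2 ⟨hl, h2⟩, rfl⟩
    rw [h ζ ζ2 key, h (ζ ∩ O.image b) ζ2]
    intro l hl
    rw [key l hl, mem_inter]
    have : b l ∈ O.image b := mem_image_of_mem _ hl
    by_cases a1 : b l ∈ ζ <;> by_cases a2 : l ∈ F <;> simp [a1, a2, this, Xor]
  have h2 : ∀ ζ ⊆ E.image b, Ψ2 (cf E b ζ) ↔ Ψ2 (cf E b (ζ ∩ (O.image φ).image b)) := by
    intro ζ _
    set ζ1 : Finset β := (O.filter fun l => Xor (b (φ l) ∈ ζ) (l ∈ F)).image b with hζ1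
    have key : ∀ l ∈ O, b l ∈ ζ1 ↔ Xor (b (φ l) ∈ ζ) (l ∈ F) := by
      intro l hl
      rw [hζ1, mem_image]
      constructor
      · rintro ⟨l', h2, h3⟩
        rw [mem_filter] at h2
        have h4 := (hb l' h2.1 l hl).1 h3
        rw [← h4, ← hFi l' h2.1 l hl h3]
        exact h2.2
      · exact fun h2 => ⟨l, mem_filter.2 ⟨hl, h2⟩, rfl⟩
    rw [← h ζ1 ζ, ← h ζ1 (ζ ∩ (O.image φ).image b)]
    · intro l hl
      rw [key l hl, mem_inter]
      have : b (φ l) ∈ (O.image φ).image b := mem_image_of_mem _ (mem_image_of_mem _ hl)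
      by_cases a1 : b (φ l) ∈ ζ <;> by_cases a2 : l ∈ F <;> simp [a1, a2, this, Xor]
    · intro l hl
      rw [key l hl]
      by_cases a1 : b (φ l) ∈ ζ <;> by_cases a2 : l ∈ F <;> simp [a1, a2, Xor]
  rw [PB_part s1 h1, PB_part s2 h2, PB_Tm hF hFb hb]
  unfold PB
  refine Pr_congr fun ζ hζ => ?_
  beta_reduce
  apply h
  intro l hl
  have e1 : b l ∈ (Pool.Agent.H58.W.up O b ζ).image b ↔ b l ∈ ζ := by
    rw [mem_image]
    constructor
    · rintro ⟨l', h3, h4⟩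
      rw [← h4]
      exact (mem_up.1 h3).2
    · exact fun h3 => ⟨l, mem_up.2 ⟨hl, h3⟩, rfl⟩
  rw [e1]
  unfold Tm
  rw [mem_image]
  constructor
  · rintro ⟨l2, h3, h4⟩
    obtain ⟨l', h5, rfl⟩ := mem_image.1 h3
    have hl' : l' ∈ O := by
      rw [mem_symmDiff] at h5
      rcases h5 with h5 | h5
      · exact (mem_up.1 h5.1).1
      · exact hF h5.1
    have h6 := (hb l' hl' l hl).2 h4
    rw [← h6, ← hFi l' hl' l hl h6]
    rw [mem_symmDiff, mem_up] at h5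
    unfold Xor
    tauto
  · intro h3
    refine ⟨φ l, mem_image_of_mem _ ?_, rfl⟩
    rw [mem_symmDiff, mem_up]
    unfold Xor at h3
    tauto

end couple

/-! ### The data of a shift -/

/-- **The data of a shift** (see the header). -/
structure Shift {β : Type*} (L E : Finset (ℤ × ℤ)) (b : ℤ × ℤ → β) (N S D1 D2 : Set (ℤ × ℤ))
    (W1 W2 : Finset (ℤ × ℤ)) : Prop where
  odd : ∀ e ∈ L, (e.1 + e.2) % 2 = 1
  sub : E ⊆ L
  SL : ∀ e ∈ S, e ∈ L
  nE : ∀ e ∈ N, e ∈ E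
  own : ∀ e ∈ N, ∀ l ∈ E, b l = b e → l = e
  oW1 : ∀ e ∈ E, e ∉ W1
  oW2 : ∀ e ∈ E, e ∉ W2
  /-- blocks are moved as a whole -/
  pS : ∀ e ∈ E, ∀ l ∈ E, b l = b e → e ∈ S → l ∈ S
  /-- a plate of `S` has two rows -/
  pl2 : ∀ e ∈ E, e ∈ S → e ∉ N → ∃ l ∈ E, l ∈ S ∧ b l = b e ∧ up l ∈ E ∧ b (up l) = b e
  /-- vertical neighbours: plate, plate -/
  pp : ∀ e ∈ S, e ∈ E → e ∉ N → up e ∈ E → up e ∉ N → b (up e) = b e
  /-- plate, outer -/
  po : ∀ e ∈ S, e ∈ E → e ∉ N → up e ∈ L → up e ∈ E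
  /-- outer, plate -/
  op : ∀ e ∈ S, e ∉ E → up e ∈ E → up e ∈ N
  /-- outer, outer -/
  oo : ∀ e ∈ S, e ∉ E → up e ∈ L → up e ∉ E → (up e ∈ W2 ↔ e ∉ W1)
  /-- natural, outer -/
  no : ∀ e ∈ S, e ∈ N → up e ∈ L → up e ∉ E → (up e ∈ W2 ↔ up e ∉ W1)
  /-- outer, natural -/
  on : ∀ e ∈ S, e ∉ E → up e ∈ N → (e ∈ W2 ↔ e ∉ W1)
  /-- top of `S` -/
  tp : ∀ e ∈ S, up e ∈ L → up e ∉ S → up e ∈ D1
  tN : ∀ e ∈ S, up e ∈ E → up e ∉ S → up e ∈ N
  /-- the other labels -/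
  pn : ∀ e ∈ L, e ∉ S → e ∉ D1 → e ∉ D2 ∧ (e ∉ E → (e ∈ W2 ↔ e ∈ W1))
  ds : ∀ e ∈ S, up e ∈ D2 ↔ e ∈ D1

section shift
variable {β : Type*} {L E : Finset (ℤ × ℤ)} {b : ℤ × ℤ → β} {N S D1 D2 : Set (ℤ × ℤ)}
  {W1 W2 : Finset (ℤ × ℤ)}

open Classical in
/-- forced labels of world 1 -/
noncomputable def FU (E : Finset (ℤ × ℤ)) (N S : Set (ℤ × ℤ)) : Finset (ℤ × ℤ) :=
  E.filter fun e => e ∈ N ∧ e ∈ S ∧ up e ∉ N

open Classical in
/-- forced labels of world 2 -/
noncomputable def FL (E : Finset (ℤ × ℤ)) (N S : Set (ℤ × ℤ)) : Finset (ℤ × ℤ) :=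
  E.filter fun e => e ∈ N ∧ dn e ∈ S ∧ dn e ∉ N

open Classical in
/-- the labels whose coins matter in world 1 -/
noncomputable def OO (E : Finset (ℤ × ℤ)) (b : ℤ × ℤ → β) (N S : Set (ℤ × ℤ)) : Finset (ℤ × ℤ) :=
  E.filter fun l => (l ∉ S ∧ dn l ∉ S) ∨
    (l ∈ S ∧ up l ∈ E ∧ ((l ∈ N ∧ up l ∈ N) ∨ b (up l) = b l))

lemma mem_FU {e : ℤ × ℤ} : e ∈ FU E N S ↔ e ∈ E ∧ e ∈ N ∧ e ∈ S ∧ up e ∉ N := by
  classical
  unfold FU
  rw [mem_filter]

lemma mem_FL {e : ℤ × ℤ} : e ∈ FL E N S ↔ e ∈ E ∧ e ∈ N ∧ dn e ∈ S ∧ dn e ∉ N := by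
  classical
  unfold FL
  rw [mem_filter]

lemma mem_OO {l : ℤ × ℤ} : l ∈ OO E b N S ↔ l ∈ E ∧ ((l ∉ S ∧ dn l ∉ S) ∨
    (l ∈ S ∧ up l ∈ E ∧ ((l ∈ N ∧ up l ∈ N) ∨ b (up l) = b l))) := by
  classical
  unfold OO
  rw [mem_filter]

lemma up_ne (e : ℤ × ℤ) : up e ≠ e := by
  intro h
  unfold up at h
  have := congrArg Prod.fst h
  simp only at this
  omega

/-- states of world 1 -/
noncomputable def s1 (E : Finset (ℤ × ℤ)) (N S : Set (ℤ × ℤ)) (W1 : Finset (ℤ × ℤ))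
    (ω : Finset (ℤ × ℤ)) : Finset (ℤ × ℤ) := Force (FU E N S) up (ω ∪ W1)

/-- states of world 2 -/
noncomputable def s2 (E : Finset (ℤ × ℤ)) (N S : Set (ℤ × ℤ)) (W2 : Finset (ℤ × ℤ))
    (ω : Finset (ℤ × ℤ)) : Finset (ℤ × ℤ) := Force (FL E N S) dn (ω ∪ W2)

/-- the states agree after the move -/
structure Agr (L : Finset (ℤ × ℤ)) (S D1 : Set (ℤ × ℤ)) (w1 w2 : Finset (ℤ × ℤ)) : Prop where
  pl : ∀ e ∈ L, e ∉ S → e ∉ D1 → (e ∈ w2 ↔ e ∈ w1)
  st : ∀ e ∈ S, up e ∈ L → (up e ∈ w2 ↔ e ∉ w1)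

/-- **The states agree after the move.** -/
theorem Shift.agr [DecidableEq β] (H : Shift L E b N S D1 D2 W1 W2) {ζ1 ζ2 : Finset β}
    (h : ∀ l ∈ OO E b N S, b (mv S l) ∈ ζ2 ↔ Xor (b l ∈ ζ1) (l ∈ S)) :
    Agr L S D1 (s1 E N S W1 (cf E b ζ1)) (s2 E N S W2 (cf E b ζ2)) := by
  -- coins of the plates
  have hpl : ∀ e ∈ E, e ∈ S → e ∉ N → (b e ∈ ζ2 ↔ b e ∉ ζ1) := by
    intro e h1 h2 h3
    obtain ⟨l, k1, k2, k3, k4, k5⟩ := H.pl2 e h1 h2 h3
    have := h l (mem_OO.2 ⟨k1, Or.inr ⟨k2, k4, Or.inr (k5.trans k3.symm)⟩⟩)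
    rw [mv_in k2, k5, k3] at this
    rw [this]
    unfold Xor
    tauto
  have hE1 : ∀ e ∈ E, (e ∈ cf E b ζ1 ∪ W1 ↔ b e ∈ ζ1) := by
    intro e h1
    rw [mem_union, mem_up]
    have := H.oW1 e h1
    tauto
  have hE2 : ∀ e ∈ E, (e ∈ cf E b ζ2 ∪ W2 ↔ b e ∈ ζ2) := by
    intro e h1
    rw [mem_union, mem_up]
    have := H.oW2 e h1
    tauto
  have hO1 : ∀ e ∉ E, (e ∈ cf E b ζ1 ∪ W1 ↔ e ∈ W1) := by
    intro e h1
    rw [mem_union, mem_up]
    tauto
  have hO2 : ∀ e ∉ E, (e ∈ cf E b ζ2 ∪ W2 ↔ e ∈ W2) := by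
    intro e h1
    rw [mem_union, mem_up]
    tauto
  refine ⟨fun e h1 h2 h3 => ?_, fun e h1 h2 => ?_⟩
  · have hd : dn e ∉ S := by
      intro h4
      have h5 := H.tp (dn e) h4
      rw [up_dn] at h5
      exact h3 (h5 h1 h2)
    have f1 : e ∉ FU E N S := fun h => h2 (mem_FU.1 h).2.2.1
    have f2 : e ∉ FL E N S := fun h => hd (mem_FL.1 h).2.2.1
    unfold s1 s2
    rw [mem_Force, mem_Force]
    simp only [f1, f2, not_false_eq_true, true_and, false_and, or_false]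
    by_cases hE : e ∈ E
    · rw [hE1 e hE, hE2 e hE]
      have := h e (mem_OO.2 ⟨hE, Or.inl ⟨h2, hd⟩⟩)
      rw [mv_out h2] at this
      rw [this]
      unfold Xor
      tauto
    · rw [hO1 e hE, hO2 e hE]
      exact (H.pn e h1 h2 h3).2 hE
  · unfold s1 s2
    rw [mem_Force, mem_Force]
    by_cases hE : e ∈ E <;> by_cases hN : e ∈ N
    · by_cases hE' : up e ∈ E
      · by_cases hN' : up e ∈ N
        · -- natural, natural
          have f1 : e ∉ FU E N S := fun h => (mem_FU.1 h).2.2.2 hN'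
          have f2 : up e ∉ FL E N S := fun h => (mem_FL.1 h).2.2.2 (by rw [dn_up]; exact hN)
          simp only [f1, f2, not_false_eq_true, true_and, false_and, or_false]
          rw [hE1 e hE, hE2 _ hE']
          have := h e (mem_OO.2 ⟨hE, Or.inr ⟨h1, hE', Or.inl ⟨hN, hN'⟩⟩⟩)
          rw [mv_in h1] at this
          rw [this]
          unfold Xor
          tauto
        · -- natural, plate
          have f1 : e ∈ FU E N S := mem_FU.2 ⟨hE, hN, h1, hN'⟩
          have f2 : up e ∉ FL E N S := fun h => hN' (mem_FL.1 h).2.1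
          simp only [f1, f2, not_false_eq_true, true_and, false_and, or_false, false_or, not_true_eq_false]
          rw [hE1 _ hE', hE2 _ hE']
          refine hpl _ hE' ?_ hN'
          by_contra h3
          exact hN' (H.tN e h1 hE' h3)
      · -- natural, outer
        have f1 : e ∈ FU E N S := mem_FU.2 ⟨hE, hN, h1, fun h => hE' (H.nE _ h)⟩
        have f2 : up e ∉ FL E N S := fun h => hE' (mem_FL.1 h).1
        simp only [f1, f2, not_false_eq_true, true_and, false_and, or_false, false_or, not_true_eq_false]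
        rw [hO1 _ hE', hO2 _ hE']
        exact H.no e h1 hN h2 hE'
    · have hE' := H.po e h1 hE hN h2
      have f1 : e ∉ FU E N S := fun h => hN (mem_FU.1 h).2.1
      by_cases hN' : up e ∈ N
      · -- plate, natural
        have f2 : up e ∈ FL E N S := mem_FL.2 ⟨hE', hN', by rw [dn_up]; exact ⟨h1, hN⟩⟩
        simp only [f1, f2, not_false_eq_true, true_and, false_and, or_false, false_or, not_true_eq_false]
        rw [dn_up, hE1 _ hE, hE2 _ hE]
        exact hpl e hE h1 hN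
      · -- plate, plate
        have f2 : up e ∉ FL E N S := fun h => hN' (mem_FL.1 h).2.1
        simp only [f1, f2, not_false_eq_true, true_and, false_and, or_false]
        rw [hE1 _ hE, hE2 _ hE', H.pp e h1 hE hN hE' hN']
        exact hpl e hE h1 hN
    · exact absurd (H.nE e hN) hE
    · have f1 : e ∉ FU E N S := fun h => hN (mem_FU.1 h).2.1
      by_cases hE' : up e ∈ E
      · -- outer, natural
        have hN' := H.op e h1 hE hE'
        have f2 : up e ∈ FL E N S := mem_FL.2 ⟨hE', hN', by rw [dn_up]; exact ⟨h1, hN⟩⟩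
        simp only [f1, f2, not_false_eq_true, true_and, false_and, or_false, false_or, not_true_eq_false]
        rw [dn_up, hO1 _ hE, hO2 _ hE]
        exact H.on e h1 hE hN'
      · -- outer, outer
        have f2 : up e ∉ FL E N S := fun h => hE' (mem_FL.1 h).1
        simp only [f1, f2, not_false_eq_true, true_and, false_and, or_false]
        rw [hO1 _ hE, hO2 _ hE']
        exact H.oo e h1 hE h2 hE'

/-- **The probabilities are equal.** -/
theorem Shift.prob [DecidableEq β] (H : Shift L E b N S D1 D2 W1 W2) {Φ1 Φ2 : Finset (ℤ × ℤ) → Prop}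
    (h : ∀ ω1 ⊆ E, ∀ ω2 ⊆ E, Agr L S D1 (s1 E N S W1 ω1) (s2 E N S W2 ω2) →
      (Φ1 (s1 E N S W1 ω1) ↔ Φ2 (s2 E N S W2 ω2))) :
    PB E b (fun ω => Φ1 (s1 E N S W1 ω)) = PB E b (fun ω => Φ2 (s2 E N S W2 ω)) := by
  classical
  apply PB_couple (O := OO E b N S) (F := (OO E b N S).filter fun l => l ∈ S) (φ := mv S)
  · exact fun l hl => (mem_OO.1 hl).1
  · intro l hl
    obtain ⟨l', h1, rfl⟩ := mem_image.1 hl
    obtain ⟨h2, ⟨h3, -⟩ | ⟨h3, h4, -⟩⟩ := mem_OO.1 h1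
    · rw [mv_out h3]; exact h2
    · rw [mv_in h3]; exact h4
  · exact filter_subset _ _
  · intro l hl l' hl' hb
    rw [mem_filter] at hl ⊢
    exact ⟨hl', H.pS l (mem_OO.1 hl.1).1 l' (mem_OO.1 hl').1 hb.symm hl.2⟩
  · intro l hl l' hl'
    obtain ⟨h1, h2⟩ := mem_OO.1 hl
    obtain ⟨h1', h2'⟩ := mem_OO.1 hl'
    have hmix : ∀ l ∈ E, l ∉ S → dn l ∉ S → ∀ l' ∈ E, l' ∈ S → up l' ∈ E →
        ((l' ∈ N ∧ up l' ∈ N) ∨ b (up l') = b l') → (b l = b l' ↔ b l = b (up l')) := by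
      intro l k1 k2 k3 l' k4 k5 k6 k7
      have a1 : b l ≠ b l' := fun e => k2 (H.pS l' k4 l k1 e k5)
      have a2 : b l ≠ b (up l') := by
        intro e
        rcases k7 with ⟨k7, k8⟩ | k7
        · have := H.own _ k8 l k1 e
          rw [this, dn_up] at k3
          exact k3 k5
        · exact a1 (e.trans k7)
      exact ⟨fun e => absurd e a1, fun e => absurd e a2⟩
    rcases h2 with ⟨h3, h4⟩ | ⟨h3, h4, h5⟩ <;> rcases h2' with ⟨h3', h4'⟩ | ⟨h3', h4', h5'⟩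
    · rw [mv_out h3, mv_out h3']
    · rw [mv_out h3, mv_in h3']
      exact hmix l h1 h3 h4 l' h1' h3' h4' h5'
    · rw [mv_in h3, mv_out h3']
      have := hmix l' h1' h3' h4' l h1 h3 h4 h5
      exact ⟨fun e => (this.1 e.symm).symm, fun e => (this.2 e.symm).symm⟩
    · rw [mv_in h3, mv_in h3']
      rcases h5 with ⟨h5, h6⟩ | h5
      · constructor
        · intro e
          rw [H.own l h5 l' h1' e.symm]
        · intro e
          rw [up_inj (H.own _ h6 _ h4' e.symm)]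
      · rcases h5' with ⟨h5', h6'⟩ | h5'
        · constructor
          · intro e
            rw [H.own l' h5' l h1 e]
          · intro e
            rw [up_inj (H.own _ h6' _ h4 e)]
        · rw [h5, h5']
  · intro ζ1 ζ2 h1
    apply h _ (up_subset _ _ _) _ (up_subset _ _ _)
    apply H.agr
    intro l hl
    rw [h1 l hl, mem_filter]
    have : l ∈ OO E b N S := hl
    by_cases a : l ∈ S <;> simp [a, this, Xor]

/-- the forced states are again the states of a configuration -/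
lemma Shift.s1_eq (H : Shift L E b N S D1 D2 W1 W2) {ω : Finset (ℤ × ℤ)} (hω : ω ⊆ E) :
    ∃ ω' ⊆ E, s1 E N S W1 ω = ω' ∪ W1 := by
  classical
  refine ⟨(s1 E N S W1 ω).filter fun e => e ∈ E, fun e he => (mem_filter.1 he).2, ?_⟩
  ext e
  rw [mem_union, mem_filter]
  constructor
  · intro h
    by_cases he : e ∈ E
    · exact Or.inl ⟨h, he⟩
    · unfold s1 at h
      rw [mem_Force] at h
      rcases h with ⟨-, h⟩ | ⟨h, -⟩
      · rcases mem_union.1 h with h | h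
        · exact absurd (hω h) he
        · exact Or.inr h
      · exact absurd (mem_FU.1 h).1 he
  · rintro (h | h)
    · exact h.1
    · unfold s1
      rw [mem_Force]
      have : e ∉ E := fun he => H.oW1 e he h
      exact Or.inl ⟨fun hf => this (mem_FU.1 hf).1, mem_union_right _ h⟩

lemma Shift.s2_eq (H : Shift L E b N S D1 D2 W1 W2) {ω : Finset (ℤ × ℤ)} (hω : ω ⊆ E) :
    ∃ ω' ⊆ E, s2 E N S W2 ω = ω' ∪ W2 := by
  classical
  refine ⟨(s2 E N S W2 ω).filter fun e => e ∈ E, fun e he => (mem_filter.1 he).2, ?_⟩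
  ext e
  rw [mem_union, mem_filter]
  constructor
  · intro h
    by_cases he : e ∈ E
    · exact Or.inl ⟨h, he⟩
    · unfold s2 at h
      rw [mem_Force] at h
      rcases h with ⟨-, h⟩ | ⟨h, -⟩
      · rcases mem_union.1 h with h | h
        · exact absurd (hω h) he
        · exact Or.inr h
      · exact absurd (mem_FL.1 h).1 he
  · rintro (h | h)
    · exact h.1
    · unfold s2
      rw [mem_Force]
      have : e ∉ E := fun he => H.oW2 e he h
      exact Or.inl ⟨fun hf => this (mem_FL.1 hf).1, mem_union_right _ h⟩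

end shift

end Pool.Agent.H19.W
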