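import Mathlib
import Pool.Agent.H19.W.RCore

set_option autoImplicit false
open Finset

/-! # RAISE: the graph part

`LH`, `wH` : the common world of world 1 moved up and world 2. `cutSim` : world 1 is simulated by the common world (part
`S` cut off by a deleted row: `CutOK`). `allSim` : the same when everything is moved. `far_core` : equality of the far
ends. -/

namespace Pool.Agent.H19.W

open Pool.Agent.H75.Perc Pool.Agent.H75.TwoArm Pool.Agent.H99.W Pool.Agent.H13.W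
open Pool.Agent.H33.Q1 (lt tt lt_odd tt_lt lt_tt lt_inj)

variable {L : Finset (ℤ × ℤ)} {S D1 D2 : Set (ℤ × ℤ)} {w1 w2 : Finset (ℤ × ℤ)} {e c d z : ℤ × ℤ}

/-- the tiles of the common world -/
def LH (L : Finset (ℤ × ℤ)) (S : Set (ℤ × ℤ)) : Set (ℤ × ℤ) := {e | e ∈ L ∨ dn e ∈ S}

open Classical in
/-- the open labels of the common world -/
noncomputable def wH (L w1 w2 : Finset (ℤ × ℤ)) : Finset (ℤ × ℤ) :=
  (L.filter fun e => e ∈ w2) ∪ ((L.image up).filter fun e => e ∉ L ∧ dn e ∉ w1)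

lemma mem_wH_L (h : e ∈ L) : e ∈ wH L w1 w2 ↔ e ∈ w2 := by
  classical
  unfold wH
  rw [mem_union, mem_filter, mem_filter]
  tauto

lemma mem_wH_up (h : e ∈ L) (h' : up e ∉ L) : up e ∈ wH L w1 w2 ↔ e ∉ w1 := by
  classical
  unfold wH
  rw [mem_union, mem_filter, mem_filter, dn_up]
  have : up e ∈ L.image up := mem_image_of_mem _ h
  tauto

lemma Agr.hat (A : Agr L S D1 w1 w2) (hS : e ∈ S) (hL : e ∈ L) : up e ∈ wH L w1 w2 ↔ e ∉ w1 := by
  by_cases h : up e ∈ L
  · rw [mem_wH_L h]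
    exact A.st e hS h
  · exact mem_wH_up hL h

/-- world 2 is a part of the common world -/
lemma reach_hat (h : (SG (L : Set (ℤ × ℤ)) D2 w2).Reachable c d) :
    (SG (LH L S) D2 (wH L w1 w2)).Reachable c d := by
  refine h.mono fun a b hab => ?_
  obtain ⟨e, he, hT⟩ := hab
  exact ⟨e, Or.inl he, (TJ_congr Iff.rfl (fun _ => (mem_wH_L he).symm)).1 hT⟩

/-- **`S` is cut off by deleted rows.** -/
structure CutOK (L : Finset (ℤ × ℤ)) (S D1 D2 : Set (ℤ × ℤ)) : Prop where
  sD : ∀ e ∈ S, e ∉ D1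
  eas : ∀ e ∈ S, ea e ∈ L → ea e ∈ S
  wes : ∀ e ∈ S, we e ∈ L → we e ∈ S
  dns : ∀ e ∈ S, dn e ∈ L → dn e ∉ D1
  bot : ∀ e ∈ S, dn e ∈ L → dn e ∉ S → e ∈ D2
  stay : ∀ e ∈ L, e ∈ D1 → dn e ∉ S → e ∈ D2

section
variable {β : Type*} {E : Finset (ℤ × ℤ)} {b : ℤ × ℤ → β} {N : Set (ℤ × ℤ)} {W1 W2 : Finset (ℤ × ℤ)}

theorem Shift.strip (H : Shift L E b N S D1 D2 W1 W2) (C : CutOK L S D1 D2) (A : Agr L S D1 w1 w2) :
    StripMove (L : Set (ℤ × ℤ)) (LH L S) D1 D2 w1 (wH L w1 w2) ∅ S := by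
  apply StripOK.move
  · exact
      { odd := fun e he => H.odd e he
        sD := fun e _ _ h => C.sD e h
        eas := fun e _ _ h1 h2 _ => C.eas e h1 h2
        wes := fun e _ _ h1 h2 _ => C.wes e h1 h2
        ups := fun e _ _ h1 h2 _ => by
          by_cases h3 : up e ∈ S
          · exact Or.inl h3
          · exact Or.inr (H.tp e h1 h2 h3)
        dns := fun e _ _ h1 h2 _ => C.dns e h1 h2
        dd := fun e _ _ _ h1 => ⟨H.SL _ h1, fun h => h⟩ }
  · exact
      { plain := fun e h1 _ h2 h3 => ⟨Or.inl h1, (H.pn e h1 h2 h3).1, by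
          rw [mem_wH_L h1]
          exact A.pl e h1 h2 h3⟩
        strip := fun e h1 _ h2 => ⟨Or.inr (by rw [dn_up]; exact h2), fun h3 =>
          C.sD e h2 ((H.ds e h2).1 h3), A.hat h2 h1⟩
        stay := fun e h1 _ h2 h3 => ⟨Or.inl h1, C.stay e h1 h2 h3⟩
        bot := fun e h1 _ h2 h3 _ h4 => ⟨Or.inl h1, C.bot e h2 h3 h4⟩ }

/-- **World 1 is simulated by the common world** (part cut off). -/
theorem cutSim (H : Shift L E b N S D1 D2 W1 W2) (C : CutOK L S D1 D2) (A : Agr L S D1 w1 w2)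
    {x : ℤ × ℤ} (hz : SR (L : Set (ℤ × ℤ)) D1 ∅ S z z)
    (h : (SG (L : Set (ℤ × ℤ)) D1 w1).Reachable z x) :
    ∃ x', SR (L : Set (ℤ × ℤ)) D1 ∅ S x x' ∧ (SG (LH L S) D2 (wH L w1 w2)).Reachable z x' := by
  have h' : (SG ((L : Set (ℤ × ℤ)) \ ∅) D1 w1).Reachable z x := by
    rw [Set.diff_empty]
    exact h
  exact (H.strip C A).reach h' hz

/-- **World 1 is simulated by the common world** (everything is moved). -/
theorem allSim (H : Shift L E b N S D1 D2 W1 W2) (hS : ∀ e ∈ L, e ∈ S) (A : Agr L S D1 w1 w2)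
    {x : ℤ × ℤ} (h : (SG (L : Set (ℤ × ℤ)) D1 w1).Reachable z x) :
    (SG (LH L S) D2 (wH L w1 w2)).Reachable (up z) (up x) := by
  obtain ⟨p⟩ := h
  induction p with
  | nil => exact SimpleGraph.Reachable.refl _
  | @cons c d x hcd _ ih =>
    refine SimpleGraph.Reachable.trans ?_ ih
    obtain ⟨e, he, hT⟩ := hcd
    have heL : e ∈ L := he
    have heS := hS e heL
    have hL : up e ∈ LH L S := Or.inr (by rw [dn_up]; exact heS)
    by_cases hD : e ∈ D1
    · have hD2 : up e ∈ D2 := (H.ds e heS).2 hD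
      have hT' : TJ D2 (wH L w1 w2) (up e) (up c) (up d) := by
        refine Or.inl ⟨hD2, odd_up.2 (H.odd e heL), ?_⟩
        rcases hT with ⟨-, -, ⟨h1, h2⟩ | ⟨h1, h2⟩⟩ | ⟨h, -⟩
        · left
          rw [h1, h2]
          unfold up eS eN
          constructor <;> simp
        · right
          rw [h1, h2]
          unfold up eS eN
          constructor <;> simp
        · exact absurd hD h
      exact SimpleGraph.Adj.reachable ⟨up e, hL, hT'⟩
    · exact SimpleGraph.Adj.reachable ⟨up e, hL, hT.up hD (fun h => hD ((H.ds e heS).1 h))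
        (A.hat heS heL)⟩

end

/-- **Equality of the far ends** from simulations into a common world. -/
theorem far_core {α ι : Type*} {G1 G2 G : SimpleGraph α} (hd : Deg2 G) {z1 z2 z' : α} {x1 x2 e : ι → α}
    (h1 : ∀ j, G1.Reachable z1 (x1 j) → G.Reachable z' (e j))
    (h2 : ∀ j, G2.Reachable z2 (x2 j) → G.Reachable z' (e j))
    (ex1 : ∃ j, G1.Reachable z1 (x1 j)) (ex2 : ∃ j, G2.Reachable z2 (x2 j))
    (hz : IsEnd G z') (he : ∀ j, IsEnd G (e j)) (hne : ∀ j, z' ≠ e j)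
    (inj : Function.Injective e) (j : ι) :
    G1.Reachable z1 (x1 j) ↔ G2.Reachable z2 (x2 j) := by
  have key : ∀ i j, G.Reachable z' (e i) → G.Reachable z' (e j) → i = j := by
    intro i j hi hj
    rcases ends_two hd hz (he i) (he j) hi hj (hne i) with h | h
    · exact absurd h.symm (hne j)
    · exact inj h.symm
  constructor
  · intro h
    obtain ⟨i, hi⟩ := ex2
    rw [key j i (h1 j h) (h2 i hi)]
    exact hi
  · intro h
    obtain ⟨i, hi⟩ := ex1
    rw [key j i (h2 j h) (h1 i hi)]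
    exact hi

end Pool.Agent.H19.W
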