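import Mathlib
import Pool.Agent.H19.W.VW
import Pool.Agent.H19.W.Cut
import Pool.Agent.H19.W.RGraph

set_option autoImplicit false
open Finset

/-! # RAISE: definitions for the coherent worlds of a polygon

`NatS` : natural labels. `ac` : the cell of `Q` to which a tile is attached (the cell of the side of an outer tile).
`RgS R` : the labels of the part `R` (`R c y` : the tiles attached to the cell `c` in the row `y`).
`s1`, `s2` (RCore) : the forced states. `XA` : the alive one of the two loose sides at the vertex `i + 1`. -/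

namespace Pool.Agent.H19.W

open Pool.Agent.Q1.M4 (Cell PType IsSide nextSide tail head)
open Pool.Agent.H33.Q1 (lt tt ct TL)
open Pool.Agent.H21.FM (Shape EE)
open Pool.Agent.H13.W Pool.Agent.H99.W
open Pool.Agent.H50.W (bk)
open Pool.Agent.H58.W (PB)
open Pool.Agent.H37.W (dg)

/-- natural labels -/
def NatS {β : Type*} (Q : Finset Cell) (n : ℤ) (pl : Cell → Option β) : Set (ℤ × ℤ) :=
  {e | (e.1 + e.2) % 2 = 1 ∧ ct n (tt e) ∈ Q ∧ pl (ct n (tt e)) = none}

open Classical in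
/-- the cell of `Q` to which the tile `p` is attached -/
noncomputable def ac (Q : Finset Cell) (n : ℤ) (p : ℤ × ℤ) : Cell :=
  if ct n p ∈ Q then ct n p else (sd Q n p).1

/-- labels of the part `R` of the polygon -/
def RgS (Q : Finset Cell) (n : ℤ) (R : Cell → ℤ → Prop) : Set (ℤ × ℤ) :=
  {e | e ∈ LamC Q n ∧ R (ac Q n (tt e)) (tt e).2}

section
variable {β : Type*} [DecidableEq β]

/-- **ORL at the ceilings** of the part `R` -/
def OrlU (P : PType) (n : ℤ) (κ : ℕ → ℤ → Prop) (pl : Cell → Option β) (R : Cell → ℤ → Prop)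
    (Φ : Finset (ℤ × ℤ) → Prop) (ε : ℝ) : Prop :=
  PB (TL P.Q n) (bk n pl) (fun ω => Φ (s1 (TL P.Q n) (NatS P.Q n pl) (RgS P.Q n R) (WC P n κ) ω) ≠
    Φ (ω ∪ WC P n κ)) ≤ ε

/-- **ORL at the floors** of the part `R` -/
def OrlL (P : PType) (n : ℤ) (κ : ℕ → ℤ → Prop) (pl : Cell → Option β) (R : Cell → ℤ → Prop)
    (Φ : Finset (ℤ × ℤ) → Prop) (ε : ℝ) : Prop :=
  PB (TL P.Q n) (bk n pl) (fun ω => Φ (s2 (TL P.Q n) (NatS P.Q n pl) (RgS P.Q n R) (WC P n κ) ω) ≠
    Φ (ω ∪ WC P n κ)) ≤ ε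

end

/-- the diagonal tile at the vertex `i + 1` joins its south and east side -/
def tyA (S : Shape) (h : ℕ) (κ : ℕ → ℤ → Prop) (i : ℕ) : Prop :=
  (dg S h i).1 % 2 = 1 ↔ dg S h i ∉ WC S.P (2 * h) κ

open Classical in
/-- **The alive loose side** at the vertex `i + 1`. -/
noncomputable def XA (S : Shape) (h : ℕ) (κ : ℕ → ℤ → Prop) (i : ℕ) : ℤ × ℤ :=
  if (S.k i % 2 = 1 ↔ tyA S h κ i) then X1 S h i else X2 S h i

/-- vertex before the mark `j` -/
def mkI (S : Shape) (j : Fin 3) : ℕ := if j = 0 then S.N - 1 else if j = 1 then S.m2 - 1 else S.m3 - 1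

end Pool.Agent.H19.W
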