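import Mathlib
import Pool.Agent.H19.W.RDef

set_option autoImplicit false
set_option linter.unusedVariables false
open Finset

/-! # RAISE: closure of a part of the polygon under neighbours (tiles and one layer around) -/

namespace Pool.Agent.H19.W

open Pool.Agent.Q1.M4 (Cell PType Good IsSide nextSide tail head)
open Pool.Agent.H33.Q1 (lt tt ct TL lt_odd tt_lt lt_tt lt_inj mem_TL)
open Pool.Agent.H13.W Pool.Agent.H99.W

/-! ### Division -/

/-- cells of three consecutive tiles -/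
lemma div3 {n : ℤ} (hn : 2 ≤ n) (x : ℤ) :
    ((x - 1) / n = x / n ∧ (x + 1) / n = x / n) ∨ ((x - 1) / n = x / n - 1 ∧ (x + 1) / n = x / n) ∨
      ((x - 1) / n = x / n ∧ (x + 1) / n = x / n + 1) := by
  have hx := Int.emod_add_mul_ediv x n
  have h0 := Int.emod_nonneg x (show n ≠ 0 by omega)
  have h1 := Int.emod_lt_of_pos x (show 0 < n by omega)
  generalize x / n = X at *
  generalize x % n = i at *
  have e1 : n * (X - 1) = n * X - n := by ring
  have e2 : n * (X + 1) = n * X + n := by ring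
  have key : ∀ a b : ℤ, n * b ≤ a → a < n * b + n → a / n = b := by
    intro a b g1 g2
    rw [Int.ediv_eq_iff_of_pos (show 0 < n by omega)]
    constructor <;> nlinarith
  by_cases c1 : i = 0
  · right; left
    exact ⟨key _ _ (by omega) (by omega), key _ _ (by omega) (by omega)⟩
  · by_cases c2 : i = n - 1
    · right; right
      exact ⟨key _ _ (by omega) (by omega), key _ _ (by omega) (by omega)⟩
    · left
      exact ⟨key _ _ (by omega) (by omega), key _ _ (by omega) (by omega)⟩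

/-- cells of four consecutive tiles -/
lemma div4 {n : ℤ} (hn : 3 ≤ n) (x : ℤ) :
    ((x - 1) / n = x / n ∧ (x + 1) / n = x / n ∧ (x + 2) / n = x / n) ∨
      ((x - 1) / n = x / n - 1 ∧ (x + 1) / n = x / n ∧ (x + 2) / n = x / n) ∨
      ((x - 1) / n = x / n ∧ (x + 1) / n = x / n + 1 ∧ (x + 2) / n = x / n + 1 ∧
        x = n * (x / n) + n - 1) ∨
      ((x - 1) / n = x / n ∧ (x + 1) / n = x / n ∧ (x + 2) / n = x / n + 1) := by
  have hx := Int.emod_add_mul_ediv x n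
  have h0 := Int.emod_nonneg x (show n ≠ 0 by omega)
  have h1 := Int.emod_lt_of_pos x (show 0 < n by omega)
  generalize x / n = X at *
  generalize x % n = i at *
  have e1 : n * (X - 1) = n * X - n := by ring
  have e2 : n * (X + 1) = n * X + n := by ring
  have key : ∀ a b : ℤ, n * b ≤ a → a < n * b + n → a / n = b := by
    intro a b g1 g2
    rw [Int.ediv_eq_iff_of_pos (show 0 < n by omega)]
    constructor <;> nlinarith
  by_cases c1 : i = 0
  · right; left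
    exact ⟨key _ _ (by omega) (by omega), key _ _ (by omega) (by omega), key _ _ (by omega) (by omega)⟩
  · by_cases c2 : i = n - 1
    · right; right; left
      exact ⟨key _ _ (by omega) (by omega), key _ _ (by omega) (by omega),
        key _ _ (by omega) (by omega), by omega⟩
    · by_cases c3 : i = n - 2
      · right; right; right
        exact ⟨key _ _ (by omega) (by omega), key _ _ (by omega) (by omega), key _ _ (by omega) (by omega)⟩
      · left
        exact ⟨key _ _ (by omega) (by omega), key _ _ (by omega) (by omega), key _ _ (by omega) (by omega)⟩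

/-! ### Membership -/

variable {Q : Finset Cell} {n : ℤ}

lemma Tq_iff {x y : ℤ} : Tq Q n (x, y) ↔
    ((x - 1) / n, (y - 1) / n) ∈ Q ∨ ((x - 1) / n, y / n) ∈ Q ∨ ((x - 1) / n, (y + 1) / n) ∈ Q ∨
    (x / n, (y - 1) / n) ∈ Q ∨ (x / n, y / n) ∈ Q ∨ (x / n, (y + 1) / n) ∈ Q ∨
    ((x + 1) / n, (y - 1) / n) ∈ Q ∨ ((x + 1) / n, y / n) ∈ Q ∨ ((x + 1) / n, (y + 1) / n) ∈ Q := by
  unfold Tq ct
  constructor
  · rintro ⟨⟨a, b⟩, h1, h2, h3⟩
    simp only at h1 h2 h3
    rw [abs_le] at h1 h2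
    have ha : a = x - 1 ∨ a = x ∨ a = x + 1 := by omega
    have hb : b = y - 1 ∨ b = y ∨ b = y + 1 := by omega
    rcases ha with rfl | rfl | rfl <;> rcases hb with rfl | rfl | rfl <;> tauto
  · intro h
    rcases h with h | h | h | h | h | h | h | h | h
    · exact ⟨(x - 1, y - 1), by simp, by simp, h⟩
    · exact ⟨(x - 1, y), by simp, by simp, h⟩
    · exact ⟨(x - 1, y + 1), by simp, by simp, h⟩
    · exact ⟨(x, y - 1), by simp, by simp, h⟩
    · exact ⟨(x, y), by simp, by simp, h⟩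
    · exact ⟨(x, y + 1), by simp, by simp, h⟩
    · exact ⟨(x + 1, y - 1), by simp, by simp, h⟩
    · exact ⟨(x + 1, y), by simp, by simp, h⟩
    · exact ⟨(x + 1, y + 1), by simp, by simp, h⟩

lemma div_near {n a b : ℤ} (hn : 0 < n) (h : |a - b| ≤ 1) : b / n - 1 ≤ a / n ∧ a / n ≤ b / n + 1 := by
  rw [abs_le] at h
  constructor
  · have : (b - n) / n ≤ a / n := Int.ediv_le_ediv hn (by omega)
    have e : (b - n) / n = b / n - 1 := by
      rw [show b - n = b + (-1) * n by ring, Int.add_mul_ediv_right _ _ hn.ne']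
      ring
    omega
  · have : a / n ≤ (b + n) / n := Int.ediv_le_ediv hn (by omega)
    have e : (b + n) / n = b / n + 1 := by
      rw [show b + n = b + 1 * n by ring, Int.add_mul_ediv_right _ _ hn.ne']
    omega

lemma mem_LamC (hn : 0 < n) {e : ℤ × ℤ} : e ∈ LamC Q n ↔ (e.1 + e.2) % 2 = 1 ∧ Tq Q n (tt e) := by
  classical
  unfold LamC
  rw [mem_filter, mem_TL hn]
  constructor
  · exact fun h => ⟨h.1.1, h.2⟩
  · rintro ⟨h1, h2⟩
    refine ⟨⟨h1, ?_⟩, h2⟩
    obtain ⟨q, h3, h4, h5⟩ := h2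
    unfold nbQ
    rw [mem_biUnion]
    refine ⟨ct n q, h5, ?_⟩
    rw [mem_product, mem_Icc, mem_Icc]
    have a1 := div_near hn (a := (tt e).1) (b := q.1) (by rw [abs_sub_comm]; exact h3)
    have a2 := div_near hn (a := (tt e).2) (b := q.2) (by rw [abs_sub_comm]; exact h4)
    unfold ct
    exact ⟨⟨a1.1, a1.2⟩, a2.1, a2.2⟩

lemma lt_mem_LamC (hn : 0 < n) {p : ℤ × ℤ} : lt p ∈ LamC Q n ↔ Tq Q n p := by
  rw [mem_LamC hn, tt_lt]
  exact ⟨fun h => h.2, fun h => ⟨lt_odd p, h⟩⟩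

open Classical in
/-- the attached cell, written out -/
lemma ac_eq {x y : ℤ} : ac Q n (x, y) =
    if (x / n, y / n) ∈ Q then (x / n, y / n)
    else if ((x - 1) / n, y / n) ∈ Q then ((x - 1) / n, y / n)
    else if ((x + 1) / n, y / n) ∈ Q then ((x + 1) / n, y / n)
    else if (x / n, (y - 1) / n) ∈ Q then (x / n, (y - 1) / n)
    else if (x / n, (y + 1) / n) ∈ Q then (x / n, (y + 1) / n)
    else if ((x - 1) / n, (y - 1) / n) ∈ Q then ((x - 1) / n, (y - 1) / n)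
    else if ((x - 1) / n, (y + 1) / n) ∈ Q then ((x - 1) / n, (y + 1) / n)
    else if ((x + 1) / n, (y - 1) / n) ∈ Q then ((x + 1) / n, (y - 1) / n)
    else ((x + 1) / n, (y + 1) / n) := by
  unfold ac sd ct
  simp only
  split_ifs <;> rfl

open Classical in
/-- the side, written out -/
lemma sd_eq {x y : ℤ} : sd Q n (x, y) =
    if ((x - 1) / n, y / n) ∈ Q then (((x - 1) / n, y / n), 1)
    else if ((x + 1) / n, y / n) ∈ Q then (((x + 1) / n, y / n), 3)
    else if (x / n, (y - 1) / n) ∈ Q then ((x / n, (y - 1) / n), 2)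
    else if (x / n, (y + 1) / n) ∈ Q then ((x / n, (y + 1) / n), 0)
    else if ((x - 1) / n, (y - 1) / n) ∈ Q then (((x - 1) / n, (y - 1) / n), 1)
    else if ((x - 1) / n, (y + 1) / n) ∈ Q then (((x - 1) / n, (y + 1) / n), 1)
    else if ((x + 1) / n, (y - 1) / n) ∈ Q then (((x + 1) / n, (y - 1) / n), 3)
    else (((x + 1) / n, (y + 1) / n), 3) := by
  unfold sd ct
  simp only

lemma ac_mem {x y : ℤ} (h : Tq Q n (x, y)) : ac Q n (x, y) ∈ Q := by
  rw [Tq_iff] at h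
  rw [ac_eq]
  split_ifs <;> first | assumption | tauto

/-- **A part of the polygon**, given by cells and rows; `run` : the cells cut by the row `r0`. -/
structure RegOK (Q : Finset Cell) (n : ℤ) (R : Cell → ℤ → Prop) (run : Cell → Prop) (r0 : ℤ) : Prop where
  q1 : ∀ c ∈ Q, ∀ y, ¬ (run c ∧ y + 1 = r0) → (R c y ↔ R c (y + 1))
  q2 : ∀ a b, (a, b) ∈ Q → (a + 1, b) ∈ Q → ∀ y, (R (a, b) y ↔ R (a + 1, b) y)
  q3 : ∀ a b, (a, b) ∈ Q → (a, b + 1) ∈ Q → (R (a, b) (n * b + n - 1) ↔ R (a, b + 1) (n * b + n))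
  qr : ∀ c, run c → n * c.2 < r0 ∧ r0 < n * c.2 + n

variable {R : Cell → ℤ → Prop} {run : Cell → Prop} {r0 : ℤ}

/-- the cell `c` meets the `3 × 3` window around the tile `p` -/
def Wn (n : ℤ) (p : ℤ × ℤ) (c : Cell) : Prop := ∃ q : ℤ × ℤ, |q.1 - p.1| ≤ 1 ∧ |q.2 - p.2| ≤ 1 ∧ ct n q = c

lemma Tq_of_Wn {p : ℤ × ℤ} {c : Cell} (h : Wn n p c) (hc : c ∈ Q) : Tq Q n p := by
  obtain ⟨q, h1, h2, rfl⟩ := h
  exact ⟨q, h1, h2, hc⟩

lemma ac_Wn {p : ℤ × ℤ} : Wn n p (ac Q n p) := by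
  obtain ⟨x, y⟩ := p
  rw [ac_eq]
  split_ifs
  · exact ⟨(x, y), by simp, by simp, rfl⟩
  · exact ⟨(x - 1, y), by simp, by simp, rfl⟩
  · exact ⟨(x + 1, y), by simp, by simp, rfl⟩
  · exact ⟨(x, y - 1), by simp, by simp, rfl⟩
  · exact ⟨(x, y + 1), by simp, by simp, rfl⟩
  · exact ⟨(x - 1, y - 1), by simp, by simp, rfl⟩
  · exact ⟨(x - 1, y + 1), by simp, by simp, rfl⟩
  · exact ⟨(x + 1, y - 1), by simp, by simp, rfl⟩
  · exact ⟨(x + 1, y + 1), by simp, by simp, rfl⟩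

/-- the cells of a `2 × 2` block agree in the two rows at the middle line -/
lemma RegOK.blk (G : Good Q) (H : RegOK Q n R run r0) {a b y : ℤ}
    (hy : y = n * b + n - 1 ∨ y = n * b + n) {a1 b1 a2 b2 : ℤ} (h1 : a1 = a ∨ a1 = a + 1)
    (h2 : b1 = b ∨ b1 = b + 1) (h3 : a2 = a ∨ a2 = a + 1) (h4 : b2 = b ∨ b2 = b + 1)
    (m1 : (a1, b1) ∈ Q) (m2 : (a2, b2) ∈ Q) : R (a1, b1) y ↔ R (a2, b2) y := by
  have ver : ∀ a : ℤ, (a, b) ∈ Q → (a, b + 1) ∈ Q → (R (a, b) y ↔ R (a, b + 1) y) := by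
    intro a k1 k2
    have e1 : R (a, b) (n * b + n - 1) ↔ R (a, b) (n * b + n) := by
      have := H.q1 (a, b) k1 (n * b + n - 1) (fun hh => by
        have := (H.qr _ hh.1).2
        simp only at this
        omega)
      rwa [sub_add_cancel] at this
    have e2 : R (a, b + 1) (n * b + n - 1) ↔ R (a, b + 1) (n * b + n) := by
      have := H.q1 (a, b + 1) k2 (n * b + n - 1) (fun hh => by
        have h5 := (H.qr _ hh.1).1
        simp only at h5
        have e : n * (b + 1) = n * b + n := by ring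
        omega)
      rwa [sub_add_cancel] at this
    have e3 := H.q3 a b k1 k2
    rcases hy with rfl | rfl
    · exact e3.trans e2.symm
    · exact e1.symm.trans e3
  have hor : ∀ b : ℤ, (a, b) ∈ Q → (a + 1, b) ∈ Q → (R (a, b) y ↔ R (a + 1, b) y) :=
    fun b k1 k2 => H.q2 a b k1 k2 y
  have dg1 : (a, b) ∈ Q → (a + 1, b + 1) ∈ Q → (a + 1, b) ∈ Q ∨ (a, b + 1) ∈ Q := by
    intro k1 k2
    have := G.diag1 (a, b) k1 (by simpa using k2)
    simpa using this
  have dg2 : (a + 1, b) ∈ Q → (a, b + 1) ∈ Q → (a, b) ∈ Q ∨ (a + 1, b + 1) ∈ Q := by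
    intro k1 k2
    have := G.diag2 (a, b) (by simpa using k1) (by simpa using k2)
    simpa using this
  have v1 := ver a
  have v2 := ver (a + 1)
  have o1 := hor b
  have o2 := hor (b + 1)
  have d1 : (a, b) ∈ Q → (a + 1, b + 1) ∈ Q → (R (a, b) y ↔ R (a + 1, b + 1) y) := by
    intro k1 k2
    rcases dg1 k1 k2 with k | k
    · exact (o1 k1 k).trans (v2 k k2)
    · exact (v1 k1 k).trans (o2 k k2)
  have d2 : (a + 1, b) ∈ Q → (a, b + 1) ∈ Q → (R (a + 1, b) y ↔ R (a, b + 1) y) := by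
    intro k1 k2
    rcases dg2 k1 k2 with k | k
    · exact (o1 k k1).symm.trans (v1 k k2)
    · exact (v2 k1 k).trans (o2 k2 k).symm
  clear dg1 dg2 ver hor hy H G
  rcases h1 with rfl | rfl <;> rcases h2 with rfl | rfl <;> rcases h3 with rfl | rfl <;>
    rcases h4 with rfl | rfl <;>
    first
    | exact Iff.rfl
    | exact v1 m1 m2
    | exact (v1 m2 m1).symm
    | exact v2 m1 m2
    | exact (v2 m2 m1).symm
    | exact o1 m1 m2
    | exact (o1 m2 m1).symm
    | exact o2 m1 m2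
    | exact (o2 m2 m1).symm
    | exact d1 m1 m2
    | exact (d1 m2 m1).symm
    | exact d2 m1 m2
    | exact (d2 m2 m1).symm

/-- all touched cells agree -/
lemma RegOK.win (G : Good Q) (hn : 3 ≤ n) (H : RegOK Q n R run r0) {p : ℤ × ℤ} {c c' : Cell}
    (h : Wn n p c) (h' : Wn n p c') (hc : c ∈ Q) (hc' : c' ∈ Q) : R c p.2 ↔ R c' p.2 := by
  have hn0 : 0 < n := by omega
  obtain ⟨q, h1, h2, h3⟩ := h
  obtain ⟨q', h1', h2', h3'⟩ := h'
  rw [Pool.Agent.H33.Q1.ct_eq hn0] at h3 h3'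
  rw [abs_le] at h1 h2 h1' h2'
  obtain ⟨a1, b1⟩ := c
  obtain ⟨a2, b2⟩ := c'
  simp only at h3 h3' ⊢
  have ea : a1 * n = n * a1 := by ring
  have eb : b1 * n = n * b1 := by ring
  have ea' : a2 * n = n * a2 := by ring
  have eb' : b2 * n = n * b2 := by ring
  have ha : a2 ≤ a1 + 1 ∧ a1 ≤ a2 + 1 := by
    constructor
    · by_contra hcon
      have : n * (a1 + 2) ≤ n * a2 := mul_le_mul_of_nonneg_left (by omega) hn0.le
      have e : n * (a1 + 2) = n * a1 + n + n := by ring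
      omega
    · by_contra hcon
      have : n * (a2 + 2) ≤ n * a1 := mul_le_mul_of_nonneg_left (by omega) hn0.le
      have e : n * (a2 + 2) = n * a2 + n + n := by ring
      omega
  have hb : b2 ≤ b1 + 1 ∧ b1 ≤ b2 + 1 := by
    constructor
    · by_contra hcon
      have : n * (b1 + 2) ≤ n * b2 := mul_le_mul_of_nonneg_left (by omega) hn0.le
      have e : n * (b1 + 2) = n * b1 + n + n := by ring
      omega
    · by_contra hcon
      have : n * (b2 + 2) ≤ n * b1 := mul_le_mul_of_nonneg_left (by omega) hn0.le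
      have e : n * (b2 + 2) = n * b2 + n + n := by ring
      omega
  by_cases hbb : b1 = b2
  · subst hbb
    rcases (show a2 = a1 ∨ a2 = a1 + 1 ∨ a1 = a2 + 1 by omega) with e | e | e
    · rw [e]
    · rw [e] at hc' ⊢
      exact H.q2 _ _ hc hc' _
    · rw [e] at hc ⊢
      exact (H.q2 _ _ hc' hc _).symm
  · have hA : (a1 = min a1 a2 ∨ a1 = min a1 a2 + 1) ∧ (a2 = min a1 a2 ∨ a2 = min a1 a2 + 1) := by
      omega
    rcases (show b2 = b1 + 1 ∨ b1 = b2 + 1 by omega) with e | e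
    · have e2 : n * b2 = n * b1 + n := by rw [e]; ring
      refine H.blk G (a := min a1 a2) (b := b1) ?_ hA.1 (Or.inl rfl) hA.2 (Or.inr e) hc hc'
      omega
    · have e2 : n * b1 = n * b2 + n := by rw [e]; ring
      refine H.blk G (a := min a1 a2) (b := b2) ?_ hA.1 (Or.inr e) hA.2 (Or.inl rfl) hc hc'
      omega

/-- a cell touched by two vertical neighbours -/
lemma common_v (hn : 3 ≤ n) {x y : ℤ} (h1 : Tq Q n (x, y)) (h2 : Tq Q n (x, y + 1)) :
    ∃ c ∈ Q, Wn n (x, y) c ∧ Wn n (x, y + 1) c := by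
  obtain ⟨⟨a, b⟩, k1, k2, k3⟩ := h1
  obtain ⟨⟨a', b'⟩, k1', k2', k3'⟩ := h2
  simp only at k1 k2 k1' k2'
  rw [abs_le] at k1 k2 k1' k2'
  by_cases c1 : y ≤ b
  · refine ⟨_, k3, ⟨(a, b), ?_, ?_, rfl⟩, ⟨(a, b), ?_, ?_, rfl⟩⟩ <;> simp only <;> rw [abs_le] <;> omega
  by_cases c2 : b' ≤ y + 1
  · refine ⟨_, k3', ⟨(a', b'), ?_, ?_, rfl⟩, ⟨(a', b'), ?_, ?_, rfl⟩⟩ <;> simp only <;> rw [abs_le] <;>
      omega
  have hb : b = y - 1 := by omega
  have hb' : b' = y + 2 := by omega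
  subst hb hb'
  rcases div4 hn y with h | h | h | h
  · refine ⟨_, k3, ⟨(a, y), ?_, ?_, ?_⟩, ⟨(a, y), ?_, ?_, ?_⟩⟩
    · simp only; rw [abs_le]; omega
    · simp
    · unfold ct; simp only; rw [h.1]
    · simp only; rw [abs_le]; omega
    · simp
    · unfold ct; simp only; rw [h.1]
  · refine ⟨_, k3', ⟨(a', y + 1), ?_, ?_, ?_⟩, ⟨(a', y + 1), ?_, ?_, ?_⟩⟩
    · simp only; rw [abs_le]; omega
    · simp
    · unfold ct; simp only; rw [h.2.1, h.2.2]
    · simp only; rw [abs_le]; omega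
    · simp
    · unfold ct; simp only; rw [h.2.1, h.2.2]
  · refine ⟨_, k3, ⟨(a, y), ?_, ?_, ?_⟩, ⟨(a, y), ?_, ?_, ?_⟩⟩
    · simp only; rw [abs_le]; omega
    · simp
    · unfold ct; simp only; rw [h.1]
    · simp only; rw [abs_le]; omega
    · simp
    · unfold ct; simp only; rw [h.1]
  · refine ⟨_, k3, ⟨(a, y), ?_, ?_, ?_⟩, ⟨(a, y), ?_, ?_, ?_⟩⟩
    · simp only; rw [abs_le]; omega
    · simp
    · unfold ct; simp only; rw [h.1]
    · simp only; rw [abs_le]; omega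
    · simp
    · unfold ct; simp only; rw [h.1]

/-- a cell touched by two horizontal neighbours -/
lemma common_h (hn : 3 ≤ n) {x y : ℤ} (h1 : Tq Q n (x, y)) (h2 : Tq Q n (x + 1, y)) :
    ∃ c ∈ Q, Wn n (x, y) c ∧ Wn n (x + 1, y) c := by
  obtain ⟨⟨a, b⟩, k1, k2, k3⟩ := h1
  obtain ⟨⟨a', b'⟩, k1', k2', k3'⟩ := h2
  simp only at k1 k2 k1' k2'
  rw [abs_le] at k1 k2 k1' k2'
  by_cases c1 : x ≤ a
  · refine ⟨_, k3, ⟨(a, b), ?_, ?_, rfl⟩, ⟨(a, b), ?_, ?_, rfl⟩⟩ <;> simp only <;> rw [abs_le] <;> omega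
  by_cases c2 : a' ≤ x + 1
  · refine ⟨_, k3', ⟨(a', b'), ?_, ?_, rfl⟩, ⟨(a', b'), ?_, ?_, rfl⟩⟩ <;> simp only <;> rw [abs_le] <;>
      omega
  have hb : a = x - 1 := by omega
  have hb' : a' = x + 2 := by omega
  subst hb hb'
  rcases div4 hn x with h | h | h | h
  · refine ⟨_, k3, ⟨(x, b), ?_, ?_, ?_⟩, ⟨(x, b), ?_, ?_, ?_⟩⟩
    · simp
    · simp only; rw [abs_le]; omega
    · unfold ct; simp only; rw [h.1]
    · simp
    · simp only; rw [abs_le]; omega
    · unfold ct; simp only; rw [h.1]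
  · refine ⟨_, k3', ⟨(x + 1, b'), ?_, ?_, ?_⟩, ⟨(x + 1, b'), ?_, ?_, ?_⟩⟩
    · simp
    · simp only; rw [abs_le]; omega
    · unfold ct; simp only; rw [h.2.1, h.2.2]
    · simp
    · simp only; rw [abs_le]; omega
    · unfold ct; simp only; rw [h.2.1, h.2.2]
  · refine ⟨_, k3, ⟨(x, b), ?_, ?_, ?_⟩, ⟨(x, b), ?_, ?_, ?_⟩⟩
    · simp
    · simp only; rw [abs_le]; omega
    · unfold ct; simp only; rw [h.1]
    · simp
    · simp only; rw [abs_le]; omega
    · unfold ct; simp only; rw [h.1]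
  · refine ⟨_, k3, ⟨(x, b), ?_, ?_, ?_⟩, ⟨(x, b), ?_, ?_, ?_⟩⟩
    · simp
    · simp only; rw [abs_le]; omega
    · unfold ct; simp only; rw [h.1]
    · simp
    · simp only; rw [abs_le]; omega
    · unfold ct; simp only; rw [h.1]

/-- **Horizontal neighbours.** -/
lemma RegOK.hor (G : Good Q) (hn : 3 ≤ n) (H : RegOK Q n R run r0) {x y : ℤ} (h1 : Tq Q n (x, y))
    (h2 : Tq Q n (x + 1, y)) : R (ac Q n (x, y)) y ↔ R (ac Q n (x + 1, y)) y := by
  obtain ⟨c, hc, k1, k2⟩ := common_h hn h1 h2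
  have e1 := H.win G hn ac_Wn k1 (ac_mem h1) hc
  have e2 := H.win G hn k2 ac_Wn hc (ac_mem h2)
  simp only at e1 e2
  exact e1.trans e2

/-- **Vertical neighbours.** -/
lemma RegOK.ver (G : Good Q) (hn : 3 ≤ n) (H : RegOK Q n R run r0) {x y : ℤ} (h1 : Tq Q n (x, y))
    (h2 : Tq Q n (x, y + 1)) (h3 : y + 1 ≠ r0) :
    R (ac Q n (x, y)) y ↔ R (ac Q n (x, y + 1)) (y + 1) := by
  obtain ⟨c, hc, k1, k2⟩ := common_v hn h1 h2
  have e1 := H.win G hn ac_Wn k1 (ac_mem h1) hc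
  have e2 := H.win G hn k2 ac_Wn hc (ac_mem h2)
  simp only at e1 e2
  exact e1.trans ((H.q1 c hc y (fun h => h3 h.2)).trans e2)

end Pool.Agent.H19.W
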