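import Mathlib
import Pool.Agent.H22.W.VcWld
import Pool.Agent.H19.W.Cut

set_option autoImplicit false
set_option linter.unusedVariables false
open Finset

/-! # Uniqueness of colours

The wall of a shape is one cycle: two colourings of the outer tiles with the same cuts and the same marks are
equal or opposite (`cl_uniq`); if they agree at one outer tile they are equal (`cl_eq`). -/

namespace Pool.Agent.H19.W

open Pool.Agent.H75.Perc (dir dir_cases)
open Pool.Agent.H33.Q1 (lt tt ct TL)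
open Pool.Agent.Q1.M4 (Cell PType IsSide nextSide Good)
open Pool.Agent.H21.FM (Shape)
open Pool.Agent.H22.W.Vc (Mark Tc Cl TT TT_cvx tc_iff wR wL wC wF dvi tT)
open Pool.Agent.H68.W (sx)

variable {S : Shape} {n : ℤ} {d : ℤ → ℤ → Prop}

/-- **A property which does not change between neighbours.** -/
structure Eqv (S : Shape) (n : ℤ) (d : ℤ → ℤ → Prop) : Prop where
  hn : 4 ≤ n
  v : ∀ x y s, (s = 1 ∨ s = -1) → ¬ TT S n x y → ¬ TT S n x (y + 1) → (TT S n (x + s) y ∨ TT S n (x + s) (y + 1)) →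
    (d x y ↔ d x (y + 1))
  h : ∀ x y s, (s = 1 ∨ s = -1) → ¬ TT S n x y → ¬ TT S n (x + 1) y → TT S n x (y + s) → TT S n (x + 1) (y + s) →
    (d x y ↔ d (x + 1) y)
  c : ∀ m, Mark.Cvx (TT S n) m → (d m.u m.v ↔ d (m.u + m.sx) m.v)

namespace Eqv
variable (H : Eqv S n d)
include H

/-- a straight vertical wall -/
lemma vrun {X y1 s : ℤ} (hs : s = 1 ∨ s = -1) (j : ℕ)
    (h : ∀ y, y1 ≤ y → y ≤ y1 + j → ¬ TT S n X y ∧ TT S n (X + s) y) : d X y1 ↔ d X (y1 + j) := by
  induction j with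
  | zero => simp
  | succ j ih =>
    rw [ih fun y h1 h2 => h y h1 (by push_cast; omega)]
    have h1 := h (y1 + j) (by omega) (by push_cast; omega)
    have h2 := h (y1 + j + 1) (by omega) (by push_cast; omega)
    rw [H.v X (y1 + j) s hs h1.1 h2.1 (Or.inl h1.2)]
    push_cast
    rw [add_assoc]

/-- a straight horizontal wall -/
lemma hrun {Y x1 s : ℤ} (hs : s = 1 ∨ s = -1) (j : ℕ)
    (h : ∀ x, x1 ≤ x → x ≤ x1 + j → ¬ TT S n x Y ∧ TT S n x (Y + s)) : d x1 Y ↔ d (x1 + j) Y := by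
  induction j with
  | zero => simp
  | succ j ih =>
    rw [ih fun y h1 h2 => h y h1 (by push_cast; omega)]
    have h1 := h (x1 + j) (by omega) (by push_cast; omega)
    have h2 := h (x1 + j + 1) (by omega) (by push_cast; omega)
    rw [H.h (x1 + j) Y s hs h1.1 h2.1 h1.2 h2.2]
    push_cast
    rw [add_assoc]

lemma vr {X y1 y2 s : ℤ} (hs : s = 1 ∨ s = -1) (h0 : y1 ≤ y2)
    (h : ∀ y, y1 ≤ y → y ≤ y2 → ¬ TT S n X y ∧ TT S n (X + s) y) : d X y1 ↔ d X y2 := by
  have := H.vrun hs (y2 - y1).toNat (X := X) (y1 := y1) (fun y g1 g2 => h y g1 (by omega))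
  rwa [show y1 + ((y2 - y1).toNat : ℤ) = y2 by omega] at this

lemma hr {Y x1 x2 s : ℤ} (hs : s = 1 ∨ s = -1) (h0 : x1 ≤ x2)
    (h : ∀ x, x1 ≤ x → x ≤ x2 → ¬ TT S n x Y ∧ TT S n x (Y + s)) : d x1 Y ↔ d x2 Y := by
  have := H.hrun hs (x2 - x1).toNat (Y := Y) (x1 := x1) (fun y g1 g2 => h y g1 (by omega))
  rwa [show x1 + ((x2 - x1).toNat : ℤ) = x2 by omega] at this

end Eqv

/-- first tile of the line of a side -/
def L0 (n : ℤ) (s : Cell × ℤ) : ℤ × ℤ :=
  if s.2 % 4 = 1 then (n * s.1.1 + n, n * s.1.2) else if s.2 % 4 = 2 then (n * s.1.1, n * s.1.2 + n)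
  else if s.2 % 4 = 3 then (n * s.1.1 - 1, n * s.1.2) else (n * s.1.1, n * s.1.2 - 1)

/-- value on the line of a side -/
def FL0 (n : ℤ) (d : ℤ → ℤ → Prop) (s : Cell × ℤ) : Prop := d (L0 n s).1 (L0 n s).2

section
variable {a b k : ℤ}

lemma tt_in (hn : 0 < n) {x y a b : ℤ} (h1 : n * a ≤ x) (h2 : x < n * a + n) (h3 : n * b ≤ y) (h4 : y < n * b + n) :
    TT S n x y ↔ (a, b) ∈ S.P.Q := by
  rw [tT, (dvi hn).2 ⟨h1, h2⟩, (dvi hn).2 ⟨h3, h4⟩]

variable (H : Eqv S n d)
include H

lemma Eqv.l1 (h1 : (a, b) ∈ S.P.Q) (h2 : (a + 1, b) ∉ S.P.Q) {y : ℤ} (h3 : n * b ≤ y) (h4 : y < n * b + n) :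
    d (n * a + n) y ↔ d (n * a + n) (n * b) := by
  have hn := H.hn
  have hn0 : 0 < n := by omega
  have e : n * (a + 1) = n * a + n := by ring
  refine (H.vr (s := -1) (Or.inr rfl) h3 fun y' g1 g2 => ⟨?_, ?_⟩).symm
  · rw [tt_in hn0 (a := a + 1) (b := b) (by omega) (by omega) (by omega) (by omega)]
    exact h2
  · rw [tt_in hn0 (a := a) (b := b) (by omega) (by omega) (by omega) (by omega)]
    exact h1

lemma Eqv.l3 (h1 : (a, b) ∈ S.P.Q) (h2 : (a - 1, b) ∉ S.P.Q) {y : ℤ} (h3 : n * b ≤ y) (h4 : y < n * b + n) :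
    d (n * a - 1) y ↔ d (n * a - 1) (n * b) := by
  have hn := H.hn
  have hn0 : 0 < n := by omega
  have e : n * (a - 1) = n * a - n := by ring
  refine (H.vr (s := 1) (Or.inl rfl) h3 fun y' g1 g2 => ⟨?_, ?_⟩).symm
  · rw [tt_in hn0 (a := a - 1) (b := b) (by omega) (by omega) (by omega) (by omega)]
    exact h2
  · rw [tt_in hn0 (a := a) (b := b) (by omega) (by omega) (by omega) (by omega)]
    exact h1

lemma Eqv.l2 (h1 : (a, b) ∈ S.P.Q) (h2 : (a, b + 1) ∉ S.P.Q) {x : ℤ} (h3 : n * a ≤ x) (h4 : x < n * a + n) :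
    d x (n * b + n) ↔ d (n * a) (n * b + n) := by
  have hn := H.hn
  have hn0 : 0 < n := by omega
  have e : n * (b + 1) = n * b + n := by ring
  refine (H.hr (s := -1) (Or.inr rfl) h3 fun y' g1 g2 => ⟨?_, ?_⟩).symm
  · rw [tt_in hn0 (a := a) (b := b + 1) (by omega) (by omega) (by omega) (by omega)]
    exact h2
  · rw [tt_in hn0 (a := a) (b := b) (by omega) (by omega) (by omega) (by omega)]
    exact h1

lemma Eqv.l0 (h1 : (a, b) ∈ S.P.Q) (h2 : (a, b - 1) ∉ S.P.Q) {x : ℤ} (h3 : n * a ≤ x) (h4 : x < n * a + n) :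
    d x (n * b - 1) ↔ d (n * a) (n * b - 1) := by
  have hn := H.hn
  have hn0 : 0 < n := by omega
  have e : n * (b - 1) = n * b - n := by ring
  refine (H.hr (s := 1) (Or.inl rfl) h3 fun y' g1 g2 => ⟨?_, ?_⟩).symm
  · rw [tt_in hn0 (a := a) (b := b - 1) (by omega) (by omega) (by omega) (by omega)]
    exact h2
  · rw [tt_in hn0 (a := a) (b := b) (by omega) (by omega) (by omega) (by omega)]
    exact h1

/-- a corner: the tiles of the two walls and the diagonal tile -/
lemma Eqv.corner {u v sx sy : ℤ} (hx : sx = 1 ∨ sx = -1) (hy : sy = 1 ∨ sy = -1)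
    (h1 : TT S n (u + sx) (v + sy)) (h2 : ¬ TT S n (u + sx) v) (h3 : ¬ TT S n u (v + sy)) (h4 : ¬ TT S n u v) :
    (d u (v + sy) ↔ d u v) ∧ (d u v ↔ d (u + sx) v) := by
  refine ⟨?_, H.c ⟨u, v, sx, sy⟩ (TT_cvx H.hn u v sx sy hx hy h1 h2 h3 h4)⟩
  rcases hy with rfl | rfl
  · exact (H.v u v sx hx h4 h3 (Or.inr h1)).symm
  · have := H.v u (v + -1) sx hx h3 (by rw [neg_add_cancel_right]; exact h4) (Or.inl h1)
    rwa [neg_add_cancel_right] at this

/-- **Consecutive sides.** -/
lemma Eqv.step {s : Cell × ℤ} (hs : IsSide S.P.Q s) : FL0 n d s ↔ FL0 n d (nextSide S.P.Q s) := by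
  have hn := H.hn
  have hn0 : 0 < n := by omega
  obtain ⟨⟨a, b⟩, k⟩ := s
  obtain ⟨h1, h2⟩ := hs
  unfold nextSide
  simp only at h1 h2 ⊢
  have ea1 : n * (a + 1) = n * a + n := by ring
  have ea2 : n * (a - 1) = n * a - n := by ring
  have eb1 : n * (b + 1) = n * b + n := by ring
  have eb2 : n * (b - 1) = n * b - n := by ring
  have hk : k % 4 = 0 ∨ k % 4 = 1 ∨ k % 4 = 2 ∨ k % 4 = 3 := by omega
  have dd := fun (k : ℤ) => dir_cases k
  rcases hk with hk | hk | hk | hk
  · -- bottom side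
    have d1 : dir (k - 1) = (0, -1) := dirm.1 hk
    have d0 : dir k = (1, 0) := by
      rcases dd k with ⟨q, e⟩ | ⟨q, e⟩ | ⟨q, e⟩ | ⟨q, e⟩
      · exact e
      all_goals omega
    rw [d1] at h2
    rw [d0, d1]
    simp only [Prod.mk_add_mk, add_zero] at h2 ⊢
    simp only [← sub_eq_add_neg] at h2 ⊢
    have F1 : FL0 n d ((a, b), k) ↔ d (n * a) (n * b - 1) := by unfold FL0 L0; simp [hk]
    rw [F1]
    have hl := H.l0 h1 h2 (x := n * a + n - 1) (by omega) (by omega)
    split_ifs with c1 c2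
    · have hk' : (k - 1) % 4 = 3 := by omega
      have F2 : FL0 n d ((a + 1, b - 1), k - 1) ↔ d (n * (a + 1) - 1) (n * (b - 1)) := by
        unfold FL0 L0; simp [hk']
      rw [F2, ← hl]
      have h5 : (a + 1 - 1, b - 1) ∉ S.P.Q := by rw [add_sub_cancel_right]; exact h2
      have := H.l3 c1 h5 (y := n * b - 1) (by omega) (by omega)
      rw [← this, ea1]
    · have F2 : FL0 n d ((a + 1, b), k) ↔ d (n * (a + 1)) (n * b - 1) := by unfold FL0 L0; simp [hk]
      rw [F2, ← hl, ea1]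
      have := H.h (n * a + n - 1) (n * b - 1) 1 (Or.inl rfl)
        (by rw [tt_in hn0 (a := a) (b := b - 1) (by omega) (by omega) (by omega) (by omega)]; exact h2)
        (by rw [tt_in hn0 (a := a + 1) (b := b - 1) (by omega) (by omega) (by omega) (by omega)]; exact c1)
        (by rw [tt_in hn0 (a := a) (b := b) (by omega) (by omega) (by omega) (by omega)]; exact h1)
        (by rw [tt_in hn0 (a := a + 1) (b := b) (by omega) (by omega) (by omega) (by omega)]; exact c2)
      rwa [sub_add_cancel] at this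
    · have hk' : (k + 1) % 4 = 1 := by omega
      have F2 : FL0 n d ((a, b), k + 1) ↔ d (n * a + n) (n * b) := by unfold FL0 L0; simp [hk']
      rw [F2, ← hl]
      have := H.corner (u := n * a + n) (v := n * b - 1) (sx := -1) (sy := 1) (Or.inr rfl) (Or.inl rfl)
        (by rw [tt_in hn0 (a := a) (b := b) (by omega) (by omega) (by omega) (by omega)]; exact h1)
        (by rw [tt_in hn0 (a := a) (b := b - 1) (by omega) (by omega) (by omega) (by omega)]; exact h2)
        (by rw [tt_in hn0 (a := a + 1) (b := b) (by omega) (by omega) (by omega) (by omega)]; exact c2)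
        (by rw [tt_in hn0 (a := a + 1) (b := b - 1) (by omega) (by omega) (by omega) (by omega)]; exact c1)
      rw [sub_add_cancel, ← sub_eq_add_neg] at this
      exact (this.1.trans this.2).symm
  · -- right side
    have d1 : dir (k - 1) = (1, 0) := dirm.2.1 hk
    have d0 : dir k = (0, 1) := by
      rcases dd k with ⟨q, e⟩ | ⟨q, e⟩ | ⟨q, e⟩ | ⟨q, e⟩
      · omega
      · exact e
      all_goals omega
    rw [d1] at h2
    rw [d0, d1]
    simp only [Prod.mk_add_mk, add_zero] at h2 ⊢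
    have F1 : FL0 n d ((a, b), k) ↔ d (n * a + n) (n * b) := by unfold FL0 L0; simp [hk]
    rw [F1]
    have hl := H.l1 h1 h2 (y := n * b + n - 1) (by omega) (by omega)
    split_ifs with c1 c2
    · have hk' : (k - 1) % 4 = 0 := by omega
      have F2 : FL0 n d ((a + 1, b + 1), k - 1) ↔ d (n * (a + 1)) (n * (b + 1) - 1) := by
        unfold FL0 L0; simp [hk']
      rw [F2, ← hl, ea1, eb1]
    · have F2 : FL0 n d ((a, b + 1), k) ↔ d (n * a + n) (n * (b + 1)) := by unfold FL0 L0; simp [hk]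
      rw [F2, ← hl, eb1]
      have := H.v (n * a + n) (n * b + n - 1) (-1) (Or.inr rfl)
        (by rw [tt_in hn0 (a := a + 1) (b := b) (by omega) (by omega) (by omega) (by omega)]; exact h2)
        (by rw [tt_in hn0 (a := a + 1) (b := b + 1) (by omega) (by omega) (by omega) (by omega)]; exact c1)
        (Or.inl (by rw [tt_in hn0 (a := a) (b := b) (by omega) (by omega) (by omega) (by omega)]; exact h1))
      rwa [sub_add_cancel] at this
    · have hk' : (k + 1) % 4 = 2 := by omega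
      have F2 : FL0 n d ((a, b), k + 1) ↔ d (n * a) (n * b + n) := by unfold FL0 L0; simp [hk']
      rw [F2, ← hl]
      have := H.corner (u := n * a + n) (v := n * b + n) (sx := -1) (sy := -1) (Or.inr rfl) (Or.inr rfl)
        (by rw [tt_in hn0 (a := a) (b := b) (by omega) (by omega) (by omega) (by omega)]; exact h1)
        (by rw [tt_in hn0 (a := a) (b := b + 1) (by omega) (by omega) (by omega) (by omega)]; exact c2)
        (by rw [tt_in hn0 (a := a + 1) (b := b) (by omega) (by omega) (by omega) (by omega)]; exact h2)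
        (by rw [tt_in hn0 (a := a + 1) (b := b + 1) (by omega) (by omega) (by omega) (by omega)]; exact c1)
      have hl2 := H.l2 h1 c2 (x := n * a + n - 1) (by omega) (by omega)
      rw [← sub_eq_add_neg, ← sub_eq_add_neg] at this
      rw [← hl2]
      exact this.1.trans this.2
  · -- top side
    have d1 : dir (k - 1) = (0, 1) := dirm.2.2.1 hk
    have d0 : dir k = (-1, 0) := by
      rcases dd k with ⟨q, e⟩ | ⟨q, e⟩ | ⟨q, e⟩ | ⟨q, e⟩
      · omega
      · omega
      · exact e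
      · omega
    rw [d1] at h2
    rw [d0, d1]
    simp only [Prod.mk_add_mk, add_zero] at h2 ⊢
    simp only [← sub_eq_add_neg] at h2 ⊢
    have F1 : FL0 n d ((a, b), k) ↔ d (n * a) (n * b + n) := by unfold FL0 L0; simp [hk]
    rw [F1]
    split_ifs with c1 c2
    · have hk' : (k - 1) % 4 = 1 := by omega
      have F2 : FL0 n d ((a - 1, b + 1), k - 1) ↔ d (n * (a - 1) + n) (n * (b + 1)) := by
        unfold FL0 L0; simp [hk']
      rw [F2, ea2, eb1, sub_add_cancel]
    · have F2 : FL0 n d ((a - 1, b), k) ↔ d (n * (a - 1)) (n * b + n) := by unfold FL0 L0; simp [hk]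
      have hl := H.l2 c2 c1 (x := n * a - 1) (by omega) (by omega)
      rw [F2, ← hl]
      have := H.h (n * a - 1) (n * b + n) (-1) (Or.inr rfl)
        (by rw [tt_in hn0 (a := a - 1) (b := b + 1) (by omega) (by omega) (by omega) (by omega)]; exact c1)
        (by rw [tt_in hn0 (a := a) (b := b + 1) (by omega) (by omega) (by omega) (by omega)]; exact h2)
        (by rw [tt_in hn0 (a := a - 1) (b := b) (by omega) (by omega) (by omega) (by omega)]; exact c2)
        (by rw [tt_in hn0 (a := a) (b := b) (by omega) (by omega) (by omega) (by omega)]; exact h1)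
      rw [sub_add_cancel] at this
      exact this.symm
    · have hk' : (k + 1) % 4 = 3 := by omega
      have F2 : FL0 n d ((a, b), k + 1) ↔ d (n * a - 1) (n * b) := by unfold FL0 L0; simp [hk']
      have hl := H.l3 h1 c2 (y := n * b + n - 1) (by omega) (by omega)
      rw [F2, ← hl]
      have := H.corner (u := n * a - 1) (v := n * b + n) (sx := 1) (sy := -1) (Or.inl rfl) (Or.inr rfl)
        (by rw [tt_in hn0 (a := a) (b := b) (by omega) (by omega) (by omega) (by omega)]; exact h1)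
        (by rw [tt_in hn0 (a := a) (b := b + 1) (by omega) (by omega) (by omega) (by omega)]; exact h2)
        (by rw [tt_in hn0 (a := a - 1) (b := b) (by omega) (by omega) (by omega) (by omega)]; exact c2)
        (by rw [tt_in hn0 (a := a - 1) (b := b + 1) (by omega) (by omega) (by omega) (by omega)]; exact c1)
      rw [sub_add_cancel, ← sub_eq_add_neg] at this
      exact (this.1.trans this.2).symm
  · -- left side
    have d1 : dir (k - 1) = (-1, 0) := dirm.2.2.2 hk
    have d0 : dir k = (0, -1) := by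
      rcases dd k with ⟨q, e⟩ | ⟨q, e⟩ | ⟨q, e⟩ | ⟨q, e⟩
      · omega
      · omega
      · omega
      · exact e
    rw [d1] at h2
    rw [d0, d1]
    simp only [Prod.mk_add_mk, add_zero] at h2 ⊢
    simp only [← sub_eq_add_neg] at h2 ⊢
    have F1 : FL0 n d ((a, b), k) ↔ d (n * a - 1) (n * b) := by unfold FL0 L0; simp [hk]
    rw [F1]
    split_ifs with c1 c2
    · have hk' : (k - 1) % 4 = 2 := by omega
      have F2 : FL0 n d ((a - 1, b - 1), k - 1) ↔ d (n * (a - 1)) (n * (b - 1) + n) := by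
        unfold FL0 L0; simp [hk']
      have h5 : (a - 1, b - 1 + 1) ∉ S.P.Q := by rw [sub_add_cancel]; exact h2
      have := H.l2 c1 h5 (x := n * a - 1) (by omega) (by omega)
      rw [F2, ← this, eb2, sub_add_cancel]
    · have F2 : FL0 n d ((a, b - 1), k) ↔ d (n * a - 1) (n * (b - 1)) := by unfold FL0 L0; simp [hk]
      have hl := H.l3 c2 c1 (y := n * b - 1) (by omega) (by omega)
      rw [F2, ← hl]
      have := H.v (n * a - 1) (n * b - 1) 1 (Or.inl rfl)
        (by rw [tt_in hn0 (a := a - 1) (b := b - 1) (by omega) (by omega) (by omega) (by omega)]; exact c1)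
        (by rw [tt_in hn0 (a := a - 1) (b := b) (by omega) (by omega) (by omega) (by omega)]; exact h2)
        (Or.inr (by rw [tt_in hn0 (a := a) (b := b) (by omega) (by omega) (by omega) (by omega)]; exact h1))
      rw [sub_add_cancel] at this
      exact this.symm
    · have hk' : (k + 1) % 4 = 0 := by omega
      have F2 : FL0 n d ((a, b), k + 1) ↔ d (n * a) (n * b - 1) := by unfold FL0 L0; simp [hk']
      rw [F2]
      have := H.corner (u := n * a - 1) (v := n * b - 1) (sx := 1) (sy := 1) (Or.inl rfl) (Or.inl rfl)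
        (by rw [tt_in hn0 (a := a) (b := b) (by omega) (by omega) (by omega) (by omega)]; exact h1)
        (by rw [tt_in hn0 (a := a) (b := b - 1) (by omega) (by omega) (by omega) (by omega)]; exact c2)
        (by rw [tt_in hn0 (a := a - 1) (b := b) (by omega) (by omega) (by omega) (by omega)]; exact h2)
        (by rw [tt_in hn0 (a := a - 1) (b := b - 1) (by omega) (by omega) (by omega) (by omega)]; exact c1)
      rw [sub_add_cancel, sub_add_cancel] at this
      exact this.1.trans this.2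

lemma Eqv.side0 (i : ℕ) : FL0 n d (S.P.side i) ↔ FL0 n d (S.P.side 0) := by
  induction i with
  | zero => exact Iff.rfl
  | succ i ih => rw [side_succ, ← H.step (side_is i), ih]

lemma Eqv.any {s : Cell × ℤ} (hs : IsSide S.P.Q s) : FL0 n d s ↔ FL0 n d (S.P.side 0) := by
  obtain ⟨i, hi, h1, h2⟩ := S.P.all s hs
  rw [← H.side0 i]
  have e1 : (S.P.side i).1 = s.1 := h1
  have e2 : (S.P.side i).2 % 4 = s.2 % 4 := by
    have : ((S.P.side i).2 - s.2) % 4 = 0 := h2
    omega
  unfold FL0 L0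
  rw [e1, e2]

/-- **Every outer tile.** -/
lemma Eqv.tile {x y : ℤ} (h0 : ¬ TT S n x y) (hT : Tc (TT S n) x y) : d x y ↔ FL0 n d (S.P.side 0) := by
  have hn := H.hn
  have hn0 : 0 < n := by omega
  have h0' : (x / n, y / n) ∉ S.P.Q := h0
  have dx := (dvi hn0 (x := x) (a := x / n)).1 rfl
  have dy := (dvi hn0 (x := y) (a := y / n)).1 rfl
  have e1 : ∀ a b, FL0 n d ((a, b), 1) ↔ d (n * a + n) (n * b) := fun a b => by unfold FL0 L0; simp
  have e2 : ∀ a b, FL0 n d ((a, b), 2) ↔ d (n * a) (n * b + n) := fun a b => by unfold FL0 L0; simp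
  have e3 : ∀ a b, FL0 n d ((a, b), 3) ↔ d (n * a - 1) (n * b) := fun a b => by unfold FL0 L0; simp
  have e0 : ∀ a b, FL0 n d ((a, b), 0) ↔ d (n * a) (n * b - 1) := fun a b => by unfold FL0 L0; simp
  -- a wall on the left
  have A1 : ∀ y', ¬ TT S n x y' → TT S n (x - 1) y' → (d x y' ↔ FL0 n d (S.P.side 0)) := by
    intro y' g1 g2
    obtain ⟨g3, g4⟩ := wR hn g2 g1
    have dy' := (dvi hn0 (x := y') (a := y' / n)).1 rfl
    rw [tT] at g1 g2
    rw [g4] at g1
    rw [← H.any (s := (((x - 1) / n, y' / n), 1)) (Pool.Agent.H68.W.isSide1.2 ⟨g2, g1⟩), e1,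
      ← H.l1 g2 g1 dy'.1 dy'.2, ← g3]
  have A3 : ∀ y', ¬ TT S n x y' → TT S n (x + 1) y' → (d x y' ↔ FL0 n d (S.P.side 0)) := by
    intro y' g1 g2
    obtain ⟨g3, g4, -⟩ := wL hn g2 g1
    have dy' := (dvi hn0 (x := y') (a := y' / n)).1 rfl
    rw [tT] at g1 g2
    have g1' : ((x + 1) / n - 1, y' / n) ∉ S.P.Q := by rw [g4, add_sub_cancel_right]; exact g1
    rw [← H.any (s := (((x + 1) / n, y' / n), 3)) (Pool.Agent.H68.W.isSide3.2 ⟨g2, g1'⟩), e3,
      ← H.l3 g2 g1' dy'.1 dy'.2, ← g3, add_sub_cancel_right]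
  have hT2 := tc_iff.1 hT
  rw [Tq_iff] at hT2
  by_cases c1 : TT S n (x - 1) y
  · exact A1 y h0 c1
  by_cases c2 : TT S n (x + 1) y
  · exact A3 y h0 c2
  by_cases c3 : TT S n x (y - 1)
  · obtain ⟨g3, g4⟩ := wC hn c3 h0
    have c3' := c3
    rw [tT] at c3'
    have g1' : (x / n, (y - 1) / n + 1) ∉ S.P.Q := by rw [← g4]; exact h0'
    rw [← H.any (s := ((x / n, (y - 1) / n), 2)) (Pool.Agent.H68.W.isSide2.2 ⟨c3', g1'⟩), e2,
      ← H.l2 c3' g1' dx.1 dx.2, ← g3]
  by_cases c4 : TT S n x (y + 1)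
  · obtain ⟨g3, g4, -⟩ := wF hn c4 h0
    have c4' := c4
    rw [tT] at c4'
    have g1' : (x / n, (y + 1) / n - 1) ∉ S.P.Q := by rw [g4, add_sub_cancel_right]; exact h0'
    rw [← H.any (s := ((x / n, (y + 1) / n), 0)) (Pool.Agent.H68.W.isSide0.2 ⟨c4', g1'⟩), e0,
      ← H.l0 c4' g1' dx.1 dx.2, ← g3, add_sub_cancel_right]
  -- diagonal tiles
  have up1 : ∀ s : ℤ, (s = 1 ∨ s = -1) → TT S n (x + s) (y + 1) → (d x y ↔ FL0 n d (S.P.side 0)) := by
    intro s hs g
    rw [H.v x y s hs h0 c4 (Or.inr g)]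
    rcases hs with rfl | rfl
    · exact A3 _ c4 g
    · exact A1 _ c4 g
  have dn1 : ∀ s : ℤ, (s = 1 ∨ s = -1) → TT S n (x + s) (y - 1) → (d x y ↔ FL0 n d (S.P.side 0)) := by
    intro s hs g
    have := H.v x (y - 1) s hs c3 (by rw [sub_add_cancel]; exact h0) (Or.inl g)
    rw [sub_add_cancel] at this
    rw [← this]
    rcases hs with rfl | rfl
    · exact A3 _ c3 g
    · exact A1 _ c3 g
  rw [tT] at c1 c2 c3 c4
  rcases hT2 with k | k | k | k | k | k | k | k | k
  · exact dn1 (-1) (Or.inr rfl) k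
  · exact absurd k c1
  · exact up1 (-1) (Or.inr rfl) k
  · exact absurd k c3
  · exact absurd k h0'
  · exact absurd k c4
  · exact dn1 1 (Or.inl rfl) k
  · exact absurd k c2
  · exact up1 1 (Or.inl rfl) k

end

variable {c c' : ℤ → ℤ → Prop} {M : Set Mark} {C : Set (ℤ × ℤ)}

/-- two colourings with the same cuts -/
lemma eqv_of (hn : 4 ≤ n) (H : Cl (TT S n) M c C) (H' : Cl (TT S n) M c' C) : Eqv S n fun x y => (c x y ↔ c' x y) where
  hn := hn
  v x y s hs h1 h2 h3 := by
    have k1 := H.colV x y s hs h1 h2 h3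
    have k2 := H'.colV x y s hs h1 h2 h3
    tauto
  h x y s hs h1 h2 h3 h4 := by
    have k1 := H.colH x y s hs h1 h2 h3 h4
    have k2 := H'.colH x y s hs h1 h2 h3 h4
    tauto
  c m hm := by
    by_cases h : m ∈ M
    · have k1 := H.mkc m h
      have k2 := H'.mkc m h
      tauto
    · have k1 := H.cvH m hm h
      have k2 := H'.cvH m hm h
      tauto

/-- **Two colourings with the same cuts and marks are equal or opposite.** -/
theorem cl_uniq (hn : 4 ≤ n) (H : Cl (TT S n) M c C) (H' : Cl (TT S n) M c' C) :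
    (∀ x y, ¬ TT S n x y → Tc (TT S n) x y → (c x y ↔ c' x y)) ∨
    (∀ x y, ¬ TT S n x y → Tc (TT S n) x y → (c x y ↔ ¬ c' x y)) := by
  have E := eqv_of hn H H'
  by_cases h : FL0 n (fun x y => (c x y ↔ c' x y)) (S.P.side 0)
  · left
    exact fun x y h1 h2 => (E.tile h1 h2).2 h
  · right
    intro x y h1 h2
    have := fun g => h ((E.tile h1 h2).1 g)
    tauto

/-- **If they agree at one outer tile, they are equal.** -/
theorem cl_eq (hn : 4 ≤ n) (H : Cl (TT S n) M c C) (H' : Cl (TT S n) M c' C) {x0 y0 : ℤ}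
    (h1 : ¬ TT S n x0 y0) (h2 : Tc (TT S n) x0 y0) (h3 : c x0 y0 ↔ c' x0 y0) :
    ∀ x y, ¬ TT S n x y → Tc (TT S n) x y → (c x y ↔ c' x y) := by
  have E := eqv_of hn H H'
  have h := (E.tile h1 h2).1 h3
  exact fun x y g1 g2 => (E.tile g1 g2).2 h

end Pool.Agent.H19.W
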