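import Mathlib
import Pool.Agent.H19.W.RCell

set_option autoImplicit false
set_option linter.unusedVariables false
open Finset

/-! # RAISE: sides of the outer tiles, colours -/

namespace Pool.Agent.H19.W

open Pool.Agent.H75.Perc (dir)
open Pool.Agent.Q1.M4 (Cell PType Good IsSide nextSide tail head)
open Pool.Agent.H33.Q1 (lt tt ct TL lt_odd tt_lt lt_tt lt_inj mem_TL)
open Pool.Agent.H13.W Pool.Agent.H99.W
open Pool.Agent.H68.W (sx sx_spec)

variable {Q : Finset Cell} {n : ℤ} {P : PType}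

lemma ac_in {p : ℤ × ℤ} (h : ct n p ∈ Q) : ac Q n p = ct n p := by
  classical
  unfold ac
  rw [if_pos h]

lemma ac_out {p : ℤ × ℤ} (h : ct n p ∉ Q) : ac Q n p = (sd Q n p).1 := by
  classical
  unfold ac
  rw [if_neg h]

/-- `sd` is a side -/
lemma sd_side (hn : 2 ≤ n) {p : ℤ × ℤ} (h : Tq Q n p) (h0 : ct n p ∉ Q) : IsSide Q (sd Q n p) := by
  obtain ⟨x, y⟩ := p
  rw [Tq_iff] at h
  have h0' : (x / n, y / n) ∉ Q := h0
  have ne : ∀ {a b c d : ℤ}, (a, b) ∈ Q → (c, d) ∉ Q → ¬ (a = c ∧ b = d) := by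
    rintro a b c d h1 h2 ⟨rfl, rfl⟩
    exact h2 h1
  have d1 : dir (1 - 1) = (1, 0) := dirm.2.1 rfl
  have d3 : dir (3 - 1) = (-1, 0) := dirm.2.2.2 rfl
  have d2 : dir (2 - 1) = (0, 1) := dirm.2.2.1 rfl
  have d0 : dir (0 - 1) = (0, -1) := dirm.1 rfl
  have hx := div3 hn x
  have hy := div3 hn y
  rw [sd_eq]
  split_ifs with c1 c2 c3 c4 c5 c6 c7
  · have e := ne c1 h0'
    refine ⟨c1, ?_⟩
    simp only [d1, Prod.mk_add_mk]
    rw [show (x - 1) / n + 1 = x / n by omega, add_zero]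
    exact h0'
  · have e := ne c2 h0'
    refine ⟨c2, ?_⟩
    simp only [d3, Prod.mk_add_mk]
    rw [show (x + 1) / n + -1 = x / n by omega, add_zero]
    exact h0'
  · have e := ne c3 h0'
    refine ⟨c3, ?_⟩
    simp only [d2, Prod.mk_add_mk]
    rw [show (y - 1) / n + 1 = y / n by omega, add_zero]
    exact h0'
  · have e := ne c4 h0'
    refine ⟨c4, ?_⟩
    simp only [d0, Prod.mk_add_mk]
    rw [show (y + 1) / n + -1 = y / n by omega, add_zero]
    exact h0'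
  · have e := ne c5 c3
    refine ⟨c5, ?_⟩
    simp only [d1, Prod.mk_add_mk]
    rw [show (x - 1) / n + 1 = x / n by omega, add_zero]
    exact c3
  · have e := ne c6 c4
    refine ⟨c6, ?_⟩
    simp only [d1, Prod.mk_add_mk]
    rw [show (x - 1) / n + 1 = x / n by omega, add_zero]
    exact c4
  · have e := ne c7 c3
    refine ⟨c7, ?_⟩
    simp only [d3, Prod.mk_add_mk]
    rw [show (x + 1) / n + -1 = x / n by omega, add_zero]
    exact c3
  · have c8 : ((x + 1) / n, (y + 1) / n) ∈ Q := by tauto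
    have e := ne c8 c4
    refine ⟨c8, ?_⟩
    simp only [d3, Prod.mk_add_mk]
    rw [show (x + 1) / n + -1 = x / n by omega, add_zero]
    exact c4

/-- the index of the side of an outer tile -/
lemma si_spec (hn : 2 ≤ n) {p : ℤ × ℤ} (h : Tq P.Q n p) (h0 : ct n p ∉ P.Q) :
    si P n p < P.N ∧ (P.side (si P n p)).1 = ac P.Q n p ∧
      ((P.side (si P n p)).2 - (sd P.Q n p).2) % 4 = 0 := by
  have hs := sd_side hn h h0
  rw [ac_out h0]
  exact sx_spec (P := P) (c := (sd P.Q n p).1) (k := (sd P.Q n p).2) hs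

lemma mem_WC {κ : ℕ → ℤ → Prop} {e : ℤ × ℤ} : e ∈ WC P n κ ↔
    e ∈ LamC P.Q n ∧ ct n (tt e) ∉ P.Q ∧ κ (si P n (tt e)) (tt e).2 := by
  classical
  unfold WC
  rw [mem_filter]

/-- **Vertical neighbours outside**: the same side, or two consecutive sides of one wall. -/
lemma outer_v (hn : 3 ≤ n) {x y : ℤ} (h1 : Tq Q n (x, y)) (h2 : Tq Q n (x, y + 1))
    (o1 : ct n (x, y) ∉ Q) (o2 : ct n (x, y + 1) ∉ Q) :
    ∃ k : ℤ, (k = 1 ∨ k = 3) ∧ (sd Q n (x, y)).2 = k ∧ (sd Q n (x, y + 1)).2 = k ∧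
      ((sd Q n (x, y)).1 = (sd Q n (x, y + 1)).1 ∨
        ∃ a b : ℤ, (sd Q n (x, y)).1 = (a, b) ∧ (sd Q n (x, y + 1)).1 = (a, b + 1) ∧
          y = n * b + n - 1) := by
  rw [Tq_iff] at h1 h2
  have o1' : (x / n, y / n) ∉ Q := o1
  have o2' : (x / n, (y + 1) / n) ∉ Q := o2
  rw [show y + 1 - 1 = y by ring, show y + 1 + 1 = y + 2 by ring] at h2
  rw [sd_eq, sd_eq, show y + 1 - 1 = y by ring, show y + 1 + 1 = y + 2 by ring]
  have hx := div3 (show 2 ≤ n by omega) x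
  generalize hX : x / n = X at *
  generalize hY : y / n = Y at *
  rcases div4 hn y with hy | hy | hy | hy
  · obtain ⟨e1, e2, e3⟩ := hy
    rw [hY] at e1 e2 e3
    simp only [e1, e2, e3] at h1 h2 o2' ⊢
    split_ifs <;> first
      | exact ⟨1, Or.inl rfl, rfl, rfl, Or.inl rfl⟩
      | exact ⟨3, Or.inr rfl, rfl, rfl, Or.inl rfl⟩
      | exact ⟨1, Or.inl rfl, rfl, rfl, Or.inl trivial⟩
      | exact ⟨3, Or.inr rfl, rfl, rfl, Or.inl trivial⟩
      | (exfalso; simp_all)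
  · obtain ⟨e1, e2, e3⟩ := hy
    rw [hY] at e1 e2 e3
    simp only [e1, e2, e3] at h1 h2 o2' ⊢
    split_ifs <;> first
      | exact ⟨1, Or.inl rfl, rfl, rfl, Or.inl rfl⟩
      | exact ⟨3, Or.inr rfl, rfl, rfl, Or.inl rfl⟩
      | (exfalso; simp_all)
  · obtain ⟨e1, e2, e3, e4⟩ := hy
    rw [hY] at e1 e2 e3 e4
    simp only [e1, e2, e3] at h1 h2 o2' ⊢
    rcases hx with ⟨f1, f2⟩ | ⟨f1, f2⟩ | ⟨f1, f2⟩
    · simp only [f1, f2] at h1 h2
      exfalso
      simp_all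
    · simp only [f1, f2] at h1 h2 ⊢
      split_ifs <;> first
        | exact ⟨1, Or.inl rfl, rfl, rfl, Or.inl rfl⟩
        | exact ⟨1, Or.inl rfl, rfl, rfl, Or.inr ⟨_, _, rfl, rfl, e4⟩⟩
        | (exfalso; simp_all)
    · simp only [f1, f2] at h1 h2 ⊢
      split_ifs <;> first
        | exact ⟨3, Or.inr rfl, rfl, rfl, Or.inl rfl⟩
        | exact ⟨3, Or.inr rfl, rfl, rfl, Or.inr ⟨_, _, rfl, rfl, e4⟩⟩
        | (exfalso; simp_all)
  · obtain ⟨e1, e2, e3⟩ := hy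
    rw [hY] at e1 e2 e3
    simp only [e1, e2, e3] at h1 h2 o2' ⊢
    split_ifs <;> first
      | exact ⟨1, Or.inl rfl, rfl, rfl, Or.inl rfl⟩
      | exact ⟨3, Or.inr rfl, rfl, rfl, Or.inl rfl⟩
      | (exfalso; simp_all)

/-- **Coherent colours**: `ex i y` = jump of the colour on the side `i` between the rows `y` and `y + 1`. -/
structure KOK (P : PType) (n : ℤ) (κ : ℕ → ℤ → Prop) (ex : ℕ → ℤ → Prop) : Prop where
  v1 : ∀ i < P.N, ((P.side i).2 % 4 = 1 ∨ (P.side i).2 % 4 = 3) → ∀ y, ¬ ex i y → (κ i y ↔ κ i (y + 1))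
  v2 : ∀ i < P.N, ∀ i' < P.N, ∀ a b : ℤ, (P.side i).1 = (a, b) → (P.side i').1 = (a, b + 1) →
    ((P.side i).2 % 4 = 1 ∨ (P.side i).2 % 4 = 3) → ((P.side i).2 - (P.side i').2) % 4 = 0 →
    ¬ ex i (n * b + n - 1) → (κ i (n * b + n - 1) ↔ κ i' (n * b + n))

lemma KOK.coh {κ ex : ℕ → ℤ → Prop} (K : KOK P n κ ex) (hn : 3 ≤ n) {x y : ℤ}
    (h1 : Tq P.Q n (x, y)) (h2 : Tq P.Q n (x, y + 1)) (o1 : ct n (x, y) ∉ P.Q)
    (o2 : ct n (x, y + 1) ∉ P.Q) (hex : ¬ ex (si P n (x, y)) y) :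
    κ (si P n (x, y)) y ↔ κ (si P n (x, y + 1)) (y + 1) := by
  obtain ⟨k, hk, k1, k2, h3⟩ := outer_v hn h1 h2 o1 o2
  obtain ⟨a1, a2, a3⟩ := si_spec (P := P) (by omega) h1 o1
  obtain ⟨b1, b2, b3⟩ := si_spec (P := P) (by omega) h2 o2
  rw [k1] at a3
  rw [k2] at b3
  rw [ac_out o1] at a2
  rw [ac_out o2] at b2
  rcases h3 with h3 | ⟨a, b, h4, h5, h6⟩
  · have : si P n (x, y) = si P n (x, y + 1) := by
      unfold si
      rw [h3, k1, k2]
    rw [← this]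
    exact K.v1 _ a1 (by rcases hk with rfl | rfl <;> omega) y hex
  · have := K.v2 _ a1 _ b1 a b (a2.trans h4) (b2.trans h5) (by rcases hk with rfl | rfl <;> omega)
      (by omega) (by rw [← h6]; exact hex)
    have e : y + 1 = n * b + n := by omega
    rw [← h6, ← e] at this
    exact this

end Pool.Agent.H19.W
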