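import Mathlib
import Pool.Agent.H19.W.RSide

set_option autoImplicit false
set_option linter.unusedVariables false
open Finset

/-! # RAISE: the shift data for the coherent worlds of a polygon

`Part` : the part `U` of the polygon behind the tile row `r0` (which runs through the full row `run` of cells); `s = true` :
`U` is above the row. `RR` : the part as cells and rows. `FR` : the labels of the row `r0` between the walls. `κF` : the colours
flipped on the sides of the part. `Part.shift`, `Part.cut` : the hypotheses of RCore / RGraph: world 1 = plain world, world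
2 = flipped world with the deleted row (`s = true`), resp. the other way round (`s = false`). -/

namespace Pool.Agent.H19.W

open Pool.Agent.H75.Perc (dir)
open Pool.Agent.Q1.M4 (Cell PType Good IsSide nextSide tail head)
open Pool.Agent.H33.Q1 (lt tt ct TL lt_odd tt_lt lt_tt lt_inj mem_TL)
open Pool.Agent.H13.W Pool.Agent.H99.W
open Pool.Agent.H50.W (bk bk_eq_iff)

variable {Q : Finset Cell} {n : ℤ} {P : PType}

/-! ### Neighbours in tile coordinates -/

lemma tt_up (e : ℤ × ℤ) : tt (up e) = ((tt e).1, (tt e).2 + 1) := by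
  unfold tt up
  refine Prod.ext ?_ ?_ <;> simp only <;> omega

lemma tt_dn (e : ℤ × ℤ) : tt (dn e) = ((tt e).1, (tt e).2 - 1) := by
  unfold tt dn
  refine Prod.ext ?_ ?_ <;> simp only <;> omega

lemma tt_ea (e : ℤ × ℤ) : tt (ea e) = ((tt e).1 + 1, (tt e).2) := by
  unfold tt ea
  refine Prod.ext ?_ ?_ <;> simp only <;> omega

lemma tt_we (e : ℤ × ℤ) : tt (we e) = ((tt e).1 - 1, (tt e).2) := by
  unfold tt we
  refine Prod.ext ?_ ?_ <;> simp only <;> omega

/-! ### The part behind a row -/

/-- **The part `U` behind the tile row `r0`**, `s = true` : above. -/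
structure Part (Q : Finset Cell) (n : ℤ) (U run : Cell → Prop) (y0 r0 : ℤ) (s : Bool) : Prop where
  rQ : ∀ c, run c → c ∈ Q
  ry : ∀ c, run c → c.2 = y0
  r0 : n * y0 < r0 ∧ r0 < n * y0 + n
  ur : ∀ c, U c → ¬ run c
  u2 : ∀ a b, (a, b) ∈ Q → (a + 1, b) ∈ Q → (U (a, b) ↔ U (a + 1, b))
  r2 : ∀ a b, (a, b) ∈ Q → (a + 1, b) ∈ Q → (run (a, b) ↔ run (a + 1, b))
  u3 : ∀ a b, (a, b) ∈ Q → (a, b + 1) ∈ Q → ¬ run (a, b) → ¬ run (a, b + 1) → (U (a, b) ↔ U (a, b + 1))
  ua : ∀ a b, run (a, b) → (a, b + 1) ∈ Q → (U (a, b + 1) ↔ s = true)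
  ub : ∀ a b, run (a, b + 1) → (a, b) ∈ Q → (U (a, b) ↔ s = false)

/-- the part as cells and rows -/
def RR (U run : Cell → Prop) (r0 : ℤ) (s : Bool) (c : Cell) (y : ℤ) : Prop :=
  U c ∨ (run c ∧ (if s then r0 ≤ y else y < r0))

/-- the labels of the row `r0` between the walls -/
def FR (Q : Finset Cell) (n : ℤ) (run : Cell → Prop) (r0 : ℤ) : Set (ℤ × ℤ) :=
  {e | e ∈ LamC Q n ∧ run (ac Q n (tt e)) ∧ (tt e).2 = r0}

/-- colours flipped on the sides of the part `R` -/
def κF (P : PType) (R : Cell → ℤ → Prop) (κ : ℕ → ℤ → Prop) (i : ℕ) (y : ℤ) : Prop :=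
  Xor (κ i y) (R (P.side i).1 y)

variable {U run : Cell → Prop} {y0 r0 : ℤ} {s : Bool} {R : Cell → ℤ → Prop} {κ : ℕ → ℤ → Prop}

lemma mem_WCF (hn : 2 ≤ n) {e : ℤ × ℤ} (he : e ∈ LamC P.Q n) (ho : ct n (tt e) ∉ P.Q) :
    e ∈ WC P n (κF P R κ) ↔ Xor (e ∈ WC P n κ) (e ∈ RgS P.Q n R) := by
  have hT := ((mem_LamC (by omega)).1 he).2
  obtain ⟨h1, h2, h3⟩ := si_spec (P := P) hn hT ho
  rw [mem_WC, mem_WC]
  unfold κF RgS
  rw [h2]
  simp only [Set.mem_ofPred_eq, he, ho, not_false_eq_true, true_and]

lemma Part.regOK (H : Part Q n U run y0 r0 s) : RegOK Q n (RR U run r0 s) run r0 where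
  q1 c hc y h := by
    unfold RR
    cases s
    · simp only [Bool.false_eq_true, if_false]
      have : run c → ¬ y + 1 = r0 := fun h1 h2 => h ⟨h1, h2⟩
      constructor
      · rintro (h1 | ⟨h1, h2⟩)
        · exact Or.inl h1
        · exact Or.inr ⟨h1, by have := this h1; omega⟩
      · rintro (h1 | ⟨h1, h2⟩)
        · exact Or.inl h1
        · exact Or.inr ⟨h1, by omega⟩
    · simp only [if_true]
      have : run c → ¬ y + 1 = r0 := fun h1 h2 => h ⟨h1, h2⟩
      constructor
      · rintro (h1 | ⟨h1, h2⟩)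
        · exact Or.inl h1
        · exact Or.inr ⟨h1, by omega⟩
      · rintro (h1 | ⟨h1, h2⟩)
        · exact Or.inl h1
        · exact Or.inr ⟨h1, by have := this h1; omega⟩
  q2 a b h1 h2 y := by
    unfold RR
    rw [H.u2 a b h1 h2, H.r2 a b h1 h2]
  q3 a b h1 h2 := by
    unfold RR
    by_cases k1 : run (a, b)
    · have k2 : ¬ run (a, b + 1) := by
        intro k2
        have e1 := H.ry _ k1
        have e2 := H.ry _ k2
        simp only at e1 e2
        omega
      have e1 := H.ry _ k1
      simp only at e1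
      have e2 : n * y0 = n * b := by rw [e1]
      have h3 := H.r0
      have h4 := H.ua a b k1 h2
      have h5 : ¬ U (a, b) := fun h => H.ur _ h k1
      cases s
      · simp only [Bool.false_eq_true, if_false, iff_false] at h4 ⊢
        constructor
        · rintro (h | ⟨-, h⟩)
          · exact absurd h h5
          · omega
        · rintro (h | ⟨h, -⟩)
          · exact absurd h h4
          · exact absurd h k2
      · simp only [if_true, iff_true] at h4 ⊢
        exact ⟨fun _ => Or.inl h4, fun _ => Or.inr ⟨k1, by omega⟩⟩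
    · by_cases k2 : run (a, b + 1)
      · have e1 := H.ry _ k2
        simp only at e1
        have e2 : n * y0 = n * b + n := by rw [← e1]; ring
        have h3 := H.r0
        have h4 := H.ub a b k2 h1
        have h5 : ¬ U (a, b + 1) := fun h => H.ur _ h k2
        cases s
        · simp only [Bool.false_eq_true, if_false, iff_true] at h4 ⊢
          exact ⟨fun _ => Or.inr ⟨k2, by omega⟩, fun _ => Or.inl h4⟩
        · simp only [if_true, Bool.true_eq_false, iff_false] at h4 ⊢
          constructor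
          · rintro (h | ⟨h, -⟩)
            · exact absurd h h4
            · exact absurd h k1
          · rintro (h | ⟨-, h⟩)
            · exact absurd h h5
            · omega
      · rw [H.u3 a b h1 h2 k1 k2]
        simp only [k1, k2, false_and, or_false]
  qr c hc := by
    rw [H.ry c hc]
    exact H.r0

/-- a tile in the row `r0` or in a neighbouring row which touches a cell of the run is attached to the run -/
lemma Part.att (H : Part Q n U run y0 r0 s) (hn : 3 ≤ n) {p : ℤ × ℤ} {c : Cell} (h : Wn n p c) (hc : run c)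
    (hp : n * y0 ≤ p.2) (hp' : p.2 < n * y0 + n) : run (ac Q n p) := by
  have hn0 : 0 < n := by omega
  obtain ⟨x, y⟩ := p
  simp only at hp hp'
  have hY : y / n = y0 := by
    rw [Int.ediv_eq_iff_of_pos hn0]
    constructor <;> nlinarith
  obtain ⟨q, h1, h2, h3⟩ := h
  simp only at h1 h2
  have hcQ := H.rQ c hc
  have hcy := H.ry c hc
  have hx := div3 (show 2 ≤ n by omega) x
  rw [abs_le] at h1
  have hq : c = ((x - 1) / n, y / n) ∨ c = (x / n, y / n) ∨ c = ((x + 1) / n, y / n) := by
    have e1 : q.1 = x - 1 ∨ q.1 = x ∨ q.1 = x + 1 := by omega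
    rw [hY, ← hcy, ← h3]
    unfold ct
    rcases e1 with e | e | e <;> rw [e] <;> simp
  have r2 : ∀ a : ℤ, (a, y / n) ∈ Q → (a + 1, y / n) ∈ Q → (run (a, y / n) ↔ run (a + 1, y / n)) :=
    fun a => H.r2 a _
  rw [ac_eq]
  have hadj : ∀ a a' : ℤ, (a' = a ∨ a' = a + 1 ∨ a = a' + 1) → (a, y / n) ∈ Q → (a', y / n) ∈ Q →
      run (a, y / n) → run (a', y / n) := by
    rintro a a' (rfl | rfl | rfl) g1 g2 g3
    · exact g3
    · exact (r2 a g1 g2).1 g3
    · exact (r2 a' g2 g1).2 g3
  split_ifs with c1 c2 c3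
  · rcases hq with rfl | rfl | rfl
    · exact hadj _ _ (by omega) hcQ c1 hc
    · exact hc
    · exact hadj _ _ (by omega) hcQ c1 hc
  · rcases hq with rfl | rfl | rfl
    · exact hc
    · exact absurd hcQ c1
    · exact hadj _ _ (by omega) hcQ c2 hc
  · rcases hq with rfl | rfl | rfl
    · exact absurd hcQ c2
    · exact absurd hcQ c1
    · exact hc
  all_goals
    exfalso
    rcases hq with rfl | rfl | rfl
    · exact c2 hcQ
    · exact c1 hcQ
    · exact c3 hcQ

/-- tiles of one column in the row of the run -/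
lemma Part.att_row (H : Part Q n U run y0 r0 s) (hn : 3 ≤ n) {x y y' : ℤ} (h : run (ac Q n (x, y)))
    (hp : n * y0 ≤ y') (hp' : y' < n * y0 + n) : run (ac Q n (x, y')) := by
  have hn0 : 0 < n := by omega
  obtain ⟨q, h1, h2, h3⟩ := ac_Wn (Q := Q) (n := n) (p := (x, y))
  refine H.att hn (p := (x, y')) (c := ac Q n (x, y)) ⟨(q.1, y'), h1, by simp, ?_⟩ h hp hp'
  have e := H.ry _ h
  rw [← h3] at e ⊢
  unfold ct at e ⊢
  simp only at e
  refine Prod.ext rfl ?_
  simp only
  rw [e, Int.ediv_eq_iff_of_pos hn0]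
  constructor <;> nlinarith

/-- the only places where the part changes between vertical neighbours -/
lemma Part.jump (G : Good Q) (H : Part Q n U run y0 r0 s) (hn : 3 ≤ n) {x y : ℤ} (h1 : Tq Q n (x, y))
    (h2 : Tq Q n (x, y + 1))
    (h : ¬ (RR U run r0 s (ac Q n (x, y)) y ↔ RR U run r0 s (ac Q n (x, y + 1)) (y + 1))) :
    y + 1 = r0 ∧ run (ac Q n (x, y)) ∧ run (ac Q n (x, y + 1)) ∧
      (RR U run r0 s (ac Q n (x, y)) y ↔ s = false) := by
  have HR := H.regOK
  have h0 := H.r0
  have hy : y + 1 = r0 := by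
    by_contra hc
    exact h (HR.ver G hn h1 h2 hc)
  obtain ⟨c, hc, k1, k2⟩ := common_v hn h1 h2
  have e1 := HR.win G hn ac_Wn k1 (ac_mem h1) hc
  have e2 := HR.win G hn k2 ac_Wn hc (ac_mem h2)
  simp only at e1 e2
  have hrun : run c := by
    by_contra hr
    exact h (e1.trans ((HR.q1 c hc y (fun g => hr g.1)).trans e2))
  have a1 := H.att hn k1 hrun (by simp only; omega) (by simp only; omega)
  have a2 := H.att hn k2 hrun (by simp only; omega) (by simp only; omega)
  refine ⟨hy, a1, a2, ?_⟩
  unfold RR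
  have : ¬ U (ac Q n (x, y)) := fun g => H.ur _ g a1
  cases s
  · simp only [Bool.false_eq_true, if_false, iff_true]
    exact Or.inr ⟨a1, by omega⟩
  · simp only [if_true, Bool.true_eq_false, iff_false]
    rintro (g | ⟨-, g⟩)
    · exact this g
    · omega

end Pool.Agent.H19.W
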