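import Mathlib
import Pool.Agent.H19.W.RPoly

set_option autoImplicit false
set_option linter.unusedVariables false
open Finset

/-! # RAISE: `Shift` and `CutOK` for a part of a polygon -/

namespace Pool.Agent.H19.W

open Pool.Agent.H75.Perc (dir)
open Pool.Agent.Q1.M4 (Cell PType Good IsSide nextSide tail head)
open Pool.Agent.H33.Q1 (lt tt ct TL lt_odd tt_lt lt_tt lt_inj mem_TL)
open Pool.Agent.H13.W Pool.Agent.H99.W
open Pool.Agent.H50.W (bk bk_eq_iff)

/-- **Geometry of the plates** -/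
structure PlG {β : Type*} (Q : Finset Cell) (pl : Cell → Option β) : Prop where
  p3 : ∀ a b, (a, b) ∈ Q → pl (a, b) ≠ none → (a, b + 1) ∈ Q ∧ (a, b - 1) ∈ Q
  p4 : ∀ a b, (a, b) ∈ Q → (a, b + 1) ∈ Q → pl (a, b) ≠ none → pl (a, b + 1) ≠ none →
    pl (a, b) = pl (a, b + 1)

/-- **Hypotheses of RAISE for the part `U`.** -/
structure PHyp {β : Type*} (P : PType) (n : ℤ) (pl : Cell → Option β) (κ ex : ℕ → ℤ → Prop)
    (D : Set (ℤ × ℤ)) (U run : Cell → Prop) (y0 r0 : ℤ) (s : Bool) : Prop where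
  hn : 4 ≤ n
  part : Part P.Q n U run y0 r0 s
  p1 : ∀ c ∈ P.Q, ∀ c' ∈ P.Q, pl c ≠ none → pl c = pl c' → U c → U c'
  p2 : ∀ c, run c → pl c = none
  pg : PlG P.Q pl
  hD : ∀ e ∈ D, e ∈ LamC P.Q n ∧ ¬ U (ac P.Q n (tt e)) ∧ ¬ run (ac P.Q n (tt e))
  K : KOK P n κ ex
  hex : ∀ i y, ex i y → ¬ U (P.side i).1 ∧ ¬ run (P.side i).1

section
variable {β : Type*} {P : PType} {n : ℤ} {pl : Cell → Option β} {κ ex : ℕ → ℤ → Prop}
  {D D1 D2 : Set (ℤ × ℤ)} {U run : Cell → Prop} {y0 r0 : ℤ} {s : Bool} {R : Cell → ℤ → Prop}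
  {W1 W2 : Finset (ℤ × ℤ)}

lemma mem_RgS {Q : Finset Cell} {e : ℤ × ℤ} : e ∈ RgS Q n R ↔ e ∈ LamC Q n ∧ R (ac Q n (tt e)) (tt e).2 :=
  Iff.rfl

lemma mem_NatS {Q : Finset Cell} {e : ℤ × ℤ} : e ∈ NatS Q n pl ↔ (e.1 + e.2) % 2 = 1 ∧
    ct n (tt e) ∈ Q ∧ pl (ct n (tt e)) = none := Iff.rfl

lemma TL_sub_LamC {Q : Finset Cell} (hn : 0 < n) : TL Q n ⊆ LamC Q n := by
  intro e he
  rw [mem_TL hn] at he
  rw [mem_LamC hn]
  exact ⟨he.1, tt e, by simp, by simp, he.2⟩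

lemma not_TL {Q : Finset Cell} (hn : 0 < n) {e : ℤ × ℤ} (he : e ∈ LamC Q n) :
    e ∉ TL Q n ↔ ct n (tt e) ∉ Q := by
  rw [mem_TL hn]
  have := ((mem_LamC hn).1 he).1
  tauto

/-- the tile above (below) a tile of a cell is in the cell or in the next cell -/
lemma ct_up (hn : 0 < n) (x y : ℤ) : (ct n (x, y + 1) = ct n (x, y)) ∨
    (ct n (x, y + 1) = ((ct n (x, y)).1, (ct n (x, y)).2 + 1) ∧ y = n * (ct n (x, y)).2 + n - 1) := by
  unfold ct
  simp only
  have hy := Int.emod_add_mul_ediv y n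
  have h0 := Int.emod_nonneg y hn.ne'
  have h1 := Int.emod_lt_of_pos y hn
  by_cases c : y % n = n - 1
  · right
    refine ⟨?_, by omega⟩
    have : (y + 1) / n = y / n + 1 := by
      have e : y + 1 = (y / n + 1) * n := by linarith [hy, mul_comm n (y / n)]
      rw [e, Int.mul_ediv_cancel _ hn.ne']
    rw [this]
  · left
    have : (y + 1) / n = y / n := by
      rw [Int.ediv_eq_iff_of_pos hn]
      constructor <;> nlinarith [show y % n + 1 < n by omega]
    rw [this]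

/-- **`Shift` from the colours and the deleted labels.** `PS` : blocks are in `S` as a whole. -/
theorem shift_mk [DecidableEq β] (hn : 4 ≤ n) (pg : PlG P.Q pl)
    (pS : ∀ c ∈ P.Q, ∀ c' ∈ P.Q, pl c ≠ none → pl c = pl c' → ∀ y y', R c y → R c' y')
    (hW1 : ∀ e ∈ TL P.Q n, e ∉ W1) (hW2 : ∀ e ∈ TL P.Q n, e ∉ W2)
    (no : ∀ e ∈ RgS P.Q n R, e ∈ NatS P.Q n pl → up e ∈ LamC P.Q n → up e ∉ TL P.Q n →
      (up e ∈ W2 ↔ up e ∉ W1))
    (on : ∀ e ∈ RgS P.Q n R, e ∉ TL P.Q n → up e ∈ NatS P.Q n pl → (e ∈ W2 ↔ e ∉ W1))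
    (oo : ∀ e ∈ RgS P.Q n R, e ∉ TL P.Q n → up e ∈ LamC P.Q n → up e ∉ TL P.Q n → (up e ∈ W2 ↔ e ∉ W1))
    (tp : ∀ e ∈ RgS P.Q n R, up e ∈ LamC P.Q n → up e ∉ RgS P.Q n R → up e ∈ D1)
    (tN : ∀ e ∈ RgS P.Q n R, up e ∈ TL P.Q n → up e ∉ RgS P.Q n R → up e ∈ NatS P.Q n pl)
    (pn : ∀ e ∈ LamC P.Q n, e ∉ RgS P.Q n R → e ∉ D1 → e ∉ D2 ∧ (e ∉ TL P.Q n → (e ∈ W2 ↔ e ∈ W1)))
    (ds : ∀ e ∈ RgS P.Q n R, up e ∈ D2 ↔ e ∈ D1) :
    Shift (LamC P.Q n) (TL P.Q n) (bk n pl) (NatS P.Q n pl) (RgS P.Q n R) D1 D2 W1 W2 := by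
  have hn0 : 0 < n := by omega
  have acT : ∀ e ∈ TL P.Q n, ac P.Q n (tt e) = ct n (tt e) := fun e he => ac_in ((mem_TL hn0).1 he).2
  exact
    { odd := fun e he => ((mem_LamC hn0).1 he).1
      sub := TL_sub_LamC hn0
      SL := fun e he => he.1
      nE := fun e he => (mem_TL hn0).2 ⟨he.1, he.2.1⟩
      own := by
        intro e he l hl hb
        rw [bk_eq_iff] at hb
        rcases hb with hb | ⟨h1, h2⟩
        · exact hb
        · rw [h2, he.2.2] at h1
          exact absurd rfl h1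
      oW1 := hW1
      oW2 := hW2
      pS := by
        intro e he l hl hb hS
        rw [bk_eq_iff] at hb
        rcases hb with hb | ⟨h1, h2⟩
        · rw [hb]; exact hS
        · rw [mem_RgS, acT e he] at hS
          rw [mem_RgS, acT l hl]
          refine ⟨TL_sub_LamC hn0 hl, ?_⟩
          exact pS _ ((mem_TL hn0).1 he).2 _ ((mem_TL hn0).1 hl).2 (by rw [← h2]; exact h1) h2.symm _ _ hS.2
      pl2 := by
        intro e he hS hN
        have h1 := (mem_TL hn0).1 he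
        have h2 : pl (ct n (tt e)) ≠ none := fun h => hN ⟨h1.1, h1.2, h⟩
        set c := ct n (tt e) with hc
        have e1 : ct n (c.1 * n, c.2 * n) = c := by
          rw [Pool.Agent.H33.Q1.ct_eq hn0]
          simp only
          omega
        have e2 : ct n (c.1 * n, c.2 * n + 1) = c := by
          rw [Pool.Agent.H33.Q1.ct_eq hn0]
          simp only
          omega
        have m1 : lt (c.1 * n, c.2 * n) ∈ TL P.Q n := by
          rw [mem_TL hn0, tt_lt, e1]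
          exact ⟨lt_odd _, h1.2⟩
        have t2 : tt (up (lt (c.1 * n, c.2 * n))) = (c.1 * n, c.2 * n + 1) := by rw [tt_up, tt_lt]
        have m2 : up (lt (c.1 * n, c.2 * n)) ∈ TL P.Q n := by
          rw [mem_TL hn0, t2, e2]
          exact ⟨odd_up.2 (lt_odd _), h1.2⟩
        refine ⟨lt (c.1 * n, c.2 * n), m1, ?_, ?_, m2, ?_⟩
        · rw [mem_RgS, acT _ m1, tt_lt, e1]
          rw [mem_RgS, acT e he] at hS
          exact ⟨TL_sub_LamC hn0 m1, pS _ h1.2 _ h1.2 h2 rfl _ _ hS.2⟩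
        · rw [bk_eq_iff, tt_lt, e1]
          exact Or.inr ⟨h2, rfl⟩
        · rw [bk_eq_iff, t2, e2]
          exact Or.inr ⟨h2, rfl⟩
      pp := by
        intro e hS hE hN hE' hN'
        have h1 := (mem_TL hn0).1 hE
        have h2 : pl (ct n (tt e)) ≠ none := fun h => hN ⟨h1.1, h1.2, h⟩
        have h3 := (mem_TL hn0).1 hE'
        have h4 : pl (ct n (tt (up e))) ≠ none := fun h => hN' ⟨h3.1, h3.2, h⟩
        rw [bk_eq_iff]
        right
        rw [tt_up] at h3 h4 ⊢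
        refine ⟨h4, ?_⟩
        rcases ct_up hn0 (tt e).1 (tt e).2 with h5 | ⟨h5, -⟩
        · rw [h5]
        · rw [h5] at h3 h4 ⊢
          exact (pg.p4 _ _ h1.2 h3.2 h2 h4).symm
      po := by
        intro e hS hE hN hL
        have h1 := (mem_TL hn0).1 hE
        have h2 : pl (ct n (tt e)) ≠ none := fun h => hN ⟨h1.1, h1.2, h⟩
        rw [mem_TL hn0, tt_up]
        refine ⟨odd_up.2 h1.1, ?_⟩
        rcases ct_up hn0 (tt e).1 (tt e).2 with h5 | ⟨h5, -⟩
        · rw [h5]; exact h1.2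
        · rw [h5]; exact (pg.p3 _ _ h1.2 h2).1
      op := by
        intro e hS hE hE'
        have hL := hS.1
        have h1 := (not_TL hn0 hL).1 hE
        have h3 := (mem_TL hn0).1 hE'
        refine ⟨h3.1, h3.2, ?_⟩
        by_contra h4
        rw [tt_up] at h3 h4
        rcases ct_up hn0 (tt e).1 (tt e).2 with h5 | ⟨h5, -⟩
        · rw [h5] at h3; exact h1 h3.2
        · rw [h5] at h3 h4
          have := (pg.p3 _ _ h3.2 h4).2
          rw [add_sub_cancel_right] at this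
          exact h1 this
      oo := oo
      no := no
      on := on
      tp := tp
      tN := tN
      pn := pn
      ds := ds }

end

section part
variable {β : Type*} {P : PType} {n : ℤ} {pl : Cell → Option β} {κ ex : ℕ → ℤ → Prop}
  {D : Set (ℤ × ℤ)} {U run : Cell → Prop} {y0 r0 : ℤ} {s : Bool}

lemma mem_FR {Q : Finset Cell} {e : ℤ × ℤ} : e ∈ FR Q n run r0 ↔ e ∈ LamC Q n ∧
    run (ac Q n (tt e)) ∧ (tt e).2 = r0 := Iff.rfl

variable (H : PHyp P n pl κ ex D U run y0 r0 s)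
include H

/-- jumps of `S` between vertical neighbours -/
lemma PHyp.jmp {e : ℤ × ℤ} (h1 : e ∈ LamC P.Q n) (h2 : up e ∈ LamC P.Q n)
    (h : ¬ (e ∈ RgS P.Q n (RR U run r0 s) ↔ up e ∈ RgS P.Q n (RR U run r0 s))) :
    (tt e).2 + 1 = r0 ∧ run (ac P.Q n (tt e)) ∧ up e ∈ FR P.Q n run r0 ∧
      (e ∈ RgS P.Q n (RR U run r0 s) ↔ s = false) := by
  have hn := H.hn
  have t1 := ((mem_LamC (show 0 < n by omega)).1 h1).2
  have t2 := ((mem_LamC (show 0 < n by omega)).1 h2).2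
  rw [tt_up] at t2
  have h' : ¬ (RR U run r0 s (ac P.Q n (tt e)) (tt e).2 ↔
      RR U run r0 s (ac P.Q n ((tt e).1, (tt e).2 + 1)) ((tt e).2 + 1)) := by
    intro g
    apply h
    rw [mem_RgS, mem_RgS, tt_up]
    simp only [h1, h2, true_and]
    exact g
  obtain ⟨k1, k2, k3, k4⟩ := H.part.jump P.good (by omega) (x := (tt e).1) (y := (tt e).2) t1 t2 h'
  refine ⟨k1, k2, ⟨h2, ?_, ?_⟩, ?_⟩
  · rw [tt_up]; exact k3
  · rw [tt_up]; exact k1
  · rw [mem_RgS]
    simp only [h1, true_and]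
    exact k4

lemma PHyp.D_notS {e : ℤ × ℤ} (h : e ∈ D) : e ∉ RgS P.Q n (RR U run r0 s) := by
  rintro ⟨-, h1 | ⟨h1, -⟩⟩
  · exact (H.hD e h).2.1 h1
  · exact (H.hD e h).2.2 h1

lemma PHyp.D_notF {e : ℤ × ℤ} (h : e ∈ D) : e ∉ FR P.Q n run r0 := fun h1 => (H.hD e h).2.2 h1.2.1

/-- the row `r0` is in `S` iff `s` -/
lemma PHyp.F_S {e : ℤ × ℤ} (h : e ∈ FR P.Q n run r0) : e ∈ RgS P.Q n (RR U run r0 s) ↔ s = true := by
  have hu : ¬ U (ac P.Q n (tt e)) := fun g => H.part.ur _ g h.2.1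
  rw [mem_RgS, h.2.2]
  unfold RR
  cases s
  · simp only [hu, Bool.false_eq_true, if_false, false_or, iff_false]
    rintro ⟨-, -, g⟩
    exact lt_irrefl _ g
  · simp only [hu, if_true, false_or, iff_true]
    exact ⟨h.1, h.2.1, le_rfl⟩

lemma PHyp.pS : ∀ c ∈ P.Q, ∀ c' ∈ P.Q, pl c ≠ none → pl c = pl c' → ∀ y y', RR U run r0 s c y →
    RR U run r0 s c' y' := by
  rintro c hc c' hc' h1 h2 y y' (h3 | ⟨h3, -⟩)
  · exact Or.inl (H.p1 c hc c' hc' h1 h2 h3)
  · exact absurd (H.p2 c h3) h1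

/-- coherence of the plain colours at `S` -/
lemma PHyp.coh {e : ℤ × ℤ} (h0 : e ∈ RgS P.Q n (RR U run r0 s)) (h1 : e ∉ TL P.Q n)
    (h2 : up e ∈ LamC P.Q n) (h3 : up e ∉ TL P.Q n) : up e ∈ WC P n κ ↔ e ∈ WC P n κ := by
  have hn := H.hn
  have hn0 : 0 < n := by omega
  have hL := h0.1
  have o1 := (not_TL hn0 hL).1 h1
  have o2 := (not_TL hn0 h2).1 h3
  have t1 := ((mem_LamC hn0).1 hL).2
  have t2 := ((mem_LamC hn0).1 h2).2
  rw [mem_WC, mem_WC]
  rw [tt_up] at t2 o2 ⊢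
  simp only [hL, h2, o1, o2, not_false_eq_true, true_and]
  have hex : ¬ ex (si P n (tt e)) (tt e).2 := by
    intro g
    have g1 := H.hex _ _ g
    rw [(si_spec (P := P) (by omega) t1 o1).2.1] at g1
    rcases h0.2 with g2 | ⟨g2, -⟩
    · exact g1.1 g2
    · exact g1.2 g2
  exact (H.K.coh (x := (tt e).1) (y := (tt e).2) (by omega) t1 t2 o1 o2 hex).symm

/-- a natural tile of `S` below an outer tile: the outer tile is in `S` -/
lemma PHyp.nat_outer {e : ℤ × ℤ} (h0 : e ∈ RgS P.Q n (RR U run r0 s)) (h1 : e ∈ TL P.Q n)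
    (h2 : up e ∈ LamC P.Q n) (h3 : up e ∉ TL P.Q n) : up e ∈ RgS P.Q n (RR U run r0 s) := by
  have hn := H.hn
  have hn0 : 0 < n := by omega
  by_contra hc
  obtain ⟨k1, k2, k3, -⟩ := H.jmp h0.1 h2 (by tauto)
  have h4 := (mem_TL hn0).1 h1
  rw [ac_in h4.2] at k2
  have h5 := H.part.ry _ k2
  have h6 := H.part.r0
  have o2 := (not_TL hn0 h2).1 h3
  rw [tt_up] at o2
  rcases ct_up hn0 (tt e).1 (tt e).2 with h7 | ⟨h7, h8⟩
  · rw [h7] at o2
    exact o2 h4.2
  · have e9 : ct n ((tt e).1, (tt e).2) = ct n (tt e) := rfl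
    rw [e9, h5] at h8
    omega

/-- the label below the row `r0` is not in `S` (`s = true`) -/
lemma PHyp.low {e : ℤ × ℤ} (hs : s = true) (h0 : e ∈ RgS P.Q n (RR U run r0 s))
    (h : up e ∈ FR P.Q n run r0) : False := by
  have h1 := H.part.r0
  have hr := h.2.2
  have hru : run (ac P.Q n (tt (up e))) := h.2.1
  rw [tt_up] at hr hru
  simp only at hr
  have hn := H.hn
  have h2 := H.part.att_row (by omega) (y' := (tt e).2) hru (by omega) (by omega)
  have h3 : ¬ U (ac P.Q n (tt e)) := fun g => H.part.ur _ g h2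
  rcases h0.2 with g | ⟨-, g⟩
  · exact h3 g
  · rw [hs] at g
    simp only [if_true] at g
    omega

/-- the label above the row `r0` is not in `S` (`s = false`) -/
lemma PHyp.high {e : ℤ × ℤ} (hs : s = false) (h0 : e ∈ RgS P.Q n (RR U run r0 s))
    (h : dn e ∈ FR P.Q n run r0) (h1 : r0 + 1 < n * y0 + n) : False := by
  have h1' := H.part.r0
  have hr := h.2.2
  have hru : run (ac P.Q n (tt (dn e))) := h.2.1
  rw [tt_dn] at hr hru
  simp only at hr
  have hn := H.hn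
  have h2 := H.part.att_row (by omega) (y' := (tt e).2) hru (by omega) (by omega)
  have h3 : ¬ U (ac P.Q n (tt e)) := fun g => H.part.ur _ g h2
  rcases h0.2 with g | ⟨-, g⟩
  · exact h3 g
  · rw [hs] at g
    simp only [Bool.false_eq_true, if_false] at g
    omega

theorem PHyp.shiftT [DecidableEq β] (hs : s = true) :
    Shift (LamC P.Q n) (TL P.Q n) (bk n pl) (NatS P.Q n pl) (RgS P.Q n (RR U run r0 s)) D
      (D ∪ FR P.Q n run r0) (WC P n κ) (WC P n (κF P (RR U run r0 s) κ)) := by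
  have hn := H.hn
  have hn0 : 0 < n := by omega
  have hW : ∀ κ : ℕ → ℤ → Prop, ∀ e ∈ TL P.Q n, e ∉ WC P n κ := fun κ e he h =>
    (mem_WC.1 h).2.1 ((mem_TL hn0).1 he).2
  have hfl : ∀ e ∈ LamC P.Q n, e ∉ TL P.Q n → (e ∈ WC P n (κF P (RR U run r0 s) κ) ↔
      Xor (e ∈ WC P n κ) (e ∈ RgS P.Q n (RR U run r0 s))) := fun e he h =>
    mem_WCF (by omega) he ((not_TL hn0 he).1 h)
  have hup : ∀ e ∈ RgS P.Q n (RR U run r0 s), up e ∈ LamC P.Q n → up e ∈ RgS P.Q n (RR U run r0 s) := by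
    intro e he h
    by_contra hc
    have := (H.jmp he.1 h (by tauto)).2.2.2.1 he
    rw [hs] at this
    exact absurd this (by simp)
  refine shift_mk hn H.pg H.pS (hW _) (hW _) ?_ ?_ ?_ ?_ ?_ ?_ ?_
  · intro e h0 h1 h2 h3
    rw [hfl _ h2 h3]
    have := hup e h0 h2
    unfold Xor
    tauto
  · intro e h0 h1 h2
    rw [hfl _ h0.1 h1]
    unfold Xor
    tauto
  · intro e h0 h1 h2 h3
    rw [hfl _ h2 h3, ← H.coh h0 h1 h2 h3]
    have := hup e h0 h2
    unfold Xor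
    tauto
  · exact fun e h0 h1 h2 => absurd (hup e h0 h1) h2
  · exact fun e h0 h1 h2 => absurd (hup e h0 (TL_sub_LamC hn0 h1)) h2
  · intro e h0 h1 h2
    refine ⟨?_, fun h3 => ?_⟩
    · rintro (h | h)
      · exact h2 h
      · exact h1 ((H.F_S h).2 hs)
    · rw [hfl _ h0 h3]
      unfold Xor
      tauto
  · intro e h0
    constructor
    · rintro (h | h)
      · exact absurd (hup e h0 (H.hD _ h).1) (H.D_notS h)
      · exfalso
        exact H.low hs h0 h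
    · intro h
      exact absurd h0 (H.D_notS h)

theorem PHyp.shiftF [DecidableEq β] (hs : s = false) :
    Shift (LamC P.Q n) (TL P.Q n) (bk n pl) (NatS P.Q n pl) (RgS P.Q n (RR U run r0 s))
      (D ∪ FR P.Q n run r0) D (WC P n (κF P (RR U run r0 s) κ)) (WC P n κ) := by
  have hn := H.hn
  have hn0 : 0 < n := by omega
  have hW : ∀ κ : ℕ → ℤ → Prop, ∀ e ∈ TL P.Q n, e ∉ WC P n κ := fun κ e he h =>
    (mem_WC.1 h).2.1 ((mem_TL hn0).1 he).2
  have hfl : ∀ e ∈ LamC P.Q n, e ∉ TL P.Q n → (e ∈ WC P n (κF P (RR U run r0 s) κ) ↔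
      Xor (e ∈ WC P n κ) (e ∈ RgS P.Q n (RR U run r0 s))) := fun e he h =>
    mem_WCF (by omega) he ((not_TL hn0 he).1 h)
  refine shift_mk hn H.pg H.pS (hW _) (hW _) ?_ ?_ ?_ ?_ ?_ ?_ ?_
  · intro e h0 h1 h2 h3
    rw [hfl _ h2 h3]
    have := H.nat_outer h0 ((mem_TL hn0).2 ⟨h1.1, h1.2.1⟩) h2 h3
    unfold Xor
    tauto
  · intro e h0 h1 h2
    rw [hfl _ h0.1 h1]
    unfold Xor
    tauto
  · intro e h0 h1 h2 h3
    rw [hfl _ h0.1 h1, H.coh h0 h1 h2 h3]
    unfold Xor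
    tauto
  · exact fun e h0 h1 h2 => Or.inr (H.jmp h0.1 h1 (by tauto)).2.2.1
  · intro e h0 h1 h2
    have h3 := (H.jmp h0.1 (TL_sub_LamC hn0 h1) (by tauto)).2.2.1
    have h4 := (mem_TL hn0).1 h1
    have h5 := h3.2.1
    rw [ac_in h4.2] at h5
    exact ⟨h4.1, h4.2, H.p2 _ h5⟩
  · intro e h0 h1 h2
    refine ⟨fun h => h2 (Or.inl h), fun h3 => ?_⟩
    rw [hfl _ h0 h3]
    unfold Xor
    tauto
  · intro e h0
    constructor
    · intro h
      exfalso
      have hL := (H.hD _ h).1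
      by_cases hc : up e ∈ RgS P.Q n (RR U run r0 s)
      · exact H.D_notS h hc
      · exact H.D_notF h (H.jmp h0.1 hL (by tauto)).2.2.1
    · rintro (h | h)
      · exact absurd h0 (H.D_notS h)
      · have := (H.F_S h).1 h0
        rw [hs] at this
        exact absurd this (by simp)

lemma PHyp.eas {e : ℤ × ℤ} (h0 : e ∈ RgS P.Q n (RR U run r0 s)) (h1 : ea e ∈ LamC P.Q n) :
    ea e ∈ RgS P.Q n (RR U run r0 s) := by
  have hn := H.hn
  have hn0 : 0 < n := by omega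
  have t1 := ((mem_LamC hn0).1 h0.1).2
  have t2 := ((mem_LamC hn0).1 h1).2
  refine ⟨h1, ?_⟩
  rw [tt_ea] at t2 ⊢
  exact (H.part.regOK.hor P.good (by omega) (x := (tt e).1) (y := (tt e).2) t1 t2).1 h0.2

lemma PHyp.wes {e : ℤ × ℤ} (h0 : e ∈ RgS P.Q n (RR U run r0 s)) (h1 : we e ∈ LamC P.Q n) :
    we e ∈ RgS P.Q n (RR U run r0 s) := by
  have hn := H.hn
  have hn0 : 0 < n := by omega
  have t1 := ((mem_LamC hn0).1 h0.1).2
  have t2 := ((mem_LamC hn0).1 h1).2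
  refine ⟨h1, ?_⟩
  rw [tt_we] at t2 ⊢
  have t1' : Tq P.Q n ((tt e).1 - 1 + 1, (tt e).2) := by rw [sub_add_cancel]; exact t1
  have := H.part.regOK.hor P.good (by omega) (x := (tt e).1 - 1) (y := (tt e).2) t2 t1'
  rw [sub_add_cancel] at this
  exact this.2 h0.2

/-- the label below a label of `S` is not in `D` -/
lemma PHyp.dnD {e : ℤ × ℤ} (h0 : e ∈ RgS P.Q n (RR U run r0 s)) (h1 : dn e ∈ LamC P.Q n) : dn e ∉ D := by
  intro h
  by_cases hc : dn e ∈ RgS P.Q n (RR U run r0 s)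
  · exact H.D_notS h hc
  · have := (H.jmp (e := dn e) h1 (by rw [up_dn]; exact h0.1) (by rw [up_dn]; tauto)).2.1
    exact (H.hD _ h).2.2 this

theorem PHyp.cutT (hs : s = true) : CutOK (LamC P.Q n) (RgS P.Q n (RR U run r0 s)) D
    (D ∪ FR P.Q n run r0) where
  sD e h0 h := H.D_notS h h0
  eas e h0 h1 := H.eas h0 h1
  wes e h0 h1 := H.wes h0 h1
  dns e h0 h1 := H.dnD h0 h1
  bot e h0 h1 h2 := by
    have := (H.jmp (e := dn e) h1 (by rw [up_dn]; exact h0.1) (by rw [up_dn]; tauto)).2.2.1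
    rw [up_dn] at this
    exact Or.inr this
  stay e _ h _ := Or.inl h

theorem PHyp.cutF (hs : s = false) : CutOK (LamC P.Q n) (RgS P.Q n (RR U run r0 s))
    (D ∪ FR P.Q n run r0) D where
  sD e h0 h := by
    rcases h with h | h
    · exact H.D_notS h h0
    · have := (H.F_S h).1 h0
      rw [hs] at this
      exact absurd this (by simp)
  eas e h0 h1 := H.eas h0 h1
  wes e h0 h1 := H.wes h0 h1
  dns e h0 h1 h := by
    rcases h with h | h
    · exact H.dnD h0 h1 h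
    · have h2 : dn e ∉ RgS P.Q n (RR U run r0 s) := by
        intro h3
        have := (H.F_S h).1 h3
        rw [hs] at this
        exact absurd this (by simp)
      have h3 := (H.jmp (e := dn e) h1 (by rw [up_dn]; exact h0.1) (by rw [up_dn]; tauto)).1
      have h4 := h.2.2
      omega
  bot e h0 h1 h2 := by
    have := (H.jmp (e := dn e) h1 (by rw [up_dn]; exact h0.1) (by rw [up_dn]; tauto)).2.2.2
    exact absurd (this.2 hs) h2
  stay e h0 h h1 := by
    rcases h with h | h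
    · exact h
    · exfalso
      have hn := H.hn
      have hn0 : 0 < n := by omega
      have k1 := H.part.r0
      have hr := h.2.2
      have hru : run (ac P.Q n ((tt e).1, (tt e).2)) := h.2.1
      have h2 := H.part.att_row (by omega) (y' := (tt e).2 - 1) hru (by omega) (by omega)
      have h3 : Tq P.Q n ((tt e).1, (tt e).2 - 1) := Tq_of_Wn ac_Wn (H.part.rQ _ h2)
      apply h1
      refine ⟨(mem_LamC hn0).2 ⟨odd_dn.2 ((mem_LamC hn0).1 h0).1, by rw [tt_dn]; exact h3⟩, ?_⟩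
      rw [tt_dn]
      right
      refine ⟨h2, ?_⟩
      rw [hs]
      simp only [Bool.false_eq_true, if_false]
      omega

end part

end Pool.Agent.H19.W
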