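import Mathlib
import Pool.Agent.H19.W.ClUniq
import Pool.Agent.H2.W.RVh3
import Pool.Agent.H22.W.VcSh
import Pool.Agent.H22.W.VcVC

set_option autoImplicit false
set_option linter.unusedVariables false
open Finset

/-! # The colours of the narrow worlds of a picture

`kn_kp` : 78's `KN` (in the picture) is 2's `kp` (in the polygon), off the deleted labels. Method: both have 22's
`Cl` with the same cuts (after a toggle at deleted tiles), so by `cl_eq` it is enough to compare them at the tile next to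
the exit. -/

namespace Pool.Agent.H19.W

open Pool.Agent.H75.Perc (dir dir_cases)
open Pool.Agent.Q1.M4 (Cell PType IsSide nextSide Good)
open Pool.Agent.H33.Q1 (lt tt ct TL LY mem_LY ct_eq lt_odd tt_lt lt_tt lt_inj mem_TL lt_mem_TL)
open Pool.Agent.H13.W (chG SG eW TQ mkG rM rC rT cl_rf rT_rT rM_rM rM_range picC_of W00)
open Pool.Agent.H58.W (plV)
open Pool.Agent.H50.W (rf bk)
open Pool.Agent.H68.W (sx sx_spec sx_eq sx_next isSide1 isSide3 Cf)
open Pool.Agent.H78.W (Thin Cc Rfn PicD rfn div_in pic Pic ry yc rlF lt_mem_rlF teC v0C InV lt_mem_E lt_mem_Lam)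
open Pool.Agent.H21.FM (Shape)
open Pool.Agent.H74.W (Ex Del)
open Pool.Agent.H22.W.Vc (Mark Tc Cl TT mks CN cl_KN PicC RT shC dvi jump ixW lt_mem_WC ix tT ix_st1 Nx)
open Pool.Agent.H2.W.Run (NarP NarQ RowN Xe te kb kp qb RF FF Dp r0F yF rn UU CutD cols tq_in tq_tooth tq_beh
  tq_wall col_ge col_lt cl_kb cl_flip part_of mem_JR mem_FF JR rowR not_U mem_del' tc_TQ)

/-- consecutive rows of a right wall -/
lemma te_succ {S : Shape} {n X y : ℤ} (hn : 4 ≤ n) (h1 : TT S n (X - 1) y) (h2 : ¬ TT S n X y)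
    (h3 : TT S n (X - 1) (y + 1)) (h4 : ¬ TT S n X (y + 1)) :
    sx S.P ((X - 1) / n, (y + 1) / n) 1 = sx S.P ((X - 1) / n, y / n) 1 ∨
    sx S.P ((X - 1) / n, (y + 1) / n) 1 = sx S.P ((X - 1) / n, y / n) 1 + 1 := by
  by_cases hc : (y + 1) / n = y / n
  · left; rw [hc]
  · right
    obtain ⟨k2, k3⟩ := jump hn hc
    obtain ⟨w1, w2⟩ := Pool.Agent.H22.W.Vc.wR hn h1 h2
    rw [tT] at h1 h2 h3 h4
    rw [w2] at h2 h4
    rw [k3] at h3 h4 ⊢
    have := ix_st1 h1 h2 h3 h4
    unfold Nx at this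
    exact this.1

section

variable {S : Shape} {aL b : ℤ} {N M' h : ℕ} {hM : 0 < N * M'} {sg P : Bool} {a0 be bt bw Y0 k0 : ℤ}
  {p : ℤ × ℤ} {dl : Bool} {U : Cell → Prop}

/-- columns of the walls behind the tooth -/
def xB (N M' h : ℕ) (bt bw x : ℤ) : Prop :=
  x = 2 * (h : ℤ) * (N * M' * bt) - 1 ∨ x = 2 * (h : ℤ) * (N * M' * bw)

lemma ry_YF : ry sg (pic S b N M' h hM sg P be bt bw Y0 k0).YF = r0F sg N M' h Y0 := by
  show ry sg (yc sg (2 * h * (N * M')) Y0 + 2 * h * ((N * M') / 2) + h - (if sg then 0 else 1)) = _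
  unfold r0F yF yc ry
  cases sg
  · simp only [Bool.false_eq_true, if_false]; ring
  · simp only [if_true]; ring

/-- cuts of the narrow colours in the polygon -/
def C1 (sg P : Bool) (N M' h : ℕ) (be bt bw Y0 q2 : ℤ) : Set (ℤ × ℤ) :=
  {c | (c.1 = Xe N M' h be ∧ c.2 = (if sg then q2 else q2 - 1)) ∨ (P = true ∧ xB N M' h bt bw c.1 ∧
    c.2 = (if sg then r0F sg N M' h Y0 else r0F sg N M' h Y0 - 1))}

variable (D : PicD S aL b N M' h hM sg P a0 be bt bw Y0 k0)
include D

/-- **22's `Cl` for 78's `KN`, in the polygon.** -/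
theorem cl_kn {q2 : ℤ} (h1 : (pic S b N M' h hM sg P be bt bw Y0 k0).Yc < ry sg q2)
    (h2 : ry sg q2 + 1 < (pic S b N M' h hM sg P be bt bw Y0 k0).Yc + 2 * h * (3 * (N * M') / 4)) :
    Cl (TT (rf S (N * M') hM) (2 * (h : ℤ))) (Set.range (mks (rf S (N * M') hM) (2 * (h : ℤ))))
      (fun x y => lt (x, ry sg y) ∈ (pic S b N M' h hM sg P be bt bw Y0 k0).KN (ry sg q2))
      (C1 sg P N M' h be bt bw Y0 q2) := by
  have hn : (0 : ℤ) < 2 * h := by have := D.n4; omega
  have hh := D.hh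
  have O := D.ok
  have K := picC_of (b := b) (P := P) (be := be) (bt := bt) (k0' := k0) (h := h) (by omega)
    (shC (hM := hM) D.C D.hh)
  have key := cl_KN O K h1 h2
  set G := pic S b N M' h hM sg P be bt bw Y0 k0 with hG
  have hxe : G.xe = Xe N M' h be := by
    show 2 * (h : ℤ) * (N * M') * be = 2 * h * (N * M' * be)
    ring
  have hxt : G.xt = 2 * (h : ℤ) * (N * M' * bt) := by
    show 2 * (h : ℤ) * (N * M') * bt = 2 * h * (N * M' * bt)
    ring
  have hxw : G.xw = 2 * (h : ℤ) * (N * M' * bw) := by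
    show 2 * (h : ℤ) * (N * M') * bw = 2 * h * (N * M' * bw)
    ring
  have hYF : ry sg G.YF = r0F sg N M' h Y0 := ry_YF
  have hP : G.P = P := rfl
  cases sg
  · -- reflected
    have key2 := cl_rf key
    have e1 : rT (RT G) = TT (rf S (N * M') hM) (2 * (h : ℤ)) := by
      funext x y
      apply propext
      show lt (x, -1 - y) ∈ rlF false (TL (rf S (N * M') hM).P.Q (2 * h)) ↔ _
      rw [lt_mem_rlF, lt_mem_TL hn]
      show ct (2 * (h : ℤ)) (x, -1 - (-1 - y)) ∈ _ ↔ _
      rw [show -1 - (-1 - y) = y by ring]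
      exact Iff.rfl
    have e2 : rM (Set.range (mkG false (mks (rf S (N * M') hM) (2 * h)))) =
        Set.range (mks (rf S (N * M') hM) (2 * h)) := by
      have : Set.range (mkG false (mks (rf S (N * M') hM) (2 * h))) = rM (Set.range (mks (rf S (N * M') hM) (2 * h))) := by
        rw [rM_range]; rfl
      rw [this, rM_rM]
    have e3 : rC (CN G (ry false q2)) = C1 false P N M' h be bt bw Y0 q2 := by
      ext ⟨x, y⟩
      show (x, -2 - y) ∈ CN G (ry false q2) ↔ _
      unfold CN C1 xB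
      simp only [Set.mem_ofPred_eq, Prod.mk.injEq, hxe, hxt, hxw, hP, Bool.false_eq_true, if_false]
      rw [← hYF]
      unfold ry
      simp only [Bool.false_eq_true, if_false]
      constructor
      · rintro (⟨g1, g2⟩ | ⟨g1, g2⟩)
        · exact Or.inl ⟨g1, by omega⟩
        · exact Or.inr ⟨g1, by omega, by omega⟩
      · rintro (⟨g1, g2⟩ | ⟨g1, g2, g3⟩)
        · exact Or.inl ⟨g1, by omega⟩
        · exact Or.inr ⟨g1, by omega⟩
    rw [e1, e2, e3] at key2
    exact key2
  · have e1 : RT G = TT (rf S (N * M') hM) (2 * (h : ℤ)) := by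
      funext x y
      apply propext
      show lt (x, y) ∈ rlF true (TL (rf S (N * M') hM).P.Q (2 * h)) ↔ _
      rw [lt_mem_rlF, lt_mem_TL hn]
      exact Iff.rfl
    have e3 : CN G (ry true q2) = C1 true P N M' h be bt bw Y0 q2 := by
      ext ⟨x, y⟩
      unfold CN C1 xB
      simp only [Set.mem_ofPred_eq, Prod.mk.injEq, hxe, hxt, hxw, hP, if_true]
      rw [← hYF]
      unfold ry
      simp only [if_true]
      constructor
      · rintro (⟨g1, g2⟩ | ⟨g1, g2⟩)
        · exact Or.inl ⟨g1, g2⟩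
        · exact Or.inr ⟨g1, by omega, by omega⟩
      · rintro (⟨g1, g2⟩ | ⟨g1, g2, g3⟩)
        · exact Or.inl ⟨g1, g2⟩
        · exact Or.inr ⟨g1, by omega⟩
    rw [e1, e3] at key
    exact key

end

section

variable {S : Shape} {aL b : ℤ} {N M' h : ℕ} {hM : 0 < N * M'} {sg P : Bool} {a0 be bt bw Y0 k0 : ℤ}
  {p : ℤ × ℤ} {dl : Bool} {U : Cell → Prop}

/-- cuts of the colours `kp` -/
def C2 (S : Shape) (hM : 0 < N * M') (sg P : Bool) (h : ℕ) (be bt bw Y0 q2 : ℤ) : Set (ℤ × ℤ) :=
  if P then symmDiff {(Xe N M' h be, q2)} (JR (rf S (N * M') hM).P (2 * (h : ℤ))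
      (rn (yF sg (N * M') Y0) (N * M' * bt) (N * M' * bw)) (r0F sg N M' h Y0))
  else {(Xe N M' h be, q2)}

variable (D : PicD S aL b N M' h hM sg P a0 be bt bw Y0 k0) (Hq : NarQ S N M' h sg a0 be Y0 (qb p dl))
  (HC : P = true → CutD (rf S (N * M') hM).P.Q U (yF sg (N * M') Y0) (N * M' * bt) (N * M' * bw))
include D Hq HC

/-- **22's `Cl` for 2's `kp`.** -/
theorem cl_kp : Cl (TT (rf S (N * M') hM) (2 * (h : ℤ))) (Set.range (mks (rf S (N * M') hM) (2 * (h : ℤ))))
    (fun x y => lt (x, y) ∈ WC (rf S (N * M') hM).P (2 * (h : ℤ)) (kp S N M' h hM sg P bt bw Y0 U p dl))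
    (C2 S hM sg P h be bt bw Y0 (qb p dl).2) := by
  have h1 := cl_kb D Hq
  unfold C2 kp
  cases P
  · exact h1
  · exact cl_flip D.n4 (part_of D (HC rfl)) h1

/-- the cuts of `kp`, written out -/
lemma mem_C2 {x y : ℤ} (hT : Tc (TT (rf S (N * M') hM) (2 * (h : ℤ))) x y) :
    (x, y) ∈ C2 S hM sg P h be bt bw Y0 (qb p dl).2 ↔ ((x = Xe N M' h be ∧ y = (qb p dl).2) ∨
      (P = true ∧ xB N M' h bt bw x ∧ y = r0F sg N M' h Y0 - 1)) := by
  have hT' := Pool.Agent.H22.W.Vc.tc_iff.1 hT
  obtain ⟨k1, k2, k3, k4, k5, k6, k7, k8⟩ := cols D Hq.toNarP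
  unfold C2 xB
  cases P
  · simp
  · have k9 := k8 rfl
    have hj := mem_JR D Hq (HC rfl) (x := x) (y := y)
    simp only [if_true, true_and]
    rw [Set.mem_symmDiff, Set.mem_singleton_iff, Prod.mk.injEq]
    have hj' : (x, y) ∈ JR (rf S (N * M') hM).P (2 * (h : ℤ))
      (rn (yF sg (N * M') Y0) (N * M' * bt) (N * M' * bw)) (r0F sg N M' h Y0) ↔
      y + 1 = r0F sg N M' h Y0 ∧ (x = 2 * (h : ℤ) * (N * M' * bt) - 1 ∨ x = 2 * (h : ℤ) * (N * M' * bw)) :=
      ⟨fun g => hj.1 ⟨g, hT'⟩, fun g => (hj.2 g).1⟩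
    rw [hj']
    omega

/-- toggled tiles -/
def τt (sg P : Bool) (N M' h : ℕ) (be bt bw Y0 q2 x y : ℤ) : Prop :=
  if sg then P = true ∧ xB N M' h bt bw x ∧ y = r0F sg N M' h Y0 else x = Xe N M' h be ∧ y = q2

/-- **`Cl` for the toggled `kp`, with the cuts of `KN`.** -/
theorem cl_kp' : Cl (TT (rf S (N * M') hM) (2 * (h : ℤ))) (Set.range (mks (rf S (N * M') hM) (2 * (h : ℤ))))
    (fun x y => ¬ (lt (x, y) ∈ WC (rf S (N * M') hM).P (2 * (h : ℤ)) (kp S N M' h hM sg P bt bw Y0 U p dl) ↔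
      τt sg P N M' h be bt bw Y0 (qb p dl).2 x y))
    (C1 sg P N M' h be bt bw Y0 (qb p dl).2) := by
  have hn : (0 : ℤ) < 2 * h := by have := D.n4; omega
  obtain ⟨k1, k2, k3, k4, k5, k6, k7, k8⟩ := cols D Hq.toNarP
  have hr : RowN N M' h sg Y0 (qb p dl).2 := ⟨Hq.r⟩
  refine (cl_kp D Hq HC).tog (τ := fun x y => τt sg P N M' h be bt bw Y0 (qb p dl).2 x y)
    (fun x y _ _ => Iff.rfl) ?_ ?_
  · intro x y s hs h1 h2 h3
    have t1 : Tc (TT (rf S (N * M') hM) (2 * (h : ℤ))) x y := by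
      rcases h3 with h3 | h3
      · exact ⟨x + s, y, by omega, by omega, h3⟩
      · exact ⟨x + s, y + 1, by omega, by omega, h3⟩
    rw [mem_C2 D Hq HC t1]
    unfold C1 τt xB
    simp only [Set.mem_ofPred_eq]
    cases sg
    · simp only [Bool.false_eq_true, if_false]
      cases P
      · simp only [Bool.false_eq_true, false_and, or_false]
        omega
      · have k9 := k8 rfl
        simp only [true_and]
        omega
    · simp only [if_true]
      cases P
      · simp
      · have k9 := k8 rfl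
        simp only [true_and]
        omega
  · intro x y s hs h1 h2 h3
    unfold τt
    cases sg
    · -- the exit tile
      simp only [Bool.false_eq_true, if_false]
      have hro : ∀ y', (qb p dl).2 - 1 ≤ y' → y' ≤ (qb p dl).2 + 1 → RowN N M' h false Y0 y' := by
        intro y' g1 g2
        have : y' = (qb p dl).2 - 1 ∨ y' = (qb p dl).2 ∨ y' = (qb p dl).2 + 1 := by omega
        rcases this with g | g | g <;> rw [g]
        · exact Hq.d
        · exact hr
        · exact Hq.u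
      have hout : ∀ x' y', (qb p dl).2 - 1 ≤ y' → y' ≤ (qb p dl).2 + 1 → Xe N M' h be ≤ x' →
          x' ≤ Xe N M' h be + 1 → ¬ TT (rf S (N * M') hM) (2 * (h : ℤ)) x' y' := fun x' y' g1 g2 g3 g4 =>
        tq_tooth D (hro y' g1 g2) (col_ge hn (by unfold Xe at g3; omega)) (col_lt hn (by omega))
      constructor
      · rintro ⟨rfl, rfl⟩
        exfalso
        rcases h3 with h3 | h3
        · exact hout _ _ (by omega) (by omega) (by omega) (by omega) h3
        · exact hout _ _ (by omega) (by omega) (by omega) (by omega) h3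
      · rintro ⟨g1, rfl⟩
        exfalso
        exact h1 (tq_in D hr (col_ge hn (by omega)) (col_lt hn (by unfold Xe at g1 k2; omega)))
    · simp only [if_true]
      cases P
      · simp
      · have k9 := k8 rfl
        simp only [true_and]
        have hro : ∀ y', r0F true N M' h Y0 - 1 ≤ y' → y' ≤ r0F true N M' h Y0 + 1 → RowN N M' h true Y0 y' := by
          intro y' g1 g2
          have := (rowR D (i := y' - r0F true N M' h Y0) (by omega) (by omega)).1
          rwa [show r0F true N M' h Y0 + (y' - r0F true N M' h Y0) = y' by ring] at this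
        have hin : ∀ x' y', r0F true N M' h Y0 - 1 ≤ y' → y' ≤ r0F true N M' h Y0 + 1 →
            2 * (h : ℤ) * (N * M' * bt) ≤ x' → x' < 2 * (h : ℤ) * (N * M' * bw) →
            TT (rf S (N * M') hM) (2 * (h : ℤ)) x' y' := fun x' y' g1 g2 g3 g4 =>
          tq_beh D rfl (hro y' g1 g2) (col_ge hn g3) (col_lt hn g4)
        have ho1 : ∀ x' y', r0F true N M' h Y0 - 1 ≤ y' → y' ≤ r0F true N M' h Y0 + 1 →
            2 * (h : ℤ) * (N * M' * bt) - 2 ≤ x' → x' < 2 * (h : ℤ) * (N * M' * bt) →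
            ¬ TT (rf S (N * M') hM) (2 * (h : ℤ)) x' y' := fun x' y' g1 g2 g3 g4 =>
          tq_tooth D (hro y' g1 g2) (col_ge hn (by unfold Xe at k3; omega)) (col_lt hn g4)
        have ho2 : ∀ x' y', r0F true N M' h Y0 - 1 ≤ y' → y' ≤ r0F true N M' h Y0 + 1 →
            2 * (h : ℤ) * (N * M' * bw) ≤ x' → x' ≤ 2 * (h : ℤ) * (N * M' * bw) + 1 →
            ¬ TT (rf S (N * M') hM) (2 * (h : ℤ)) x' y' := fun x' y' g1 g2 g3 g4 =>
          tq_wall D (hro y' g1 g2) (col_ge hn g3) (col_lt hn (by nlinarith))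
        unfold xB
        constructor
        · rintro ⟨g1 | g1, g2⟩
          · exfalso
            exact h2 (hin _ _ (by omega) (by omega) (by omega) (by omega))
          · exfalso
            rcases h3 with h3 | h3
            · exact ho2 _ _ (by omega) (by omega) (by omega) (by omega) h3
            · exact ho2 _ _ (by omega) (by omega) (by omega) (by omega) h3
        · rintro ⟨g1 | g1, g2⟩
          · exfalso
            rcases h3 with h3 | h3
            · exact ho1 _ _ (by omega) (by omega) (by omega) (by omega) h3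
            · exact ho1 _ _ (by omega) (by omega) (by omega) (by omega) h3
          · exfalso
            exact h1 (hin _ _ (by omega) (by omega) (by omega) (by omega))

end

end Pool.Agent.H19.W
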