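import Mathlib
import Pool.Agent.H19.W.RShift
import Pool.Agent.H22.W.VcEnds

set_option autoImplicit false
set_option linter.unusedVariables false
set_option linter.unusedSimpArgs false
open Finset

/-! # RAISE: the marks

22's marks: `m.dg` diagonal tile, `m.hn` its neighbour in the horizontal layer, `m.al w` alive loose side. `mark_up` : in the
common world the images of the alive sides of both worlds are joined. -/

namespace Pool.Agent.H19.W

open Pool.Agent.H75.Perc Pool.Agent.H75.TwoArm Pool.Agent.H99.W Pool.Agent.H13.W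
open Pool.Agent.H33.Q1 (lt tt ct TL lt_odd tt_lt lt_tt lt_inj mem_TL)
open Pool.Agent.H22.W.Vc (Mark Tc up_lt dn_lt lt_eq eE_lt eN_lt)
open Pool.Agent.Q1.M4 (Cell PType Good)

variable {Λ D : Set (ℤ × ℤ)} {w : Finset (ℤ × ℤ)} {e c d : ℤ × ℤ}

/-! ### The two states of a tile -/

lemma TJ_ofA (ho : (e.1 + e.2) % 2 = 1) (h0 : e ∉ D) (hA : e.1 % 2 = 1 ↔ e ∉ w) :
    TJ D w e (eS e) (eE e) ∧ TJ D w e (eW e) (eN e) := by
  obtain ⟨x, y⟩ := e
  simp only at ho hA
  unfold TJ nx nxO nxC lab eS eE eW eN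
  rcases Int.emod_two_eq_zero_or_one x with hx | hx
  · have hy : y % 2 = 1 := by omega
    have hw : ((x, y) : ℤ × ℤ) ∈ w := by
      by_contra h
      have := hA.2 h
      omega
    have e1 : (x + 1) % 2 = 1 := by omega
    have e2 : (y + 1) % 2 = 0 := by omega
    refine ⟨Or.inr ⟨h0, ?_⟩, Or.inr ⟨h0, ?_⟩⟩
    · simp [hx, hy, e1, e2, hw, Prod.ext_iff]
    · simp [hx, hy, e1, e2, hw, Prod.ext_iff]
  · have hy : y % 2 = 0 := by omega
    have hw : ((x, y) : ℤ × ℤ) ∉ w := hA.1 hx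
    have e1 : (x + 1) % 2 = 0 := by omega
    have e2 : (y + 1) % 2 = 1 := by omega
    refine ⟨Or.inr ⟨h0, ?_⟩, Or.inr ⟨h0, ?_⟩⟩
    · simp [hx, hy, e1, e2, hw, Prod.ext_iff]
    · simp [hx, hy, e1, e2, hw, Prod.ext_iff]

lemma TJ_ofB (ho : (e.1 + e.2) % 2 = 1) (h0 : e ∉ D) (hB : e.1 % 2 = 1 ↔ e ∈ w) :
    TJ D w e (eS e) (eW e) ∧ TJ D w e (eE e) (eN e) := by
  obtain ⟨x, y⟩ := e
  simp only at ho hB
  unfold TJ nx nxO nxC lab eS eE eW eN
  rcases Int.emod_two_eq_zero_or_one x with hx | hx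
  · have hy : y % 2 = 1 := by omega
    have hw : ((x, y) : ℤ × ℤ) ∉ w := by
      intro h
      have := hB.2 h
      omega
    have e1 : (x + 1) % 2 = 1 := by omega
    have e2 : (y + 1) % 2 = 0 := by omega
    refine ⟨Or.inr ⟨h0, ?_⟩, Or.inr ⟨h0, ?_⟩⟩
    · simp [hx, hy, e1, e2, hw, Prod.ext_iff]
    · simp [hx, hy, e1, e2, hw, Prod.ext_iff]
  · have hy : y % 2 = 0 := by omega
    have hw : ((x, y) : ℤ × ℤ) ∈ w := hB.1 hx
    have e1 : (x + 1) % 2 = 0 := by omega
    have e2 : (y + 1) % 2 = 1 := by omega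
    refine ⟨Or.inr ⟨h0, ?_⟩, Or.inr ⟨h0, ?_⟩⟩
    · simp [hx, hy, e1, e2, hw, Prod.ext_iff]
    · simp [hx, hy, e1, e2, hw, Prod.ext_iff]

/-- the inner end of the strand through `m.dg` and `m.hn` -/
noncomputable def be (w : Finset (ℤ × ℤ)) (m : Mark) : ℤ × ℤ := by
  classical
  exact if (m.hn ∈ w ↔ (m.pi - m.pj) % 2 = 1) then (if m.sy = 1 then eN m.hn else eS m.hn)
    else (if m.sy = 1 then eN m.dg else eS m.dg)

lemma eW_lt' (x y : ℤ) : eW (lt (x, y)) = eE (lt (x - 1, y)) := by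
  rw [eE_lt, sub_add_cancel]

/-- **the strand through a mark** -/
theorem thr {m : Mark} (hx : m.sx = 1 ∨ m.sx = -1) (hy : m.sy = 1 ∨ m.sy = -1) (h1 : m.dg ∈ Λ)
    (h2 : m.hn ∈ Λ) (h3 : m.dg ∉ D) (h4 : m.hn ∉ D) (hc : m.dg ∈ w ↔ m.hn ∉ w) :
    (SG Λ D w).Reachable (m.al w) (be w m) := by
  classical
  obtain ⟨u, v, sx, sy⟩ := m
  simp only at hx hy
  unfold Mark.dg at h1 h3 hc
  unfold Mark.hn at h2 h4 hc
  simp only at h1 h2 h3 h4 hc
  unfold Mark.al be Mark.X1 Mark.X2 Mark.dg Mark.hn Mark.pi Mark.pj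
  simp only
  have o1 : ((lt (u, v)).1 + (lt (u, v)).2) % 2 = 1 := lt_odd _
  have o2 : ((lt (u + sx, v)).1 + (lt (u + sx, v)).2) % 2 = 1 := lt_odd _
  have f1 : (lt (u, v)).1 = u - v := rfl
  have f2 : (lt (u + sx, v)).1 = u + sx - v := rfl
  have st : ∀ {e a b : ℤ × ℤ}, e ∈ Λ → TJ D w e a b → (SG Λ D w).Reachable a b := fun he hT =>
    SimpleGraph.Adj.reachable ⟨_, he, hT⟩
  have P1 : (u + 1 - v) % 2 = 1 ↔ ¬ (u - v) % 2 = 1 := by omega
  have P2 : (u + 1 - (v + 1)) % 2 = 1 ↔ (u - v) % 2 = 1 := by omega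
  have P3 : (u - (v + 1)) % 2 = 1 ↔ ¬ (u - v) % 2 = 1 := by omega
  have P4 : (u + -1 - v) % 2 = 1 ↔ ¬ (u - v) % 2 = 1 := by omega
  rcases hx with rfl | rfl
  · have hs : eE (lt (u, v)) = eW (lt (u + 1, v)) := eE_lt u v
    rcases hy with rfl | rfl
    · simp only [if_true]
      split_ifs with hp
      · have t1 : (lt (u, v)).1 % 2 = 1 ↔ lt (u, v) ∉ w := by
          rw [f1]
          tauto
        have t2 : (lt (u + 1, v)).1 % 2 = 1 ↔ lt (u + 1, v) ∉ w := by
          rw [f2]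
          tauto
        refine (st h1 (TJ_ofA o1 h3 t1).1).trans ?_
        rw [hs]
        exact st h2 (TJ_ofA o2 h4 t2).2
      · have t1 : (lt (u, v)).1 % 2 = 1 ↔ lt (u, v) ∈ w := by
          rw [f1]
          tauto
        have t2 : (lt (u + 1, v)).1 % 2 = 1 ↔ lt (u + 1, v) ∈ w := by
          rw [f2]
          tauto
        refine (st h2 (TJ_ofB o2 h4 t2).1).trans ?_
        rw [← hs]
        exact st h1 (TJ_ofB o1 h3 t1).2
    · simp only [if_true, show ¬ ((-1 : ℤ) = 1) by norm_num, if_false]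
      split_ifs with hp
      · have t1 : (lt (u, v)).1 % 2 = 1 ↔ lt (u, v) ∈ w := by
          rw [f1]
          tauto
        have t2 : (lt (u + 1, v)).1 % 2 = 1 ↔ lt (u + 1, v) ∈ w := by
          rw [f2]
          tauto
        refine (st h1 (TJ_ofB o1 h3 t1).2.symm).trans ?_
        rw [hs]
        exact st h2 (TJ_ofB o2 h4 t2).1.symm
      · have t1 : (lt (u, v)).1 % 2 = 1 ↔ lt (u, v) ∉ w := by
          rw [f1]
          tauto
        have t2 : (lt (u + 1, v)).1 % 2 = 1 ↔ lt (u + 1, v) ∉ w := by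
          rw [f2]
          tauto
        refine (st h2 (TJ_ofA o2 h4 t2).2.symm).trans ?_
        rw [← hs]
        exact st h1 (TJ_ofA o1 h3 t1).1.symm
  · have hs : eW (lt (u, v)) = eE (lt (u + -1, v)) := by
      rw [← sub_eq_add_neg]
      exact eW_lt' u v
    rcases hy with rfl | rfl
    · simp only [if_true, show ¬ ((-1 : ℤ) = 1) by norm_num, if_false]
      split_ifs with hp
      · have t1 : (lt (u, v)).1 % 2 = 1 ↔ lt (u, v) ∈ w := by
          rw [f1]
          tauto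
        have t2 : (lt (u + -1, v)).1 % 2 = 1 ↔ lt (u + -1, v) ∈ w := by
          rw [f2]
          tauto
        refine (st h1 (TJ_ofB o1 h3 t1).1).trans ?_
        rw [hs]
        exact st h2 (TJ_ofB o2 h4 t2).2
      · have t1 : (lt (u, v)).1 % 2 = 1 ↔ lt (u, v) ∉ w := by
          rw [f1]
          tauto
        have t2 : (lt (u + -1, v)).1 % 2 = 1 ↔ lt (u + -1, v) ∉ w := by
          rw [f2]
          tauto
        refine (st h2 (TJ_ofA o2 h4 t2).1).trans ?_
        rw [← hs]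
        exact st h1 (TJ_ofA o1 h3 t1).2
    · simp only [if_true, show ¬ ((-1 : ℤ) = 1) by norm_num, if_false]
      split_ifs with hp
      · have t1 : (lt (u, v)).1 % 2 = 1 ↔ lt (u, v) ∉ w := by
          rw [f1]
          tauto
        have t2 : (lt (u + -1, v)).1 % 2 = 1 ↔ lt (u + -1, v) ∉ w := by
          rw [f2]
          tauto
        refine (st h1 (TJ_ofA o1 h3 t1).2.symm).trans ?_
        rw [hs]
        exact st h2 (TJ_ofA o2 h4 t2).1.symm
      · have t1 : (lt (u, v)).1 % 2 = 1 ↔ lt (u, v) ∈ w := by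
          rw [f1]
          tauto
        have t2 : (lt (u + -1, v)).1 % 2 = 1 ↔ lt (u + -1, v) ∈ w := by
          rw [f2]
          tauto
        refine (st h2 (TJ_ofB o2 h4 t2).2.symm).trans ?_
        rw [← hs]
        exact st h1 (TJ_ofB o1 h3 t1).1.symm

end Pool.Agent.H19.W
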