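import Mathlib
import Pool.Agent.H19.W.RMark

set_option autoImplicit false
set_option linter.unusedVariables false
open Finset

/-! # RAISE: the far ends in the common world -/

namespace Pool.Agent.H19.W

open Pool.Agent.H75.Perc Pool.Agent.H75.TwoArm Pool.Agent.H99.W Pool.Agent.H13.W
open Pool.Agent.H33.Q1 (lt tt ct TL lt_odd tt_lt lt_tt lt_inj mem_TL)
open Pool.Agent.H22.W.Vc (Mark Tc up_lt dn_lt lt_eq eE_lt eN_lt)
open Pool.Agent.Q1.M4 (Cell PType Good)

variable {Λ D : Set (ℤ × ℤ)} {w : Finset (ℤ × ℤ)} {e c d : ℤ × ℤ}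

/-! ### Ends -/

lemma end_N (ho : (e.1 + e.2) % 2 = 1) (hΛ : ∀ e ∈ Λ, (e.1 + e.2) % 2 = 1) (h : up e ∉ Λ) :
    IsEnd (SG Λ D w) (eN e) := by
  rintro a b ⟨e1, h1, t1⟩ ⟨e2, h2, t2⟩
  have key : ∀ e' ∈ Λ, Sd e' (eN e) → e' = e := by
    intro e' he' hs
    rcases shared ho (hΛ e' he') (Or.inr (Or.inr (Or.inr rfl))) hs with k | ⟨k, -⟩ | ⟨k, -⟩ | ⟨-, k⟩ | ⟨k, -⟩
    · exact k
    · exfalso
      unfold eN eE at k
      have := congrArg Prod.fst k
      simp only at this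
      omega
    · exfalso
      unfold eN eW at k
      have := congrArg Prod.snd k
      simp only at this
      omega
    · exact absurd (k ▸ he') h
    · exfalso
      unfold eN eS at k
      have := congrArg Prod.snd k
      simp only at this
      omega
  have k1 := key e1 h1 t1.sd
  have k2 := key e2 h2 t2.sd
  subst k1 k2
  exact t1.unique t2

lemma end_S (ho : (e.1 + e.2) % 2 = 1) (hΛ : ∀ e ∈ Λ, (e.1 + e.2) % 2 = 1) (h : dn e ∉ Λ) :
    IsEnd (SG Λ D w) (eS e) := by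
  have : eS e = eN (dn e) := (eN_dn e).symm
  rintro a b ⟨e1, h1, t1⟩ ⟨e2, h2, t2⟩
  have key : ∀ e' ∈ Λ, Sd e' (eS e) → e' = e := by
    intro e' he' hs
    rcases shared ho (hΛ e' he') (Or.inr (Or.inr (Or.inl rfl))) hs with k | ⟨k, -⟩ | ⟨k, -⟩ | ⟨k, -⟩ | ⟨-, k⟩
    · exact k
    · exfalso
      unfold eS eE at k
      have := congrArg Prod.snd k
      simp only at this
      omega
    · exfalso
      unfold eS eW at k
      have := congrArg Prod.fst k
      simp only at this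
      omega
    · exfalso
      unfold eN eS at k
      have := congrArg Prod.snd k
      simp only at this
      omega
    · exact absurd (k ▸ he') h
  have k1 := key e1 h1 t1.sd
  have k2 := key e2 h2 t2.sd
  subst k1 k2
  exact t1.unique t2

lemma end_W (ho : (e.1 + e.2) % 2 = 1) (hΛ : ∀ e ∈ Λ, (e.1 + e.2) % 2 = 1) (h : e ∈ D) :
    IsEnd (SG Λ D w) (eW e) := by
  rintro a b ⟨e1, h1, t1⟩ ⟨e2, h2, t2⟩
  have key : ∀ e' ∈ Λ, ∀ a, TJ D w e' (eW e) a → e' = we e := by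
    intro e' he' a ht
    rcases shared ho (hΛ e' he') (Or.inl rfl) ht.sd with k | ⟨k, -⟩ | ⟨-, k⟩ | ⟨k, -⟩ | ⟨k, -⟩
    · exfalso
      subst k
      rcases ht with ⟨-, -, ⟨g, -⟩ | ⟨-, g⟩⟩ | ⟨g, -⟩
      · unfold eW eS at g
        have := congrArg Prod.fst g
        simp only at this
        omega
      · unfold eW eN at g
        have := congrArg Prod.snd g
        simp only at this
        omega
      · exact g h
    · exfalso
      unfold eW eE at k
      have := congrArg Prod.fst k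
      simp only at this
      omega
    · exact k
    · exfalso
      unfold eW eN at k
      have := congrArg Prod.snd k
      simp only at this
      omega
    · exfalso
      unfold eW eS at k
      have := congrArg Prod.fst k
      simp only at this
      omega
  have k1 := key e1 h1 a t1
  have k2 := key e2 h2 b t2
  subst k1 k2
  exact t1.unique t2

/-! ### Marks -/

variable {L : Finset (ℤ × ℤ)} {S D1 D2 : Set (ℤ × ℤ)} {w1 w2 : Finset (ℤ × ℤ)} {m : Mark}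

/-- **The tiles at a mark.** -/
structure MT (L : Finset (ℤ × ℤ)) (m : Mark) : Prop where
  sx : m.sx = 1 ∨ m.sx = -1
  sy : m.sy = 1 ∨ m.sy = -1
  dgL : m.dg ∈ L
  hnL : m.hn ∈ L
  ou : m.sy = -1 → (up m.dg ∉ L ∧ up m.hn ∉ L) ∧ (up (up m.dg) ∉ L ∧ up (up m.hn) ∉ L)
  od : m.sy = 1 → (dn m.dg ∉ L ∧ dn m.hn ∉ L) ∧ (dn (dn m.dg) ∉ L ∧ dn (dn m.hn) ∉ L)

/-- the alive side is the loose side of one of the two tiles -/
lemma al_cases (w : Finset (ℤ × ℤ)) (hy : m.sy = 1 ∨ m.sy = -1) : ∃ t, (t = m.dg ∨ t = m.hn) ∧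
    ((m.sy = -1 ∧ m.al w = eN t) ∨ (m.sy = 1 ∧ m.al w = eS t)) := by
  classical
  unfold Mark.al Mark.X1 Mark.X2
  rcases hy with h | h
  · split_ifs
    · exact ⟨m.dg, Or.inl rfl, Or.inr ⟨h, rfl⟩⟩
    · exact ⟨m.hn, Or.inr rfl, Or.inr ⟨h, rfl⟩⟩
  · have h' : ¬ m.sy = 1 := by omega
    split_ifs
    · exact ⟨m.dg, Or.inl rfl, Or.inl ⟨h, rfl⟩⟩
    · exact ⟨m.hn, Or.inr rfl, Or.inl ⟨h, rfl⟩⟩

lemma al_congr {w w' : Finset (ℤ × ℤ)} (h : m.hn ∈ w ↔ m.hn ∈ w') : m.al w = m.al w' := by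
  classical
  unfold Mark.al
  by_cases h1 : m.hn ∈ w
  · have h2 := h.1 h1
    simp [h1, h2]
  · have h2 : m.hn ∉ w' := fun k => h1 (h.2 k)
    simp [h1, h2]

lemma mark_odd (m : Mark) : ((m.dg).1 + (m.dg).2) % 2 = 1 ∧ ((m.hn).1 + (m.hn).2) % 2 = 1 :=
  ⟨lt_odd _, lt_odd _⟩

lemma up_eN (e : ℤ × ℤ) : up (eN e) = eN (up e) := by
  unfold up eN; simp

lemma up_eS' (e : ℤ × ℤ) : up (eS e) = eS (up e) := by
  unfold up eS; refine Prod.ext ?_ ?_ <;> simp

/-- the other world has the other alive side, upper corner -/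
lemma mark_upper (hm : MT L m) (hy : m.sy = -1) (hS1 : m.dg ∈ S) (hS2 : m.hn ∈ S)
    (ds : ∀ e ∈ S, up e ∈ D2 ↔ e ∈ D1) (d1 : m.dg ∉ D1) (d2 : m.hn ∉ D1)
    (A : Agr L S D1 w1 w2) (c1 : m.dg ∈ w1 ↔ m.hn ∉ w1) (f : m.hn ∈ w2 ↔ m.hn ∉ w1) :
    (SG (LH L S) D2 (wH L w1 w2)).Reachable (m.al w2) (up (m.al w1)) := by
  classical
  set m' : Mark := ⟨m.u, m.v + 1, m.sx, m.sy⟩ with hm'
  have e1 : m'.dg = up m.dg := by
    unfold Mark.dg
    rw [up_lt]
  have e2 : m'.hn = up m.hn := by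
    unfold Mark.hn
    rw [up_lt]
  have s1 : up m.dg ∈ wH L w1 w2 ↔ m.dg ∉ w1 := A.hat hS1 hm.dgL
  have s2 : up m.hn ∈ wH L w1 w2 ↔ m.hn ∉ w1 := A.hat hS2 hm.hnL
  have key := thr (Λ := LH L S) (D := D2) (w := wH L w1 w2) (m := m') hm.sx hm.sy
    (by rw [e1]; exact Or.inr (by rw [dn_up]; exact hS1))
    (by rw [e2]; exact Or.inr (by rw [dn_up]; exact hS2))
    (by rw [e1, ds _ hS1]; exact d1) (by rw [e2, ds _ hS2]; exact d2)
    (by rw [e1, e2, s1, s2]; tauto)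
  have p1 : m'.pi = m.pi := rfl
  have p2 : m'.pj = m.pj + 1 := by
    unfold Mark.pj
    rw [hm']
    simp only
    split_ifs <;> ring
  have hne : ¬ m.sy = 1 := by omega
  have pr : (m.pi - (m.pj + 1)) % 2 = 1 ↔ ¬ (m.pi - m.pj) % 2 = 1 := by omega
  have hsy : m'.sy = m.sy := rfl
  have h1 : m'.al (wH L w1 w2) = up (m.al w1) := by
    unfold Mark.al Mark.X1 Mark.X2
    rw [e1, e2, p1, p2, hsy]
    simp only [hne, if_false]
    by_cases k : m.hn ∈ w1 ↔ (m.pi - m.pj) % 2 = 1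
    · rw [if_pos k, if_pos (by rw [s2, pr]; tauto), up_eN]
    · rw [if_neg k, if_neg (by rw [s2, pr]; tauto), up_eN]
  have h2 : be (wH L w1 w2) m' = m.al w2 := by
    unfold be Mark.al Mark.X1 Mark.X2
    rw [e1, e2, p1, p2, hsy]
    simp only [hne, if_false]
    by_cases k : m.hn ∈ w1 ↔ (m.pi - m.pj) % 2 = 1
    · rw [if_pos (by rw [s2, pr]; tauto), if_neg (by rw [f]; tauto), ← up_eS', up_eS]
    · rw [if_neg (by rw [s2, pr]; tauto), if_pos (by rw [f]; tauto), ← up_eS', up_eS]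
  rw [h1, h2] at key
  exact key.symm

/-- the other world has the other alive side, lower corner -/
lemma mark_lower (hm : MT L m) (hy : m.sy = 1) (d1 : m.dg ∉ D2) (d2 : m.hn ∉ D2)
    (c2 : m.dg ∈ w2 ↔ m.hn ∉ w2) (f : m.hn ∈ w2 ↔ m.hn ∉ w1) :
    (SG (LH L S) D2 (wH L w1 w2)).Reachable (up (m.al w1)) (m.al w2) := by
  classical
  have s1 : m.dg ∈ wH L w1 w2 ↔ m.dg ∈ w2 := mem_wH_L hm.dgL
  have s2 : m.hn ∈ wH L w1 w2 ↔ m.hn ∈ w2 := mem_wH_L hm.hnL
  have key := thr (Λ := LH L S) (D := D2) (w := wH L w1 w2) (m := m) hm.sx hm.sy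
    (Or.inl hm.dgL) (Or.inl hm.hnL) d1 d2 (by rw [s1, s2]; exact c2)
  rw [al_congr s2] at key
  have h2 : be (wH L w1 w2) m = up (m.al w1) := by
    unfold be Mark.al Mark.X1 Mark.X2
    simp only [hy, if_true]
    by_cases k : m.hn ∈ w1 ↔ (m.pi - m.pj) % 2 = 1
    · rw [if_pos k, if_neg (by rw [s2, f]; tauto), up_eS]
    · rw [if_neg k, if_pos (by rw [s2, f]; tauto), up_eS]
  rw [h2] at key
  exact key.symm

open Classical in
/-- **The end of the common world** at the mark `m`. -/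
noncomputable def ej (S : Set (ℤ × ℤ)) (w1 w2 : Finset (ℤ × ℤ)) (m : Mark) : ℤ × ℤ :=
  if m.dg ∈ S then (if m.sy = 1 then m.al w2 else up (m.al w1)) else m.al w1

/-- **Data at a mark** for both worlds. -/
structure MK (L : Finset (ℤ × ℤ)) (S D1 D2 : Set (ℤ × ℤ)) (w1 w2 : Finset (ℤ × ℤ)) (m : Mark) : Prop
    extends MT L m where
  SS : m.dg ∈ S ↔ m.hn ∈ S
  d1 : m.dg ∉ D1 ∧ m.hn ∉ D1
  d2 : m.dg ∉ D2 ∧ m.hn ∉ D2
  c1 : m.dg ∈ w1 ↔ m.hn ∉ w1
  c2 : m.dg ∈ w2 ↔ m.hn ∉ w2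
  f : m.hn ∈ S → (m.hn ∈ w2 ↔ m.hn ∉ w1)

/-- world 2 -/
lemma MK.two (H : MK L S D1 D2 w1 w2 m) (ds : ∀ e ∈ S, up e ∈ D2 ↔ e ∈ D1) (A : Agr L S D1 w1 w2) :
    (SG (LH L S) D2 (wH L w1 w2)).Reachable (m.al w2) (ej S w1 w2 m) := by
  classical
  unfold ej
  by_cases hS : m.dg ∈ S
  · rw [if_pos hS]
    have hS' := H.SS.1 hS
    rcases H.sy with hy | hy
    · rw [if_pos hy]
    · rw [if_neg (by omega)]
      exact mark_upper H.toMT hy hS hS' ds H.d1.1 H.d1.2 A H.c1 (H.f hS')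
  · rw [if_neg hS]
    have hS' : m.hn ∉ S := fun h => hS (H.SS.2 h)
    rw [al_congr (A.pl _ H.hnL hS' H.d1.2)]

/-- the moved end of world 1 -/
lemma MK.one (H : MK L S D1 D2 w1 w2 m) (ds : ∀ e ∈ S, up e ∈ D2 ↔ e ∈ D1) (A : Agr L S D1 w1 w2)
    (hS : m.dg ∈ S) : (SG (LH L S) D2 (wH L w1 w2)).Reachable (up (m.al w1)) (ej S w1 w2 m) := by
  classical
  unfold ej
  rw [if_pos hS]
  have hS' := H.SS.1 hS
  rcases H.sy with hy | hy
  · rw [if_pos hy]
    exact mark_lower H.toMT hy H.d2.1 H.d2.2 H.c2 (H.f hS')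
  · rw [if_neg (by omega)]

/-- the tiles at the alive side -/
lemma al_tile (hm : MT L m) (hL : ∀ e ∈ L, (e.1 + e.2) % 2 = 1) {e : ℤ × ℤ} (he : e ∈ L)
    (hs : Sd e (m.al w)) : e = m.dg ∨ e = m.hn := by
  obtain ⟨t, ht, h⟩ := al_cases (m := m) w hm.sy
  have hto : (t.1 + t.2) % 2 = 1 := by
    rcases ht with rfl | rfl
    · exact (mark_odd m).1
    · exact (mark_odd m).2
  rcases h with ⟨hy, h⟩ | ⟨hy, h⟩
  · rw [h] at hs
    obtain ⟨⟨o1, o2⟩, -⟩ := hm.ou hy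
    rcases shared hto (hL e he) (Or.inr (Or.inr (Or.inr rfl))) hs with k | ⟨k, -⟩ | ⟨k, -⟩ | ⟨-, k⟩ | ⟨k, -⟩
    · rcases ht with rfl | rfl
      · exact Or.inl k
      · exact Or.inr k
    · exfalso
      unfold eN eE at k
      have := congrArg Prod.fst k
      simp only at this
      omega
    · exfalso
      unfold eN eW at k
      have := congrArg Prod.snd k
      simp only at this
      omega
    · exfalso
      rcases ht with rfl | rfl
      · exact o1 (k ▸ he)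
      · exact o2 (k ▸ he)
    · exfalso
      unfold eN eS at k
      have := congrArg Prod.snd k
      simp only at this
      omega
  · rw [h] at hs
    obtain ⟨⟨o1, o2⟩, -⟩ := hm.od hy
    rcases shared hto (hL e he) (Or.inr (Or.inr (Or.inl rfl))) hs with k | ⟨k, -⟩ | ⟨k, -⟩ | ⟨k, -⟩ | ⟨-, k⟩
    · rcases ht with rfl | rfl
      · exact Or.inl k
      · exact Or.inr k
    · exfalso
      unfold eS eE at k
      have := congrArg Prod.snd k
      simp only at this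
      omega
    · exfalso
      unfold eS eW at k
      have := congrArg Prod.fst k
      simp only at this
      omega
    · exfalso
      unfold eN eS at k
      have := congrArg Prod.snd k
      simp only at this
      omega
    · exfalso
      rcases ht with rfl | rfl
      · exact o1 (k ▸ he)
      · exact o2 (k ▸ he)

/-- images of the alive side (part cut off) -/
lemma MK.sr (H : MK L S D1 D2 w1 w2 m) (hL : ∀ e ∈ L, (e.1 + e.2) % 2 = 1)
    (ds : ∀ e ∈ S, up e ∈ D2 ↔ e ∈ D1) (A : Agr L S D1 w1 w2) {c' : ℤ × ℤ}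
    (h : SR (L : Set (ℤ × ℤ)) D1 ∅ S (m.al w1) c') :
    (SG (LH L S) D2 (wH L w1 w2)).Reachable c' (ej S w1 w2 m) := by
  classical
  rcases h with ⟨rfl, hh⟩ | ⟨rfl, e, he, -, hS, hs⟩
  · have hnS : m.dg ∉ S := by
      intro hS
      have hS' := H.SS.1 hS
      rcases hh with ⟨e, he, -, h1, h2, hs⟩ | ⟨e, he, -, h1, h2⟩
      · rcases al_tile H.toMT hL he hs with rfl | rfl
        · exact h1 hS
        · exact h1 hS'
      · have hs : Sd e (m.al w1) := by
          rcases h2 with h2 | ⟨-, h2⟩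
          · exact Or.inr (Or.inr (Or.inr h2))
          · exact Or.inr (Or.inr (Or.inl h2))
        rcases al_tile H.toMT hL he hs with rfl | rfl
        · exact H.d1.1 h1
        · exact H.d1.2 h1
    unfold ej
    rw [if_neg hnS]
  · have hS' : m.dg ∈ S := by
      rcases al_tile H.toMT hL he hs with rfl | rfl
      · exact hS
      · exact H.SS.2 hS
    exact H.one ds A hS'

/-- `ej` is a loose side -/
lemma MK.ends (H : MK L S D1 D2 w1 w2 m) (hL : ∀ e ∈ L, (e.1 + e.2) % 2 = 1) (hSL : ∀ e ∈ S, e ∈ L)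
    {w : Finset (ℤ × ℤ)} : IsEnd (SG (LH L S) D2 w) (ej S w1 w2 m) := by
  classical
  have hΛ : ∀ e ∈ LH L S, (e.1 + e.2) % 2 = 1 := by
    rintro e (h | h)
    · exact hL e h
    · exact odd_dn.1 (hL _ (hSL _ h))
  have hno : ∀ e, e ∉ L → dn e ∉ L → e ∉ LH L S := by
    rintro e h1 h2 (h | h)
    · exact h1 h
    · exact h2 (hSL _ h)
  unfold ej
  by_cases hS : m.dg ∈ S
  · rw [if_pos hS]
    by_cases hy : m.sy = 1
    · rw [if_pos hy]
      obtain ⟨t, ht, h⟩ := al_cases (m := m) w2 H.sy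
      rcases h with ⟨hy', h⟩ | ⟨-, h⟩
      · omega
      obtain ⟨⟨o1, o2⟩, o3, o4⟩ := H.od hy
      rw [h]
      rcases ht with rfl | rfl
      · exact end_S (mark_odd m).1 hΛ (hno _ o1 o3)
      · exact end_S (mark_odd m).2 hΛ (hno _ o2 o4)
    · rw [if_neg hy]
      have hy2 : m.sy = -1 := by have := H.sy; omega
      obtain ⟨t, ht, h⟩ := al_cases (m := m) w1 H.sy
      rcases h with ⟨-, h⟩ | ⟨hy', h⟩
      swap
      · omega
      obtain ⟨⟨o1, o2⟩, o3, o4⟩ := H.ou hy2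
      rw [h, up_eN]
      rcases ht with rfl | rfl
      · exact end_N (odd_up.2 (mark_odd m).1) hΛ (hno _ o3 (by rw [dn_up]; exact o1))
      · exact end_N (odd_up.2 (mark_odd m).2) hΛ (hno _ o4 (by rw [dn_up]; exact o2))
  · rw [if_neg hS]
    have hS' : m.hn ∉ S := fun h => hS (H.SS.2 h)
    obtain ⟨t, ht, h⟩ := al_cases (m := m) w1 H.sy
    rcases h with ⟨hy, h⟩ | ⟨hy, h⟩
    · obtain ⟨⟨o1, o2⟩, -⟩ := H.ou hy
      rw [h]
      rcases ht with rfl | rfl
      · refine end_N (mark_odd m).1 hΛ ?_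
        rintro (k | k)
        · exact o1 k
        · rw [dn_up] at k; exact hS k
      · refine end_N (mark_odd m).2 hΛ ?_
        rintro (k | k)
        · exact o2 k
        · rw [dn_up] at k; exact hS' k
    · obtain ⟨⟨o1, o2⟩, o3, o4⟩ := H.od hy
      rw [h]
      rcases ht with rfl | rfl
      · exact end_S (mark_odd m).1 hΛ (hno _ o1 o3)
      · exact end_S (mark_odd m).2 hΛ (hno _ o2 o4)

end Pool.Agent.H19.W
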