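import Mathlib
import Pool.Agent.H19.W.RMark2

set_option autoImplicit false
set_option linter.unusedVariables false
open Finset

/-! # RAISE: equality of the forced probabilities, and the comparison

`raise_cut`, `raise_all` : the forced worlds have the same far end probabilities. `PHyp.raise` : **RAISE** for a part of a
polygon: `|P_A (z ~ mark j) - P_{A+} (z ~ mark j)| ≤ 2 ε`. -/

namespace Pool.Agent.H19.W

open Pool.Agent.H75.Perc Pool.Agent.H75.TwoArm Pool.Agent.H99.W Pool.Agent.H13.W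
open Pool.Agent.H33.Q1 (lt tt ct TL lt_odd tt_lt lt_tt lt_inj mem_TL)
open Pool.Agent.H22.W.Vc (Mark Tc up_lt dn_lt lt_eq eE_lt eN_lt)
open Pool.Agent.Q1.M4 (Cell PType Good)
open Pool.Agent.H58.W (PB PB_mono PB_or_le PB_nonneg)
open Pool.Agent.H50.W (bk)

/-! ### Marks -/

section marks
variable {T : ℤ → ℤ → Prop} {m m' : Mark}

/-- two convex corners with a common tile -/
lemma mark_inj (h : Mark.Cvx T m) (h' : Mark.Cvx T m') (hy : m.sy = m'.sy) {t : ℤ × ℤ}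
    (ht : t = m.dg ∨ t = m.hn) (ht' : t = m'.dg ∨ t = m'.hn) : m = m' := by
  obtain ⟨u, v, sx, sy⟩ := m
  obtain ⟨u', v', sx', sy'⟩ := m'
  obtain ⟨h1, h2, h3⟩ := h
  obtain ⟨h1', h2', h3'⟩ := h'
  simp only at hy h1 h2 h3 h1' h2' h3'
  subst hy
  unfold Mark.dg Mark.hn at ht ht'
  simp only at ht ht'
  rcases ht with rfl | rfl <;> rcases ht' with ht' | ht'
  · obtain ⟨rfl, rfl⟩ := lt_eq.1 ht'
    have a1 := h3 1 1 (by norm_num) (by norm_num) (by norm_num) (by norm_num)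
    have : sx = sx' := by
      rcases h1 with rfl | rfl <;> rcases h1' with rfl | rfl
      · rfl
      · exfalso
        have a2 := h3' (-1) 1 (by norm_num) (by norm_num) (by norm_num) (by norm_num)
        norm_num at a1 a2
        exact a2 a1
      · exfalso
        have a2 := h3' (-1) 1 (by norm_num) (by norm_num) (by norm_num) (by norm_num)
        norm_num at a1 a2
        exact a2 a1
      · rfl
    rw [this]
  · exfalso
    obtain ⟨e1, e2⟩ := lt_eq.1 ht'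
    have a1 := (h3' 1 1 (by norm_num) (by norm_num) (by norm_num) (by norm_num)).2 ⟨le_rfl, le_rfl⟩
    have a2 := h3 0 1 (by norm_num) (by norm_num) (by norm_num) (by norm_num)
    rw [mul_one, ← e1, ← e2] at a1
    rw [mul_zero, add_zero] at a2
    have := (a2.1 a1).1
    omega
  · exfalso
    obtain ⟨e1, e2⟩ := lt_eq.1 ht'
    have a1 := (h3 1 1 (by norm_num) (by norm_num) (by norm_num) (by norm_num)).2 ⟨le_rfl, le_rfl⟩
    have a2 := h3' 0 1 (by norm_num) (by norm_num) (by norm_num) (by norm_num)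
    rw [mul_one, e1, e2] at a1
    rw [mul_zero, add_zero] at a2
    have := (a2.1 a1).1
    omega
  · obtain ⟨e1, e2⟩ := lt_eq.1 ht'
    subst e2
    rcases h1 with rfl | rfl <;> rcases h1' with rfl | rfl
    · have : u = u' := by omega
      rw [this]
    · exfalso
      have a1 := (h3 2 1 (by norm_num) (by norm_num) (by norm_num) (by norm_num)).2 ⟨by norm_num, le_rfl⟩
      have a2 := h3' 0 1 (by norm_num) (by norm_num) (by norm_num) (by norm_num)
      rw [show u + 1 * 2 = u' + -1 * 0 by omega] at a1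
      have := (a2.1 a1).1
      omega
    · exfalso
      have a1 := (h3 2 1 (by norm_num) (by norm_num) (by norm_num) (by norm_num)).2 ⟨by norm_num, le_rfl⟩
      have a2 := h3' 0 1 (by norm_num) (by norm_num) (by norm_num) (by norm_num)
      rw [show u + -1 * 2 = u' + 1 * 0 by omega] at a1
      have := (a2.1 a1).1
      omega
    · have : u = u' := by omega
      rw [this]

/-- the tiles at a convex corner -/
lemma mt_of {L : Finset (ℤ × ℤ)} (hL : ∀ x y, lt (x, y) ∈ L ↔ Tc T x y) (h : Mark.Cvx T m) : MT L m := by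
  obtain ⟨u, v, sx, sy⟩ := m
  obtain ⟨h1, h2, h3⟩ := h
  simp only at h1 h2 h3
  have room : T (u + sx) (v + sy) := by
    have := (h3 1 1 (by norm_num) (by norm_num) (by norm_num) (by norm_num)).2 ⟨le_rfl, le_rfl⟩
    rwa [mul_one, mul_one] at this
  have key : ∀ a b : ℤ, -3 ≤ sx * (a - u) → sx * (a - u) ≤ 3 → -3 ≤ sy * (b - v) → sy * (b - v) ≤ 0 →
      ¬ T a b := by
    intro a b g1 g2 g3 g4 hT
    have e1 : u + sx * (sx * (a - u)) = a := by rcases h1 with rfl | rfl <;> ring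
    have e2 : v + sy * (sy * (b - v)) = b := by rcases h2 with rfl | rfl <;> ring
    have := h3 (sx * (a - u)) (sy * (b - v)) g1 g2 g3 (by omega)
    rw [e1, e2] at this
    have := (this.1 hT).2
    omega
  refine ⟨h1, h2, ?_, ?_, ?_, ?_⟩
  · unfold Mark.dg
    rw [hL]
    refine ⟨u + sx, v + sy, ?_, ?_, room⟩ <;> simp only <;> rcases h1 with rfl | rfl <;>
      rcases h2 with rfl | rfl <;> omega
  · unfold Mark.hn
    rw [hL]
    refine ⟨u + sx, v + sy, ?_, ?_, room⟩ <;> simp only <;> rcases h1 with rfl | rfl <;>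
      rcases h2 with rfl | rfl <;> omega
  · intro hy
    simp only at hy
    subst hy
    unfold Mark.dg Mark.hn
    simp only [up_lt, hL]
    refine ⟨⟨?_, ?_⟩, ?_, ?_⟩
    all_goals
      rintro ⟨a, b, g1, g2, g3⟩
      refine key a b ?_ ?_ ?_ ?_ g3
      all_goals (rcases h1 with rfl | rfl <;> omega)
  · intro hy
    simp only at hy
    subst hy
    unfold Mark.dg Mark.hn
    simp only [dn_lt, hL]
    refine ⟨⟨?_, ?_⟩, ?_, ?_⟩
    all_goals
      rintro ⟨a, b, g1, g2, g3⟩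
      refine key a b ?_ ?_ ?_ ?_ g3
      all_goals (rcases h1 with rfl | rfl <;> omega)

end marks

section inj
variable {L : Finset (ℤ × ℤ)} {S D1 D2 : Set (ℤ × ℤ)} {w1 w2 : Finset (ℤ × ℤ)} {m m' : Mark}

/-- the kinds of ends of the common world -/
lemma ej_cases (H : MT L m) : ∃ t, (t = m.dg ∨ t = m.hn) ∧
    ((m.sy = -1 ∧ ej S w1 w2 m = eN (up t)) ∨ (m.sy = -1 ∧ ej S w1 w2 m = eN t) ∨
      (m.sy = 1 ∧ ej S w1 w2 m = eS t)) := by
  classical
  unfold ej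
  by_cases hS : m.dg ∈ S
  · rw [if_pos hS]
    by_cases hy : m.sy = 1
    · rw [if_pos hy]
      obtain ⟨t, ht, h⟩ := al_cases (m := m) w2 H.sy
      rcases h with ⟨hy', h⟩ | ⟨-, h⟩
      · omega
      · exact ⟨t, ht, Or.inr (Or.inr ⟨hy, h⟩)⟩
    · rw [if_neg hy]
      obtain ⟨t, ht, h⟩ := al_cases (m := m) w1 H.sy
      rcases h with ⟨hy', h⟩ | ⟨hy', h⟩
      · exact ⟨t, ht, Or.inl ⟨hy', by rw [h, up_eN]⟩⟩
      · exact absurd hy' hy
  · rw [if_neg hS]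
    obtain ⟨t, ht, h⟩ := al_cases (m := m) w1 H.sy
    rcases h with ⟨hy', h⟩ | ⟨hy', h⟩
    · exact ⟨t, ht, Or.inr (Or.inl ⟨hy', h⟩)⟩
    · exact ⟨t, ht, Or.inr (Or.inr ⟨hy', h⟩)⟩

lemma eN_inj {a b : ℤ × ℤ} (h : eN a = eN b) : a = b := by
  unfold eN at h
  have h1 := congrArg Prod.fst h
  have h2 := congrArg Prod.snd h
  simp only at h1 h2
  exact Prod.ext (by omega) (by omega)

lemma eS_eq {a b : ℤ × ℤ} (h : eS a = eN b) : a = up b := by
  apply eS_inj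
  rw [h]
  unfold eS eN up
  simp

/-- **the ends of the common world are different** -/
lemma ej_inj {T : ℤ → ℤ → Prop} (H : MT L m) (H' : MT L m') (h : Mark.Cvx T m) (h' : Mark.Cvx T m')
    (e : ej S w1 w2 m = ej S w1 w2 m') : m = m' := by
  obtain ⟨t, ht, h1⟩ := ej_cases (S := S) (w1 := w1) (w2 := w2) H
  obtain ⟨t', ht', h1'⟩ := ej_cases (S := S) (w1 := w1) (w2 := w2) H'
  have htL : t ∈ L := by rcases ht with rfl | rfl; exacts [H.dgL, H.hnL]
  have htL' : t' ∈ L := by rcases ht' with rfl | rfl; exacts [H'.dgL, H'.hnL]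
  have hu : m.sy = -1 → up t ∉ L ∧ up (up t) ∉ L := by
    intro hy
    obtain ⟨⟨o1, o2⟩, o3, o4⟩ := H.ou hy
    rcases ht with rfl | rfl
    · exact ⟨o1, o3⟩
    · exact ⟨o2, o4⟩
  have hu' : m'.sy = -1 → up t' ∉ L ∧ up (up t') ∉ L := by
    intro hy
    obtain ⟨⟨o1, o2⟩, o3, o4⟩ := H'.ou hy
    rcases ht' with rfl | rfl
    · exact ⟨o1, o3⟩
    · exact ⟨o2, o4⟩
  have fin : t = t' → m.sy = m'.sy → m = m' := by
    intro g1 g2
    exact mark_inj h h' g2 ht (g1 ▸ ht')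
  rcases h1 with ⟨hy, k⟩ | ⟨hy, k⟩ | ⟨hy, k⟩ <;> rcases h1' with ⟨hy', k'⟩ | ⟨hy', k'⟩ | ⟨hy', k'⟩
  · rw [k, k'] at e
    exact fin (up_inj (eN_inj e)) (hy.trans hy'.symm)
  · rw [k, k'] at e
    exact absurd (eN_inj e ▸ htL' : up t ∈ L) (hu hy).1
  · rw [k, k'] at e
    exact absurd (eS_eq e.symm ▸ htL' : up (up t) ∈ L) (hu hy).2
  · rw [k, k'] at e
    exact absurd ((eN_inj e).symm ▸ htL : up t' ∈ L) (hu' hy').1
  · rw [k, k'] at e
    exact fin (eN_inj e) (hy.trans hy'.symm)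
  · rw [k, k'] at e
    exact absurd (eS_eq e.symm ▸ htL' : up t ∈ L) (hu hy).1
  · rw [k, k'] at e
    exact absurd (eS_eq e ▸ htL : up (up t') ∈ L) (hu' hy').2
  · rw [k, k'] at e
    exact absurd (eS_eq e ▸ htL : up t' ∈ L) (hu' hy').1
  · rw [k, k'] at e
    exact fin (eS_inj e) (hy.trans hy'.symm)

end inj

/-! ### Equality of the forced probabilities -/

section raise
variable {β : Type*} [DecidableEq β] {L E : Finset (ℤ × ℤ)} {b : ℤ × ℤ → β} {N S D1 D2 : Set (ℤ × ℤ)}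
  {w1 w2 W1 W2 : Finset (ℤ × ℤ)} {m : Mark} {ι : Type*} {mk : ι → Mark} {T : ℤ → ℤ → Prop}

lemma MK.congr (H : MK L S D1 D2 W1 W2 m) (a1 : m.dg ∈ w1 ↔ m.dg ∈ W1) (a2 : m.hn ∈ w1 ↔ m.hn ∈ W1)
    (b1 : m.dg ∈ w2 ↔ m.dg ∈ W2) (b2 : m.hn ∈ w2 ↔ m.hn ∈ W2) : MK L S D1 D2 w1 w2 m :=
  { H.toMT with
    SS := H.SS
    d1 := H.d1
    d2 := H.d2
    c1 := by rw [a1, a2]; exact H.c1
    c2 := by rw [b1, b2]; exact H.c2
    f := fun h => by rw [a2, b2]; exact H.f h }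

/-- states outside of `E` -/
lemma out_iff {ω w W : Finset (ℤ × ℤ)} {e : ℤ × ℤ} (h : w = ω ∪ W) (hω : ω ⊆ E) (he : e ∉ E) : e ∈ w ↔ e ∈ W := by
  rw [h, mem_union]
  exact ⟨fun k => k.resolve_left fun g => he (hω g), Or.inr⟩

lemma eW_ne_ej (H : MT L m) {e : ℤ × ℤ} (ho : (e.1 + e.2) % 2 = 1) : eW e ≠ ej S w1 w2 m := by
  intro h
  obtain ⟨t, ht, h1⟩ := ej_cases (S := S) (w1 := w1) (w2 := w2) H
  have hto : (t.1 + t.2) % 2 = 1 := by
    rcases ht with rfl | rfl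
    · exact (mark_odd m).1
    · exact (mark_odd m).2
  rw [← h] at h1
  unfold eW eN eS up at h1
  rcases h1 with ⟨-, h1⟩ | ⟨-, h1⟩ | ⟨-, h1⟩
  all_goals
    have k1 := congrArg Prod.fst h1
    have k2 := congrArg Prod.snd h1
    simp only at k1 k2
    omega

/-- **The forced probabilities are equal**, a part is cut off. -/
theorem raise_cut (H : Shift L E b N S D1 D2 W1 W2) (C : CutOK L S D1 D2) (hcv : ∀ j, Mark.Cvx T (mk j))
    (hinj : Function.Injective mk) (hmk : ∀ j, MK L S D1 D2 W1 W2 (mk j))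
    (hE : ∀ j, (mk j).dg ∉ E ∧ (mk j).hn ∉ E) {e0 : ℤ × ℤ} (h0 : e0 ∈ L) (hD : e0 ∈ D2)
    (hz : SR (L : Set (ℤ × ℤ)) D1 ∅ S (eW e0) (eW e0))
    (ex1 : ∀ ω ⊆ E, ∃ j, (SG (L : Set (ℤ × ℤ)) D1 (ω ∪ W1)).Reachable (eW e0) ((mk j).al W1))
    (ex2 : ∀ ω ⊆ E, ∃ j, (SG (L : Set (ℤ × ℤ)) D2 (ω ∪ W2)).Reachable (eW e0) ((mk j).al W2)) (j : ι) :
    PB E b (fun ω => (SG (L : Set (ℤ × ℤ)) D1 (s1 E N S W1 ω)).Reachable (eW e0) ((mk j).al W1)) =
    PB E b (fun ω => (SG (L : Set (ℤ × ℤ)) D2 (s2 E N S W2 ω)).Reachable (eW e0) ((mk j).al W2)) := by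
  refine H.prob (Φ1 := fun w => (SG (L : Set (ℤ × ℤ)) D1 w).Reachable (eW e0) ((mk j).al W1))
    (Φ2 := fun w => (SG (L : Set (ℤ × ℤ)) D2 w).Reachable (eW e0) ((mk j).al W2)) ?_
  intro ω1 h1 ω2 h2 A
  obtain ⟨ω1', h1', e1⟩ := H.s1_eq h1
  obtain ⟨ω2', h2', e2⟩ := H.s2_eq h2
  have hMK : ∀ j, MK L S D1 D2 (s1 E N S W1 ω1) (s2 E N S W2 ω2) (mk j) := fun j =>
    (hmk j).congr (out_iff e1 h1' (hE j).1) (out_iff e1 h1' (hE j).2)
      (out_iff e2 h2' (hE j).1) (out_iff e2 h2' (hE j).2)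
  have al1 : ∀ j, (mk j).al W1 = (mk j).al (s1 E N S W1 ω1) := fun j =>
    al_congr (out_iff e1 h1' (hE j).2).symm
  have al2 : ∀ j, (mk j).al W2 = (mk j).al (s2 E N S W2 ω2) := fun j =>
    al_congr (out_iff e2 h2' (hE j).2).symm
  have hΛ : ∀ e ∈ LH L S, (e.1 + e.2) % 2 = 1 := by
    rintro e (h | h)
    · exact H.odd e h
    · exact odd_dn.1 (H.odd _ (H.SL _ h))
  apply far_core (G := SG (LH L S) D2 (wH L (s1 E N S W1 ω1) (s2 E N S W2 ω2))) SG_deg2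
    (z' := eW e0) (x1 := fun j => (mk j).al W1) (x2 := fun j => (mk j).al W2)
    (e := fun j => ej S (s1 E N S W1 ω1) (s2 E N S W2 ω2) (mk j))
  · intro j hj
    obtain ⟨x', hx, hr⟩ := cutSim H C A hz hj
    rw [al1 j] at hx
    exact hr.trans ((hMK j).sr H.odd H.ds A hx)
  · intro j hj
    refine (reach_hat hj).trans ?_
    rw [al2 j]
    exact (hMK j).two H.ds A
  · rw [e1]; exact ex1 _ h1'
  · rw [e2]; exact ex2 _ h2'
  · exact end_W (H.odd _ h0) hΛ hD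
  · exact fun j => (hMK j).ends H.odd H.SL
  · exact fun j => eW_ne_ej (hMK j).toMT (H.odd _ h0)
  · intro i j hij
    exact hinj (ej_inj (hMK i).toMT (hMK j).toMT (hcv i) (hcv j) hij)

/-- **The forced probabilities are equal**, everything is moved. -/
theorem raise_all (H : Shift L E b N S D1 D2 W1 W2) (hS : ∀ e ∈ L, e ∈ S) (hcv : ∀ j, Mark.Cvx T (mk j))
    (hinj : Function.Injective mk) (hmk : ∀ j, MK L S D1 D2 W1 W2 (mk j))
    (hE : ∀ j, (mk j).dg ∉ E ∧ (mk j).hn ∉ E) {e0 : ℤ × ℤ} (h0 : e0 ∈ L) (hD : e0 ∈ D1)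
    (ex1 : ∀ ω ⊆ E, ∃ j, (SG (L : Set (ℤ × ℤ)) D1 (ω ∪ W1)).Reachable (eW e0) ((mk j).al W1))
    (ex2 : ∀ ω ⊆ E, ∃ j, (SG (L : Set (ℤ × ℤ)) D2 (ω ∪ W2)).Reachable (eW (up e0)) ((mk j).al W2)) (j : ι) :
    PB E b (fun ω => (SG (L : Set (ℤ × ℤ)) D1 (s1 E N S W1 ω)).Reachable (eW e0) ((mk j).al W1)) =
    PB E b (fun ω => (SG (L : Set (ℤ × ℤ)) D2 (s2 E N S W2 ω)).Reachable (eW (up e0)) ((mk j).al W2)) := by
  refine H.prob (Φ1 := fun w => (SG (L : Set (ℤ × ℤ)) D1 w).Reachable (eW e0) ((mk j).al W1))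
    (Φ2 := fun w => (SG (L : Set (ℤ × ℤ)) D2 w).Reachable (eW (up e0)) ((mk j).al W2)) ?_
  intro ω1 h1 ω2 h2 A
  obtain ⟨ω1', h1', e1⟩ := H.s1_eq h1
  obtain ⟨ω2', h2', e2⟩ := H.s2_eq h2
  have hMK : ∀ j, MK L S D1 D2 (s1 E N S W1 ω1) (s2 E N S W2 ω2) (mk j) := fun j =>
    (hmk j).congr (out_iff e1 h1' (hE j).1) (out_iff e1 h1' (hE j).2)
      (out_iff e2 h2' (hE j).1) (out_iff e2 h2' (hE j).2)
  have al1 : ∀ j, (mk j).al W1 = (mk j).al (s1 E N S W1 ω1) := fun j =>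
    al_congr (out_iff e1 h1' (hE j).2).symm
  have al2 : ∀ j, (mk j).al W2 = (mk j).al (s2 E N S W2 ω2) := fun j =>
    al_congr (out_iff e2 h2' (hE j).2).symm
  have hΛ : ∀ e ∈ LH L S, (e.1 + e.2) % 2 = 1 := by
    rintro e (h | h)
    · exact H.odd e h
    · exact odd_dn.1 (H.odd _ (H.SL _ h))
  have ez : up (eW e0) = eW (up e0) := rfl
  apply far_core (G := SG (LH L S) D2 (wH L (s1 E N S W1 ω1) (s2 E N S W2 ω2))) SG_deg2
    (z' := eW (up e0)) (x1 := fun j => (mk j).al W1) (x2 := fun j => (mk j).al W2)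
    (e := fun j => ej S (s1 E N S W1 ω1) (s2 E N S W2 ω2) (mk j))
  · intro j hj
    have hr := allSim H hS A hj
    rw [ez, al1 j] at hr
    exact hr.trans ((hMK j).one H.ds A (hS _ (hMK j).dgL))
  · intro j hj
    refine (reach_hat hj).trans ?_
    rw [al2 j]
    exact (hMK j).two H.ds A
  · rw [e1]; exact ex1 _ h1'
  · rw [e2]; exact ex2 _ h2'
  · exact end_W (odd_up.2 (H.odd _ h0)) hΛ ((H.ds _ (hS _ h0)).2 hD)
  · exact fun j => (hMK j).ends H.odd H.SL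
  · exact fun j => eW_ne_ej (hMK j).toMT (odd_up.2 (H.odd _ h0))
  · intro i j hij
    exact hinj (ej_inj (hMK i).toMT (hMK j).toMT (hcv i) (hcv j) hij)

end raise

end Pool.Agent.H19.W
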