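import Mathlib
import Pool.Agent.H19.W.RTop
import Pool.Agent.H22.W.VcCol
import Pool.Agent.H2.W.PRTop

set_option autoImplicit false
set_option linter.unusedVariables false
open Finset

/-! # RAISE: `FEq` for the three steps

`TQ P n` : the room in tile coordinates. `feq_cut`, `feq_all` : `FEq` from `Shift` and 22's `VH` for both worlds.
`feqT`, `feqF` : part above / below a full row. `feqV` : everything is moved (gap 3). -/

namespace Pool.Agent.H19.W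

open Pool.Agent.H75.Perc Pool.Agent.H75.TwoArm Pool.Agent.H99.W Pool.Agent.H13.W
open Pool.Agent.H33.Q1 (lt tt ct TL lt_odd tt_lt lt_tt lt_inj mem_TL)
open Pool.Agent.H22.W.Vc (Mark Tc Ld VH Cl up_lt dn_lt lt_eq eE_lt eN_lt)
open Pool.Agent.Q1.M4 (Cell PType Good)
open Pool.Agent.H50.W (bk)
open Pool.Agent.H2.W.Run (FEq)

/-- the room in tile coordinates -/
def TQ (P : PType) (n : ℤ) (x y : ℤ) : Prop := ct n (x, y) ∈ P.Q

section
variable {β : Type*} [DecidableEq β] {P : PType} {n : ℤ} {pl : Cell → Option β} {κ κ1 κ2 : ℕ → ℤ → Prop}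
  {D D1 D2 : Set (ℤ × ℤ)} {R : Cell → ℤ → Prop} {mk : Fin 3 → Mark} {z : ℤ × ℤ} {m : Mark}

lemma lt_LamC_Tc (hn : 0 < n) {x y : ℤ} : lt (x, y) ∈ LamC P.Q n ↔ Tc (TQ P n) x y := by
  rw [lt_mem_LamC hn]
  unfold Tq Tc TQ
  constructor
  · rintro ⟨⟨a, b⟩, h1, h2, h3⟩
    rw [abs_le] at h1 h2
    simp only at h1 h2
    exact ⟨a, b, by omega, by omega, h3⟩
  · rintro ⟨a, b, h1, h2, h3⟩
    refine ⟨(a, b), ?_, ?_, h3⟩
    · rw [abs_le]; simp only; omega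
    · rw [abs_le]; simp only; omega

lemma LamC_Ld (hn : 0 < n) : (LamC P.Q n : Set (ℤ × ℤ)) = Ld (TQ P n) := by
  ext e
  constructor
  · intro h
    have ho := ((mem_LamC hn).1 h).1
    refine ⟨(tt e).1, (tt e).2, ?_, ?_⟩
    · exact (lt_tt ho).symm
    · rw [← lt_LamC_Tc hn]
      have : lt ((tt e).1, (tt e).2) = e := lt_tt ho
      rw [this]
      exact h
  · rintro ⟨x, y, rfl, h⟩
    exact (lt_LamC_Tc hn).2 h

/-- both tiles at a mark are attached to the cell of the corner -/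
lemma ac_mark (h : Mark.Cvx (TQ P n) m) : ac P.Q n (m.u, m.v) = ct n (m.u + m.sx, m.v + m.sy) ∧
    ac P.Q n (m.u + m.sx, m.v) = ct n (m.u + m.sx, m.v + m.sy) := by
  have key : ∀ a b, m.u - 2 ≤ a → a ≤ m.u + 2 → m.v - 2 ≤ b → b ≤ m.v + 2 →
      ((a / n, b / n) ∈ P.Q ↔ (1 ≤ m.sx * (a - m.u) ∧ 1 ≤ m.sy * (b - m.v))) := fun a b h1 h2 h3 h4 =>
    h.near h1 h2 h3 h4
  obtain ⟨u, v, sx, sy⟩ := m
  obtain ⟨h1, h2, -⟩ := h
  simp only at h1 h2 key ⊢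
  have kk : ∀ a b : ℤ, u - 2 ≤ a → a ≤ u + 2 → v - 2 ≤ b → b ≤ v + 2 →
      ((a / n, b / n) ∈ P.Q) = (1 ≤ sx * (a - u) ∧ 1 ≤ sy * (b - v)) := fun a b g1 g2 g3 g4 =>
    propext (key a b g1 g2 g3 g4)
  have no : ∀ a b : ℤ, u - 2 ≤ a → a ≤ u + 2 → v - 2 ≤ b → b ≤ v + 2 →
      ¬ (1 ≤ sx * (a - u) ∧ 1 ≤ sy * (b - v)) → (a / n, b / n) ∉ P.Q := fun a b g1 g2 g3 g4 g5 g6 =>
    g5 ((key a b g1 g2 g3 g4).1 g6)
  have ye : ∀ a b : ℤ, u - 2 ≤ a → a ≤ u + 2 → v - 2 ≤ b → b ≤ v + 2 →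
      (1 ≤ sx * (a - u) ∧ 1 ≤ sy * (b - v)) → (a / n, b / n) ∈ P.Q := fun a b g1 g2 g3 g4 g5 =>
    (key a b g1 g2 g3 g4).2 g5
  rw [ac_eq, ac_eq]
  unfold ct
  simp only
  have c0 : (u / n, v / n) ∉ P.Q := no u v (by omega) (by omega) (by omega) (by omega) (by rintro ⟨g, -⟩; simp at g)
  rcases h1 with rfl | rfl
  · have c1 : ((u - 1) / n, v / n) ∉ P.Q :=
      no _ _ (by omega) (by omega) (by omega) (by omega) (by rintro ⟨g, -⟩; omega)
    have c2 : ((u + 1) / n, v / n) ∉ P.Q :=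
      no _ _ (by omega) (by omega) (by omega) (by omega) (by rintro ⟨-, g⟩; simp at g)
    have c3 : (u / n, (v - 1) / n) ∉ P.Q :=
      no _ _ (by omega) (by omega) (by omega) (by omega) (by rintro ⟨g, -⟩; omega)
    have c4 : (u / n, (v + 1) / n) ∉ P.Q :=
      no _ _ (by omega) (by omega) (by omega) (by omega) (by rintro ⟨g, -⟩; omega)
    have c5 : ((u - 1) / n, (v - 1) / n) ∉ P.Q :=
      no _ _ (by omega) (by omega) (by omega) (by omega) (by rintro ⟨g, -⟩; omega)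
    have c6 : ((u - 1) / n, (v + 1) / n) ∉ P.Q :=
      no _ _ (by omega) (by omega) (by omega) (by omega) (by rintro ⟨g, -⟩; omega)
    have d1 : ((u + 1 - 1) / n, v / n) ∉ P.Q := by rw [add_sub_cancel_right]; exact c0
    have d2 : ((u + 1 + 1) / n, v / n) ∉ P.Q :=
      no _ _ (by omega) (by omega) (by omega) (by omega) (by rintro ⟨-, g⟩; simp at g)
    rcases h2 with rfl | rfl
    · have e1 : ((u + 1) / n, (v - 1) / n) ∉ P.Q :=
        no _ _ (by omega) (by omega) (by omega) (by omega) (by rintro ⟨-, g⟩; omega)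
      have e2 : ((u + 1) / n, (v + 1) / n) ∈ P.Q :=
        ye _ _ (by omega) (by omega) (by omega) (by omega) (by omega)
      refine ⟨?_, ?_⟩ <;> simp only [c0, c1, c2, c3, c4, c5, c6, e1, d1, d2, e2, if_false, if_true]
    · have e2 : ((u + 1) / n, (v - 1) / n) ∈ P.Q :=
        ye _ _ (by omega) (by omega) (by omega) (by omega) (by omega)
      refine ⟨?_, ?_⟩ <;> simp only [c0, c1, c2, c3, c4, c5, c6, d1, d2, e2, if_false, if_true] <;> rfl
  · have c1 : ((u - 1) / n, v / n) ∉ P.Q :=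
      no _ _ (by omega) (by omega) (by omega) (by omega) (by rintro ⟨-, g⟩; simp at g)
    have c2 : ((u + 1) / n, v / n) ∉ P.Q :=
      no _ _ (by omega) (by omega) (by omega) (by omega) (by rintro ⟨g, -⟩; omega)
    have c3 : (u / n, (v - 1) / n) ∉ P.Q :=
      no _ _ (by omega) (by omega) (by omega) (by omega) (by rintro ⟨g, -⟩; omega)
    have c4 : (u / n, (v + 1) / n) ∉ P.Q :=
      no _ _ (by omega) (by omega) (by omega) (by omega) (by rintro ⟨g, -⟩; omega)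
    have d1 : ((u - 1 - 1) / n, v / n) ∉ P.Q :=
      no _ _ (by omega) (by omega) (by omega) (by omega) (by rintro ⟨-, g⟩; simp at g)
    have d2 : ((u - 1 + 1) / n, v / n) ∉ P.Q := by rw [sub_add_cancel]; exact c0
    rw [show u + -1 = u - 1 by ring]
    rcases h2 with rfl | rfl
    · have e1 : ((u - 1) / n, (v - 1) / n) ∉ P.Q :=
        no _ _ (by omega) (by omega) (by omega) (by omega) (by rintro ⟨-, g⟩; omega)
      have e2 : ((u - 1) / n, (v + 1) / n) ∈ P.Q :=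
        ye _ _ (by omega) (by omega) (by omega) (by omega) (by omega)
      refine ⟨?_, ?_⟩ <;> simp only [c0, c1, c2, c3, c4, e1, d1, d2, e2, if_false, if_true]
    · have e2 : ((u - 1) / n, (v - 1) / n) ∈ P.Q :=
        ye _ _ (by omega) (by omega) (by omega) (by omega) (by omega)
      refine ⟨?_, ?_⟩ <;> simp only [c0, c1, c2, c3, c4, d1, d2, e2, if_false, if_true] <;> rfl

/-- both tiles at a mark are in a part, or none -/
lemma ss_mark (hn : 0 < n) (h : Mark.Cvx (TQ P n) m) : m.dg ∈ RgS P.Q n R ↔ m.hn ∈ RgS P.Q n R := by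
  obtain ⟨a1, a2⟩ := ac_mark h
  have H := mt_of (L := LamC P.Q n) (fun x y => lt_LamC_Tc hn) h
  rw [mem_RgS, mem_RgS]
  have h1 := H.dgL
  have h2 := H.hnL
  unfold Mark.dg Mark.hn at *
  rw [tt_lt, tt_lt, a1, a2]
  simp only [h1, h2, true_and]

lemma al_out {w W : Finset (ℤ × ℤ)} {ω : Finset (ℤ × ℤ)} (hn : 0 < n) (h : Mark.Cvx (TQ P n) m) (hω : ω ⊆ TL P.Q n) :
    m.al (ω ∪ W) = m.al W := by
  apply al_congr
  rw [mem_union]
  refine ⟨fun k => k.resolve_left fun g => ?_, Or.inr⟩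
  have h1 := ((mem_TL hn).1 (hω g)).2
  unfold Mark.hn at h1
  rw [tt_lt] at h1
  exact h.nh h1

/-- **`FEq` from `Shift` and the far ends**, a part is cut off. -/
theorem feq_cut (hn : 0 < n) (H : Shift (LamC P.Q n) (TL P.Q n) (bk n pl) (NatS P.Q n pl) (RgS P.Q n R) D1 D2
    (WC P n κ1) (WC P n κ2)) (C : CutOK (LamC P.Q n) (RgS P.Q n R) D1 D2) (hi : Function.Injective mk)
    (v1 : ∀ ω ⊆ TL P.Q n, VH (TQ P n) D1 (ω ∪ WC P n κ1) (Set.range mk) z)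
    (v2 : ∀ ω ⊆ TL P.Q n, VH (TQ P n) D2 (ω ∪ WC P n κ2) (Set.range mk) z)
    (hf : ∀ j, (mk j).hn ∈ RgS P.Q n R → ((mk j).hn ∈ WC P n κ2 ↔ (mk j).hn ∉ WC P n κ1)) :
    FEq P n pl R κ1 κ2 D1 D2 z z (fun j => (mk j).al (WC P n κ1)) (fun j => (mk j).al (WC P n κ2)) := by
  have V1 := v1 ∅ (empty_subset _)
  have V2 := v2 ∅ (empty_subset _)
  rw [empty_union] at V1 V2
  have hcv : ∀ j, Mark.Cvx (TQ P n) (mk j) := fun j => V1.mc _ ⟨j, rfl⟩
  obtain ⟨x, y, rfl, hD1, hT, hnD⟩ := V1.hz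
  obtain ⟨x', y', he, hD2, -, -⟩ := V2.hz
  have he' : lt (x, y) = lt (x', y') := he
  rw [← he'] at hD2
  have hL : lt (x, y) ∈ LamC P.Q n := (lt_LamC_Tc hn).2 ⟨x - 1, y, by omega, by omega, hT⟩
  have hL' : lt (x - 1, y) ∈ LamC P.Q n := (lt_LamC_Tc hn).2 ⟨x - 1, y, by omega, by omega, hT⟩
  have hea : ea (lt (x - 1, y)) = lt (x, y) := by
    unfold ea lt
    refine Prod.ext ?_ ?_ <;> simp only <;> ring
  have hz : SR (LamC P.Q n : Set (ℤ × ℤ)) D1 ∅ (RgS P.Q n R) (eW (lt (x, y))) (eW (lt (x, y))) := by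
    left
    refine ⟨rfl, Or.inl ⟨lt (x - 1, y), hL', fun h => h, ?_, hnD, ?_⟩⟩
    · intro h
      have := C.eas _ h (by rw [hea]; exact hL)
      rw [hea] at this
      exact C.sD _ this hD1
    · right; left
      rw [eE_lt, sub_add_cancel]
  have hE : ∀ j, (mk j).dg ∉ TL P.Q n ∧ (mk j).hn ∉ TL P.Q n := by
    intro j
    refine ⟨fun g => ?_, fun g => ?_⟩
    · have h1 := ((mem_TL hn).1 g).2
      unfold Mark.dg at h1
      rw [tt_lt] at h1
      exact (hcv j).nd h1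
    · have h1 := ((mem_TL hn).1 g).2
      unfold Mark.hn at h1
      rw [tt_lt] at h1
      exact (hcv j).nh h1
  have hMK : ∀ j, MK (LamC P.Q n) (RgS P.Q n R) D1 D2 (WC P n κ1) (WC P n κ2) (mk j) := fun j =>
    { mt_of (fun x y => lt_LamC_Tc hn) (hcv j) with
      SS := ss_mark hn (hcv j)
      d1 := ⟨(V1.mD _ ⟨j, rfl⟩).1, (V1.mD _ ⟨j, rfl⟩).2.1⟩
      d2 := ⟨(V2.mD _ ⟨j, rfl⟩).1, (V2.mD _ ⟨j, rfl⟩).2.1⟩
      c1 := V1.mkc _ ⟨j, rfl⟩
      c2 := V2.mkc _ ⟨j, rfl⟩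
      f := hf j }
  intro j
  refine raise_cut H C hcv hi hMK hE hL hD2 hz ?_ ?_ j
  · intro ω hω
    obtain ⟨j, hj⟩ := (v1 ω hω).ex3
    rw [← LamC_Ld hn] at hj
    exact ⟨j, by rw [← al_out (w := ω) hn (hcv j) hω]; exact hj⟩
  · intro ω hω
    obtain ⟨j, hj⟩ := (v2 ω hω).ex3
    rw [← LamC_Ld hn] at hj
    exact ⟨j, by rw [← al_out (w := ω) hn (hcv j) hω]; exact hj⟩

/-- **`FEq` from `Shift` and the far ends**, everything is moved. -/
theorem feq_all (hn : 0 < n) (H : Shift (LamC P.Q n) (TL P.Q n) (bk n pl) (NatS P.Q n pl) (RgS P.Q n R) D1 D2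
    (WC P n κ1) (WC P n κ2)) (hR : ∀ e ∈ LamC P.Q n, e ∈ RgS P.Q n R) (hi : Function.Injective mk)
    (v1 : ∀ ω ⊆ TL P.Q n, VH (TQ P n) D1 (ω ∪ WC P n κ1) (Set.range mk) z)
    (v2 : ∀ ω ⊆ TL P.Q n, VH (TQ P n) D2 (ω ∪ WC P n κ2) (Set.range mk) (up z))
    (hf : ∀ j, (mk j).hn ∈ WC P n κ2 ↔ (mk j).hn ∉ WC P n κ1) :
    FEq P n pl R κ1 κ2 D1 D2 z (up z) (fun j => (mk j).al (WC P n κ1)) (fun j => (mk j).al (WC P n κ2)) := by
  have V1 := v1 ∅ (empty_subset _)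
  have V2 := v2 ∅ (empty_subset _)
  rw [empty_union] at V1 V2
  have hcv : ∀ j, Mark.Cvx (TQ P n) (mk j) := fun j => V1.mc _ ⟨j, rfl⟩
  obtain ⟨x, y, rfl, hD1, hT, hnD⟩ := V1.hz
  have hL : lt (x, y) ∈ LamC P.Q n := (lt_LamC_Tc hn).2 ⟨x - 1, y, by omega, by omega, hT⟩
  have hE : ∀ j, (mk j).dg ∉ TL P.Q n ∧ (mk j).hn ∉ TL P.Q n := by
    intro j
    refine ⟨fun g => ?_, fun g => ?_⟩
    · have h1 := ((mem_TL hn).1 g).2
      unfold Mark.dg at h1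
      rw [tt_lt] at h1
      exact (hcv j).nd h1
    · have h1 := ((mem_TL hn).1 g).2
      unfold Mark.hn at h1
      rw [tt_lt] at h1
      exact (hcv j).nh h1
  have hMK : ∀ j, MK (LamC P.Q n) (RgS P.Q n R) D1 D2 (WC P n κ1) (WC P n κ2) (mk j) := fun j =>
    { mt_of (fun x y => lt_LamC_Tc hn) (hcv j) with
      SS := ss_mark hn (hcv j)
      d1 := ⟨(V1.mD _ ⟨j, rfl⟩).1, (V1.mD _ ⟨j, rfl⟩).2.1⟩
      d2 := ⟨(V2.mD _ ⟨j, rfl⟩).1, (V2.mD _ ⟨j, rfl⟩).2.1⟩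
      c1 := V1.mkc _ ⟨j, rfl⟩
      c2 := V2.mkc _ ⟨j, rfl⟩
      f := fun _ => hf j }
  intro j
  refine raise_all H hR hcv hi hMK hE hL hD1 ?_ ?_ j
  · intro ω hω
    obtain ⟨j, hj⟩ := (v1 ω hω).ex3
    rw [← LamC_Ld hn] at hj
    exact ⟨j, by rw [← al_out (w := ω) hn (hcv j) hω]; exact hj⟩
  · intro ω hω
    obtain ⟨j, hj⟩ := (v2 ω hω).ex3
    rw [← LamC_Ld hn] at hj
    exact ⟨j, by rw [← al_out (w := ω) hn (hcv j) hω]; exact hj⟩

end

section part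
variable {β : Type*} [DecidableEq β] {P : PType} {n : ℤ} {pl : Cell → Option β} {κ ex : ℕ → ℤ → Prop}
  {D : Set (ℤ × ℤ)} {U run : Cell → Prop} {y0 r0 : ℤ} {mk : Fin 3 → Mark} {z : ℤ × ℤ} {m : Mark}

/-- flipped colours at a mark -/
lemma hn_flip (hn : 2 ≤ n) {R : Cell → ℤ → Prop} (h : Mark.Cvx (TQ P n) m) (hS : m.hn ∈ RgS P.Q n R) :
    m.hn ∈ WC P n (κF P R κ) ↔ m.hn ∉ WC P n κ := by
  have ho : ct n (tt m.hn) ∉ P.Q := by
    unfold Mark.hn
    rw [tt_lt]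
    exact h.nh
  rw [mem_WCF hn hS.1 ho]
  unfold Xor
  tauto

/-- **RAISE, part above**: world 1 plain, world 2 flipped above the deleted row `r0`. -/
theorem feqT (H : PHyp P n pl κ ex D U run y0 r0 true) (hi : Function.Injective mk)
    (v1 : ∀ ω ⊆ TL P.Q n, VH (TQ P n) D (ω ∪ WC P n κ) (Set.range mk) z)
    (v2 : ∀ ω ⊆ TL P.Q n, VH (TQ P n) (D ∪ FR P.Q n run r0)
      (ω ∪ WC P n (κF P (RR U run r0 true) κ)) (Set.range mk) z) :
    FEq P n pl (RR U run r0 true) κ (κF P (RR U run r0 true) κ) D (D ∪ FR P.Q n run r0) z z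
      (fun j => (mk j).al (WC P n κ)) (fun j => (mk j).al (WC P n (κF P (RR U run r0 true) κ))) := by
  have hn := H.hn
  refine feq_cut (by omega) (H.shiftT rfl) (H.cutT rfl) hi v1 v2 fun j hS => ?_
  exact hn_flip (by omega) ((v1 ∅ (empty_subset _)).mc _ ⟨j, rfl⟩) hS

/-- **RAISE, part below**: world 1 flipped below the deleted row `r0`, world 2 plain. -/
theorem feqF (H : PHyp P n pl κ ex D U run y0 r0 false) (hi : Function.Injective mk)
    (v1 : ∀ ω ⊆ TL P.Q n, VH (TQ P n) (D ∪ FR P.Q n run r0)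
      (ω ∪ WC P n (κF P (RR U run r0 false) κ)) (Set.range mk) z)
    (v2 : ∀ ω ⊆ TL P.Q n, VH (TQ P n) D (ω ∪ WC P n κ) (Set.range mk) z) :
    FEq P n pl (RR U run r0 false) (κF P (RR U run r0 false) κ) κ (D ∪ FR P.Q n run r0) D z z
      (fun j => (mk j).al (WC P n (κF P (RR U run r0 false) κ))) (fun j => (mk j).al (WC P n κ)) := by
  have hn := H.hn
  refine feq_cut (by omega) (H.shiftF rfl) (H.cutF rfl) hi v1 v2 fun j hS => ?_
  have := hn_flip (κ := κ) (by omega) ((v1 ∅ (empty_subset _)).mc _ ⟨j, rfl⟩) hS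
  tauto

end part

end Pool.Agent.H19.W
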