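import Mathlib
import Pool.Agent.H19.W.RFeq

set_option autoImplicit false
set_option linter.unusedVariables false
open Finset

/-! # RAISE: everything is moved up by one row (gap 3)

World 1 = `(κ1, D1, z)`, world 2 = `(κ2, D2, up z)`; the colours are opposite except at the exit tile `(X, r)` of
world 2, and the colours of world 2 have one cut, above this tile. -/

namespace Pool.Agent.H19.W

open Pool.Agent.H75.Perc Pool.Agent.H75.TwoArm Pool.Agent.H99.W Pool.Agent.H13.W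
open Pool.Agent.H33.Q1 (lt tt ct TL lt_odd tt_lt lt_tt lt_inj mem_TL)
open Pool.Agent.H22.W.Vc (Mark Tc Ld VH Cl up_lt dn_lt lt_eq eE_lt eN_lt)
open Pool.Agent.Q1.M4 (Cell PType Good)
open Pool.Agent.H50.W (bk)
open Pool.Agent.H2.W.Run (FEq)

section
variable {β : Type*} [DecidableEq β] {P : PType} {n : ℤ} {pl : Cell → Option β} {κ κ1 κ2 : ℕ → ℤ → Prop}
  {D D1 D2 : Set (ℤ × ℤ)} {R : Cell → ℤ → Prop} {mk : Fin 3 → Mark} {z : ℤ × ℤ} {m : Mark} {X r : ℤ}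

/-- two vertical neighbours outside have a horizontal neighbour inside -/
lemma outer_adj {Q : Finset Cell} (hn : 3 ≤ n) {x y : ℤ} (h1 : Tq Q n (x, y)) (h2 : Tq Q n (x, y + 1))
    (o1 : ct n (x, y) ∉ Q) (o2 : ct n (x, y + 1) ∉ Q) :
    ∃ s : ℤ, (s = 1 ∨ s = -1) ∧ (ct n (x + s, y) ∈ Q ∨ ct n (x + s, y + 1) ∈ Q) := by
  by_contra hc
  push Not at hc
  have c1 := hc 1 (Or.inl rfl)
  have c2 := hc (-1) (Or.inr rfl)
  rw [← sub_eq_add_neg] at c2
  rw [Tq_iff] at h1 h2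
  unfold ct at o1 o2 c1 c2
  simp only at o1 o2 c1 c2
  rw [show y + 1 - 1 = y by ring, show y + 1 + 1 = y + 2 by ring] at h2
  have e1 : (y - 1) / n ≠ y / n := by
    intro e
    rw [e] at h1
    tauto
  have e2 : (y + 2) / n ≠ (y + 1) / n := by
    intro e
    rw [e] at h2
    tauto
  have hn0 : 0 < n := by omega
  have k1 := Int.emod_add_mul_ediv y n
  have k2 := Int.emod_add_mul_ediv (y + 2) n
  have g1 := Int.emod_nonneg y hn0.ne'
  have g1' := Int.emod_lt_of_pos y hn0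
  have g2 := Int.emod_nonneg (y + 2) hn0.ne'
  have g2' := Int.emod_lt_of_pos (y + 2) hn0
  have f1 : y % n = 0 := by
    by_contra hne
    apply e1
    rw [Int.ediv_eq_iff_of_pos hn0]
    constructor <;> nlinarith [show 1 ≤ y % n by omega]
  have f2 : (y + 2) % n = 0 := by
    by_contra hne
    apply e2
    symm
    rw [Int.ediv_eq_iff_of_pos hn0]
    constructor <;> nlinarith [show 1 ≤ (y + 2) % n by omega]
  have d1 : n ∣ y := Int.dvd_of_emod_eq_zero f1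
  have d2 : n ∣ y + 2 := Int.dvd_of_emod_eq_zero f2
  have d3 : n ∣ 2 := by
    have := Int.dvd_sub d2 d1
    rwa [add_sub_cancel_left] at this
  have := Int.le_of_dvd (by norm_num) d3
  omega

/-- **The hypotheses on the colours of the two worlds.** -/
structure ColV (P : PType) (n : ℤ) (κ1 κ2 : ℕ → ℤ → Prop) (X r : ℤ) : Prop where
  up : ct n (X, r + 1) ∉ P.Q
  dn : ct n (X, r - 1) ∉ P.Q
  f1 : ∀ x y, ct n (x, y) ∉ P.Q → lt (x, y) ∈ LamC P.Q n → (x, y) ≠ (X, r) →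
    (lt (x, y) ∈ WC P n κ2 ↔ lt (x, y) ∉ WC P n κ1)
  f1x : lt (X, r) ∈ WC P n κ2 ↔ lt (X, r) ∈ WC P n κ1
  f2 : ∀ x y, ct n (x, y) ∉ P.Q → ct n (x, y + 1) ∉ P.Q → lt (x, y) ∈ LamC P.Q n →
    lt (x, y + 1) ∈ LamC P.Q n →
    ((lt (x, y) ∈ WC P n κ2 ↔ lt (x, y + 1) ∈ WC P n κ2) ↔ (x, y) ≠ (X, r))

theorem ColV.shift (H : ColV P n κ1 κ2 X r) (hn : 4 ≤ n) (pg : PlG P.Q pl)
    (hD : ∀ e ∈ LamC P.Q n, Pool.Agent.H13.W.up e ∈ D2 ↔ e ∈ D1) :
    Shift (LamC P.Q n) (TL P.Q n) (bk n pl) (NatS P.Q n pl) (RgS P.Q n fun _ _ => True) D1 D2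
      (WC P n κ1) (WC P n κ2) := by
  have hn0 : 0 < n := by omega
  have hW : ∀ κ : ℕ → ℤ → Prop, ∀ e ∈ TL P.Q n, e ∉ WC P n κ := fun κ e he h =>
    (mem_WC.1 h).2.1 ((mem_TL hn0).1 he).2
  have all : ∀ e ∈ LamC P.Q n, e ∈ RgS P.Q n fun _ _ => True := fun e he => ⟨he, trivial⟩
  have hup : ∀ e ∈ LamC P.Q n, ∃ x y, e = lt (x, y) ∧ Pool.Agent.H13.W.up e = lt (x, y + 1) := by
    intro e he
    have ho := ((mem_LamC hn0).1 he).1
    refine ⟨(tt e).1, (tt e).2, (lt_tt ho).symm, ?_⟩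
    rw [← up_lt]
    congr 1
    exact (lt_tt ho).symm
  refine shift_mk hn pg (fun c _ c' _ _ _ y y' _ => trivial) (hW _) (hW _) ?_ ?_ ?_ ?_ ?_ ?_ ?_
  · intro e h0 h1 h2 h3
    obtain ⟨x, y, rfl, he⟩ := hup e h0.1
    rw [he] at h2 h3 ⊢
    have o := (not_TL hn0 h2).1 h3
    rw [tt_lt] at o
    refine H.f1 _ _ o h2 fun heq => ?_
    have i := h1.2.1
    rw [tt_lt] at i
    rw [Prod.mk.injEq] at heq
    have := H.dn
    rw [← heq.1, ← heq.2, add_sub_cancel_right] at this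
    exact this i
  · intro e h0 h1 h2
    obtain ⟨x, y, rfl, he⟩ := hup e h0.1
    rw [he] at h2
    have o := (not_TL hn0 h0.1).1 h1
    rw [tt_lt] at o
    refine H.f1 _ _ o h0.1 fun heq => ?_
    have i := h2.2.1
    rw [tt_lt] at i
    rw [Prod.mk.injEq] at heq
    have := H.up
    rw [← heq.1, ← heq.2] at this
    exact this i
  · intro e h0 h1 h2 h3
    obtain ⟨x, y, rfl, he⟩ := hup e h0.1
    rw [he] at h2 h3 ⊢
    have o := (not_TL hn0 h0.1).1 h1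
    have o' := (not_TL hn0 h2).1 h3
    rw [tt_lt] at o o'
    have g2 := H.f2 x y o o' h0.1 h2
    by_cases heq : (x, y) = (X, r)
    · have g1 := H.f1x
      have : ¬ (lt (x, y) ∈ WC P n κ2 ↔ lt (x, y + 1) ∈ WC P n κ2) := fun g => g2.1 g heq
      rw [← heq] at g1
      tauto
    · have g1 := H.f1 x y o h0.1 heq
      have := g2.2 heq
      tauto
  · exact fun e h0 h1 h2 => absurd (all _ h1) h2
  · exact fun e h0 h1 h2 => absurd (all _ (TL_sub_LamC hn0 h1)) h2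
  · exact fun e h0 h1 => absurd (all _ h0) h1
  · exact fun e h0 => hD e h0.1

/-- **`FEq` when everything is moved up by one row.** -/
theorem feqV (H : ColV P n κ1 κ2 X r) (hn : 4 ≤ n) (pg : PlG P.Q pl)
    (hD : ∀ e ∈ LamC P.Q n, up e ∈ D2 ↔ e ∈ D1) (hi : Function.Injective mk)
    (v1 : ∀ ω ⊆ TL P.Q n, VH (TQ P n) D1 (ω ∪ WC P n κ1) (Set.range mk) z)
    (v2 : ∀ ω ⊆ TL P.Q n, VH (TQ P n) D2 (ω ∪ WC P n κ2) (Set.range mk) (up z)) :
    FEq P n pl (fun _ _ => True) κ1 κ2 D1 D2 z (up z) (fun j => (mk j).al (WC P n κ1))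
      (fun j => (mk j).al (WC P n κ2)) := by
  have hn0 : 0 < n := by omega
  refine feq_all hn0 (H.shift hn pg hD) (fun e he => ⟨he, trivial⟩) hi v1 v2 fun j => ?_
  have hc := (v1 ∅ (empty_subset _)).mc _ ⟨j, rfl⟩
  have hL : lt ((mk j).u + (mk j).sx, (mk j).v) ∈ LamC P.Q n := (lt_LamC_Tc hn0).2 hc.tc_hn
  refine H.f1 _ _ hc.nh hL fun heq => ?_
  rw [Prod.mk.injEq] at heq
  have h1 : ct n ((mk j).u + (mk j).sx, (mk j).v + (mk j).sy) ∈ P.Q := hc.room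
  rw [heq.1, heq.2] at h1
  rcases hc.2.1 with k | k <;> rw [k] at h1
  · exact H.up h1
  · exact H.dn h1

/-- `f2` from 22's colours -/
lemma cl_f2 (hn : 4 ≤ n) {M : Set Mark} (H : Cl (TQ P n) M (fun x y => lt (x, y) ∈ WC P n κ2) {(X, r)}) :
    ∀ x y, ct n (x, y) ∉ P.Q → ct n (x, y + 1) ∉ P.Q → lt (x, y) ∈ LamC P.Q n →
    lt (x, y + 1) ∈ LamC P.Q n →
    ((lt (x, y) ∈ WC P n κ2 ↔ lt (x, y + 1) ∈ WC P n κ2) ↔ (x, y) ≠ (X, r)) := by
  intro x y o1 o2 l1 l2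
  have hn0 : 0 < n := by omega
  rw [lt_mem_LamC hn0] at l1 l2
  obtain ⟨s, hs, h⟩ := outer_adj (by omega) l1 l2 o1 o2
  exact H.colV x y s hs o1 o2 h

end

end Pool.Agent.H19.W
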