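import Mathlib
import Pool.Agent.H19.W.RFeqV
import Pool.Agent.H22.W.VcVC

set_option autoImplicit false
set_option linter.unusedVariables false
open Finset

/-! # RAISE: the colours of neighbouring rows (gap 3)

`colV_kz` : the colours of the world of `p` and the opposite colours of the world of the tile below `p`.
`feqV_kz` : **`FEq` for gap 3.** -/

namespace Pool.Agent.H19.W

open Pool.Agent.H75.Perc hiding WL CT hh PB
open Pool.Agent.H75.TwoArm Pool.Agent.H99.W Pool.Agent.H13.W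
open Pool.Agent.H33.Q1 (lt tt ct TL lt_odd tt_lt lt_tt lt_inj mem_TL)
open Pool.Agent.H22.W.Vc (Mark Tc Ld VH Cl up_lt dn_lt lt_eq eE_lt eN_lt DH TT ex_iff vh_kz vh_nkz cl_kz mks
  mks_inj al_VH wR dvi)
open Pool.Agent.Q1.M4 (Cell PType Good IsSide nextSide)
open Pool.Agent.H50.W (bk)
open Pool.Agent.H2.W.Run (FEq)
open Pool.Agent.H21.FM (Shape)
open Pool.Agent.H74.W (Del Ex)
open Pool.Agent.H68.W (sx sx_spec sx_eq sx_next isSide1)

/-- **The outer tiles of a right side.** -/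
lemma posR {P : PType} {n : ℤ} (hn : 4 ≤ n) {x y : ℤ} {c : Cell} (hT : Tq P.Q n (x, y)) (h0 : ct n (x, y) ∉ P.Q)
    (hc : IsSide P.Q (c, 1)) (h : si P n (x, y) = sx P c 1) :
    x = n * c.1 + n ∧ (y / n = c.2 ∨ ((y - 1) / n = c.2 ∧ (c.1, y / n) ∉ P.Q) ∨
      ((y + 1) / n = c.2 ∧ (c.1, y / n) ∉ P.Q)) := by
  have hn0 : 0 < n := by omega
  obtain ⟨a1, a2, a3⟩ := si_spec (P := P) (by omega) hT h0
  obtain ⟨b1, b2, b3⟩ := sx_spec hc
  rw [h] at a2 a3
  rw [ac_out h0] at a2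
  have e1 : (sd P.Q n (x, y)).1 = c := a2.symm.trans b2
  have e2 : ((sd P.Q n (x, y)).2 - 1) % 4 = 0 := by omega
  have h0' : (x / n, y / n) ∉ P.Q := h0
  have key : ∀ y', (c.1, y') ∈ P.Q → (x / n, y') ∉ P.Q → (x - 1) / n = c.1 → x = n * c.1 + n := by
    intro y' k1 k2 k3
    have k4 : (x - 1 + 1) / n ≠ (x - 1) / n := by
      rw [sub_add_cancel, k3]
      intro k
      exact k2 (k ▸ k1)
    obtain ⟨k5, -⟩ := Pool.Agent.H22.W.Vc.jump hn k4
    rw [k3] at k5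
    omega
  rw [sd_eq] at e1 e2
  split_ifs at e1 e2 with c1 c2 c3 c4 c5 c6 c7
  · subst e1
    exact ⟨key _ c1 h0' rfl, Or.inl rfl⟩
  · simp at e2
  · simp at e2
  · simp at e2
  · subst e1
    exact ⟨key _ c5 c3 rfl, Or.inr (Or.inl ⟨rfl, c1⟩)⟩
  · subst e1
    exact ⟨key _ c6 c4 rfl, Or.inr (Or.inr ⟨rfl, c1⟩)⟩
  · simp at e2
  · simp at e2

section
variable {S : Shape} {h : ℕ} {p : ℤ × ℤ} {X : ℤ}

/-- the exits of neighbouring rows -/
lemma te_next (hh : 2 ≤ h) (H1 : DH S (2 * h) (p.1, p.2 - 1) X) (H2 : DH S (2 * h) p X) :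
    (p.2 / (2 * (h : ℤ)) = (p.2 - 1) / (2 * h)) ∨ (p.2 / (2 * (h : ℤ)) = (p.2 - 1) / (2 * h) + 1 ∧
      p.2 = 2 * h * (p.2 / (2 * h)) ∧
      sx S.P ((X - 1) / (2 * h), p.2 / (2 * h)) 1 = sx S.P ((X - 1) / (2 * h), (p.2 - 1) / (2 * h)) 1 + 1) := by
  have hn : (4 : ℤ) ≤ 2 * h := by omega
  by_cases hc : p.2 / (2 * (h : ℤ)) = (p.2 - 1) / (2 * h)
  · exact Or.inl hc
  · right
    have k1 : (p.2 - 1 + 1) / (2 * (h : ℤ)) ≠ (p.2 - 1) / (2 * h) := by rw [sub_add_cancel]; exact hc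
    obtain ⟨k2, k3⟩ := Pool.Agent.H22.W.Vc.jump hn k1
    rw [sub_add_cancel] at k3
    refine ⟨k3, ?_, ?_⟩
    · rw [k3, mul_add, mul_one]
      omega
    · obtain ⟨w1, w2⟩ := H2.wall hn
      have q1 : ((X - 1) / (2 * (h : ℤ)), (p.2 - 1) / (2 * h)) ∈ S.P.Q := H1.q4 (p.2 - 1) (by simp only; omega) (by simp only; omega)
      have q2 : (X / (2 * (h : ℤ)), (p.2 - 1) / (2 * h)) ∉ S.P.Q := H1.q3 (p.2 - 1) (by simp only; omega) (by simp only; omega)
      have q3 : ((X - 1) / (2 * (h : ℤ)), p.2 / (2 * h)) ∈ S.P.Q := H2.q4 p.2 (by omega) (by omega)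
      have q4 : (X / (2 * (h : ℤ)), p.2 / (2 * h)) ∉ S.P.Q := H2.q3 p.2 (by omega) (by omega)
      rw [w2] at q2 q4
      rw [k3] at q3 q4 ⊢
      have hs : IsSide S.P.Q (((X - 1) / (2 * (h : ℤ)), (p.2 - 1) / (2 * h)), 1) := isSide1.2 ⟨q1, q2⟩
      have hx : nextSide S.P.Q (((X - 1) / (2 * (h : ℤ)), (p.2 - 1) / (2 * h)), 1) =
          (((X - 1) / (2 * (h : ℤ)), (p.2 - 1) / (2 * h) + 1), 1) := by
        unfold nextSide
        simp [dir, q3, q4]
      have := Pool.Agent.H22.W.Vc.ix_next (S := S) hs hx (by simp)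
      unfold Pool.Agent.H22.W.Vc.Nx at this
      omega

/-- **The colours of neighbouring rows.** -/
theorem colV_kz (hh : 2 ≤ h) (H1 : DH S (2 * h) (p.1, p.2 - 1) X) (H2 : DH S (2 * h) p X) :
    ColV S.P (2 * h) (fun i y => ¬ κz S h (p.1, p.2 - 1) i y) (κz S h p) X p.2 := by
  have hn : (4 : ℤ) ≤ 2 * h := by omega
  have hn0 : (0 : ℤ) < 2 * h := by omega
  have E1 := ex_iff hh H1
  have E2 := ex_iff hh H2
  simp only at E1
  obtain ⟨w1, w2⟩ := H2.wall hn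
  have q3 : ((X - 1) / (2 * (h : ℤ)), p.2 / (2 * h)) ∈ S.P.Q := H2.q4 p.2 (by omega) (by omega)
  have q4 : (X / (2 * (h : ℤ)), p.2 / (2 * h)) ∉ S.P.Q := H2.q3 p.2 (by omega) (by omega)
  have q1 : ((X - 1) / (2 * (h : ℤ)), (p.2 - 1) / (2 * h)) ∈ S.P.Q := H2.q4 (p.2 - 1) (by omega) (by omega)
  have q2 : (X / (2 * (h : ℤ)), (p.2 - 1) / (2 * h)) ∉ S.P.Q := H2.q3 (p.2 - 1) (by omega) (by omega)
  rw [w2] at q2 q4
  have hs1 : IsSide S.P.Q (((X - 1) / (2 * (h : ℤ)), (p.2 - 1) / (2 * h)), 1) := isSide1.2 ⟨q1, q2⟩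
  have hs2 : IsSide S.P.Q (((X - 1) / (2 * (h : ℤ)), p.2 / (2 * h)), 1) := isSide1.2 ⟨q3, q4⟩
  have hT := te_next hh H1 H2
  set t1 := sx S.P ((X - 1) / (2 * (h : ℤ)), (p.2 - 1) / (2 * h)) 1 with ht1
  set t2 := sx S.P ((X - 1) / (2 * (h : ℤ)), p.2 / (2 * h)) 1 with ht2
  have k2 : ∀ i y, κz S h p i y ↔ ¬ ((S.m2 ≤ i ∧ i < S.m3) ↔ (t2 < i ∨ (t2 = i ∧ p.2 < y))) := by
    intro i y
    unfold κz
    simp only [E2, exists_eq_left]
  have k1 : ∀ i y, κz S h (p.1, p.2 - 1) i y ↔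
      ¬ ((S.m2 ≤ i ∧ i < S.m3) ↔ (t1 < i ∨ (t1 = i ∧ p.2 - 1 < y))) := by
    intro i y
    unfold κz
    simp only [E1, exists_eq_left]
  have hWC : ∀ κ : ℕ → ℤ → Prop, ∀ x y, ct (2 * (h : ℤ)) (x, y) ∉ S.P.Q → lt (x, y) ∈ LamC S.P.Q (2 * h) →
      (lt (x, y) ∈ WC S.P (2 * h) κ ↔ κ (si S.P (2 * h) (x, y)) y) := by
    intro κ x y g1 g2
    rw [mem_WC, tt_lt]
    simp only [g1, g2, not_false_eq_true, true_and]
  have dv := fun (y : ℤ) => (dvi hn0 (x := y) (a := y / (2 * (h : ℤ)))).1 rfl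
  refine ⟨H2.q3 _ (by omega) (by omega), H2.q3 _ (by omega) (by omega), ?_, ?_, ?_⟩
  · intro x y g1 g2 g3
    rw [hWC _ x y g1 g2, hWC _ x y g1 g2, k2, k1, not_not]
    have hT' := (lt_mem_LamC hn0).1 g2
    have kk : (t2 < si S.P (2 * h) (x, y) ∨ (t2 = si S.P (2 * h) (x, y) ∧ p.2 < y)) ↔
        (t1 < si S.P (2 * h) (x, y) ∨ (t1 = si S.P (2 * h) (x, y) ∧ p.2 - 1 < y)) := by
      have p2 : t2 = si S.P (2 * h) (x, y) → x = X ∧ (y / (2 * h) = p.2 / (2 * h) ∨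
          ((y - 1) / (2 * (h : ℤ)) = p.2 / (2 * h) ∧ ((X - 1) / (2 * (h : ℤ)), y / (2 * h)) ∉ S.P.Q) ∨
          ((y + 1) / (2 * (h : ℤ)) = p.2 / (2 * h) ∧ ((X - 1) / (2 * (h : ℤ)), y / (2 * h)) ∉ S.P.Q)) := by
        intro g
        obtain ⟨o1, o2⟩ := posR hn hT' g1 hs2 g.symm
        exact ⟨o1.trans w1.symm, o2⟩
      have p1 : t1 = si S.P (2 * h) (x, y) → x = X ∧ (y / (2 * h) = (p.2 - 1) / (2 * h) ∨
          ((y - 1) / (2 * (h : ℤ)) = (p.2 - 1) / (2 * h) ∧ ((X - 1) / (2 * (h : ℤ)), y / (2 * h)) ∉ S.P.Q) ∨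
          ((y + 1) / (2 * (h : ℤ)) = (p.2 - 1) / (2 * h) ∧ ((X - 1) / (2 * (h : ℤ)), y / (2 * h)) ∉ S.P.Q)) := by
        intro g
        obtain ⟨o1, o2⟩ := posR hn hT' g1 hs1 g.symm
        exact ⟨o1.trans w1.symm, o2⟩
      rcases hT with hT | ⟨hT1, hT2, hT3⟩
      · have e : t1 = t2 := by rw [ht1, ht2, hT]
        rw [e]
        have : t2 = si S.P (2 * h) (x, y) → y ≠ p.2 := by
          intro g hy
          obtain ⟨o1, -⟩ := p2 g
          exact g3 (by rw [o1, hy])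
        omega
      · have a2 : t2 = si S.P (2 * h) (x, y) → p.2 < y := by
          intro g
          obtain ⟨o1, o2⟩ := p2 g
          by_contra hy
          push Not at hy
          rcases o2 with o | ⟨o, o'⟩ | ⟨o, o'⟩
          · have := (dvi hn0).1 o
            have hy' : y = p.2 := by omega
            exact g3 (by rw [o1, hy'])
          · have := (dvi hn0).1 o
            omega
          · have := (dvi hn0).1 o
            rcases lt_or_eq_of_le hy with hy | hy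
            · have hy' : y = p.2 - 1 := by omega
              rw [hy'] at o'
              exact o' q1
            · rw [hy] at o'
              exact o' q3
        have a1 : t1 = si S.P (2 * h) (x, y) → y < p.2 := by
          intro g
          obtain ⟨o1, o2⟩ := p1 g
          by_contra hy
          push Not at hy
          have e : 2 * (h : ℤ) * (p.2 / (2 * h)) = 2 * h * ((p.2 - 1) / (2 * h)) + 2 * h := by
            rw [hT1]; ring
          rcases o2 with o | ⟨o, o'⟩ | ⟨o, o'⟩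
          · have := (dvi hn0).1 o
            omega
          · have := (dvi hn0).1 o
            have hy' : y = p.2 := by omega
            rw [hy'] at o'
            exact o' q3
          · have := (dvi hn0).1 o
            omega
        omega
    rw [kk]
  · have g1 : ct (2 * (h : ℤ)) (X, p.2) ∉ S.P.Q := H2.q3 _ (by omega) (by omega)
    have g2 : lt (X, p.2) ∈ LamC S.P.Q (2 * h) := by
      rw [lt_mem_LamC hn0]
      exact ⟨(X - 1, p.2), by simp, by simp, q3⟩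
    rw [hWC _ X p.2 g1 g2, hWC _ X p.2 g1 g2, k2, k1, not_not]
    have e : si S.P (2 * h) (X, p.2) = t2 := Pool.Agent.H22.W.Vc.ixW (S := S) q3
    rw [e]
    rcases hT with hT | ⟨hT1, hT2, hT3⟩
    · have e : t1 = t2 := by rw [ht1, ht2, hT]
      rw [e]
      simp
    · have : t1 < t2 := by omega
      simp [this]
  · exact cl_f2 (P := S.P) hn (M := Set.range (mks S (2 * h))) (cl_kz hh H2)

/-- **`FEq` for gap 3.** -/
theorem feqV_kz {β : Type*} [DecidableEq β] {pl : Cell → Option β} (hh : 2 ≤ h)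
    (H1 : DH S (2 * h) (p.1, p.2 - 1) X) (H2 : DH S (2 * h) p X) (pg : PlG S.P.Q pl) :
    FEq S.P (2 * h) pl (fun _ _ => True) (fun i y => ¬ κz S h (p.1, p.2 - 1) i y) (κz S h p)
      (Del S.P.Q (2 * h) (p.1, p.2 - 1)) (Del S.P.Q (2 * h) p) (eW (lt (p.1, p.2 - 1))) (eW (lt p))
      (fun j => XA S h (fun i y => ¬ κz S h (p.1, p.2 - 1) i y) (mkI S j))
      (fun j => XA S h (κz S h p) (mkI S j)) := by
  have hn : (4 : ℤ) ≤ 2 * h := by omega
  have hn0 : (0 : ℤ) < 2 * h := by omega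
  have v1 := fun ω (hω : ω ⊆ TL S.P.Q (2 * h)) => vh_nkz hh H1 hω
  have v2 := fun ω (hω : ω ⊆ TL S.P.Q (2 * h)) => vh_kz hh H2 hω
  have ez : up (eW (lt (p.1, p.2 - 1))) = eW (lt p) := by
    unfold up eW lt
    refine Prod.ext ?_ ?_ <;> simp only <;> ring
  have x1 : (fun j => (mks S (2 * h) j).al (WC S.P (2 * h) (fun i y => ¬ κz S h (p.1, p.2 - 1) i y))) =
      fun j => XA S h (fun i y => ¬ κz S h (p.1, p.2 - 1) i y) (mkI S j) := by
    funext j
    have := al_VH hh (empty_subset _) (v1 ∅ (empty_subset _)) j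
    rwa [empty_union] at this
  have x2 : (fun j => (mks S (2 * h) j).al (WC S.P (2 * h) (κz S h p))) =
      fun j => XA S h (κz S h p) (mkI S j) := by
    funext j
    have := al_VH hh (empty_subset _) (v2 ∅ (empty_subset _)) j
    rwa [empty_union] at this
  have key := feqV (mk := mks S (2 * h)) (z := eW (lt (p.1, p.2 - 1))) (colV_kz hh H1 H2) hn pg
    (D1 := Del S.P.Q (2 * h) (p.1, p.2 - 1)) (D2 := Del S.P.Q (2 * h) p) ?_ (mks_inj hn) v1
    (by rw [ez]; exact v2)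
  · rw [ez, x1, x2] at key
    exact key
  · intro e he
    have ho := ((mem_LamC hn0).1 he).1
    obtain ⟨x, y, rfl⟩ : ∃ x y, e = lt (x, y) := ⟨(tt e).1, (tt e).2, (lt_tt ho).symm⟩
    rw [up_lt, H2.mem_Del, H1.mem_Del]
    simp only
    omega

end

end Pool.Agent.H19.W
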